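import Pool.Agent.Sq4.Defs

/-!
# SQ-TOP1: every simple quadrilateral has an inner diagonal (combinatorial part)
-/

set_option autoImplicit false

noncomputable section

namespace Pool.Agent.Sq4

open MeasureTheory Pool.Agent.Stk

/-- Orientation and collinearity. -/
theorem collinear_iff_det2 (A B C : ℂ) : Collinear ℝ {A, B, C} ↔ det2 A B C = 0 := by
  rw [collinear_iff_of_mem (p₀ := A) (by simp)]
  constructor
  · rintro ⟨v, hv⟩
    obtain ⟨r, hr⟩ := hv B (by simp)
    obtain ⟨s, hs⟩ := hv C (by simp)
    have h1 : B - A = r • v := by rw [hr]; simp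
    have h2 : C - A = s • v := by rw [hs]; simp
    unfold det2
    rw [h1, h2]
    simp only [Complex.smul_re, Complex.smul_im, smul_eq_mul]
    ring
  · intro h
    by_cases hAB : B = A
    · refine ⟨C - A, ?_⟩
      intro p hp
      simp only [Set.mem_insert_iff, Set.mem_singleton_iff] at hp
      rcases hp with rfl | rfl | rfl
      · exact ⟨0, by simp⟩
      · exact ⟨0, by simp [hAB]⟩
      · exact ⟨1, by simp⟩
    · refine ⟨B - A, ?_⟩
      intro p hp
      simp only [Set.mem_insert_iff, Set.mem_singleton_iff] at hp
      rcases hp with rfl | rfl | rfl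
      · exact ⟨0, by simp⟩
      · exact ⟨1, by simp⟩
      · have hn : (B - A).re ^ 2 + (B - A).im ^ 2 ≠ 0 := by
          intro h0
          apply hAB
          have e1 : (B - A).re = 0 := by nlinarith [sq_nonneg (B - A).re, sq_nonneg (B - A).im]
          have e2 : (B - A).im = 0 := by nlinarith [sq_nonneg (B - A).re, sq_nonneg (B - A).im]
          have : B - A = 0 := Complex.ext e1 e2
          exact sub_eq_zero.mp this
        refine ⟨((B - A).re * (p - A).re + (B - A).im * (p - A).im) /
          ((B - A).re ^ 2 + (B - A).im ^ 2), ?_⟩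
        unfold det2 at h
        have key : p - A = (((B - A).re * (p - A).re + (B - A).im * (p - A).im) /
          ((B - A).re ^ 2 + (B - A).im ^ 2)) • (B - A) := by
          apply Complex.ext
          · simp only [Complex.smul_re, smul_eq_mul]
            field_simp
            linear_combination (-(B - A).im) * h
          · simp only [Complex.smul_im, smul_eq_mul]
            field_simp
            linear_combination ((B - A).re) * h
        simp only [vadd_eq_add]
        rw [← key]
        ring

/-- If `C, D` lie on different sides of the line `A B` and `A, B` on different sides of the line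
`C D` then the segments meet. -/
theorem segments_meet (A B C D : ℂ) (h1 : det2 A B C * det2 A B D < 0)
    (h2 : det2 C D A * det2 C D B < 0) : (segment ℝ A B ∩ segment ℝ C D).Nonempty := by
  have e : det2 C D A - det2 C D B = det2 A B D - det2 A B C := by
    unfold det2; simp only [Complex.sub_re, Complex.sub_im]; ring
  have ne1 : det2 C D A - det2 C D B ≠ 0 := by
    intro h0
    have : det2 C D A = det2 C D B := by linarith
    rw [this] at h2
    nlinarith [sq_nonneg (det2 C D B)]
  have ne2 : det2 A B C - det2 A B D ≠ 0 := by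
    intro h0
    apply ne1; rw [e]; linarith
  have hs : 0 ≤ det2 C D A / (det2 C D A - det2 C D B) ∧
      det2 C D A / (det2 C D A - det2 C D B) ≤ 1 := by
    constructor
    · have : det2 C D A / (det2 C D A - det2 C D B) =
        (det2 C D A * (det2 C D A - det2 C D B)) / (det2 C D A - det2 C D B) ^ 2 := by
        field_simp
      rw [this]
      apply div_nonneg _ (sq_nonneg _)
      nlinarith [sq_nonneg (det2 C D A)]
    · have : det2 C D A / (det2 C D A - det2 C D B) = 1 -
        (det2 C D B * (det2 C D B - det2 C D A)) / (det2 C D A - det2 C D B) ^ 2 := by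
        field_simp
        ring
      rw [this]
      have : 0 ≤ (det2 C D B * (det2 C D B - det2 C D A)) / (det2 C D A - det2 C D B) ^ 2 := by
        apply div_nonneg _ (sq_nonneg _)
        nlinarith [sq_nonneg (det2 C D B)]
      linarith
  have ht : 0 ≤ det2 A B C / (det2 A B C - det2 A B D) ∧
      det2 A B C / (det2 A B C - det2 A B D) ≤ 1 := by
    constructor
    · have : det2 A B C / (det2 A B C - det2 A B D) =
        (det2 A B C * (det2 A B C - det2 A B D)) / (det2 A B C - det2 A B D) ^ 2 := by
        field_simp
      rw [this]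
      apply div_nonneg _ (sq_nonneg _)
      nlinarith [sq_nonneg (det2 A B C)]
    · have : det2 A B C / (det2 A B C - det2 A B D) = 1 -
        (det2 A B D * (det2 A B D - det2 A B C)) / (det2 A B C - det2 A B D) ^ 2 := by
        field_simp
        ring
      rw [this]
      have : 0 ≤ (det2 A B D * (det2 A B D - det2 A B C)) / (det2 A B C - det2 A B D) ^ 2 := by
        apply div_nonneg _ (sq_nonneg _)
        nlinarith [sq_nonneg (det2 A B D)]
      linarith
  refine ⟨A + (det2 C D A / (det2 C D A - det2 C D B)) • (B - A), ?_, ?_⟩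
  · rw [segment_eq_image']
    exact ⟨_, ⟨hs.1, hs.2⟩, rfl⟩
  · rw [segment_eq_image']
    refine ⟨_, ⟨ht.1, ht.2⟩, ?_⟩
    have ee : det2 A B C - det2 A B D = -(det2 C D A - det2 C D B) := by rw [e]; ring
    rw [ee]
    apply Complex.ext
    · simp only [Complex.add_re, Complex.smul_re, smul_eq_mul]
      field_simp
      unfold det2; simp only [Complex.sub_re, Complex.sub_im]; ring
    · simp only [Complex.add_im, Complex.smul_im, smul_eq_mul]
      field_simp
      unfold det2; simp only [Complex.sub_re, Complex.sub_im]; ring

/-- SQ-TOP1 -/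
theorem adm_of_simple (A B C D : ℂ) (opp_1 : Disjoint (segment ℝ A B) (segment ℝ C D))
    (opp_2 : Disjoint (segment ℝ B C) (segment ℝ D A)) (angle_A : ¬ Collinear ℝ {D, A, B})
    (angle_B : ¬ Collinear ℝ {A, B, C}) (angle_C : ¬ Collinear ℝ {B, C, D})
    (angle_D : ¬ Collinear ℝ {C, D, A}) : Adm A B C D ∨ Adm B C D A := by
  rw [collinear_iff_det2] at angle_A angle_B angle_C angle_D
  have c1 : det2 D A B = det2 B D A := by
    unfold det2; simp only [Complex.sub_re, Complex.sub_im]; ring
  have c2 : det2 C D A = det2 A C D := by
    unfold det2; simp only [Complex.sub_re, Complex.sub_im]; ring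
  have c3 : det2 A B D = det2 B D A := by
    unfold det2; simp only [Complex.sub_re, Complex.sub_im]; ring
  have c4 : det2 C D B = det2 B C D := by
    unfold det2; simp only [Complex.sub_re, Complex.sub_im]; ring
  have c5 : det2 B C A = det2 A B C := by
    unfold det2; simp only [Complex.sub_re, Complex.sub_im]; ring
  have c6 : det2 D A C = det2 A C D := by
    unfold det2; simp only [Complex.sub_re, Complex.sub_im]; ring
  rw [c1] at angle_A
  rw [c2] at angle_D
  by_contra hcon
  push Not at hcon
  obtain ⟨n1, n2⟩ := hcon
  unfold Adm at n1 n2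
  have m1 := segments_meet A B C D
  have m2 := segments_meet B C D A
  rw [Set.disjoint_iff_inter_eq_empty] at opp_1 opp_2
  rw [opp_1, c3, c2, c4] at m1
  rw [opp_2, c5, c1, c6] at m2
  have m1' : ¬ (det2 A B C * det2 B D A < 0 ∧ det2 A C D * det2 B C D < 0) :=
    fun h => Set.not_nonempty_empty (m1 h.1 h.2)
  have m2' : ¬ (det2 B C D * det2 A B C < 0 ∧ det2 B D A * det2 A C D < 0) :=
    fun h => Set.not_nonempty_empty (m2 h.1 (by simpa using h.2))
  generalize det2 A B C = a1 at *
  generalize det2 A C D = a2 at *
  generalize det2 B C D = b1 at *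
  generalize det2 B D A = b2 at *
  rcases lt_or_gt_of_ne angle_B with ha1 | ha1 <;> rcases lt_or_gt_of_ne angle_D with ha2 | ha2 <;>
    rcases lt_or_gt_of_ne angle_C with hb1 | hb1 <;> rcases lt_or_gt_of_ne angle_A with hb2 | hb2
  all_goals first
    | exact n1 (mul_pos_of_neg_of_neg ha1 ha2)
    | exact n1 (mul_pos ha1 ha2)
    | exact n2 (mul_pos_of_neg_of_neg hb1 hb2)
    | exact n2 (mul_pos hb1 hb2)
    | exact m1' ⟨by nlinarith, by nlinarith⟩
    | exact m2' ⟨by nlinarith, by nlinarith⟩

end Pool.Agent.Sq4
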