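import Pool.Agent.Sq4.Defs

/-!
# SQ-TOP2: the open quadrilateral
-/

set_option autoImplicit false

noncomputable section

namespace Pool.Agent.Sq4

open MeasureTheory Pool.Agent.Stk

/-- Barycentric description of a closed triangle. -/
theorem hull3 (A B C : ℂ) : convexHull ℝ {A, B, C} =
    {z : ℂ | ∃ a b c : ℝ, 0 ≤ a ∧ 0 ≤ b ∧ 0 ≤ c ∧ a + b + c = 1 ∧
      z = (a : ℂ) * A + (b : ℂ) * B + (c : ℂ) * C} := by
  rw [convexHull_insert (by simp), convexHull_pair]
  ext z
  simp only [mem_convexJoin, Set.mem_singleton_iff, exists_eq_left, Set.mem_ofPred_eq]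
  constructor
  · rintro ⟨y, hy, hz⟩
    obtain ⟨a, b, ha, hb, hab, rfl⟩ := hy
    obtain ⟨c, d, hc, hd, hcd, rfl⟩ := hz
    refine ⟨c, d * a, d * b, hc, by positivity, by positivity, ?_, ?_⟩
    · have : c + d * a + d * b = c + d * (a + b) := by ring
      rw [this, hab]
      linarith
    · simp only [Complex.real_smul]
      push_cast
      ring
  · rintro ⟨a, b, c, ha, hb, hc, habc, rfl⟩
    rcases eq_or_lt_of_le (add_nonneg hb hc) with h0 | h0
    · have hs0 : b = 0 := by linarith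
      have ht0 : c = 0 := by linarith
      have ha1 : a = 1 := by linarith
      subst hs0 ht0 ha1
      exact ⟨B, left_mem_segment _ _ _, by simpa using left_mem_segment ℝ A B⟩
    · refine ⟨((b / (b + c) : ℝ) : ℂ) * B + ((c / (b + c) : ℝ) : ℂ) * C, ?_, ?_⟩
      · refine ⟨b / (b + c), c / (b + c), by positivity, by positivity, ?_, ?_⟩
        · field_simp
        · simp only [Complex.real_smul]
      · refine ⟨a, b + c, ha, h0.le, by linarith, ?_⟩
        simp only [Complex.real_smul]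
        have h1 : (b : ℂ) = ((b + c : ℝ) : ℂ) * ((b / (b + c) : ℝ) : ℂ) := by
          rw [← Complex.ofReal_mul]
          congr 1
          field_simp
        have h2 : (c : ℂ) = ((b + c : ℝ) : ℂ) * ((c / (b + c) : ℝ) : ℂ) := by
          rw [← Complex.ofReal_mul]
          congr 1
          field_simp
        rw [mul_add, ← mul_assoc, ← mul_assoc, ← h1, ← h2]
        ring

/-! ### barycentric coordinates -/

/-- first barycentric coordinate -/
private def c1 (P Q R z : ℂ) : ℝ := det2 z Q R / det2 P Q R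
/-- second barycentric coordinate -/
private def c2 (P Q R z : ℂ) : ℝ := det2 P z R / det2 P Q R
/-- third barycentric coordinate -/
private def c3 (P Q R z : ℂ) : ℝ := det2 P Q z / det2 P Q R

private theorem c_sum {P Q R : ℂ} (h : det2 P Q R ≠ 0) (z : ℂ) :
    c1 P Q R z + c2 P Q R z + c3 P Q R z = 1 := by
  unfold c1 c2 c3
  field_simp
  simp only [det2, Complex.sub_re, Complex.sub_im]
  ring

private theorem c_bary {P Q R : ℂ} (h : det2 P Q R ≠ 0) (z : ℂ) :
    z = (c1 P Q R z : ℂ) * P + (c2 P Q R z : ℂ) * Q + (c3 P Q R z : ℂ) * R := by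
  have e1 : det2 P Q R * z.re = det2 z Q R * P.re + det2 P z R * Q.re + det2 P Q z * R.re := by
    simp only [det2, Complex.sub_re, Complex.sub_im]
    ring
  have e2 : det2 P Q R * z.im = det2 z Q R * P.im + det2 P z R * Q.im + det2 P Q z * R.im := by
    simp only [det2, Complex.sub_re, Complex.sub_im]
    ring
  apply Complex.ext
  · simp only [c1, c2, c3, Complex.add_re, Complex.re_ofReal_mul]
    field_simp
    linarith
  · simp only [c1, c2, c3, Complex.add_im, Complex.im_ofReal_mul]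
    field_simp
    linarith

private theorem c_uniq {P Q R : ℂ} (h : det2 P Q R ≠ 0) {a b c : ℝ} (hs : a + b + c = 1) :
    c1 P Q R ((a : ℂ) * P + (b : ℂ) * Q + (c : ℂ) * R) = a ∧
    c2 P Q R ((a : ℂ) * P + (b : ℂ) * Q + (c : ℂ) * R) = b ∧
    c3 P Q R ((a : ℂ) * P + (b : ℂ) * Q + (c : ℂ) * R) = c := by
  have ha : a = 1 - b - c := by linarith
  subst ha
  refine ⟨?_, ?_, ?_⟩
  · rw [c1, div_eq_iff h]
    simp only [det2, Complex.sub_re, Complex.sub_im, Complex.add_re, Complex.add_im,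
      Complex.re_ofReal_mul, Complex.im_ofReal_mul]
    ring
  · rw [c2, div_eq_iff h]
    simp only [det2, Complex.sub_re, Complex.sub_im, Complex.add_re, Complex.add_im,
      Complex.re_ofReal_mul, Complex.im_ofReal_mul]
    ring
  · rw [c3, div_eq_iff h]
    simp only [det2, Complex.sub_re, Complex.sub_im, Complex.add_re, Complex.add_im,
      Complex.re_ofReal_mul, Complex.im_ofReal_mul]
    ring

private theorem c1_cont (P Q R : ℂ) : Continuous (c1 P Q R) := by
  unfold c1 det2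
  fun_prop

private theorem c2_cont (P Q R : ℂ) : Continuous (c2 P Q R) := by
  unfold c2 det2
  fun_prop

private theorem c3_cont (P Q R : ℂ) : Continuous (c3 P Q R) := by
  unfold c3 det2
  fun_prop

private theorem mem_hull {P Q R : ℂ} (h : det2 P Q R ≠ 0) (z : ℂ) :
    z ∈ convexHull ℝ ({P, Q, R} : Set ℂ) ↔
      0 ≤ c1 P Q R z ∧ 0 ≤ c2 P Q R z ∧ 0 ≤ c3 P Q R z := by
  rw [hull3]
  constructor
  · rintro ⟨a, b, c, ha, hb, hc, hs, rfl⟩
    obtain ⟨h1, h2, h3⟩ := c_uniq h hs
    rw [h1, h2, h3]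
    exact ⟨ha, hb, hc⟩
  · rintro ⟨h1, h2, h3⟩
    exact ⟨_, _, _, h1, h2, h3, c_sum h z, c_bary h z⟩

private theorem seg_mem {P Q z : ℂ} : z ∈ segment ℝ P Q ↔
    ∃ a b : ℝ, 0 ≤ a ∧ 0 ≤ b ∧ a + b = 1 ∧ z = (a : ℂ) * P + (b : ℂ) * Q := by
  constructor
  · rintro ⟨a, b, ha, hb, hab, rfl⟩
    exact ⟨a, b, ha, hb, hab, by simp only [Complex.real_smul]⟩
  · rintro ⟨a, b, ha, hb, hab, rfl⟩
    exact ⟨a, b, ha, hb, hab, by simp only [Complex.real_smul]⟩

/-- the side `P Q` -/
private theorem mem_s12 {P Q R : ℂ} (h : det2 P Q R ≠ 0) (z : ℂ) :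
    z ∈ segment ℝ P Q ↔ 0 ≤ c1 P Q R z ∧ 0 ≤ c2 P Q R z ∧ c3 P Q R z = 0 := by
  rw [seg_mem]
  constructor
  · rintro ⟨a, b, ha, hb, hs, rfl⟩
    obtain ⟨h1, h2, h3⟩ := c_uniq h (a := a) (b := b) (c := 0) (by linarith)
    simp only [Complex.ofReal_zero, zero_mul, add_zero] at h1 h2 h3
    rw [h1, h2, h3]
    exact ⟨ha, hb, rfl⟩
  · rintro ⟨h1, h2, h3⟩
    refine ⟨_, _, h1, h2, ?_, ?_⟩
    · have := c_sum h z
      linarith
    · have := c_bary h z
      rw [h3] at this
      simpa using this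

/-- the side `Q R` -/
private theorem mem_s23 {P Q R : ℂ} (h : det2 P Q R ≠ 0) (z : ℂ) :
    z ∈ segment ℝ Q R ↔ c1 P Q R z = 0 ∧ 0 ≤ c2 P Q R z ∧ 0 ≤ c3 P Q R z := by
  rw [seg_mem]
  constructor
  · rintro ⟨a, b, ha, hb, hs, rfl⟩
    obtain ⟨h1, h2, h3⟩ := c_uniq h (a := 0) (b := a) (c := b) (by linarith)
    simp only [Complex.ofReal_zero, zero_mul, zero_add] at h1 h2 h3
    rw [h1, h2, h3]
    exact ⟨rfl, ha, hb⟩
  · rintro ⟨h1, h2, h3⟩
    refine ⟨_, _, h2, h3, ?_, ?_⟩
    · have := c_sum h z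
      linarith
    · have := c_bary h z
      rw [h1] at this
      simpa using this

/-- the side `R P` -/
private theorem mem_s31 {P Q R : ℂ} (h : det2 P Q R ≠ 0) (z : ℂ) :
    z ∈ segment ℝ R P ↔ 0 ≤ c1 P Q R z ∧ c2 P Q R z = 0 ∧ 0 ≤ c3 P Q R z := by
  rw [seg_mem]
  constructor
  · rintro ⟨a, b, ha, hb, hs, rfl⟩
    obtain ⟨h1, h2, h3⟩ := c_uniq h (a := b) (b := 0) (c := a) (by linarith)
    simp only [Complex.ofReal_zero, zero_mul, add_zero] at h1 h2 h3
    rw [add_comm, h1, h2, h3]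
    exact ⟨hb, rfl, ha⟩
  · rintro ⟨h1, h2, h3⟩
    refine ⟨_, _, h3, h1, ?_, ?_⟩
    · have := c_sum h z
      linarith
    · have := c_bary h z
      rw [h2] at this
      simp only [Complex.ofReal_zero, zero_mul, add_zero] at this
      rw [add_comm]
      exact this

/-- moving along `R - P` -/
private theorem c_move {P Q R : ℂ} (h : det2 P Q R ≠ 0) (z : ℂ) (e : ℝ) :
    c1 P Q R (z + (e : ℂ) * (R - P)) = c1 P Q R z - e ∧
    c2 P Q R (z + (e : ℂ) * (R - P)) = c2 P Q R z ∧
    c3 P Q R (z + (e : ℂ) * (R - P)) = c3 P Q R z + e := by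
  refine ⟨?_, ?_, ?_⟩
  · rw [c1, c1, div_sub' h]
    congr 1
    simp only [det2, Complex.sub_re, Complex.sub_im, Complex.add_re, Complex.add_im,
      Complex.re_ofReal_mul, Complex.im_ofReal_mul]
    ring
  · rw [c2, c2]
    congr 1
    simp only [det2, Complex.sub_re, Complex.sub_im, Complex.add_re, Complex.add_im,
      Complex.re_ofReal_mul, Complex.im_ofReal_mul]
    ring
  · rw [c3, c3, div_add' _ _ _ h]
    congr 1
    simp only [det2, Complex.sub_re, Complex.sub_im, Complex.add_re, Complex.add_im,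
      Complex.re_ofReal_mul, Complex.im_ofReal_mul]
    ring

/-- moving along `Q - P` -/
private theorem c_move' {P Q R : ℂ} (h : det2 P Q R ≠ 0) (z : ℂ) (e : ℝ) :
    c1 P Q R (z + (e : ℂ) * (Q - P)) = c1 P Q R z - e ∧
    c2 P Q R (z + (e : ℂ) * (Q - P)) = c2 P Q R z + e ∧
    c3 P Q R (z + (e : ℂ) * (Q - P)) = c3 P Q R z := by
  refine ⟨?_, ?_, ?_⟩
  · rw [c1, c1, div_sub' h]
    congr 1
    simp only [det2, Complex.sub_re, Complex.sub_im, Complex.add_re, Complex.add_im,
      Complex.re_ofReal_mul, Complex.im_ofReal_mul]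
    ring
  · rw [c2, c2, div_add' _ _ _ h]
    congr 1
    simp only [det2, Complex.sub_re, Complex.sub_im, Complex.add_re, Complex.add_im,
      Complex.re_ofReal_mul, Complex.im_ofReal_mul]
    ring
  · rw [c3, c3]
    congr 1
    simp only [det2, Complex.sub_re, Complex.sub_im, Complex.add_re, Complex.add_im,
      Complex.re_ofReal_mul, Complex.im_ofReal_mul]
    ring

/-- comparison of the coordinates in the two triangles -/
private theorem c_cmp {A B C D : ℂ} (h : Adm A B C D) (z : ℂ) :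
    ∃ k : ℝ, 0 < k ∧ c3 A C D z = - k * c2 A B C z := by
  unfold Adm at h
  have h1 : det2 A B C ≠ 0 := fun h0 => by rw [h0] at h; simp at h
  have h2 : det2 A C D ≠ 0 := fun h0 => by rw [h0] at h; simp at h
  refine ⟨det2 A B C / det2 A C D, ?_, ?_⟩
  · rcases lt_or_gt_of_ne h2 with h3 | h3
    · exact div_pos_of_neg_of_neg (neg_of_mul_pos_left h h3.le) h3
    · exact div_pos (pos_of_mul_pos_left h h3.le) h3
  · rw [c3, c2]
    field_simp
    simp only [det2, Complex.sub_re, Complex.sub_im]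
    ring

/-- on the diagonal the coordinates agree -/
private theorem c_diag {A B C D : ℂ} (h1 : det2 A B C ≠ 0) (h2 : det2 A C D ≠ 0) {z : ℂ}
    (hz : c2 A B C z = 0) : c1 A C D z = c1 A B C z ∧ c2 A C D z = c3 A B C z := by
  have e := c_bary h1 z
  rw [hz] at e
  simp only [Complex.ofReal_zero, zero_mul, add_zero] at e
  have hs := c_sum h1 z
  rw [hz] at hs
  obtain ⟨h3, h4, -⟩ := c_uniq h2 (a := c1 A B C z) (b := c3 A B C z) (c := 0) (by linarith)
  simp only [Complex.ofReal_zero, zero_mul, add_zero] at h3 h4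
  rw [← e] at h3 h4
  exact ⟨h3, h4⟩

private theorem adm_ne {A B C D : ℂ} (h : Adm A B C D) : det2 A B C ≠ 0 ∧ det2 A C D ≠ 0 := by
  unfold Adm at h
  exact ⟨fun h0 => by rw [h0] at h; simp at h, fun h0 => by rw [h0] at h; simp at h⟩

private theorem interior_dir {K : Set ℂ} {z : ℂ} (hz : z ∈ interior K) (v : ℂ) :
    ∃ e : ℝ, 0 < e ∧ z + (e : ℂ) * v ∈ K := by
  have hc : Continuous fun e : ℝ => z + (e : ℂ) * v := by fun_prop
  have h0 : (fun e : ℝ => z + (e : ℂ) * v) 0 ∈ interior K := by simpa using hz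
  have hn : (fun e : ℝ => z + (e : ℂ) * v) ⁻¹' interior K ∈ nhds (0 : ℝ) :=
    hc.continuousAt.preimage_mem_nhds (isOpen_interior.mem_nhds h0)
  obtain ⟨r, hr, hb⟩ := Metric.mem_nhds_iff.1 hn
  refine ⟨r / 2, by linarith, interior_subset (hb ?_)⟩
  rw [Metric.mem_ball, Real.dist_eq, sub_zero, abs_of_pos (by linarith)]
  linarith

/-- the half open triangle at the side `P R`: no points of the two other sides -/
private def J13 (P Q R : ℂ) : Set ℂ := {z | 0 < c1 P Q R z ∧ 0 ≤ c2 P Q R z ∧ 0 < c3 P Q R z}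

/-- the half open triangle at the side `P Q` -/
private def J12 (P Q R : ℂ) : Set ℂ := {z | 0 < c1 P Q R z ∧ 0 < c2 P Q R z ∧ 0 ≤ c3 P Q R z}

private theorem diff_eq {A B C D : ℂ} (h : Adm A B C D) :
    (convexHull ℝ {A, B, C} ∪ convexHull ℝ {A, C, D} : Set ℂ) \
      (segment ℝ A B ∪ segment ℝ B C ∪ segment ℝ C D ∪ segment ℝ D A) =
      J13 A B C ∪ J12 A C D := by
  obtain ⟨h1, h2⟩ := adm_ne h
  ext z
  obtain ⟨k, hk, hkz⟩ := c_cmp h z
  simp only [Set.mem_sdiff, Set.mem_union, mem_hull h1, mem_hull h2, mem_s12 h1, mem_s23 h1,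
    mem_s23 h2, mem_s31 h2, J13, J12, Set.mem_ofPred_eq, not_or]
  constructor
  · rintro ⟨h3 | h3, ⟨⟨h4, h5⟩, h6⟩, h7⟩
    · left
      refine ⟨lt_of_le_of_ne h3.1 fun h0 => h5 ⟨h0.symm, h3.2.1, h3.2.2⟩, h3.2.1,
        lt_of_le_of_ne h3.2.2 fun h0 => h4 ⟨h3.1, h3.2.1, h0.symm⟩⟩
    · right
      refine ⟨lt_of_le_of_ne h3.1 fun h0 => h6 ⟨h0.symm, h3.2.1, h3.2.2⟩,
        lt_of_le_of_ne h3.2.1 fun h0 => h7 ⟨h3.1, h0.symm, h3.2.2⟩, h3.2.2⟩
  · rintro (h3 | h3)
    · refine ⟨Or.inl ⟨h3.1.le, h3.2.1, h3.2.2.le⟩, ⟨⟨fun h4 => h3.2.2.ne' h4.2.2,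
        fun h4 => h3.1.ne' h4.1⟩, fun h4 => ?_⟩, fun h4 => ?_⟩
      · have h5 : c2 A B C z = 0 := by
          have := h4.2.2
          rw [hkz] at this
          nlinarith [h3.2.1]
        have := (c_diag h1 h2 h5).1
        rw [h4.1] at this
        exact h3.1.ne this
      · have h5 : c2 A B C z = 0 := by
          have := h4.2.2
          rw [hkz] at this
          nlinarith [h3.2.1]
        have := (c_diag h1 h2 h5).2
        rw [h4.2.1] at this
        exact h3.2.2.ne this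
    · refine ⟨Or.inr ⟨h3.1.le, h3.2.1.le, h3.2.2⟩, ⟨⟨fun h4 => ?_, fun h4 => ?_⟩,
        fun h4 => h3.1.ne' h4.1⟩, fun h4 => h3.2.1.ne' h4.2.1⟩
      · have h5 : c2 A B C z = 0 := by
          have := h3.2.2
          rw [hkz] at this
          nlinarith [h4.2.1]
        have := (c_diag h1 h2 h5).2
        rw [h4.2.2] at this
        exact h3.2.1.ne' this
      · have h5 : c2 A B C z = 0 := by
          have := h3.2.2
          rw [hkz] at this
          nlinarith [h4.2.1]
        have := (c_diag h1 h2 h5).1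
        rw [h4.1] at this
        exact h3.1.ne' this

private theorem open_subset {K U : Set ℂ} (hU : IsOpen U) (hs : U ⊆ K) {z : ℂ} (hz : z ∈ U) :
    z ∈ interior K := interior_maximal hs hU hz

private theorem open_pos {f : ℂ → ℝ} (hf : Continuous f) : IsOpen {z | 0 < f z} :=
  isOpen_lt continuous_const hf

/-- SQ-TOP2.1 The open quadrilateral consists of the points of the two closed triangles which
are not on the four sides. -/
theorem quad_eq_diff (A B C D : ℂ) (h : Adm A B C D) : quad A B C D =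
    (convexHull ℝ {A, B, C} ∪ convexHull ℝ {A, C, D} : Set ℂ) \
      (segment ℝ A B ∪ segment ℝ B C ∪ segment ℝ C D ∪ segment ℝ D A) := by
  obtain ⟨h1, h2⟩ := adm_ne h
  apply Set.Subset.antisymm
  · intro z hz
    refine ⟨interior_subset hz, ?_⟩
    have hin : ∀ y : ℂ, y ∈ (convexHull ℝ {A, B, C} ∪ convexHull ℝ {A, C, D} : Set ℂ) ↔
        (0 ≤ c1 A B C y ∧ 0 ≤ c2 A B C y ∧ 0 ≤ c3 A B C y) ∨
        (0 ≤ c1 A C D y ∧ 0 ≤ c2 A C D y ∧ 0 ≤ c3 A C D y) := by
      intro y
      rw [Set.mem_union, mem_hull h1, mem_hull h2]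
    obtain ⟨k, hk, hkz⟩ := c_cmp h z
    rintro (((hs | hs) | hs) | hs)
    · -- side A B, move by -(C - A)
      rw [mem_s12 h1] at hs
      obtain ⟨e, he, hK⟩ := interior_dir hz (-(C - A))
      have ez : z + (e : ℂ) * -(C - A) = z + ((-e : ℝ) : ℂ) * (C - A) := by push_cast; ring
      rw [ez, hin] at hK
      obtain ⟨m1, m2, m3⟩ := c_move h1 z (-e)
      obtain ⟨n1, n2, n3⟩ := c_move' h2 z (-e)
      rw [m1, m2, m3, n1, n2, n3] at hK
      rcases hK with hK | hK
      · linarith [hK.2.2, hs.2.2]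
      · have h5 : c2 A B C z = 0 := by
          have := hK.2.2
          rw [hkz] at this
          nlinarith [hs.2.1]
        have := (c_diag h1 h2 h5).2
        linarith [hK.2.1, hs.2.2]
    · -- side B C, move by C - A
      rw [mem_s23 h1] at hs
      obtain ⟨e, he, hK⟩ := interior_dir hz (C - A)
      rw [hin] at hK
      obtain ⟨m1, m2, m3⟩ := c_move h1 z e
      obtain ⟨n1, n2, n3⟩ := c_move' h2 z e
      rw [m1, m2, m3, n1, n2, n3] at hK
      rcases hK with hK | hK
      · linarith [hK.1, hs.1]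
      · have h5 : c2 A B C z = 0 := by
          have := hK.2.2
          rw [hkz] at this
          nlinarith [hs.2.1]
        have := (c_diag h1 h2 h5).1
        linarith [hK.1, hs.1]
    · -- side C D, move by C - A
      rw [mem_s23 h2] at hs
      obtain ⟨e, he, hK⟩ := interior_dir hz (C - A)
      rw [hin] at hK
      obtain ⟨m1, m2, m3⟩ := c_move h1 z e
      obtain ⟨n1, n2, n3⟩ := c_move' h2 z e
      rw [m1, m2, m3, n1, n2, n3] at hK
      rcases hK with hK | hK
      · have h5 : c2 A B C z = 0 := by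
          have := hs.2.2
          rw [hkz] at this
          nlinarith [hK.2.1]
        have := (c_diag h1 h2 h5).1
        linarith [hK.1, hs.1]
      · linarith [hK.1, hs.1]
    · -- side D A, move by -(C - A)
      rw [mem_s31 h2] at hs
      obtain ⟨e, he, hK⟩ := interior_dir hz (-(C - A))
      have ez : z + (e : ℂ) * -(C - A) = z + ((-e : ℝ) : ℂ) * (C - A) := by push_cast; ring
      rw [ez, hin] at hK
      obtain ⟨m1, m2, m3⟩ := c_move h1 z (-e)
      obtain ⟨n1, n2, n3⟩ := c_move' h2 z (-e)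
      rw [m1, m2, m3, n1, n2, n3] at hK
      rcases hK with hK | hK
      · have h5 : c2 A B C z = 0 := by
          have := hs.2.2
          rw [hkz] at this
          nlinarith [hK.2.1]
        have := (c_diag h1 h2 h5).2
        linarith [hK.2.2, hs.2.1]
      · linarith [hK.2.1, hs.2.1]
  · rw [diff_eq h]
    rintro z (hz | hz)
    · -- triangle A B C
      rcases hz.2.1.eq_or_lt with h0 | h0
      · -- on the diagonal
        obtain ⟨hd1, hd2⟩ := c_diag h1 h2 h0.symm
        apply open_subset (U := {z | 0 < c1 A B C z} ∩ {z | 0 < c3 A B C z} ∩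
          {z | 0 < c1 A C D z} ∩ {z | 0 < c2 A C D z})
        · exact (((open_pos (c1_cont _ _ _)).inter (open_pos (c3_cont _ _ _))).inter
            (open_pos (c1_cont _ _ _))).inter (open_pos (c2_cont _ _ _))
        · rintro y ⟨⟨⟨y1, y2⟩, y3⟩, y4⟩
          rcases le_or_gt 0 (c2 A B C y) with hy | hy
          · exact Or.inl ((mem_hull h1 y).2 ⟨le_of_lt y1, hy, le_of_lt y2⟩)
          · obtain ⟨k, hk, hky⟩ := c_cmp h y
            refine Or.inr ((mem_hull h2 y).2 ⟨le_of_lt y3, le_of_lt y4, ?_⟩)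
            rw [hky]
            nlinarith
        · refine ⟨⟨⟨hz.1, hz.2.2⟩, ?_⟩, ?_⟩
          · simp only [Set.mem_ofPred_eq]
            rw [hd1]
            exact hz.1
          · simp only [Set.mem_ofPred_eq]
            rw [hd2]
            exact hz.2.2
      · apply open_subset (U := {z | 0 < c1 A B C z} ∩ {z | 0 < c2 A B C z} ∩
          {z | 0 < c3 A B C z})
        · exact ((open_pos (c1_cont _ _ _)).inter (open_pos (c2_cont _ _ _))).inter
            (open_pos (c3_cont _ _ _))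
        · rintro y ⟨⟨y1, y2⟩, y3⟩
          exact Or.inl ((mem_hull h1 y).2 ⟨le_of_lt y1, le_of_lt y2, le_of_lt y3⟩)
        · exact ⟨⟨hz.1, h0⟩, hz.2.2⟩
    · rcases hz.2.2.eq_or_lt with h0 | h0
      · obtain ⟨k, hk, hkz⟩ := c_cmp h z
        have h5 : c2 A B C z = 0 := by
          rw [← h0] at hkz
          rcases mul_eq_zero.1 hkz.symm with h6 | h6
          · linarith
          · exact h6
        obtain ⟨hd1, hd2⟩ := c_diag h1 h2 h5
        apply open_subset (U := {z | 0 < c1 A B C z} ∩ {z | 0 < c3 A B C z} ∩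
          {z | 0 < c1 A C D z} ∩ {z | 0 < c2 A C D z})
        · exact (((open_pos (c1_cont _ _ _)).inter (open_pos (c3_cont _ _ _))).inter
            (open_pos (c1_cont _ _ _))).inter (open_pos (c2_cont _ _ _))
        · rintro y ⟨⟨⟨y1, y2⟩, y3⟩, y4⟩
          rcases le_or_gt 0 (c2 A B C y) with hy | hy
          · exact Or.inl ((mem_hull h1 y).2 ⟨le_of_lt y1, hy, le_of_lt y2⟩)
          · obtain ⟨k', hk', hky⟩ := c_cmp h y
            refine Or.inr ((mem_hull h2 y).2 ⟨le_of_lt y3, le_of_lt y4, ?_⟩)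
            rw [hky]
            nlinarith
        · refine ⟨⟨⟨?_, ?_⟩, hz.1⟩, hz.2.1⟩
          · simp only [Set.mem_ofPred_eq]
            rw [← hd1]
            exact hz.1
          · simp only [Set.mem_ofPred_eq]
            rw [← hd2]
            exact hz.2.1
      · apply open_subset (U := {z | 0 < c1 A C D z} ∩ {z | 0 < c2 A C D z} ∩
          {z | 0 < c3 A C D z})
        · exact ((open_pos (c1_cont _ _ _)).inter (open_pos (c2_cont _ _ _))).inter
            (open_pos (c3_cont _ _ _))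
        · rintro y ⟨⟨y1, y2⟩, y3⟩
          exact Or.inr ((mem_hull h2 y).2 ⟨le_of_lt y1, le_of_lt y2, le_of_lt y3⟩)
        · exact ⟨⟨hz.1, hz.2.1⟩, h0⟩

/-- the closed triangle lies in the closure of the open triangle -/
private theorem hull_closure {P Q R : ℂ} (h : det2 P Q R ≠ 0) {z : ℂ}
    (hz : z ∈ convexHull ℝ ({P, Q, R} : Set ℂ)) :
    z ∈ closure {y : ℂ | 0 < c1 P Q R y ∧ 0 < c2 P Q R y ∧ 0 < c3 P Q R y} := by
  rw [mem_hull h] at hz
  -- the points of the curve (1 - e) z + e G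
  have hc : Continuous fun e : ℝ =>
      ((((1 - e) * c1 P Q R z + e / 3 : ℝ) : ℂ) * P + (((1 - e) * c2 P Q R z + e / 3 : ℝ) : ℂ) * Q
        + (((1 - e) * c3 P Q R z + e / 3 : ℝ) : ℂ) * R) := by fun_prop
  have h0 : (((((1 - (0 : ℝ)) * c1 P Q R z + 0 / 3 : ℝ) : ℂ) * P
      + (((1 - (0 : ℝ)) * c2 P Q R z + 0 / 3 : ℝ) : ℂ) * Q
        + (((1 - (0 : ℝ)) * c3 P Q R z + 0 / 3 : ℝ) : ℂ) * R)) = z := by
    simp only [sub_zero, one_mul, zero_div, add_zero]
    exact (c_bary h z).symm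
  have ht := hc.tendsto 0
  simp only [h0] at ht
  have ht' : Filter.Tendsto (fun e : ℝ =>
      ((((1 - e) * c1 P Q R z + e / 3 : ℝ) : ℂ) * P + (((1 - e) * c2 P Q R z + e / 3 : ℝ) : ℂ) * Q
        + (((1 - e) * c3 P Q R z + e / 3 : ℝ) : ℂ) * R)) (nhdsWithin 0 (Set.Ioi 0)) (nhds z) :=
    ht.mono_left nhdsWithin_le_nhds
  apply mem_closure_of_tendsto ht'
  have he : ∀ᶠ e : ℝ in nhdsWithin 0 (Set.Ioi 0), e ∈ Set.Ioo (0 : ℝ) 1 :=
    Ioo_mem_nhdsGT one_pos
  filter_upwards [he] with e he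
  obtain ⟨he0, he1⟩ := he
  have hs : ((1 - e) * c1 P Q R z + e / 3) + ((1 - e) * c2 P Q R z + e / 3)
      + ((1 - e) * c3 P Q R z + e / 3) = 1 := by
    have := c_sum h z
    linear_combination (1 - e) * this
  obtain ⟨m1, m2, m3⟩ := c_uniq h hs
  rw [m1, m2, m3]
  have h1e : 0 < 1 - e := by linarith
  refine ⟨?_, ?_, ?_⟩
  · have := mul_nonneg h1e.le hz.1
    linarith
  · have := mul_nonneg h1e.le hz.2.1
    linarith
  · have := mul_nonneg h1e.le hz.2.2
    linarith

/-- SQ-TOP2.2 -/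
theorem quad_closure (A B C D : ℂ) (h : Adm A B C D) : closure (quad A B C D) =
    (convexHull ℝ {A, B, C} ∪ convexHull ℝ {A, C, D} : Set ℂ) := by
  obtain ⟨h1, h2⟩ := adm_ne h
  apply Set.Subset.antisymm
  · apply closure_minimal interior_subset
    exact ((Set.toFinite _).isCompact_convexHull ℝ).isClosed.union
      ((Set.toFinite _).isCompact_convexHull ℝ).isClosed
  · have hq : quad A B C D = J13 A B C ∪ J12 A C D := by
      rw [quad_eq_diff A B C D h, diff_eq h]
    rintro z (hz | hz)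
    · refine closure_mono ?_ (hull_closure h1 hz)
      rw [hq]
      rintro y ⟨y1, y2, y3⟩
      exact Or.inl ⟨y1, y2.le, y3⟩
    · refine closure_mono ?_ (hull_closure h2 hz)
      rw [hq]
      rintro y ⟨y1, y2, y3⟩
      exact Or.inr ⟨y1, y2, y3.le⟩

private theorem c_affine {P Q R : ℂ} (y z : ℂ) {a b : ℝ} (hab : a + b = 1) :
    c1 P Q R (a • y + b • z) = a * c1 P Q R y + b * c1 P Q R z ∧
    c2 P Q R (a • y + b • z) = a * c2 P Q R y + b * c2 P Q R z ∧
    c3 P Q R (a • y + b • z) = a * c3 P Q R y + b * c3 P Q R z := by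
  have ha : a = 1 - b := by linarith
  subst ha
  simp only [c1, c2, c3, det2, Complex.real_smul, Complex.sub_re, Complex.sub_im, Complex.add_re,
    Complex.add_im, Complex.re_ofReal_mul, Complex.im_ofReal_mul]
  refine ⟨?_, ?_, ?_⟩ <;> ring

/-- SQ-TOP2.3 The open quadrilateral is connected. -/
theorem quad_preconnected (A B C D : ℂ) (h : Adm A B C D) : IsPreconnected (quad A B C D) := by
  obtain ⟨h1, h2⟩ := adm_ne h
  have hq : quad A B C D = J13 A B C ∪ J12 A C D := by
    rw [quad_eq_diff A B C D h, diff_eq h]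
  rw [hq]
  have hc1 : Convex ℝ (J13 A B C) := by
    rintro y ⟨y1, y2, y3⟩ z ⟨z1, z2, z3⟩ a b ha hb hab
    obtain ⟨e1, e2, e3⟩ := c_affine (P := A) (Q := B) (R := C) y z hab
    refine ⟨?_, ?_, ?_⟩
    · rw [e1]
      rcases ha.eq_or_lt with h0 | h0
      · have hb1 : b = 1 := by linarith
        rw [← h0, hb1]
        linarith
      · have := mul_pos h0 y1
        have := mul_nonneg hb z1.le
        linarith
    · rw [e2]
      positivity
    · rw [e3]
      rcases ha.eq_or_lt with h0 | h0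
      · have hb1 : b = 1 := by linarith
        rw [← h0, hb1]
        linarith
      · have := mul_pos h0 y3
        have := mul_nonneg hb z3.le
        linarith
  have hc2 : Convex ℝ (J12 A C D) := by
    rintro y ⟨y1, y2, y3⟩ z ⟨z1, z2, z3⟩ a b ha hb hab
    obtain ⟨e1, e2, e3⟩ := c_affine (P := A) (Q := C) (R := D) y z hab
    refine ⟨?_, ?_, ?_⟩
    · rw [e1]
      rcases ha.eq_or_lt with h0 | h0
      · have hb1 : b = 1 := by linarith
        rw [← h0, hb1]
        linarith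
      · have := mul_pos h0 y1
        have := mul_nonneg hb z1.le
        linarith
    · rw [e2]
      rcases ha.eq_or_lt with h0 | h0
      · have hb1 : b = 1 := by linarith
        rw [← h0, hb1]
        linarith
      · have := mul_pos h0 y2
        have := mul_nonneg hb z2.le
        linarith
    · rw [e3]
      positivity
  refine IsPreconnected.union (((1 / 2 : ℝ) : ℂ) * A + ((1 / 2 : ℝ) : ℂ) * C) ?_ ?_
    hc1.isPreconnected hc2.isPreconnected
  · obtain ⟨m1, m2, m3⟩ := c_uniq h1 (a := 1 / 2) (b := 0) (c := 1 / 2) (by norm_num)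
    have e : ((1 / 2 : ℝ) : ℂ) * A + ((1 / 2 : ℝ) : ℂ) * C
        = ((1 / 2 : ℝ) : ℂ) * A + ((0 : ℝ) : ℂ) * B + ((1 / 2 : ℝ) : ℂ) * C := by
      rw [Complex.ofReal_zero]
      ring
    rw [e]
    refine ⟨?_, ?_, ?_⟩
    · rw [m1]; norm_num
    · rw [m2]
    · rw [m3]; norm_num
  · obtain ⟨m1, m2, m3⟩ := c_uniq h2 (a := 1 / 2) (b := 1 / 2) (c := 0) (by norm_num)
    have e : ((1 / 2 : ℝ) : ℂ) * A + ((1 / 2 : ℝ) : ℂ) * C
        = ((1 / 2 : ℝ) : ℂ) * A + ((1 / 2 : ℝ) : ℂ) * C + ((0 : ℝ) : ℂ) * D := by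
      rw [Complex.ofReal_zero]
      ring
    rw [e]
    refine ⟨?_, ?_, ?_⟩
    · rw [m1]; norm_num
    · rw [m2]; norm_num
    · rw [m3]

end Pool.Agent.Sq4
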