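import Pool.Agent.Sq4.Defs

/-!
# SQ-TOP3: the complement of a compact star-shaped set is connected
-/

set_option autoImplicit false

noncomputable section

namespace Pool.Agent.Sq4

open MeasureTheory Pool.Agent.Stk

/-- The complement of a closed ball in the plane is connected. -/
theorem ball_compl_preconnected (M : ℂ) (R : ℝ) :
    IsPreconnected (Metric.closedBall M R)ᶜ := by
  have h : (Metric.closedBall M R)ᶜ =
      (fun p : ℝ × ℝ => M + (p.1 : ℂ) * Complex.exp ((p.2 : ℂ) * Complex.I)) ''
        (Set.Ioi R ×ˢ Set.univ) := by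
    ext z
    constructor
    · intro hz
      simp only [Set.mem_compl_iff, Metric.mem_closedBall, not_le, Complex.dist_eq] at hz
      refine ⟨(‖z - M‖, Complex.arg (z - M)), ⟨hz, Set.mem_univ _⟩, ?_⟩
      simp only
      rw [Complex.norm_mul_exp_arg_mul_I]
      ring
    · rintro ⟨⟨r, θ⟩, ⟨hr, -⟩, rfl⟩
      simp only [Set.mem_Ioi] at hr
      simp only [Set.mem_compl_iff, Metric.mem_closedBall, not_le, Complex.dist_eq,
        add_sub_cancel_left, norm_mul, Complex.norm_exp_ofReal_mul_I, mul_one, Complex.norm_real,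
        Real.norm_eq_abs]
      exact lt_of_lt_of_le hr (le_abs_self r)
  rw [h]
  apply IsPreconnected.image
  · exact isPreconnected_Ioi.prod isPreconnected_univ
  · apply Continuous.continuousOn
    fun_prop

/-- SQ-TOP3.1 -/
theorem star_compl_preconnected (K : Set ℂ) (hK : IsCompact K) (M : ℂ)
    (hs : ∀ z ∈ K, segment ℝ M z ⊆ K) : IsPreconnected Kᶜ := by
  by_cases hM : M ∈ K
  swap
  · have hE : K = ∅ := by
      rw [Set.eq_empty_iff_forall_notMem]
      intro z hz
      exact hM (hs z hz (left_mem_segment ℝ M z))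
    rw [hE, Set.compl_empty]
    exact isPreconnected_univ
  -- a large ball around `M`
  obtain ⟨R0, hR0⟩ := hK.isBounded.subset_closedBall M
  set R := max R0 0 with hRdef
  have hR : K ⊆ Metric.closedBall M R :=
    hR0.trans (Metric.closedBall_subset_closedBall (le_max_left _ _))
  have hRn : 0 ≤ R := le_max_right _ _
  have hbig := ball_compl_preconnected M R
  have hray : ∀ z ∈ Kᶜ, ∀ t : ℝ, 1 ≤ t → M + t • (z - M) ∈ Kᶜ := by
    intro z hz t ht hK'
    apply hz
    apply hs _ hK'
    rw [segment_eq_image']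
    refine ⟨1 / t, ⟨by positivity, ?_⟩, ?_⟩
    · rw [div_le_one (by linarith)]; exact ht
    · simp only [add_sub_cancel_left, smul_smul]
      rw [one_div, inv_mul_cancel₀ (by linarith)]
      simp
  have hx : M + ((R + 1 : ℝ) : ℂ) ∈ (Metric.closedBall M R)ᶜ := by
    simp only [Set.mem_compl_iff, Metric.mem_closedBall, not_le, Complex.dist_eq,
      add_sub_cancel_left, Complex.norm_real, Real.norm_eq_abs]
    rw [abs_of_pos (by linarith)]
    linarith
  apply isPreconnected_of_forall (M + ((R + 1 : ℝ) : ℂ))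
  intro z hz
  have hzM : z - M ≠ 0 := by
    intro h0
    apply hz
    have : z = M := sub_eq_zero.mp h0
    rw [this]; exact hM
  have hn : 0 < ‖z - M‖ := norm_pos_iff.mpr hzM
  refine ⟨(Metric.closedBall M R)ᶜ ∪ (fun t : ℝ => M + t • (z - M)) '' Set.Ici 1, ?_, ?_, ?_, ?_⟩
  · rintro y (hy | ⟨t, ht, rfl⟩)
    · intro hyK; exact hy (hR hyK)
    · exact hray z hz t ht
  · exact Or.inl hx
  · exact Or.inr ⟨1, Set.mem_Ici.mpr le_rfl, by simp⟩
  · apply IsPreconnected.union (M + (1 + (R + 1) / ‖z - M‖) • (z - M))
    · simp only [Set.mem_compl_iff, Metric.mem_closedBall, not_le, Complex.dist_eq,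
        add_sub_cancel_left, norm_smul, Real.norm_eq_abs]
      rw [abs_of_pos (by positivity)]
      have : (1 + (R + 1) / ‖z - M‖) * ‖z - M‖ = ‖z - M‖ + (R + 1) := by
        field_simp
      rw [this]
      linarith
    · refine ⟨_, ?_, rfl⟩
      simp only [Set.mem_Ici]
      have : 0 ≤ (R + 1) / ‖z - M‖ := by positivity
      linarith
    · exact hbig
    · apply isPreconnected_Ici.image
      apply Continuous.continuousOn
      fun_prop

/-- SQ-TOP3.2 A set whose complement is bounded is not bounded. -/
theorem compl_not_bounded (K : Set ℂ) (hK : IsCompact K) : ¬ Bornology.IsBounded Kᶜ := by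
  intro h
  have h2 : Bornology.IsBounded (Set.univ : Set ℂ) := by
    rw [← Set.union_compl_self K]
    exact hK.isBounded.union h
  have := Metric.isCompact_of_isClosed_isBounded isClosed_univ h2
  exact noncompact_univ ℂ this

/-- SQ-TOP3.3 An open set contains or misses every connected set which does not meet its
frontier. -/
theorem clopen_cases (Ω U : Set ℂ) (hO : IsOpen Ω) (hU : IsPreconnected U)
    (hd : Disjoint U (frontier Ω)) : U ⊆ Ω ∨ Disjoint U Ω := by
  by_cases hne : (U ∩ Ω).Nonempty
  · left
    by_contra hsub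
    rw [Set.not_subset] at hsub
    obtain ⟨x, hxU, hx⟩ := hsub
    have hx2 : x ∈ (closure Ω)ᶜ := by
      intro hxc
      apply Set.disjoint_left.mp hd hxU
      rw [hO.frontier_eq]
      exact ⟨hxc, hx⟩
    have := hU Ω (closure Ω)ᶜ hO isClosed_closure.isOpen_compl ?_ hne ⟨x, hxU, hx2⟩
    · obtain ⟨y, _, hy1, hy2⟩ := this
      exact hy2 (subset_closure hy1)
    · intro y hy
      by_cases hyO : y ∈ Ω
      · exact Or.inl hyO
      · right
        intro hyc
        apply Set.disjoint_left.mp hd hy
        rw [hO.frontier_eq]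
        exact ⟨hyc, hyO⟩
  · right
    rw [Set.disjoint_iff_inter_eq_empty]
    exact Set.not_nonempty_iff_eq_empty.mp hne

end Pool.Agent.Sq4
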