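import Pool.Agent.Sq4.Topo1
import Pool.Agent.Sq4.Topo2
import Pool.Agent.Sq4.Topo3

/-!
# SQ-TOP4: simple quadrilaterals
-/

set_option autoImplicit false

noncomputable section

namespace Pool.Agent.Sq4

open MeasureTheory Pool.Agent.Stk

theorem poly4_eq_quad {Ω : Set ℂ} {A B C D : ℂ} (h : Poly4 Ω A B C D) (hA : Adm A B C D) :
    Ω = quad A B C D := by
  have hfr := h.frontier_eq
  set K : Set ℂ := convexHull ℝ {A, B, C} ∪ convexHull ℝ {A, C, D} with hK
  have hq := quad_eq_diff A B C D hA
  have hKc : IsCompact K := by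
    refine IsCompact.union ?_ ?_
    · exact (Set.toFinite _).isCompact_convexHull ℝ
    · exact (Set.toFinite _).isCompact_convexHull ℝ
  have hAK1 : A ∈ convexHull ℝ ({A, B, C} : Set ℂ) := subset_convexHull _ _ (by simp)
  have hAK2 : A ∈ convexHull ℝ ({A, C, D} : Set ℂ) := subset_convexHull _ _ (by simp)
  have hstar : ∀ z ∈ K, segment ℝ A z ⊆ K := by
    intro z hz
    rcases hz with hz | hz
    · exact ((convex_convexHull ℝ _).segment_subset hAK1 hz).trans Set.subset_union_left
    · exact ((convex_convexHull ℝ _).segment_subset hAK2 hz).trans Set.subset_union_right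
  -- the four sides lie in K
  have hsides : segment ℝ A B ∪ segment ℝ B C ∪ segment ℝ C D ∪ segment ℝ D A ⊆ K := by
    have s1 : segment ℝ A B ⊆ convexHull ℝ ({A, B, C} : Set ℂ) :=
      (convex_convexHull ℝ _).segment_subset (subset_convexHull _ _ (by simp))
        (subset_convexHull _ _ (by simp))
    have s2 : segment ℝ B C ⊆ convexHull ℝ ({A, B, C} : Set ℂ) :=
      (convex_convexHull ℝ _).segment_subset (subset_convexHull _ _ (by simp))
        (subset_convexHull _ _ (by simp))
    have s3 : segment ℝ C D ⊆ convexHull ℝ ({A, C, D} : Set ℂ) :=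
      (convex_convexHull ℝ _).segment_subset (subset_convexHull _ _ (by simp))
        (subset_convexHull _ _ (by simp))
    have s4 : segment ℝ D A ⊆ convexHull ℝ ({A, C, D} : Set ℂ) :=
      (convex_convexHull ℝ _).segment_subset (subset_convexHull _ _ (by simp))
        (subset_convexHull _ _ (by simp))
    exact Set.union_subset (Set.union_subset (Set.union_subset (s1.trans Set.subset_union_left)
      (s2.trans Set.subset_union_left)) (s3.trans Set.subset_union_right))
      (s4.trans Set.subset_union_right)
  -- outside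
  have hout : Disjoint Kᶜ Ω := by
    rcases clopen_cases Ω Kᶜ h.isOpen (star_compl_preconnected K hKc A hstar) (by
      rw [hfr]
      exact Set.disjoint_left.2 fun z hz hz' => hz (hsides hz')) with h1 | h1
    · exact absurd (h.bounded.subset h1) (compl_not_bounded K hKc)
    · exact h1
  have hsub : Ω ⊆ quad A B C D := by
    intro z hz
    rw [hq]
    refine ⟨?_, ?_⟩
    · by_contra hn
      exact Set.disjoint_left.1 hout hn hz
    · intro hz'
      rw [← hfr] at hz'
      exact (h.isOpen.inter_frontier_eq ▸ ⟨hz, hz'⟩ : z ∈ (∅ : Set ℂ))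
  rcases clopen_cases Ω (quad A B C D) h.isOpen (quad_preconnected A B C D hA) (by
      rw [hfr, hq]
      exact Set.disjoint_sdiff_left) with h1 | h1
  · exact Set.Subset.antisymm hsub h1
  · exfalso
    have hem : Ω = ∅ := by
      ext z
      simp only [Set.mem_empty_iff_false, iff_false]
      intro hz
      exact Set.disjoint_left.1 h1 (hsub hz) hz
    have : A ∈ frontier Ω := by
      rw [hfr]
      exact Or.inr (right_mem_segment ℝ D A)
    rw [hem] at this
    simp at this

theorem poly4_rot {Ω : Set ℂ} {A B C D : ℂ} (h : Poly4 Ω A B C D) : Poly4 Ω B C D A where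
  isOpen := h.isOpen
  bounded := h.bounded
  frontier_eq := by
    rw [h.frontier_eq]
    ext z
    simp only [Set.mem_union]
    tauto
  corner_A := h.corner_B
  corner_B := h.corner_C
  corner_C := h.corner_D
  corner_D := h.corner_A
  opp_1 := h.opp_2
  opp_2 := h.opp_1.symm
  angle_A := h.angle_B
  angle_B := h.angle_C
  angle_C := h.angle_D
  angle_D := h.angle_A

/-- Every polygon with four sides is, up to a rotation of the labels, of the form `quad`. -/
theorem poly4_cases {Ω : Set ℂ} {A B C D : ℂ} (h : Poly4 Ω A B C D) :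
    (Adm A B C D ∧ Ω = quad A B C D) ∨ (Adm B C D A ∧ Ω = quad B C D A) := by
  rcases adm_of_simple A B C D h.opp_1 h.opp_2 h.angle_A h.angle_B h.angle_C h.angle_D with h1 | h1
  · exact Or.inl ⟨h1, poly4_eq_quad h h1⟩
  · exact Or.inr ⟨h1, poly4_eq_quad (poly4_rot h) h1⟩

end Pool.Agent.Sq4
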