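import Pool.Agent.Sq4.Topo2

/-!
# SQ-TOP5: the square is a polygon with four sides
-/

set_option autoImplicit false

noncomputable section

namespace Pool.Agent.Sq4

open MeasureTheory Pool.Agent.Stk

private theorem adm_unit : Adm 0 1 (1 + Complex.I) Complex.I := by
  unfold Adm det2
  simp

private theorem seg_bot (z : ℂ) : z ∈ segment ℝ (0 : ℂ) 1 ↔ z.im = 0 ∧ 0 ≤ z.re ∧ z.re ≤ 1 := by
  constructor
  · rintro ⟨a, b, ha, hb, hab, rfl⟩
    simp
    exact ⟨hb, by linarith⟩
  · rintro ⟨h1, h2, h3⟩
    refine ⟨1 - z.re, z.re, by linarith, h2, by ring, ?_⟩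
    apply Complex.ext
    · simp
    · simp [h1]

private theorem seg_right (z : ℂ) : z ∈ segment ℝ (1 : ℂ) (1 + Complex.I) ↔
    z.re = 1 ∧ 0 ≤ z.im ∧ z.im ≤ 1 := by
  constructor
  · rintro ⟨a, b, ha, hb, hab, rfl⟩
    simp
    exact ⟨hab, hb, by linarith⟩
  · rintro ⟨h1, h2, h3⟩
    refine ⟨1 - z.im, z.im, by linarith, h2, by ring, ?_⟩
    apply Complex.ext
    · simp [h1]
    · simp

private theorem seg_top (z : ℂ) : z ∈ segment ℝ (1 + Complex.I) Complex.I ↔
    z.im = 1 ∧ 0 ≤ z.re ∧ z.re ≤ 1 := by
  constructor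
  · rintro ⟨a, b, ha, hb, hab, rfl⟩
    simp
    exact ⟨hab, ha, by linarith⟩
  · rintro ⟨h1, h2, h3⟩
    refine ⟨z.re, 1 - z.re, h2, by linarith, by ring, ?_⟩
    apply Complex.ext
    · simp
    · simp [h1]

private theorem seg_left (z : ℂ) : z ∈ segment ℝ Complex.I (0 : ℂ) ↔
    z.re = 0 ∧ 0 ≤ z.im ∧ z.im ≤ 1 := by
  constructor
  · rintro ⟨a, b, ha, hb, hab, rfl⟩
    simp
    exact ⟨ha, by linarith⟩
  · rintro ⟨h1, h2, h3⟩
    refine ⟨z.im, 1 - z.im, h2, by linarith, by ring, ?_⟩
    apply Complex.ext
    · simp [h1]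
    · simp

private theorem det_of_collinear {P Q R : ℂ} (h : Collinear ℝ ({P, Q, R} : Set ℂ)) :
    det2 P Q R = 0 := by
  rw [collinear_iff_of_mem (p₀ := P) (by simp)] at h
  obtain ⟨v, hv⟩ := h
  obtain ⟨q, hq⟩ := hv Q (by simp)
  obtain ⟨r, hr⟩ := hv R (by simp)
  rw [hq, hr]
  simp only [vadd_eq_add, Complex.real_smul, det2, Complex.sub_re, Complex.sub_im, Complex.add_re,
    Complex.add_im, Complex.re_ofReal_mul, Complex.im_ofReal_mul]
  ring

private theorem frontier_quad (A B C D : ℂ) (h : Adm A B C D) : frontier (quad A B C D) =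
    segment ℝ A B ∪ segment ℝ B C ∪ segment ℝ C D ∪ segment ℝ D A := by
  have ho : IsOpen (quad A B C D) := isOpen_interior
  rw [ho.frontier_eq, quad_closure A B C D h, quad_eq_diff A B C D h, Set.sdiff_sdiff_right_self]
  apply Set.inter_eq_self_of_subset_right
  have s1 : segment ℝ A B ⊆ convexHull ℝ ({A, B, C} : Set ℂ) :=
    (convex_convexHull ℝ _).segment_subset (subset_convexHull _ _ (by simp))
      (subset_convexHull _ _ (by simp))
  have s2 : segment ℝ B C ⊆ convexHull ℝ ({A, B, C} : Set ℂ) :=
    (convex_convexHull ℝ _).segment_subset (subset_convexHull _ _ (by simp))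
      (subset_convexHull _ _ (by simp))
  have s3 : segment ℝ C D ⊆ convexHull ℝ ({A, C, D} : Set ℂ) :=
    (convex_convexHull ℝ _).segment_subset (subset_convexHull _ _ (by simp))
      (subset_convexHull _ _ (by simp))
  have s4 : segment ℝ D A ⊆ convexHull ℝ ({A, C, D} : Set ℂ) :=
    (convex_convexHull ℝ _).segment_subset (subset_convexHull _ _ (by simp))
      (subset_convexHull _ _ (by simp))
  exact Set.union_subset (Set.union_subset (Set.union_subset (s1.trans Set.subset_union_left)
    (s2.trans Set.subset_union_left)) (s3.trans Set.subset_union_right))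
    (s4.trans Set.subset_union_right)

/-- SQ-TOP5 -/
theorem poly4_unit : Poly4 (quad 0 1 (1 + Complex.I) Complex.I) 0 1 (1 + Complex.I) Complex.I where
  isOpen := isOpen_interior
  bounded := by
    refine Bornology.IsBounded.subset (IsCompact.isBounded (IsCompact.union
      ((Set.toFinite ({0, 1, 1 + Complex.I} : Set ℂ)).isCompact_convexHull ℝ)
      ((Set.toFinite ({0, 1 + Complex.I, Complex.I} : Set ℂ)).isCompact_convexHull ℝ)))
      interior_subset
  frontier_eq := frontier_quad _ _ _ _ adm_unit
  corner_A := by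
    ext z
    rw [Set.mem_inter_iff, seg_left, seg_bot, Set.mem_singleton_iff]
    constructor
    · rintro ⟨⟨h1, h2, h3⟩, h4, h5, h6⟩
      exact Complex.ext (by simpa using h1) (by simpa using h4)
    · rintro rfl
      simp
  corner_B := by
    ext z
    rw [Set.mem_inter_iff, seg_right, seg_bot, Set.mem_singleton_iff]
    constructor
    · rintro ⟨⟨h1, h2, h3⟩, h4, h5, h6⟩
      exact Complex.ext (by simpa using h4) (by simpa using h1)
    · rintro rfl
      simp
  corner_C := by
    ext z
    rw [Set.mem_inter_iff, seg_right, seg_top, Set.mem_singleton_iff]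
    constructor
    · rintro ⟨⟨h1, h2, h3⟩, h4, h5, h6⟩
      exact Complex.ext (by simpa using h1) (by simpa using h4)
    · rintro rfl
      simp
  corner_D := by
    ext z
    rw [Set.mem_inter_iff, seg_left, seg_top, Set.mem_singleton_iff]
    constructor
    · rintro ⟨⟨h1, h2, h3⟩, h4, h5, h6⟩
      exact Complex.ext (by simpa using h4) (by simpa using h1)
    · rintro rfl
      simp
  opp_1 := by
    rw [Set.disjoint_left]
    intro z h1 h2
    rw [seg_bot] at h1
    rw [seg_top] at h2
    linarith [h1.1, h2.1]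
  opp_2 := by
    rw [Set.disjoint_left]
    intro z h1 h2
    rw [seg_right] at h1
    rw [seg_left] at h2
    linarith [h1.1, h2.1]
  angle_A := fun h => by
    have := det_of_collinear h
    simp [det2] at this
  angle_B := fun h => by
    have := det_of_collinear h
    simp [det2] at this
  angle_C := fun h => by
    have := det_of_collinear h
    simp [det2] at this
  angle_D := fun h => by
    have := det_of_collinear h
    simp [det2] at this

end Pool.Agent.Sq4
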