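import Pool.Agent.Sq4.Fin4
import Pool.Agent.Sq4.Topo4
import Pool.Agent.Sq4.Topo5

/-!
# Final form: polygons with four sides
-/

set_option autoImplicit false

noncomputable section

namespace Pool.Agent.Sq4

open MeasureTheory Pool.Agent.Stk

theorem bd4_rot (A B C D : ℂ) (f : ℂ → ℝ) : bd4 B C D A f = bd4 A B C D f := by
  unfold bd4; ring

theorem perim4_rot (A B C D : ℂ) : perim4 B C D A = perim4 A B C D := by
  unfold perim4; ring

theorem isSq_rot (A B C D : ℂ) : IsSq B C D A ↔ IsSq A B C D := by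
  unfold IsSq
  rw [dist_comm C A]
  constructor
  · rintro ⟨a, b, c, d⟩
    exact ⟨(c.symm.trans (b.symm.trans a.symm)), a, b, d.symm⟩
  · rintro ⟨a, b, c, d⟩
    exact ⟨b, c, (a.trans (b.trans c)).symm, d.symm⟩

theorem sigP_quad (k : WithTop ℕ∞) (A B C D : ℂ) :
    sigP k (quad A B C D) A B C D = sig4 k A B C D := rfl

theorem sigP_quad_rot (k : WithTop ℕ∞) (A B C D : ℂ) :
    sigP k (quad B C D A) A B C D = sig4 k B C D A := by
  unfold sigP sig4 dir4
  simp only [bd4_rot]

/-- The main theorem for polygons with four sides. -/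
theorem poly_main {k : ℕ∞} (hk : 1 ≤ k) {Ω : Set ℂ} {A B C D : ℂ} (h : Poly4 Ω A B C D) :
    sigP k Ω A B C D * perim4 A B C D ≤ mu ∧
    (sigP k Ω A B C D * perim4 A B C D = mu ↔ IsSq A B C D) ∧
    sigP k Ω A B C D * Real.sqrt (volume.real Ω) ≤ mu / 4 ∧
    (sigP k Ω A B C D * Real.sqrt (volume.real Ω) = mu / 4 ↔ IsSq A B C D) := by
  rcases poly4_cases h with ⟨hA, rfl⟩ | ⟨hA, rfl⟩
  · exact quads_main hk hA
  · have := quads_main hk hA
    rw [sigP_quad_rot, ← perim4_rot, ← isSq_rot]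
    exact this

theorem isSq_unit : IsSq 0 1 (1 + Complex.I) Complex.I := by
  have h2 : Real.sqrt 2 = Real.sqrt 2 := rfl
  unfold IsSq
  refine ⟨?_, ?_, ?_, ?_⟩
  · simp [Complex.dist_eq]
  · simp [Complex.dist_eq]
  · simp [Complex.dist_eq]
  · rw [Complex.dist_eq, Complex.dist_eq, Complex.norm_def, Complex.norm_def]
    congr 1
    simp [Complex.normSq_apply]

theorem al_pos : 0 < al := by linarith [al_gt]

end Pool.Agent.Sq4
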