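import Pool.Agent.Sq4.Defs

/-!
# SQ-ALPHA: the number `α` with `tan α * tanh α = 1`
-/

set_option autoImplicit false

noncomputable section

namespace Pool.Agent.Sq4

open MeasureTheory Pool.Agent.Stk
private theorem re_aux (p q r s : ℝ) :
    ((p : ℂ) + (q : ℂ) * Complex.I - ((r : ℂ) + (s : ℂ) * Complex.I)).re = p - r := by
  simp

private theorem im_aux (p q r s : ℝ) :
    ((p : ℂ) + (q : ℂ) * Complex.I - ((r : ℂ) + (s : ℂ) * Complex.I)).im = q - s := by
  simp

private theorem expI_bound (t : ℝ) (h0 : 0 ≤ t) (h1 : t ≤ 1) :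
    |Real.cos t - (1 - t ^ 2 / 2 + t ^ 4 / 24 - t ^ 6 / 720 + t ^ 8 / 40320)| ≤
        t ^ 10 * (11 / 36288000) ∧
      |Real.sin t - (t - t ^ 3 / 6 + t ^ 5 / 120 - t ^ 7 / 5040 + t ^ 9 / 362880)| ≤
        t ^ 10 * (11 / 36288000) := by
  have hn : ‖(t : ℂ) * Complex.I‖ = t := by
    rw [norm_mul, Complex.norm_I, mul_one, Complex.norm_real, Real.norm_eq_abs, abs_of_nonneg h0]
  have hb := Complex.exp_bound (x := (t : ℂ) * Complex.I) (by rw [hn]; exact h1)
    (n := 10) (by norm_num)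
  rw [hn] at hb
  have hI2 : Complex.I ^ 2 = -1 := Complex.I_sq
  have hI3 : Complex.I ^ 3 = -Complex.I := by rw [pow_succ, hI2]; ring
  have hI4 : Complex.I ^ 4 = 1 := by rw [pow_succ, hI3]; simp
  have hI5 : Complex.I ^ 5 = Complex.I := by rw [pow_succ, hI4]; ring
  have hI6 : Complex.I ^ 6 = -1 := by rw [pow_succ, hI5]; simp
  have hI7 : Complex.I ^ 7 = -Complex.I := by rw [pow_succ, hI6]; ring
  have hI8 : Complex.I ^ 8 = 1 := by rw [pow_succ, hI7]; simp
  have hI9 : Complex.I ^ 9 = Complex.I := by rw [pow_succ, hI8]; ring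
  have hs : ∑ m ∈ Finset.range 10, ((t : ℂ) * Complex.I) ^ m / (m.factorial : ℂ) =
      ((1 - t ^ 2 / 2 + t ^ 4 / 24 - t ^ 6 / 720 + t ^ 8 / 40320 : ℝ) : ℂ) +
      ((t - t ^ 3 / 6 + t ^ 5 / 120 - t ^ 7 / 5040 + t ^ 9 / 362880 : ℝ) : ℂ) * Complex.I := by
    simp only [Finset.sum_range_succ, Finset.sum_range_zero, mul_pow, hI2, hI3, hI4, hI5, hI6,
      hI7, hI8, hI9, Nat.factorial]
    push_cast
    ring
  rw [hs, Complex.exp_mul_I] at hb
  have hc : (t ^ 10 * ((Nat.succ 10 : ℝ) * ((Nat.factorial 10 : ℝ) * (10 : ℕ))⁻¹)) =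
      t ^ 10 * (11 / 36288000) := by
    simp only [Nat.factorial]
    push_cast
    norm_num
  rw [hc] at hb
  have h2 := Complex.abs_re_le_norm (Complex.cos (t : ℂ) + Complex.sin (t : ℂ) * Complex.I -
    (((1 - t ^ 2 / 2 + t ^ 4 / 24 - t ^ 6 / 720 + t ^ 8 / 40320 : ℝ) : ℂ) +
      ((t - t ^ 3 / 6 + t ^ 5 / 120 - t ^ 7 / 5040 + t ^ 9 / 362880 : ℝ) : ℂ) * Complex.I))
  have h3 := Complex.abs_im_le_norm (Complex.cos (t : ℂ) + Complex.sin (t : ℂ) * Complex.I -
    (((1 - t ^ 2 / 2 + t ^ 4 / 24 - t ^ 6 / 720 + t ^ 8 / 40320 : ℝ) : ℂ) +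
      ((t - t ^ 3 / 6 + t ^ 5 / 120 - t ^ 7 / 5040 + t ^ 9 / 362880 : ℝ) : ℂ) * Complex.I))
  rw [← Complex.ofReal_cos, ← Complex.ofReal_sin] at h2 h3 hb
  rw [re_aux] at h2
  rw [im_aux] at h3
  exact ⟨h2.trans hb, h3.trans hb⟩

private theorem expR_bound (t : ℝ) (h1 : |t| ≤ 1) :
    |Real.exp t - (1 + t + t ^ 2 / 2 + t ^ 3 / 6 + t ^ 4 / 24 + t ^ 5 / 120 + t ^ 6 / 720 +
      t ^ 7 / 5040 + t ^ 8 / 40320 + t ^ 9 / 362880)| ≤ |t| ^ 10 * (11 / 36288000) := by
  have hb := Real.exp_bound h1 (n := 10) (by norm_num)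
  have hs : ∑ m ∈ Finset.range 10, t ^ m / (m.factorial : ℝ) =
      (1 + t + t ^ 2 / 2 + t ^ 3 / 6 + t ^ 4 / 24 + t ^ 5 / 120 + t ^ 6 / 720 +
      t ^ 7 / 5040 + t ^ 8 / 40320 + t ^ 9 / 362880) := by
    simp only [Finset.sum_range_succ, Finset.sum_range_zero, Nat.factorial]
    push_cast
    ring
  rw [hs] at hb
  refine hb.trans (le_of_eq ?_)
  simp only [Nat.factorial]
  push_cast
  norm_num

private theorem sin_lo : 0.806 < Real.sin 0.9374 := by
  have h := (abs_le.mp (expI_bound 0.9374 (by norm_num) (by norm_num)).2).1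
  norm_num at h ⊢
  linarith

private theorem sin_lo' : Real.sin 0.9374 < 0.80603 := by
  have h := (abs_le.mp (expI_bound 0.9374 (by norm_num) (by norm_num)).2).2
  norm_num at h ⊢
  linarith

private theorem sin_hi : Real.sin 0.9377 < 0.8063 := by
  have h := (abs_le.mp (expI_bound 0.9377 (by norm_num) (by norm_num)).2).2
  norm_num at h ⊢
  linarith

private theorem sin_hi' : 0.80619 < Real.sin 0.9377 := by
  have h := (abs_le.mp (expI_bound 0.9377 (by norm_num) (by norm_num)).2).1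
  norm_num at h ⊢
  linarith

private theorem cos_lo : Real.cos 0.9374 < 0.592 := by
  have h := (abs_le.mp (expI_bound 0.9374 (by norm_num) (by norm_num)).1).2
  norm_num at h ⊢
  linarith

private theorem cos_lo' : 0.59187 < Real.cos 0.9374 := by
  have h := (abs_le.mp (expI_bound 0.9374 (by norm_num) (by norm_num)).1).1
  norm_num at h ⊢
  linarith

private theorem cos_hi : 0.5915 < Real.cos 0.9377 := by
  have h := (abs_le.mp (expI_bound 0.9377 (by norm_num) (by norm_num)).1).1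
  norm_num at h ⊢
  linarith

private theorem cos_hi' : Real.cos 0.9377 < 0.59166 := by
  have h := (abs_le.mp (expI_bound 0.9377 (by norm_num) (by norm_num)).1).2
  norm_num at h ⊢
  linarith

private theorem sinh_lo : 1.0807 < Real.sinh 0.9374 := by
  have h1 := (abs_le.mp (expR_bound 0.9374 (by norm_num [abs_of_pos]))).1
  have h2 := (abs_le.mp (expR_bound (-0.9374) (by norm_num [abs_of_pos]))).2
  rw [Real.sinh_eq]
  rw [abs_of_pos (by norm_num)] at h1
  rw [abs_neg, abs_of_pos (by norm_num)] at h2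
  norm_num at h1 h2 ⊢
  linarith

private theorem sinh_lo' : Real.sinh 0.9374 < 1.08087 := by
  have h1 := (abs_le.mp (expR_bound 0.9374 (by norm_num [abs_of_pos]))).2
  have h2 := (abs_le.mp (expR_bound (-0.9374) (by norm_num [abs_of_pos]))).1
  rw [Real.sinh_eq]
  rw [abs_of_pos (by norm_num)] at h1
  rw [abs_neg, abs_of_pos (by norm_num)] at h2
  norm_num at h1 h2 ⊢
  linarith

private theorem sinh_hi : Real.sinh 0.9377 < 1.0814 := by
  have h1 := (abs_le.mp (expR_bound 0.9377 (by norm_num [abs_of_pos]))).2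
  have h2 := (abs_le.mp (expR_bound (-0.9377) (by norm_num [abs_of_pos]))).1
  rw [Real.sinh_eq]
  rw [abs_of_pos (by norm_num)] at h1
  rw [abs_neg, abs_of_pos (by norm_num)] at h2
  norm_num at h1 h2 ⊢
  linarith

private theorem sinh_hi' : 1.08127 < Real.sinh 0.9377 := by
  have h1 := (abs_le.mp (expR_bound 0.9377 (by norm_num [abs_of_pos]))).1
  have h2 := (abs_le.mp (expR_bound (-0.9377) (by norm_num [abs_of_pos]))).2
  rw [Real.sinh_eq]
  rw [abs_of_pos (by norm_num)] at h1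
  rw [abs_neg, abs_of_pos (by norm_num)] at h2
  norm_num at h1 h2 ⊢
  linarith

private theorem cosh_lo : 1.4723 < Real.cosh 0.9374 := by
  have h1 := (abs_le.mp (expR_bound 0.9374 (by norm_num [abs_of_pos]))).1
  have h2 := (abs_le.mp (expR_bound (-0.9374) (by norm_num [abs_of_pos]))).1
  rw [Real.cosh_eq]
  rw [abs_of_pos (by norm_num)] at h1
  rw [abs_neg, abs_of_pos (by norm_num)] at h2
  norm_num at h1 h2 ⊢
  linarith

private theorem cosh_lo' : 1.47247 < Real.cosh 0.9374 := by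
  have h1 := (abs_le.mp (expR_bound 0.9374 (by norm_num [abs_of_pos]))).1
  have h2 := (abs_le.mp (expR_bound (-0.9374) (by norm_num [abs_of_pos]))).1
  rw [Real.cosh_eq]
  rw [abs_of_pos (by norm_num)] at h1
  rw [abs_neg, abs_of_pos (by norm_num)] at h2
  norm_num at h1 h2 ⊢
  linarith

private theorem cosh_hi : Real.cosh 0.9377 < 1.473 := by
  have h1 := (abs_le.mp (expR_bound 0.9377 (by norm_num [abs_of_pos]))).2
  have h2 := (abs_le.mp (expR_bound (-0.9377) (by norm_num [abs_of_pos]))).2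
  rw [Real.cosh_eq]
  rw [abs_of_pos (by norm_num)] at h1
  rw [abs_neg, abs_of_pos (by norm_num)] at h2
  norm_num at h1 h2 ⊢
  linarith

private theorem cosh_hi' : Real.cosh 0.9377 < 1.47283 := by
  have h1 := (abs_le.mp (expR_bound 0.9377 (by norm_num [abs_of_pos]))).2
  have h2 := (abs_le.mp (expR_bound (-0.9377) (by norm_num [abs_of_pos]))).2
  rw [Real.cosh_eq]
  rw [abs_of_pos (by norm_num)] at h1
  rw [abs_neg, abs_of_pos (by norm_num)] at h2
  norm_num at h1 h2 ⊢
  linarith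

theorem exists_alpha : ∃ a : ℝ, 0.9374 < a ∧ a < 0.9377 ∧
    Real.cos a * Real.cosh a = Real.sin a * Real.sinh a := by
  have hcont : ContinuousOn (fun a : ℝ => Real.sin a * Real.sinh a - Real.cos a * Real.cosh a)
      (Set.Icc 0.9374 0.9377) := by
    apply Continuous.continuousOn
    exact (Real.continuous_sin.mul Real.continuous_sinh).sub
      (Real.continuous_cos.mul Real.continuous_cosh)
  have hneg : Real.sin 0.9374 * Real.sinh 0.9374 - Real.cos 0.9374 * Real.cosh 0.9374 < 0 := by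
    have h1 : Real.sin 0.9374 * Real.sinh 0.9374 < 0.80603 * 1.08087 :=
      mul_lt_mul'' sin_lo' sinh_lo' (by linarith [sin_lo]) (by linarith [sinh_lo])
    have h2 : 0.59187 * 1.47247 < Real.cos 0.9374 * Real.cosh 0.9374 :=
      mul_lt_mul'' cos_lo' cosh_lo' (by norm_num) (by norm_num)
    norm_num at h1 h2 ⊢
    linarith
  have hpos : 0 < Real.sin 0.9377 * Real.sinh 0.9377 - Real.cos 0.9377 * Real.cosh 0.9377 := by
    have h1 : 0.80619 * 1.08127 < Real.sin 0.9377 * Real.sinh 0.9377 :=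
      mul_lt_mul'' sin_hi' sinh_hi' (by norm_num) (by norm_num)
    have h2 : Real.cos 0.9377 * Real.cosh 0.9377 < 0.59166 * 1.47283 :=
      mul_lt_mul'' cos_hi' cosh_hi' (by linarith [cos_hi]) (Real.cosh_pos _).le
    norm_num at h1 h2 ⊢
    linarith
  obtain ⟨a, ha, ha0⟩ := intermediate_value_Icc (by norm_num : (0.9374 : ℝ) ≤ 0.9377) hcont
    (show (0 : ℝ) ∈ Set.Icc _ _ from ⟨hneg.le, hpos.le⟩)
  simp only at ha0
  refine ⟨a, lt_of_le_of_ne ha.1 ?_, lt_of_le_of_ne ha.2 ?_, by linarith⟩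
  · intro h
    rw [← h] at ha0
    linarith
  · intro h
    rw [h] at ha0
    linarith

/-- The root of `tan α * tanh α = 1` in `(0, π/2)`. -/
def al : ℝ := exists_alpha.choose

theorem al_gt : 0.9374 < al := exists_alpha.choose_spec.1

theorem al_lt : al < 0.9377 := exists_alpha.choose_spec.2.1

theorem al_eq : Real.cos al * Real.cosh al = Real.sin al * Real.sinh al :=
  exists_alpha.choose_spec.2.2

/-- The value `8 α tanh α` of `σ₁ L` for squares. -/
def mu : ℝ := 8 * al * Real.tanh al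

private theorem al_lt_pi : al < Real.pi / 2 := by
  have := al_lt
  have := Real.pi_gt_three
  linarith

private theorem al_pos : 0 < al := by
  have := al_gt
  linarith

private theorem tanh_lt {x y : ℝ} (h : x < y) : Real.tanh x < Real.tanh y := by
  rw [Real.tanh_eq_sinh_div_cosh, Real.tanh_eq_sinh_div_cosh,
    div_lt_div_iff₀ (Real.cosh_pos x) (Real.cosh_pos y)]
  have h1 : 0 < Real.sinh (y - x) := Real.sinh_pos_iff.mpr (by linarith)
  rw [Real.sinh_sub] at h1
  linarith

private theorem tanh_pos' {x : ℝ} (h : 0 < x) : 0 < Real.tanh x := by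
  have := tanh_lt h
  rwa [Real.tanh_zero] at this

theorem al_tan : al < Real.pi / 2 ∧ Real.tan al * Real.tanh al = 1 := by
  refine ⟨al_lt_pi, ?_⟩
  have hc : 0 < Real.cos al := Real.cos_pos_of_mem_Ioo ⟨by linarith [al_pos, Real.pi_pos], al_lt_pi⟩
  have hch : 0 < Real.cosh al := Real.cosh_pos al
  rw [Real.tan_eq_sin_div_cos, Real.tanh_eq_sinh_div_cosh, div_mul_div_comm, ← al_eq,
    div_self (mul_pos hc hch).ne']

theorem al_unique {a : ℝ} (h0 : 0 < a) (h1 : a < Real.pi / 2) (h : Real.tan a * Real.tanh a = 1) :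
    a = al := by
  rcases lt_trichotomy a al with hlt | heq | hgt
  · exfalso
    have h2 := Real.tan_lt_tan_of_nonneg_of_lt_pi_div_two h0.le al_lt_pi hlt
    have h3 := tanh_lt hlt
    have h4 : Real.tan a * Real.tanh a < Real.tan al * Real.tanh al :=
      mul_lt_mul'' h2 h3 (Real.tan_nonneg_of_nonneg_of_le_pi_div_two h0.le h1.le) (tanh_pos' h0).le
    rw [h, al_tan.2] at h4
    exact lt_irrefl _ h4
  · exact heq
  · exfalso
    have h2 := Real.tan_lt_tan_of_nonneg_of_lt_pi_div_two al_pos.le h1 hgt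
    have h3 := tanh_lt hgt
    have h4 : Real.tan al * Real.tanh al < Real.tan a * Real.tanh a :=
      mul_lt_mul'' h2 h3 (Real.tan_nonneg_of_nonneg_of_le_pi_div_two al_pos.le al_lt_pi.le)
        (tanh_pos' al_pos).le
    rw [h, al_tan.2] at h4
    exact lt_irrefl _ h4

theorem sin_al : 0.806 < Real.sin al ∧ Real.sin al < 0.8063 := by
  have hp := Real.pi_gt_three
  have h1 := al_gt
  have h2 := al_lt
  constructor
  · refine sin_lo.trans ?_
    exact Real.sin_lt_sin_of_lt_of_le_pi_div_two (by linarith) (by linarith) h1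
  · refine lt_trans ?_ sin_hi
    exact Real.sin_lt_sin_of_lt_of_le_pi_div_two (by linarith) (by linarith) h2

theorem cos_al : 0.5915 < Real.cos al ∧ Real.cos al < 0.592 := by
  have hp := Real.pi_gt_three
  have h1 := al_gt
  have h2 := al_lt
  constructor
  · refine cos_hi.trans ?_
    exact Real.cos_lt_cos_of_nonneg_of_le_pi_div_two (by linarith) (by linarith) h2
  · refine lt_trans ?_ cos_lo
    exact Real.cos_lt_cos_of_nonneg_of_le_pi_div_two (by norm_num) (by linarith) h1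

theorem sinh_al : 1.0807 < Real.sinh al ∧ Real.sinh al < 1.0814 :=
  ⟨sinh_lo.trans (Real.sinh_lt_sinh.mpr al_gt), (Real.sinh_lt_sinh.mpr al_lt).trans sinh_hi⟩

theorem cosh_al : 1.4723 < Real.cosh al ∧ Real.cosh al < 1.473 := by
  have h1 := al_gt
  have h2 := al_lt
  constructor
  · refine cosh_lo.trans (Real.cosh_lt_cosh.mpr ?_)
    rw [abs_of_pos (by norm_num), abs_of_pos al_pos]
    exact h1
  · refine lt_trans (Real.cosh_lt_cosh.mpr ?_) cosh_hi
    rw [abs_of_pos (by norm_num : (0 : ℝ) < 0.9377), abs_of_pos al_pos]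
    exact h2

theorem mu_gt : 5.5 < mu := by
  have h1 := al_gt
  have h2 := sinh_al.1
  have h3 := cosh_al.2
  have hc : 0 < Real.cosh al := Real.cosh_pos al
  unfold mu
  rw [Real.tanh_eq_sinh_div_cosh, mul_div_assoc', lt_div_iff₀ hc]
  have h4 : 0.9374 * 1.0807 < al * Real.sinh al := mul_lt_mul'' h1 h2 (by norm_num) (by norm_num)
  have h5 : (5.5 : ℝ) * Real.cosh al < 5.5 * 1.473 := by
    apply mul_lt_mul_of_pos_left h3 (by norm_num)
  norm_num at h4 h5 ⊢
  linarith

theorem mu_lt : mu < 5.51 := by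
  have h1 := al_lt
  have h2 := sinh_al.2
  have h3 := cosh_al.1
  have hc : 0 < Real.cosh al := Real.cosh_pos al
  unfold mu
  rw [Real.tanh_eq_sinh_div_cosh, mul_div_assoc', div_lt_iff₀ hc]
  have h4 : al * Real.sinh al < 0.9377 * 1.0814 :=
    mul_lt_mul'' h1 h2 al_pos.le (by linarith [sinh_al.1])
  have h5 : (5.51 : ℝ) * 1.4723 < 5.51 * Real.cosh al := by
    apply mul_lt_mul_of_pos_left h3 (by norm_num)
  norm_num at h4 h5 ⊢
  linarith

/-- `α cot α = μ / 8` -/
theorem al_cot : al * (Real.cos al / Real.sin al) = mu / 8 := by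
  unfold mu
  rw [Real.tanh_eq_sinh_div_cosh]
  have hs : Real.sin al ≠ 0 := by
    have := sin_al.1
    intro h
    rw [h] at this
    norm_num at this
  have hc : Real.cosh al ≠ 0 := (Real.cosh_pos al).ne'
  have e : Real.cos al / Real.sin al = Real.sinh al / Real.cosh al := by
    rw [div_eq_div_iff hs hc, al_eq]
    ring
  rw [e]
  ring

end Pool.Agent.Sq4
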