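import Pool.Agent.Sq4.Defs

/-!
# SQ-BDRY: boundary norm of the trial functions
-/

set_option autoImplicit false

noncomputable section

namespace Pool.Agent.Sq4

open MeasureTheory Pool.Agent.Stk

private theorem sqb_two (a : ℂ) : ‖2 * a‖ = 2 * ‖a‖ := by
  rw [norm_mul]; simp

private theorem sqb_dAB (o p q w : ℂ) :
    dist (vA o p q w) (vB o p q w) = 2 * ‖p - w‖ := by
  rw [dist_comm, dist_eq_norm, ← sqb_two]
  congr 1
  unfold vA vB
  ring

private theorem sqb_dBC (o p q w : ℂ) :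
    dist (vB o p q w) (vC o p q w) = 2 * ‖q + w‖ := by
  rw [dist_comm, dist_eq_norm, ← sqb_two]
  congr 1
  unfold vB vC
  ring

private theorem sqb_dCD (o p q w : ℂ) :
    dist (vC o p q w) (vD o p q w) = 2 * ‖p + w‖ := by
  rw [dist_eq_norm, ← sqb_two]
  congr 1
  unfold vC vD
  ring

private theorem sqb_dDA (o p q w : ℂ) :
    dist (vD o p q w) (vA o p q w) = 2 * ‖q - w‖ := by
  rw [dist_eq_norm, ← sqb_two]
  congr 1
  unfold vA vD
  ring

theorem perim4_v (o p q w : ℂ) :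
    perim4 (vA o p q w) (vB o p q w) (vC o p q w) (vD o p q w) = 4 * (la p w + la q w) := by
  unfold perim4 la
  rw [sqb_dAB, sqb_dBC, sqb_dCD, sqb_dDA]
  ring

private theorem sqb_up (g : ℝ → ℝ) :
    ∫ t in (0 : ℝ)..1, g (2 * t - 1) = (1 / 2) * ∫ x in (-1 : ℝ)..1, g x := by
  rw [intervalIntegral.integral_comp_mul_sub (fun x => g x) (by norm_num : (2 : ℝ) ≠ 0) 1]
  norm_num

private theorem sqb_dn (g : ℝ → ℝ) :
    ∫ t in (0 : ℝ)..1, g (1 - 2 * t) = (1 / 2) * ∫ x in (-1 : ℝ)..1, g x := by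
  rw [intervalIntegral.integral_comp_sub_mul (fun x => g x) (by norm_num : (2 : ℝ) ≠ 0) 1]
  norm_num

private theorem sqb_sAB (o p q w : ℂ) (f : ℂ → ℝ) :
    segInt (vA o p q w) (vB o p q w) f =
      ‖p - w‖ * ∫ x in (-1 : ℝ)..1, f (psi o p q w (x, -1)) := by
  unfold segInt
  rw [sqb_dAB]
  have e : ∀ t : ℝ, f (vA o p q w + (t : ℂ) * (vB o p q w - vA o p q w)) =
      (fun x : ℝ => f (psi o p q w (x, -1))) (2 * t - 1) := by
    intro t
    simp only
    congr 1
    unfold vA vB psi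
    push_cast
    ring
  simp_rw [e]
  rw [sqb_up (fun x : ℝ => f (psi o p q w (x, -1)))]
  ring

private theorem sqb_sBC (o p q w : ℂ) (f : ℂ → ℝ) :
    segInt (vB o p q w) (vC o p q w) f =
      ‖q + w‖ * ∫ x in (-1 : ℝ)..1, f (psi o p q w (1, x)) := by
  unfold segInt
  rw [sqb_dBC]
  have e : ∀ t : ℝ, f (vB o p q w + (t : ℂ) * (vC o p q w - vB o p q w)) =
      (fun x : ℝ => f (psi o p q w (1, x))) (2 * t - 1) := by
    intro t
    simp only
    congr 1
    unfold vB vC psi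
    push_cast
    ring
  simp_rw [e]
  rw [sqb_up (fun x : ℝ => f (psi o p q w (1, x)))]
  ring

private theorem sqb_sCD (o p q w : ℂ) (f : ℂ → ℝ) :
    segInt (vC o p q w) (vD o p q w) f =
      ‖p + w‖ * ∫ x in (-1 : ℝ)..1, f (psi o p q w (x, 1)) := by
  unfold segInt
  rw [sqb_dCD]
  have e : ∀ t : ℝ, f (vC o p q w + (t : ℂ) * (vD o p q w - vC o p q w)) =
      (fun x : ℝ => f (psi o p q w (x, 1))) (1 - 2 * t) := by
    intro t
    simp only
    congr 1
    unfold vC vD psi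
    push_cast
    ring
  simp_rw [e]
  rw [sqb_dn (fun x : ℝ => f (psi o p q w (x, 1)))]
  ring

private theorem sqb_sDA (o p q w : ℂ) (f : ℂ → ℝ) :
    segInt (vD o p q w) (vA o p q w) f =
      ‖q - w‖ * ∫ x in (-1 : ℝ)..1, f (psi o p q w (-1, x)) := by
  unfold segInt
  rw [sqb_dDA]
  have e : ∀ t : ℝ, f (vD o p q w + (t : ℂ) * (vA o p q w - vD o p q w)) =
      (fun x : ℝ => f (psi o p q w (-1, x))) (1 - 2 * t) := by
    intro t
    simp only
    congr 1
    unfold vD vA psi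
    push_cast
    ring
  simp_rw [e]
  rw [sqb_dn (fun x : ℝ => f (psi o p q w (-1, x)))]
  ring

private theorem sqb_psi_cont (o p q w : ℂ) : Continuous (psi o p q w) := by
  unfold psi
  fun_prop

/-- Boundary integral in coordinates. -/
theorem bd4_v (o p q w : ℂ) (f : ℂ → ℝ) (hf : Continuous f) :
    bd4 (vA o p q w) (vB o p q w) (vC o p q w) (vD o p q w) f =
      (∫ x in (-1 : ℝ)..1, (‖p - w‖ * f (psi o p q w (x, -1)) + ‖p + w‖ * f (psi o p q w (x, 1))
        + ‖q + w‖ * f (psi o p q w (1, x)) + ‖q - w‖ * f (psi o p q w (-1, x)))) := by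
  have hp := sqb_psi_cont o p q w
  have c1 : Continuous fun x : ℝ => ‖p - w‖ * f (psi o p q w (x, -1)) := by fun_prop
  have c2 : Continuous fun x : ℝ => ‖p + w‖ * f (psi o p q w (x, 1)) := by fun_prop
  have c3 : Continuous fun x : ℝ => ‖q + w‖ * f (psi o p q w (1, x)) := by fun_prop
  have c4 : Continuous fun x : ℝ => ‖q - w‖ * f (psi o p q w (-1, x)) := by fun_prop
  have c12 : Continuous fun x : ℝ => ‖p - w‖ * f (psi o p q w (x, -1)) +
      ‖p + w‖ * f (psi o p q w (x, 1)) := by fun_prop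
  have c123 : Continuous fun x : ℝ => ‖p - w‖ * f (psi o p q w (x, -1)) +
      ‖p + w‖ * f (psi o p q w (x, 1)) + ‖q + w‖ * f (psi o p q w (1, x)) := by fun_prop
  unfold bd4
  rw [sqb_sAB, sqb_sBC, sqb_sCD, sqb_sDA]
  rw [intervalIntegral.integral_add (c123.intervalIntegrable _ _) (c4.intervalIntegrable _ _),
    intervalIntegral.integral_add (c12.intervalIntegrable _ _) (c3.intervalIntegrable _ _),
    intervalIntegral.integral_add (c1.intervalIntegrable _ _) (c2.intervalIntegrable _ _)]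
  simp only [intervalIntegral.integral_const_mul]
  ring

private theorem sqb_odd (g : ℝ → ℝ) (h : ∀ x, g (-x) = - g x) :
    ∫ x in (-1 : ℝ)..1, g x = 0 := by
  have e := intervalIntegral.integral_comp_neg (a := -1) (b := 1) (f := g)
  rw [neg_neg] at e
  simp only [h, intervalIntegral.integral_neg] at e
  linarith

private theorem sqb_sq : ∫ x in (-1 : ℝ)..1, x ^ 2 = 2 / 3 := by
  rw [integral_pow]
  norm_num

private theorem sqb_quad (A B : ℝ → ℝ) (hA : Continuous A) (hB : Continuous B)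
    (oA : ∀ x, A (-x) = - A x) (eB : ∀ x, B (-x) = B x) (α β γ : ℝ) :
    ∫ x in (-1 : ℝ)..1, (α * A x + β * B x + γ * x) ^ 2 =
      α ^ 2 * (∫ x in (-1 : ℝ)..1, A x ^ 2) + β ^ 2 * (∫ x in (-1 : ℝ)..1, B x ^ 2)
        + γ ^ 2 * (2 / 3) + 2 * α * γ * ∫ x in (-1 : ℝ)..1, x * A x := by
  have e : ∀ x, (α * A x + β * B x + γ * x) ^ 2 = (α ^ 2 * A x ^ 2 + β ^ 2 * B x ^ 2
      + γ ^ 2 * x ^ 2 + (2 * α * γ) * (x * A x))
      + (2 * α * β * (A x * B x) + 2 * β * γ * (x * B x)) := by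
    intro x; ring
  have h0 : ∫ x in (-1 : ℝ)..1, (2 * α * β * (A x * B x) + 2 * β * γ * (x * B x)) = 0 := by
    apply sqb_odd
    intro x
    rw [oA, eB]
    ring
  simp_rw [e]
  have k1 : Continuous fun x : ℝ => α ^ 2 * A x ^ 2 := by fun_prop
  have k2 : Continuous fun x : ℝ => β ^ 2 * B x ^ 2 := by fun_prop
  have k3 : Continuous fun x : ℝ => γ ^ 2 * x ^ 2 := by fun_prop
  have k4 : Continuous fun x : ℝ => (2 * α * γ) * (x * A x) := by fun_prop
  have k5 : Continuous fun x : ℝ => 2 * α * β * (A x * B x) + 2 * β * γ * (x * B x) := by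
    fun_prop
  have k12 : Continuous fun x : ℝ => α ^ 2 * A x ^ 2 + β ^ 2 * B x ^ 2 := by fun_prop
  have k123 : Continuous fun x : ℝ => α ^ 2 * A x ^ 2 + β ^ 2 * B x ^ 2 + γ ^ 2 * x ^ 2 := by
    fun_prop
  have k1234 : Continuous fun x : ℝ => α ^ 2 * A x ^ 2 + β ^ 2 * B x ^ 2 + γ ^ 2 * x ^ 2
      + (2 * α * γ) * (x * A x) := by fun_prop
  rw [intervalIntegral.integral_add (k1234.intervalIntegrable _ _) (k5.intervalIntegrable _ _),
    intervalIntegral.integral_add (k123.intervalIntegrable _ _) (k4.intervalIntegrable _ _),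
    intervalIntegral.integral_add (k12.intervalIntegrable _ _) (k3.intervalIntegrable _ _),
    intervalIntegral.integral_add (k1.intervalIntegrable _ _) (k2.intervalIntegrable _ _), h0]
  simp only [intervalIntegral.integral_const_mul, sqb_sq]
  ring

private theorem sqb_lin (A B : ℝ → ℝ) (hB : Continuous B) (hA : Continuous A)
    (oA : ∀ x, A (-x) = - A x) (α β γ : ℝ) :
    ∫ x in (-1 : ℝ)..1, (α * A x + β * B x + γ * x) = β * ∫ x in (-1 : ℝ)..1, B x := by
  have e : ∀ x, α * A x + β * B x + γ * x = β * B x + (α * A x + γ * x) := by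
    intro x; ring
  have h0 : ∫ x in (-1 : ℝ)..1, (α * A x + γ * x) = 0 := by
    apply sqb_odd
    intro x
    rw [oA]
    ring
  simp_rw [e]
  have k1 : Continuous fun x : ℝ => β * B x := by fun_prop
  have k2 : Continuous fun x : ℝ => α * A x + γ * x := by fun_prop
  rw [intervalIntegral.integral_add (k1.intervalIntegrable _ _) (k2.intervalIntegrable _ _), h0,
    intervalIntegral.integral_const_mul, add_zero]

private theorem sqb_cong (g h : ℝ → ℝ) (e : ∀ x ∈ Set.Icc (-1 : ℝ) 1, g x = h x) :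
    ∫ x in (-1 : ℝ)..1, g x = ∫ x in (-1 : ℝ)..1, h x := by
  refine intervalIntegral.integral_congr fun x hx => ?_
  rw [Set.uIcc_of_le (by norm_num)] at hx
  exact e x hx

private theorem sqb_bd (o p q w : ℂ) (G : ℂ → ℝ) (A B : ℝ → ℝ) (hA : Continuous A)
    (hB : Continuous B) (oA : ∀ x, A (-x) = - A x) (eB : ∀ x, B (-x) = B x) (a b c : ℝ)
    (h1 : ∀ x ∈ Set.Icc (-1 : ℝ) 1, G (psi o p q w (x, -1)) = a * A x + (-b) * B x + (-c) * x)
    (h2 : ∀ x ∈ Set.Icc (-1 : ℝ) 1, G (psi o p q w (x, 1)) = a * A x + b * B x + c * x)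
    (h3 : ∀ x ∈ Set.Icc (-1 : ℝ) 1, G (psi o p q w (1, x)) = b * A x + a * B x + c * x)
    (h4 : ∀ x ∈ Set.Icc (-1 : ℝ) 1, G (psi o p q w (-1, x)) = b * A x + (-a) * B x + (-c) * x) :
    bd4 (vA o p q w) (vB o p q w) (vC o p q w) (vD o p q w) (fun z => G z ^ 2) =
      (‖p + w‖ + ‖p - w‖) * (a ^ 2 * (∫ x in (-1 : ℝ)..1, A x ^ 2)
          + b ^ 2 * (∫ x in (-1 : ℝ)..1, B x ^ 2) + c ^ 2 * (2 / 3))
        + (‖q + w‖ + ‖q - w‖) * (b ^ 2 * (∫ x in (-1 : ℝ)..1, A x ^ 2)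
          + a ^ 2 * (∫ x in (-1 : ℝ)..1, B x ^ 2) + c ^ 2 * (2 / 3))
        + 2 * c * (a * (‖p + w‖ - ‖p - w‖) + b * (‖q + w‖ - ‖q - w‖))
          * (∫ x in (-1 : ℝ)..1, x * A x) ∧
    bd4 (vA o p q w) (vB o p q w) (vC o p q w) (vD o p q w) G =
      (b * (‖p + w‖ - ‖p - w‖) + a * (‖q + w‖ - ‖q - w‖)) * ∫ x in (-1 : ℝ)..1, B x := by
  constructor
  · unfold bd4
    rw [sqb_sAB, sqb_sBC, sqb_sCD, sqb_sDA]
    rw [sqb_cong (fun x => G (psi o p q w (x, -1)) ^ 2)
        (fun x => (a * A x + (-b) * B x + (-c) * x) ^ 2) (fun x hx => by simp only [h1 x hx]),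
      sqb_cong (fun x => G (psi o p q w (1, x)) ^ 2)
        (fun x => (b * A x + a * B x + c * x) ^ 2) (fun x hx => by simp only [h3 x hx]),
      sqb_cong (fun x => G (psi o p q w (x, 1)) ^ 2)
        (fun x => (a * A x + b * B x + c * x) ^ 2) (fun x hx => by simp only [h2 x hx]),
      sqb_cong (fun x => G (psi o p q w (-1, x)) ^ 2)
        (fun x => (b * A x + (-a) * B x + (-c) * x) ^ 2) (fun x hx => by simp only [h4 x hx]),
      sqb_quad A B hA hB oA eB, sqb_quad A B hA hB oA eB, sqb_quad A B hA hB oA eB,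
      sqb_quad A B hA hB oA eB]
    ring
  · unfold bd4
    rw [sqb_sAB, sqb_sBC, sqb_sCD, sqb_sDA]
    rw [sqb_cong (fun x => G (psi o p q w (x, -1)))
        (fun x => (a * A x + (-b) * B x + (-c) * x)) (fun x hx => by simp only [h1 x hx]),
      sqb_cong (fun x => G (psi o p q w (1, x)))
        (fun x => (b * A x + a * B x + c * x)) (fun x hx => by simp only [h3 x hx]),
      sqb_cong (fun x => G (psi o p q w (x, 1)))
        (fun x => (a * A x + b * B x + c * x)) (fun x hx => by simp only [h2 x hx]),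
      sqb_cong (fun x => G (psi o p q w (-1, x)))
        (fun x => (b * A x + (-a) * B x + (-c) * x)) (fun x hx => by simp only [h4 x hx]),
      sqb_lin A B hB hA oA, sqb_lin A B hB hA oA, sqb_lin A B hB hA oA, sqb_lin A B hB hA oA]
    ring

private theorem sqb_ab (p w : ℂ) : la p w * lb p w = ip p w := by
  unfold la lb ip
  have e1 : ‖p + w‖ ^ 2 = (p.re + w.re) ^ 2 + (p.im + w.im) ^ 2 := by
    rw [← Complex.normSq_eq_norm_sq, Complex.normSq_apply]
    simp only [Complex.add_re, Complex.add_im]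
    ring
  have e2 : ‖p - w‖ ^ 2 = (p.re - w.re) ^ 2 + (p.im - w.im) ^ 2 := by
    rw [← Complex.normSq_eq_norm_sq, Complex.normSq_apply]
    simp only [Complex.sub_re, Complex.sub_im]
    ring
  nlinarith

private theorem sqb_la_pos (p q w : ℂ) (hd : 0 < cr p q) : 0 < la p w + la q w := by
  have h1 : 0 ≤ la p w := by unfold la; positivity
  have h2 : 0 ≤ la q w := by unfold la; positivity
  rcases h1.eq_or_lt with h | h
  · exfalso
    unfold la at h
    have n1 : 0 ≤ ‖p + w‖ := norm_nonneg _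
    have n2 : 0 ≤ ‖p - w‖ := norm_nonneg _
    have m1 : ‖p + w‖ = 0 := by linarith
    have m2 : ‖p - w‖ = 0 := by linarith
    rw [norm_eq_zero] at m1 m2
    have hp : p = 0 := by
      have : (2 : ℂ) * p = 0 := by linear_combination m1 + m2
      simpa using this
    rw [hp] at hd
    simp [cr] at hd
  · linarith

/-- SQ-BDRY The centred boundary norm of the trial function. -/
theorem bd_formula (o p q w : ℂ) (hd : 0 < cr p q) {f : ℝ × ℝ → ℝ} (hf : Continuous f)
    (hOE : OE f) (κ : ℝ) {G1 G2 : ℂ → ℝ} (h1 : Continuous G1) (h2 : Continuous G2)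
    (hG1 : ∀ z ∈ Sq, G1 (psi o p q w z) = (FF f κ p q w z).re)
    (hG2 : ∀ z ∈ Sq, G2 (psi o p q w z) = (FF f κ p q w z).im) :
    bd4 (vA o p q w) (vB o p q w) (vC o p q w) (vD o p q w) (fun z => G1 z ^ 2)
      + bd4 (vA o p q w) (vB o p q w) (vC o p q w) (vD o p q w) (fun z => G2 z ^ 2)
      - (bd4 (vA o p q w) (vB o p q w) (vC o p q w) (vD o p q w) G1 ^ 2
        + bd4 (vA o p q w) (vB o p q w) (vC o p q w) (vD o p q w) G2 ^ 2)
        / perim4 (vA o p q w) (vB o p q w) (vC o p q w) (vD o p q w) = NB f κ p q w := by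
  have hA : Continuous fun x : ℝ => f (x, 1) := by fun_prop
  have hB : Continuous fun x : ℝ => f (1, x) := by fun_prop
  have oA : ∀ x : ℝ, f (-x, 1) = - f (x, 1) := fun x => hOE.1 x 1
  have eB : ∀ x : ℝ, f (1, -x) = f (1, x) := fun x => hOE.2 1 x
  have f1 : ∀ x : ℝ, f (x, -1) = f (x, 1) := fun x => hOE.2 x 1
  have f2 : ∀ x : ℝ, f (-1, x) = - f (1, x) := fun x => hOE.1 1 x
  have m1 : ∀ x ∈ Set.Icc (-1 : ℝ) 1, (x, (-1 : ℝ)) ∈ Sq := fun x hx => ⟨hx, by norm_num⟩
  have m2 : ∀ x ∈ Set.Icc (-1 : ℝ) 1, (x, (1 : ℝ)) ∈ Sq := fun x hx => ⟨hx, by norm_num⟩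
  have m3 : ∀ x ∈ Set.Icc (-1 : ℝ) 1, ((1 : ℝ), x) ∈ Sq := fun x hx => ⟨by norm_num, hx⟩
  have m4 : ∀ x ∈ Set.Icc (-1 : ℝ) 1, ((-1 : ℝ), x) ∈ Sq := fun x hx => ⟨by norm_num, hx⟩
  obtain ⟨R1, R2⟩ := sqb_bd o p q w G1 (fun x => f (x, 1)) (fun x => f (1, x)) hA hB oA eB
    p.re q.re (κ * w.re)
    (fun x hx => by
      rw [hG1 _ (m1 x hx)]
      simp only [FF, Prod.swap, Complex.add_re, Complex.re_ofReal_mul, f1, f2]
      ring)
    (fun x hx => by
      rw [hG1 _ (m2 x hx)]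
      simp only [FF, Prod.swap, Complex.add_re, Complex.re_ofReal_mul, f1, f2]
      ring)
    (fun x hx => by
      rw [hG1 _ (m3 x hx)]
      simp only [FF, Prod.swap, Complex.add_re, Complex.re_ofReal_mul, f1, f2]
      ring)
    (fun x hx => by
      rw [hG1 _ (m4 x hx)]
      simp only [FF, Prod.swap, Complex.add_re, Complex.re_ofReal_mul, f1, f2]
      ring)
  obtain ⟨I1, I2⟩ := sqb_bd o p q w G2 (fun x => f (x, 1)) (fun x => f (1, x)) hA hB oA eB
    p.im q.im (κ * w.im)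
    (fun x hx => by
      rw [hG2 _ (m1 x hx)]
      simp only [FF, Prod.swap, Complex.add_im, Complex.im_ofReal_mul, f1, f2]
      ring)
    (fun x hx => by
      rw [hG2 _ (m2 x hx)]
      simp only [FF, Prod.swap, Complex.add_im, Complex.im_ofReal_mul, f1, f2]
      ring)
    (fun x hx => by
      rw [hG2 _ (m3 x hx)]
      simp only [FF, Prod.swap, Complex.add_im, Complex.im_ofReal_mul, f1, f2]
      ring)
    (fun x hx => by
      rw [hG2 _ (m4 x hx)]
      simp only [FF, Prod.swap, Complex.add_im, Complex.im_ofReal_mul, f1, f2]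
      ring)
  rw [R1, R2, I1, I2, perim4_v]
  have ea := sqb_ab p w
  have eb := sqb_ab q w
  have hpos := sqb_la_pos p q w hd
  have s1 : ‖p + w‖ + ‖p - w‖ = 2 * la p w := by unfold la; ring
  have s2 : ‖q + w‖ + ‖q - w‖ = 2 * la q w := by unfold la; ring
  have s3 : ‖p + w‖ - ‖p - w‖ = 2 * lb p w := by unfold lb; ring
  have s4 : ‖q + w‖ - ‖q - w‖ = 2 * lb q w := by unfold lb; ring
  rw [s1, s2, s3, s4]
  unfold NB cso cse csx cme
  set a := la p w
  set b := la q w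
  set δ := lb p w
  set ε := lb q w
  set I2A := ∫ x in (-1 : ℝ)..1, f (x, 1) ^ 2
  set I2B := ∫ x in (-1 : ℝ)..1, f (1, x) ^ 2
  set IX := ∫ x in (-1 : ℝ)..1, x * f (x, 1)
  set IB := ∫ x in (-1 : ℝ)..1, f (1, x)
  have t1 : a * δ ^ 2 = δ * (p.re * w.re + p.im * w.im) := by
    have : ip p w = p.re * w.re + p.im * w.im := rfl
    rw [← this, ← ea]; ring
  have t2 : b * ε ^ 2 = ε * (q.re * w.re + q.im * w.im) := by
    have : ip q w = q.re * w.re + q.im * w.im := rfl
    rw [← this, ← eb]; ring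
  rw [t1, t2]
  simp only [ip]
  field_simp
  ring

end Pool.Agent.Sq4
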