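import Pool.Agent.Stk.Defs

/-!
# The first Steklov eigenvalue of quadrilaterals: definitions

MP_b1ddb4_an, the case `n = 4`.  The plane is `ℂ`.
-/

set_option autoImplicit false

noncomputable section

namespace Pool.Agent.Sq4

open MeasureTheory Pool.Agent.Stk

/-! ### the problem -/

/-- Integral of `f` over the boundary of the quadrilateral `A B C D` with respect to arc length. -/
def bd4 (A B C D : ℂ) (f : ℂ → ℝ) : ℝ :=
  segInt A B f + segInt B C f + segInt C D f + segInt D A f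

/-- The open quadrilateral with vertices `A, B, C, D` and inner diagonal `A C`: the interior of
the union of the closed triangles `A B C` and `A C D`. -/
def quad (A B C D : ℂ) : Set ℂ :=
  interior (convexHull ℝ {A, B, C} ∪ convexHull ℝ {A, C, D})

/-- `A B C D` are the vertices (in this order) of a simple quadrilateral with inner diagonal
`A C`: the triangles `A B C` and `A C D` are nondegenerate and have the same orientation. -/
def Adm (A B C D : ℂ) : Prop := 0 < det2 A B C * det2 A C D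

/-- Dirichlet integral of `u` over the open quadrilateral: `∫ |∇u|²`. -/
def dir4 (A B C D : ℂ) (u : ℂ → ℝ) : ℝ :=
  ∫ z in quad A B C D, ((fderiv ℝ u z 1) ^ 2 + (fderiv ℝ u z Complex.I) ^ 2)

/-- First Steklov eigenvalue of the quadrilateral `A B C D`: the infimum of
`∫_Ω |∇u|² / ∫_{∂Ω} u²` over the functions `u` of class `C^k` on the plane with
`∫_{∂Ω} u = 0` which do not vanish identically on the boundary. -/
def sig4 (k : WithTop ℕ∞) (A B C D : ℂ) : ℝ :=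
  sInf {x : ℝ | ∃ u : ℂ → ℝ, ContDiff ℝ k u ∧ bd4 A B C D u = 0 ∧
    bd4 A B C D (fun z => u z ^ 2) ≠ 0 ∧
      x = dir4 A B C D u / bd4 A B C D (fun z => u z ^ 2)}

/-- Perimeter of the quadrilateral. -/
def perim4 (A B C D : ℂ) : ℝ := dist A B + dist B C + dist C D + dist D A

/-- Area of the quadrilateral. -/
def area4 (A B C D : ℂ) : ℝ := volume.real (quad A B C D)

/-- `Ω` is a polygon with exactly the four edges `[A,B], [B,C], [C,D], [D,A]`: a bounded open set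
whose boundary is the simple closed polygonal curve with these edges. -/
structure Poly4 (Ω : Set ℂ) (A B C D : ℂ) : Prop where
  isOpen : IsOpen Ω
  bounded : Bornology.IsBounded Ω
  frontier_eq : frontier Ω = segment ℝ A B ∪ segment ℝ B C ∪ segment ℝ C D ∪ segment ℝ D A
  corner_A : segment ℝ D A ∩ segment ℝ A B = {A}
  corner_B : segment ℝ A B ∩ segment ℝ B C = {B}
  corner_C : segment ℝ B C ∩ segment ℝ C D = {C}
  corner_D : segment ℝ C D ∩ segment ℝ D A = {D}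
  opp_1 : Disjoint (segment ℝ A B) (segment ℝ C D)
  opp_2 : Disjoint (segment ℝ B C) (segment ℝ D A)
  angle_A : ¬ Collinear ℝ {D, A, B}
  angle_B : ¬ Collinear ℝ {A, B, C}
  angle_C : ¬ Collinear ℝ {B, C, D}
  angle_D : ¬ Collinear ℝ {C, D, A}

/-- First Steklov eigenvalue of a polygon `Ω` with the edges `[A,B], [B,C], [C,D], [D,A]`: the
infimum of `∫_Ω |∇u|² / ∫_{∂Ω} u²` over the functions `u` of class `C^k` on the plane with
`∫_{∂Ω} u = 0` which do not vanish identically on the boundary. -/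
def sigP (k : WithTop ℕ∞) (Ω : Set ℂ) (A B C D : ℂ) : ℝ :=
  sInf {x : ℝ | ∃ u : ℂ → ℝ, ContDiff ℝ k u ∧ bd4 A B C D u = 0 ∧
    bd4 A B C D (fun z => u z ^ 2) ≠ 0 ∧
      x = (∫ z in Ω, ((fderiv ℝ u z 1) ^ 2 + (fderiv ℝ u z Complex.I) ^ 2))
        / bd4 A B C D (fun z => u z ^ 2)}

/-- Equal sides and equal diagonals. -/
def IsSq (A B C D : ℂ) : Prop :=
  dist A B = dist B C ∧ dist B C = dist C D ∧ dist C D = dist D A ∧ dist A C = dist B D

/-! ### coordinates -/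

/-- Inner product in the plane. -/
def ip (a b : ℂ) : ℝ := a.re * b.re + a.im * b.im

/-- Cross product in the plane. -/
def cr (a b : ℂ) : ℝ := a.re * b.im - a.im * b.re

/-- Vertices in terms of the centre `o`, the half diagonals of the Varignon parallelogram `p, q`
and the defect `w`. -/
def vA (o p q w : ℂ) : ℂ := o - p - q + w
/-- second vertex -/
def vB (o p q w : ℂ) : ℂ := o + p - q - w
/-- third vertex -/
def vC (o p q w : ℂ) : ℂ := o + p + q + w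
/-- fourth vertex -/
def vD (o p q w : ℂ) : ℂ := o - p + q - w

/-- The bilinear map. -/
def psi (o p q w : ℂ) (z : ℝ × ℝ) : ℂ := o + z.1 * p + z.2 * q + z.1 * z.2 * w

/-- The square `[-1,1] × [-1,1]`. -/
def Sq : Set (ℝ × ℝ) := Set.Icc (-1) 1 ×ˢ Set.Icc (-1) 1

/-- Jacobian of `psi`. -/
def Jc (p q w : ℂ) (z : ℝ × ℝ) : ℝ := cr p q + z.1 * cr p w + z.2 * cr w q

/-- The quadrilateral is (strictly) convex and positively oriented. -/
def Cvx (p q w : ℂ) : Prop := |cr p w| + |cr w q| < cr p q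

/-- Boundary integral on the square. -/
def bdS (g : ℝ × ℝ → ℝ) : ℝ :=
  ∫ x in (-1 : ℝ)..1, (g (x, 1) + g (x, -1) + g (1, x) + g (-1, x))

/-- Dirichlet integral on the square. -/
def dirS (g : ℝ × ℝ → ℝ) : ℝ := ∫ z in Sq, (dS g z ^ 2 + dT g z ^ 2)

/-! ### trial functions -/

/-- Odd in the first, even in the second variable. -/
def OE (f : ℝ × ℝ → ℝ) : Prop :=
  (∀ x y, f (-x, y) = - f (x, y)) ∧ (∀ x y, f (x, -y) = f (x, y))

/-- The trial function `f(x,y) p + f(y,x) q + κ x y w`. -/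
def FF (f : ℝ × ℝ → ℝ) (κ : ℝ) (p q w : ℂ) (z : ℝ × ℝ) : ℂ :=
  (f z : ℂ) * p + (f z.swap : ℂ) * q + ((κ * z.1 * z.2 : ℝ) : ℂ) * w

/-- Constants of `f`. -/
def cso (f : ℝ × ℝ → ℝ) : ℝ := ∫ x in (-1 : ℝ)..1, f (x, 1) ^ 2
/-- Constants of `f`. -/
def cse (f : ℝ × ℝ → ℝ) : ℝ := ∫ x in (-1 : ℝ)..1, f (1, x) ^ 2
/-- Constants of `f`. -/
def csx (f : ℝ × ℝ → ℝ) : ℝ := ∫ x in (-1 : ℝ)..1, x * f (x, 1)
/-- Constants of `f`. -/
def cme (f : ℝ × ℝ → ℝ) : ℝ := ∫ x in (-1 : ℝ)..1, f (1, x)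
/-- Constants of `f`. -/
def cE1 (f : ℝ × ℝ → ℝ) : ℝ := ∫ z in Sq, dS f z ^ 2
/-- Constants of `f`. -/
def cE2 (f : ℝ × ℝ → ℝ) : ℝ := ∫ z in Sq, dT f z ^ 2
/-- Constants of `f`. -/
def cK (f : ℝ × ℝ → ℝ) : ℝ := ∫ z in Sq, (dS f z * dS f z.swap + dT f z * dT f z.swap)

/-- Mean half length of the sides in direction `p`. -/
def la (p w : ℂ) : ℝ := (‖p + w‖ + ‖p - w‖) / 2

/-- Half difference of the half lengths of the sides in direction `p`. -/
def lb (p w : ℂ) : ℝ := (‖p + w‖ - ‖p - w‖) / 2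

/-- Boundary norm of the trial function (centred). -/
def NB (f : ℝ × ℝ → ℝ) (κ : ℝ) (p q w : ℂ) : ℝ :=
  2 * la p w * (cso f * ip p p + cse f * ip q q) + 2 * la q w * (cse f * ip p p + cso f * ip q q)
    + 4 / 3 * κ ^ 2 * ip w w * (la p w + la q w)
    + 4 * csx f * κ * (la p w * lb p w ^ 2 + la q w * lb q w ^ 2)
    - cme f ^ 2 * (lb p w ^ 2 * ip q q + lb q w ^ 2 * ip p p + 2 * lb p w * lb q w * ip p q)
      / (la p w + la q w)

/-- `B = (Df̂ - κ) ŵ`, first component (times the Jacobian `cr p q`). -/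
def B1 (f : ℝ × ℝ → ℝ) (κ : ℝ) (p q w : ℂ) (z : ℝ × ℝ) : ℝ :=
  cr w q * (dS f z - κ) + cr p w * dT f z

/-- `B = (Df̂ - κ) ŵ`, second component (times the Jacobian `cr p q`). -/
def B2 (f : ℝ × ℝ → ℝ) (κ : ℝ) (p q w : ℂ) (z : ℝ × ℝ) : ℝ :=
  cr w q * dT f z.swap + cr p w * (dS f z.swap - κ)

/-- The quadratic form of the interaction energy (times `(cr p q)^2`). -/
def ph (f : ℝ × ℝ → ℝ) (κ : ℝ) (p q w : ℂ) (z : ℝ × ℝ) : ℝ :=
  (ip p p * z.1 ^ 2 + ip q q * z.2 ^ 2 - 2 * ip p q * z.1 * z.2) *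
    (ip p p * B1 f κ p q w z ^ 2 + ip q q * B2 f κ p q w z ^ 2
      + 2 * ip p q * B1 f κ p q w z * B2 f κ p q w z)

/-- `cr p q * η`. -/
def et (p q w : ℂ) (z : ℝ × ℝ) : ℝ := z.1 * cr p w + z.2 * cr w q

/-- Interaction energy. -/
def TT (f : ℝ × ℝ → ℝ) (κ : ℝ) (p q w : ℂ) : ℝ :=
  (∫ z in Sq, ph f κ p q w z / (cr p q ^ 2 - et p q w z ^ 2)) / cr p q

/-- Energy of the trial function for `w = 0`. -/
def DV (f : ℝ × ℝ → ℝ) (p q : ℂ) : ℝ :=
  (2 * ip p p * ip q q * cE1 f + (ip p p ^ 2 + ip q q ^ 2) * cE2 f - 2 * ip p q ^ 2 * cK f)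
    / cr p q

/-- Energy density of `h` transplanted by `psi`. -/
def en (p q w : ℂ) (h : ℝ × ℝ → ℝ) (z : ℝ × ℝ) : ℝ :=
  (ip (q + z.1 * w) (q + z.1 * w) * dS h z ^ 2
    - 2 * ip (p + z.2 * w) (q + z.1 * w) * dS h z * dT h z
    + ip (p + z.2 * w) (p + z.2 * w) * dT h z ^ 2) / Jc p q w z

/-! ### normalised shapes -/

/-- Normalised shape data. -/
structure Shp (t R u v c X d : ℝ) : Prop where
  ht1 : -1 < t
  ht2 : t < 1
  hu0 : 0 ≤ u
  hu : u ≤ R
  hv0 : 0 ≤ v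
  hv : v ≤ R
  hR1 : R ≤ (1 + t) ^ 2
  hR2 : R ≤ (1 - t) ^ 2
  hX : X ^ 2 = u * v
  hd : 0 < d
  hP : 0 < (1 + t) ^ 2 + u - R
  hQ : 0 < (1 - t) ^ 2 + v - R
  hd2 : d ^ 2 = ((1 + t) ^ 2 + u - R) * ((1 - t) ^ 2 + v - R) - c ^ 2
  hG : R * d ^ 2 = (1 + t) ^ 2 * u * ((1 - t) ^ 2 + v - R)
    + (1 - t) ^ 2 * v * ((1 + t) ^ 2 + u - R) - 2 * c * (1 - t ^ 2) * X

/-- Boundary norm of the position vector (divided by 8). -/
def FA (t R u v c X : ℝ) : ℝ :=
  4 / 3 - R + u + v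
    - (u * (1 - t) ^ 2 + v * (1 + t) ^ 2 - R * (u + v) + 2 * u * v + 2 * X * c) / 4

end Pool.Agent.Sq4
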