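import Pool.Agent.Sq4.EnergyPt

/-!
# SQ-ENERGY2: energy of the trial functions
-/

set_option autoImplicit false

noncomputable section

namespace Pool.Agent.Sq4

open MeasureTheory Pool.Agent.Stk

private theorem isCompact_Sq : IsCompact Sq := isCompact_Icc.prod isCompact_Icc

private theorem mem_Sq' {z : ℝ × ℝ} : z ∈ Sq ↔ |z.1| ≤ 1 ∧ |z.2| ≤ 1 := by
  rw [Sq, Set.mem_prod, Set.mem_Icc, Set.mem_Icc, abs_le, abs_le]

private theorem intOn {g : ℝ × ℝ → ℝ} (hg : ContinuousOn g Sq) : IntegrableOn g Sq :=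
  hg.integrableOn_compact isCompact_Sq

private theorem int_neg (g : ℝ × ℝ → ℝ) : (∫ z in Sq, g (-z)) = ∫ z in Sq, g z := by
  have h := (Measure.measurePreserving_neg (volume : Measure (ℝ × ℝ))).setIntegral_preimage_emb
    (MeasurableEquiv.neg (ℝ × ℝ)).measurableEmbedding g Sq
  have hs : (Neg.neg : ℝ × ℝ → ℝ × ℝ) ⁻¹' Sq = Sq := by
    ext z
    simp [mem_Sq']
  rw [hs] at h
  exact h

private theorem int_swap (g : ℝ × ℝ → ℝ) : (∫ z in Sq, g z.swap) = ∫ z in Sq, g z := by
  have h := (Measure.measurePreserving_swap (μ := (volume : Measure ℝ))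
    (ν := (volume : Measure ℝ))).setIntegral_preimage_emb
    MeasurableEquiv.prodComm.measurableEmbedding g Sq
  have hs : (Prod.swap : ℝ × ℝ → ℝ × ℝ) ⁻¹' Sq = Sq := by
    ext z
    simp only [Set.mem_preimage, mem_Sq', Prod.fst_swap, Prod.snd_swap]
    tauto
  rw [hs] at h
  exact h

private theorem int_refl (g : ℝ × ℝ → ℝ) : (∫ z in Sq, g (-z.1, z.2)) = ∫ z in Sq, g z := by
  have h1 : MeasurePreserving (Prod.map (Neg.neg : ℝ → ℝ) (id : ℝ → ℝ))
      ((volume : Measure ℝ).prod volume) ((volume : Measure ℝ).prod volume) :=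
    (Measure.measurePreserving_neg (volume : Measure ℝ)).prod (MeasurePreserving.id volume)
  have h2 : MeasurableEmbedding (Prod.map (Neg.neg : ℝ → ℝ) (id : ℝ → ℝ)) :=
    ((MeasurableEquiv.neg ℝ).prodCongr (MeasurableEquiv.refl ℝ)).measurableEmbedding
  have h := h1.setIntegral_preimage_emb h2 g Sq
  have hs : (Prod.map (Neg.neg : ℝ → ℝ) (id : ℝ → ℝ)) ⁻¹' Sq = Sq := by
    ext z
    simp [mem_Sq']
  rw [hs] at h
  exact h

/-- reflection in the first variable -/
private def s1 : ℝ × ℝ →L[ℝ] ℝ × ℝ :=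
  (-ContinuousLinearMap.fst ℝ ℝ ℝ).prod (ContinuousLinearMap.snd ℝ ℝ ℝ)

/-- reflection in the second variable -/
private def s2 : ℝ × ℝ →L[ℝ] ℝ × ℝ :=
  (ContinuousLinearMap.fst ℝ ℝ ℝ).prod (-ContinuousLinearMap.snd ℝ ℝ ℝ)

private theorem s1_apply (z : ℝ × ℝ) : s1 z = (-z.1, z.2) := rfl

private theorem s2_apply (z : ℝ × ℝ) : s2 z = (z.1, -z.2) := rfl

private theorem fd_comp {f : ℝ × ℝ → ℝ} (hf : ContDiff ℝ 1 f) (s : ℝ × ℝ →L[ℝ] ℝ × ℝ)
    (z : ℝ × ℝ) : fderiv ℝ (fun z => f (s z)) z = (fderiv ℝ f (s z)).comp s := by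
  have h1 : DifferentiableAt ℝ f (s z) := (hf.differentiable (by norm_num)) _
  have h := fderiv_comp z h1 s.differentiableAt
  rw [ContinuousLinearMap.fderiv] at h
  exact h

private theorem dS_s1 {f : ℝ × ℝ → ℝ} (hf : ContDiff ℝ 1 f) (hOE : OE f) (x y : ℝ) :
    dS f (-x, y) = dS f (x, y) := by
  have h := fd_comp hf s1 (x, y)
  have h1 : (fun z => f (s1 z)) = fun z => - f z := by
    funext z
    rw [s1_apply]
    exact hOE.1 z.1 z.2
  rw [h1, fderiv_fun_neg] at h
  have h2 := congrArg (fun L : ℝ × ℝ →L[ℝ] ℝ => L (1, 0)) h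
  simp only [neg_apply, ContinuousLinearMap.comp_apply, s1_apply] at h2
  have h3 : ((-1 : ℝ), (0 : ℝ)) = -(1, 0) := by simp
  rw [h3, map_neg] at h2
  simp only [dS]
  linarith

private theorem dT_s1 {f : ℝ × ℝ → ℝ} (hf : ContDiff ℝ 1 f) (hOE : OE f) (x y : ℝ) :
    dT f (-x, y) = - dT f (x, y) := by
  have h := fd_comp hf s1 (x, y)
  have h1 : (fun z => f (s1 z)) = fun z => - f z := by
    funext z
    rw [s1_apply]
    exact hOE.1 z.1 z.2
  rw [h1, fderiv_fun_neg] at h
  have h2 := congrArg (fun L : ℝ × ℝ →L[ℝ] ℝ => L (0, 1)) h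
  simp only [neg_apply, ContinuousLinearMap.comp_apply, s1_apply,
    neg_zero] at h2
  simp only [dT]
  linarith

private theorem dS_s2 {f : ℝ × ℝ → ℝ} (hf : ContDiff ℝ 1 f) (hOE : OE f) (x y : ℝ) :
    dS f (x, -y) = dS f (x, y) := by
  have h := fd_comp hf s2 (x, y)
  have h1 : (fun z => f (s2 z)) = fun z => f z := by
    funext z
    rw [s2_apply]
    exact hOE.2 z.1 z.2
  rw [h1] at h
  have h2 := congrArg (fun L : ℝ × ℝ →L[ℝ] ℝ => L (1, 0)) h
  simp only [ContinuousLinearMap.comp_apply, s2_apply, neg_zero] at h2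
  simp only [dS]
  linarith

private theorem dT_s2 {f : ℝ × ℝ → ℝ} (hf : ContDiff ℝ 1 f) (hOE : OE f) (x y : ℝ) :
    dT f (x, -y) = - dT f (x, y) := by
  have h := fd_comp hf s2 (x, y)
  have h1 : (fun z => f (s2 z)) = fun z => f z := by
    funext z
    rw [s2_apply]
    exact hOE.2 z.1 z.2
  rw [h1] at h
  have h2 := congrArg (fun L : ℝ × ℝ →L[ℝ] ℝ => L (0, 1)) h
  simp only [ContinuousLinearMap.comp_apply, s2_apply] at h2
  have h3 : ((0 : ℝ), (-1 : ℝ)) = -(0, 1) := by simp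
  rw [h3, map_neg] at h2
  simp only [dT]
  linarith

private theorem cont_dS {f : ℝ × ℝ → ℝ} (hf : ContDiff ℝ 1 f) : Continuous (dS f) :=
  (hf.continuous_fderiv (by norm_num)).clm_apply continuous_const

private theorem cont_dT {f : ℝ × ℝ → ℝ} (hf : ContDiff ℝ 1 f) : Continuous (dT f) :=
  (hf.continuous_fderiv (by norm_num)).clm_apply continuous_const

private theorem et_lt (p q w : ℂ) (hC : Cvx p q w) {z : ℝ × ℝ} (hz : z ∈ Sq) :
    |et p q w z| < cr p q := by
  rw [mem_Sq'] at hz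
  have h1 : |z.1 * cr p w| ≤ |cr p w| := by
    rw [abs_mul]
    exact mul_le_of_le_one_left (abs_nonneg _) hz.1
  have h2 : |z.2 * cr w q| ≤ |cr w q| := by
    rw [abs_mul]
    exact mul_le_of_le_one_left (abs_nonneg _) hz.2
  have h3 := abs_add_le (z.1 * cr p w) (z.2 * cr w q)
  have h4 : |cr p w| + |cr w q| < cr p q := hC
  unfold et
  linarith

private theorem cr_pos (p q w : ℂ) (hC : Cvx p q w) : 0 < cr p q := by
  have h4 : |cr p w| + |cr w q| < cr p q := hC
  have := abs_nonneg (cr p w)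
  have := abs_nonneg (cr w q)
  linarith

private theorem Jc_ne (p q w : ℂ) (hC : Cvx p q w) {z : ℝ × ℝ} (hz : z ∈ Sq) :
    Jc p q w z ≠ 0 := by
  have h := abs_lt.mp (et_lt p q w hC hz)
  have : Jc p q w z = cr p q + et p q w z := by unfold Jc et; ring
  rw [this]
  have := h.1
  intro h0
  linarith

private theorem den_ne (p q w : ℂ) (hC : Cvx p q w) {z : ℝ × ℝ} (hz : z ∈ Sq) :
    cr p q ^ 2 - et p q w z ^ 2 ≠ 0 := by
  have h := et_lt p q w hC hz
  have h2 := sq_lt_sq' (abs_lt.mp h).1 (abs_lt.mp h).2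
  intro h0
  linarith

private theorem cont_ip {a b : ℝ × ℝ → ℂ} (ha : Continuous a) (hb : Continuous b) :
    Continuous (fun z => ip (a z) (b z)) := by
  unfold ip
  exact ((Complex.continuous_re.comp ha).mul (Complex.continuous_re.comp hb)).add
    ((Complex.continuous_im.comp ha).mul (Complex.continuous_im.comp hb))

private theorem cont_en (p q w : ℂ) (hC : Cvx p q w) {h : ℝ × ℝ → ℝ} (hh : ContDiff ℝ 1 h) :
    ContinuousOn (en p q w h) Sq := by
  unfold en
  refine ContinuousOn.div ?_ ?_ fun z hz => Jc_ne p q w hC hz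
  · refine Continuous.continuousOn ?_
    have h1 : Continuous fun z : ℝ × ℝ => q + (z.1 : ℂ) * w :=
      continuous_const.add ((Complex.continuous_ofReal.comp continuous_fst).mul continuous_const)
    have h2 : Continuous fun z : ℝ × ℝ => p + (z.2 : ℂ) * w :=
      continuous_const.add ((Complex.continuous_ofReal.comp continuous_snd).mul continuous_const)
    have hS := cont_dS hh
    have hT := cont_dT hh
    exact (((cont_ip h1 h1).mul (hS.pow 2)).sub
      (((continuous_const.mul (cont_ip h2 h1)).mul hS).mul hT)).add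
      ((cont_ip h2 h2).mul (hT.pow 2))
  · refine Continuous.continuousOn ?_
    unfold Jc
    fun_prop

private theorem FF_re_cd (p q w : ℂ) {f : ℝ × ℝ → ℝ} (hf : ContDiff ℝ 1 f) (κ : ℝ) :
    ContDiff ℝ 1 (fun z => (FF f κ p q w z).re) := by
  have hsw : ContDiff ℝ 1 (fun z : ℝ × ℝ => f z.swap) :=
    hf.comp (contDiff_snd.prodMk contDiff_fst)
  have h : (fun z => (FF f κ p q w z).re) =
      fun z : ℝ × ℝ => f z * p.re + f z.swap * q.re + (κ * z.1 * z.2) * w.re := by
    funext z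
    simp [FF]
  rw [h]
  exact ((hf.mul contDiff_const).add (hsw.mul contDiff_const)).add
    (((contDiff_const.mul contDiff_fst).mul contDiff_snd).mul contDiff_const)

private theorem FF_im_cd (p q w : ℂ) {f : ℝ × ℝ → ℝ} (hf : ContDiff ℝ 1 f) (κ : ℝ) :
    ContDiff ℝ 1 (fun z => (FF f κ p q w z).im) := by
  have hsw : ContDiff ℝ 1 (fun z : ℝ × ℝ => f z.swap) :=
    hf.comp (contDiff_snd.prodMk contDiff_fst)
  have h : (fun z => (FF f κ p q w z).im) =
      fun z : ℝ × ℝ => f z * p.im + f z.swap * q.im + (κ * z.1 * z.2) * w.im := by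
    funext z
    simp [FF]
  rw [h]
  exact ((hf.mul contDiff_const).add (hsw.mul contDiff_const)).add
    (((contDiff_const.mul contDiff_fst).mul contDiff_snd).mul contDiff_const)

private theorem odd_zero (p q : ℂ) {f : ℝ × ℝ → ℝ} (hf : ContDiff ℝ 1 f) (hOE : OE f) :
    (∫ z in Sq, (dS f z - dS f z.swap) * (ip q q * dT f z.swap - ip p p * dT f z)) = 0 := by
  have h := int_refl (fun z => (dS f z - dS f z.swap) *
    (ip q q * dT f z.swap - ip p p * dT f z))
  have h2 : (∫ z in Sq, (dS f (-z.1, z.2) - dS f (Prod.swap (-z.1, z.2))) *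
      (ip q q * dT f (Prod.swap (-z.1, z.2)) - ip p p * dT f (-z.1, z.2))) =
      ∫ z in Sq, -((dS f z - dS f z.swap) * (ip q q * dT f z.swap - ip p p * dT f z)) := by
    refine setIntegral_congr_fun isCompact_Sq.measurableSet fun z _ => ?_
    obtain ⟨x, y⟩ := z
    simp only [Prod.swap_prod_mk]
    rw [dS_s1 hf hOE, dT_s1 hf hOE, dS_s2 hf hOE, dT_s2 hf hOE]
    ring
  rw [h2, integral_neg] at h
  linarith

/-- SQ-ENERGY.2 Total energy. -/
theorem energy (p q w : ℂ) (hC : Cvx p q w) {f : ℝ × ℝ → ℝ} (hf : ContDiff ℝ 1 f)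
    (hOE : OE f) (κ : ℝ) :
    (∫ z in Sq, en p q w (fun z => (FF f κ p q w z).re) z)
      + (∫ z in Sq, en p q w (fun z => (FF f κ p q w z).im) z) = DV f p q + TT f κ p q w := by
  have hd := cr_pos p q w hC
  have hcR := cont_en p q w hC (FF_re_cd p q w hf κ)
  have hcI := cont_en p q w hC (FF_im_cd p q w hf κ)
  have hnegS : ∀ z ∈ Sq, -z ∈ Sq := by
    intro z hz
    rw [mem_Sq'] at hz ⊢
    simpa using hz
  have hcR' : ContinuousOn (fun z => en p q w (fun z => (FF f κ p q w z).re) (-z)) Sq :=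
    hcR.comp continuous_neg.continuousOn hnegS
  have hcI' : ContinuousOn (fun z => en p q w (fun z => (FF f κ p q w z).im) (-z)) Sq :=
    hcI.comp continuous_neg.continuousOn hnegS
  -- twice the energy
  have h2 : 2 * ((∫ z in Sq, en p q w (fun z => (FF f κ p q w z).re) z)
      + (∫ z in Sq, en p q w (fun z => (FF f κ p q w z).im) z)) =
      ∫ z in Sq, (en p q w (fun z => (FF f κ p q w z).re) z
        + en p q w (fun z => (FF f κ p q w z).im) z
        + en p q w (fun z => (FF f κ p q w z).re) (-z)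
        + en p q w (fun z => (FF f κ p q w z).im) (-z)) := by
    have k1 : IntegrableOn (fun z => en p q w (fun z => (FF f κ p q w z).re) z
        + en p q w (fun z => (FF f κ p q w z).im) z) Sq := (intOn hcR).add (intOn hcI)
    have k2 : IntegrableOn (fun z => en p q w (fun z => (FF f κ p q w z).re) z
        + en p q w (fun z => (FF f κ p q w z).im) z
        + en p q w (fun z => (FF f κ p q w z).re) (-z)) Sq := k1.add (intOn hcR')
    rw [integral_add k2 (intOn hcI'), integral_add k1 (intOn hcR'),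
      integral_add (intOn hcR) (intOn hcI), int_neg, int_neg]
    ring
  have h3 : (∫ z in Sq, (en p q w (fun z => (FF f κ p q w z).re) z
        + en p q w (fun z => (FF f κ p q w z).im) z
        + en p q w (fun z => (FF f κ p q w z).re) (-z)
        + en p q w (fun z => (FF f κ p q w z).im) (-z))) =
      ∫ z in Sq, 2 / cr p q * (ip p p * ip q q * (dS f z ^ 2 + dS f z.swap ^ 2)
        + ip p p ^ 2 * dT f z ^ 2 + ip q q ^ 2 * dT f z.swap ^ 2
        - 2 * ip p q ^ 2 * (dS f z * dS f z.swap + dT f z * dT f z.swap)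
        + 2 * ip p q * (dS f z - dS f z.swap) * (ip q q * dT f z.swap - ip p p * dT f z)
        + ph f κ p q w z / (cr p q ^ 2 - et p q w z ^ 2)) :=
    setIntegral_congr_fun isCompact_Sq.measurableSet fun z hz => energy_pt p q w hC hf hOE κ z hz
  have cS : Continuous (dS f) := cont_dS hf
  have cT : Continuous (dT f) := cont_dT hf
  have cSs : Continuous (fun z : ℝ × ℝ => dS f z.swap) := cS.comp continuous_swap
  have cTs : Continuous (fun z : ℝ × ℝ => dT f z.swap) := cT.comp continuous_swap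
  have i1 : IntegrableOn (fun z : ℝ × ℝ => dS f z ^ 2) Sq := intOn (cS.pow 2).continuousOn
  have i2 : IntegrableOn (fun z : ℝ × ℝ => dS f z.swap ^ 2) Sq := intOn (cSs.pow 2).continuousOn
  have i3 : IntegrableOn (fun z : ℝ × ℝ => dT f z ^ 2) Sq := intOn (cT.pow 2).continuousOn
  have i4 : IntegrableOn (fun z : ℝ × ℝ => dT f z.swap ^ 2) Sq := intOn (cTs.pow 2).continuousOn
  have i5 : IntegrableOn (fun z : ℝ × ℝ => dS f z * dS f z.swap + dT f z * dT f z.swap) Sq :=
    intOn ((cS.mul cSs).add (cT.mul cTs)).continuousOn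
  have i6 : IntegrableOn (fun z : ℝ × ℝ => (dS f z - dS f z.swap) *
      (ip q q * dT f z.swap - ip p p * dT f z)) Sq :=
    intOn ((cS.sub cSs).mul ((continuous_const.mul cTs).sub
      (continuous_const.mul cT))).continuousOn
  have i7 : IntegrableOn (fun z : ℝ × ℝ => ph f κ p q w z / (cr p q ^ 2 - et p q w z ^ 2)) Sq := by
    refine intOn (ContinuousOn.div ?_ ?_ fun z hz => den_ne p q w hC hz)
    · refine Continuous.continuousOn ?_
      unfold ph B1 B2
      fun_prop
    · refine Continuous.continuousOn ?_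
      unfold et
      fun_prop
  have e2 : (∫ z in Sq, dS f z.swap ^ 2) = ∫ z in Sq, dS f z ^ 2 :=
    int_swap (fun z => dS f z ^ 2)
  have e4 : (∫ z in Sq, dT f z.swap ^ 2) = ∫ z in Sq, dT f z ^ 2 :=
    int_swap (fun z => dT f z ^ 2)
  have e6 := odd_zero p q hf hOE
  have h4 : (∫ z in Sq, 2 / cr p q * (ip p p * ip q q * (dS f z ^ 2 + dS f z.swap ^ 2)
        + ip p p ^ 2 * dT f z ^ 2 + ip q q ^ 2 * dT f z.swap ^ 2
        - 2 * ip p q ^ 2 * (dS f z * dS f z.swap + dT f z * dT f z.swap)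
        + 2 * ip p q * (dS f z - dS f z.swap) * (ip q q * dT f z.swap - ip p p * dT f z)
        + ph f κ p q w z / (cr p q ^ 2 - et p q w z ^ 2))) =
      2 / cr p q * (ip p p * ip q q * ((∫ z in Sq, dS f z ^ 2) + ∫ z in Sq, dS f z.swap ^ 2)
        + ip p p ^ 2 * (∫ z in Sq, dT f z ^ 2) + ip q q ^ 2 * (∫ z in Sq, dT f z.swap ^ 2)
        - 2 * ip p q ^ 2 * (∫ z in Sq, (dS f z * dS f z.swap + dT f z * dT f z.swap))
        + 2 * ip p q * (∫ z in Sq, (dS f z - dS f z.swap) *
            (ip q q * dT f z.swap - ip p p * dT f z))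
        + ∫ z in Sq, ph f κ p q w z / (cr p q ^ 2 - et p q w z ^ 2)) := by
    rw [integral_const_mul]
    congr 1
    have j1 : IntegrableOn (fun z : ℝ × ℝ => ip p p * ip q q * (dS f z ^ 2 + dS f z.swap ^ 2)) Sq :=
      (i1.add i2).const_mul (ip p p * ip q q)
    have j3 : IntegrableOn (fun z : ℝ × ℝ => ip p p ^ 2 * dT f z ^ 2) Sq :=
      i3.const_mul (ip p p ^ 2)
    have j4 : IntegrableOn (fun z : ℝ × ℝ => ip q q ^ 2 * dT f z.swap ^ 2) Sq :=
      i4.const_mul (ip q q ^ 2)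
    have j5 : IntegrableOn (fun z : ℝ × ℝ =>
        2 * ip p q ^ 2 * (dS f z * dS f z.swap + dT f z * dT f z.swap)) Sq :=
      i5.const_mul (2 * ip p q ^ 2)
    have j6 : IntegrableOn (fun z : ℝ × ℝ => 2 * ip p q * ((dS f z - dS f z.swap) *
        (ip q q * dT f z.swap - ip p p * dT f z))) Sq :=
      i6.const_mul (2 * ip p q)
    have l3 : IntegrableOn (fun z : ℝ × ℝ => ip p p * ip q q * (dS f z ^ 2 + dS f z.swap ^ 2)
        + ip p p ^ 2 * dT f z ^ 2) Sq := j1.add j3
    have l4 : IntegrableOn (fun z : ℝ × ℝ => ip p p * ip q q * (dS f z ^ 2 + dS f z.swap ^ 2)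
        + ip p p ^ 2 * dT f z ^ 2 + ip q q ^ 2 * dT f z.swap ^ 2) Sq := l3.add j4
    have l5 : IntegrableOn (fun z : ℝ × ℝ => ip p p * ip q q * (dS f z ^ 2 + dS f z.swap ^ 2)
        + ip p p ^ 2 * dT f z ^ 2 + ip q q ^ 2 * dT f z.swap ^ 2
        - 2 * ip p q ^ 2 * (dS f z * dS f z.swap + dT f z * dT f z.swap)) Sq := l4.sub j5
    have l6 : IntegrableOn (fun z : ℝ × ℝ => ip p p * ip q q * (dS f z ^ 2 + dS f z.swap ^ 2)
        + ip p p ^ 2 * dT f z ^ 2 + ip q q ^ 2 * dT f z.swap ^ 2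
        - 2 * ip p q ^ 2 * (dS f z * dS f z.swap + dT f z * dT f z.swap)
        + 2 * ip p q * ((dS f z - dS f z.swap) *
          (ip q q * dT f z.swap - ip p p * dT f z))) Sq := l5.add j6
    have hfun : (fun z : ℝ × ℝ => ip p p * ip q q * (dS f z ^ 2 + dS f z.swap ^ 2)
        + ip p p ^ 2 * dT f z ^ 2 + ip q q ^ 2 * dT f z.swap ^ 2
        - 2 * ip p q ^ 2 * (dS f z * dS f z.swap + dT f z * dT f z.swap)
        + 2 * ip p q * (dS f z - dS f z.swap) * (ip q q * dT f z.swap - ip p p * dT f z)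
        + ph f κ p q w z / (cr p q ^ 2 - et p q w z ^ 2)) =
        fun z : ℝ × ℝ => ip p p * ip q q * (dS f z ^ 2 + dS f z.swap ^ 2)
        + ip p p ^ 2 * dT f z ^ 2 + ip q q ^ 2 * dT f z.swap ^ 2
        - 2 * ip p q ^ 2 * (dS f z * dS f z.swap + dT f z * dT f z.swap)
        + 2 * ip p q * ((dS f z - dS f z.swap) * (ip q q * dT f z.swap - ip p p * dT f z))
        + ph f κ p q w z / (cr p q ^ 2 - et p q w z ^ 2) := by
      funext z
      ring
    rw [hfun, integral_add l6 i7, integral_add l5 j6,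
      integral_sub l4 j5, integral_add l3 j4,
      integral_add j1 j3, integral_const_mul, integral_const_mul, integral_const_mul,
      integral_const_mul, integral_const_mul, integral_add i1 i2]
  rw [h3, h4, e2, e4, e6] at h2
  unfold DV TT cE1 cE2 cK
  have hd' : cr p q ≠ 0 := hd.ne'
  have h5 : (∫ z in Sq, en p q w (fun z => (FF f κ p q w z).re) z)
      + (∫ z in Sq, en p q w (fun z => (FF f κ p q w z).im) z) =
      1 / cr p q * (ip p p * ip q q * ((∫ z in Sq, dS f z ^ 2) + ∫ z in Sq, dS f z ^ 2)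
        + ip p p ^ 2 * (∫ z in Sq, dT f z ^ 2) + ip q q ^ 2 * (∫ z in Sq, dT f z ^ 2)
        - 2 * ip p q ^ 2 * (∫ z in Sq, (dS f z * dS f z.swap + dT f z * dT f z.swap))
        + 2 * ip p q * 0
        + ∫ z in Sq, ph f κ p q w z / (cr p q ^ 2 - et p q w z ^ 2)) := by
    have h6 : (2 : ℝ) / cr p q = 2 * (1 / cr p q) := by ring
    rw [h6] at h2
    linarith
  rw [h5]
  field_simp
  ring

end Pool.Agent.Sq4
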