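import Pool.Agent.Sq4.Defs

/-!
# SQ-ENERGY1: pointwise identity for the energy of the trial functions
-/

set_option autoImplicit false

noncomputable section

namespace Pool.Agent.Sq4

open MeasureTheory Pool.Agent.Stk

/-! ### derivatives -/

private theorem hasFD_gen {f : ℝ × ℝ → ℝ} (hf : ContDiff ℝ 1 f) (κ a b c : ℝ) (z : ℝ × ℝ) :
    HasFDerivAt (fun z : ℝ × ℝ => f z * a + f z.swap * b + κ * z.1 * z.2 * c)
      (a • fderiv ℝ f z + b • (fderiv ℝ f z.swap).comp
        ((ContinuousLinearMap.snd ℝ ℝ ℝ).prod (ContinuousLinearMap.fst ℝ ℝ ℝ))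
        + (κ * c) • (z.1 • ContinuousLinearMap.snd ℝ ℝ ℝ + z.2 • ContinuousLinearMap.fst ℝ ℝ ℝ)) z := by
  have hd : Differentiable ℝ f := hf.differentiable (by norm_num)
  have h1 : HasFDerivAt f (fderiv ℝ f z) z := (hd z).hasFDerivAt
  have h2 : HasFDerivAt f (fderiv ℝ f z.swap) z.swap := (hd z.swap).hasFDerivAt
  have h3 : HasFDerivAt (fun z : ℝ × ℝ => z.swap)
      ((ContinuousLinearMap.snd ℝ ℝ ℝ).prod (ContinuousLinearMap.fst ℝ ℝ ℝ)) z :=
    hasFDerivAt_snd.prodMk hasFDerivAt_fst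
  have h4 : HasFDerivAt (fun z : ℝ × ℝ => f z.swap) ((fderiv ℝ f z.swap).comp
      ((ContinuousLinearMap.snd ℝ ℝ ℝ).prod (ContinuousLinearMap.fst ℝ ℝ ℝ))) z :=
    h2.comp z h3
  have h5 : HasFDerivAt (fun z : ℝ × ℝ => z.1 * z.2)
      (z.1 • ContinuousLinearMap.snd ℝ ℝ ℝ + z.2 • ContinuousLinearMap.fst ℝ ℝ ℝ) z :=
    hasFDerivAt_fst.mul hasFDerivAt_snd
  have h6 := ((h1.const_mul a).add (h4.const_mul b)).add (h5.const_mul (κ * c))
  refine h6.congr_of_eventuallyEq (Filter.Eventually.of_forall (fun z => ?_))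
  simp only [Pi.add_apply]
  ring

private theorem dS_gen {f : ℝ × ℝ → ℝ} (hf : ContDiff ℝ 1 f) (κ a b c : ℝ) (z : ℝ × ℝ) :
    dS (fun z : ℝ × ℝ => f z * a + f z.swap * b + κ * z.1 * z.2 * c) z
      = dS f z * a + dT f z.swap * b + κ * z.2 * c := by
  unfold dS dT
  rw [(hasFD_gen hf κ a b c z).fderiv]
  simp
  ring

private theorem dT_gen {f : ℝ × ℝ → ℝ} (hf : ContDiff ℝ 1 f) (κ a b c : ℝ) (z : ℝ × ℝ) :
    dT (fun z : ℝ × ℝ => f z * a + f z.swap * b + κ * z.1 * z.2 * c) z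
      = dT f z * a + dS f z.swap * b + κ * z.1 * c := by
  unfold dS dT
  rw [(hasFD_gen hf κ a b c z).fderiv]
  simp
  ring

private theorem FF_re (f : ℝ × ℝ → ℝ) (κ : ℝ) (p q w : ℂ) :
    (fun z => (FF f κ p q w z).re) =
      fun z : ℝ × ℝ => f z * p.re + f z.swap * q.re + κ * z.1 * z.2 * w.re := by
  funext z
  simp [FF]

private theorem FF_im (f : ℝ × ℝ → ℝ) (κ : ℝ) (p q w : ℂ) :
    (fun z => (FF f κ p q w z).im) =
      fun z : ℝ × ℝ => f z * p.im + f z.swap * q.im + κ * z.1 * z.2 * w.im := by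
  funext z
  simp [FF]

private theorem fderiv_neg_pt {f : ℝ × ℝ → ℝ} (hf : ContDiff ℝ 1 f) (hOE : OE f) (z : ℝ × ℝ) :
    fderiv ℝ f (-z) = fderiv ℝ f z := by
  have h : f = fun z => - f (-z) := by
    funext z
    have h1 := hOE.1 z.1 (-z.2)
    have h2 := hOE.2 z.1 z.2
    have h3 : -z = (-z.1, -z.2) := rfl
    rw [h3, h1, h2]
    simp
  have hd : Differentiable ℝ f := hf.differentiable (by norm_num)
  have h1 : HasFDerivAt f (fderiv ℝ f (-z)) (-z) := (hd (-z)).hasFDerivAt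
  have h2 : HasFDerivAt (fun z : ℝ × ℝ => -z) (-(ContinuousLinearMap.id ℝ (ℝ × ℝ))) z :=
    (hasFDerivAt_id z).neg
  have h3 := (h1.comp z h2).neg
  have h4 : HasFDerivAt f (-((fderiv ℝ f (-z)).comp (-(ContinuousLinearMap.id ℝ (ℝ × ℝ))))) z := by
    refine h3.congr_of_eventuallyEq (Filter.Eventually.of_forall (fun u => ?_))
    have := congrFun h u
    simpa using this
  rw [h4.fderiv]
  ext <;> simp

/-! ### algebra -/

private theorem dot_id (p q : ℂ) (s1 s2 t1 t2 : ℝ) :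
    (s1 * p.re + s2 * q.re) * (t1 * p.re + t2 * q.re)
      + (s1 * p.im + s2 * q.im) * (t1 * p.im + t2 * q.im)
      = s1 * t1 * ip p p + (s1 * t2 + s2 * t1) * ip p q + s2 * t2 * ip q q := by
  unfold ip
  ring

private theorem poly_id (P Q c al be x y f1 f2 g1 g2 k : ℝ) :
    ((x * al * (x * al) * P + (x * al * (1 + x * be) + (1 + x * be) * (x * al)) * c
        + (1 + x * be) * (1 + x * be) * Q)
      * ((f1 + k * y * al) * (f1 + k * y * al) * P
        + ((f1 + k * y * al) * (g2 + k * y * be) + (g2 + k * y * be) * (f1 + k * y * al)) * c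
        + (g2 + k * y * be) * (g2 + k * y * be) * Q)
      - 2 * ((1 + y * al) * (x * al) * P + ((1 + y * al) * (1 + x * be) + y * be * (x * al)) * c
        + y * be * (1 + x * be) * Q)
      * ((f1 + k * y * al) * (f2 + k * x * al) * P
        + ((f1 + k * y * al) * (g1 + k * x * be) + (g2 + k * y * be) * (f2 + k * x * al)) * c
        + (g2 + k * y * be) * (g1 + k * x * be) * Q)
      + ((1 + y * al) * (1 + y * al) * P + ((1 + y * al) * (y * be) + y * be * (1 + y * al)) * c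
        + y * be * (y * be) * Q)
      * ((f2 + k * x * al) * (f2 + k * x * al) * P
        + ((f2 + k * x * al) * (g1 + k * x * be) + (g1 + k * x * be) * (f2 + k * x * al)) * c
        + (g1 + k * x * be) * (g1 + k * x * be) * Q)) * (1 - (x * be + y * al))
    + ((-x * al * (-x * al) * P + (-x * al * (1 + -x * be) + (1 + -x * be) * (-x * al)) * c
        + (1 + -x * be) * (1 + -x * be) * Q)
      * ((f1 + k * -y * al) * (f1 + k * -y * al) * P
        + ((f1 + k * -y * al) * (g2 + k * -y * be) + (g2 + k * -y * be) * (f1 + k * -y * al)) * c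
        + (g2 + k * -y * be) * (g2 + k * -y * be) * Q)
      - 2 * ((1 + -y * al) * (-x * al) * P
        + ((1 + -y * al) * (1 + -x * be) + -y * be * (-x * al)) * c
        + -y * be * (1 + -x * be) * Q)
      * ((f1 + k * -y * al) * (f2 + k * -x * al) * P
        + ((f1 + k * -y * al) * (g1 + k * -x * be) + (g2 + k * -y * be) * (f2 + k * -x * al)) * c
        + (g2 + k * -y * be) * (g1 + k * -x * be) * Q)
      + ((1 + -y * al) * (1 + -y * al) * P
        + ((1 + -y * al) * (-y * be) + -y * be * (1 + -y * al)) * c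
        + -y * be * (-y * be) * Q)
      * ((f2 + k * -x * al) * (f2 + k * -x * al) * P
        + ((f2 + k * -x * al) * (g1 + k * -x * be) + (g1 + k * -x * be) * (f2 + k * -x * al)) * c
        + (g1 + k * -x * be) * (g1 + k * -x * be) * Q)) * (1 + (x * be + y * al))
    = 2 * (1 - (x * be + y * al) ^ 2) * (P * Q * (f1 ^ 2 + g1 ^ 2) + P ^ 2 * f2 ^ 2 + Q ^ 2 * g2 ^ 2
        - 2 * c ^ 2 * (f1 * g1 + f2 * g2) + 2 * c * (f1 - g1) * (Q * g2 - P * f2))
      + 2 * ((P * x ^ 2 + Q * y ^ 2 - 2 * c * x * y)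
        * (P * (al * (f1 - k) + be * f2) ^ 2 + Q * (al * g2 + be * (g1 - k)) ^ 2
          + 2 * c * (al * (f1 - k) + be * f2) * (al * g2 + be * (g1 - k)))) := by
  ring

private theorem en_sum (p q w : ℂ) (z : ℝ × ℝ) (h1 h2 : ℝ × ℝ → ℝ) (al be : ℝ)
    (hwr : w.re = al * p.re + be * q.re) (hwi : w.im = al * p.im + be * q.im)
    (s1 s2 t1 t2 : ℝ)
    (hSr : dS h1 z = s1 * p.re + s2 * q.re) (hSi : dS h2 z = s1 * p.im + s2 * q.im)
    (hTr : dT h1 z = t1 * p.re + t2 * q.re) (hTi : dT h2 z = t1 * p.im + t2 * q.im) :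
    en p q w h1 z + en p q w h2 z =
      ((z.1 * al * (z.1 * al) * ip p p
          + (z.1 * al * (1 + z.1 * be) + (1 + z.1 * be) * (z.1 * al)) * ip p q
          + (1 + z.1 * be) * (1 + z.1 * be) * ip q q)
        * (s1 * s1 * ip p p + (s1 * s2 + s2 * s1) * ip p q + s2 * s2 * ip q q)
      - 2 * ((1 + z.2 * al) * (z.1 * al) * ip p p
          + ((1 + z.2 * al) * (1 + z.1 * be) + z.2 * be * (z.1 * al)) * ip p q
          + z.2 * be * (1 + z.1 * be) * ip q q)
        * (s1 * t1 * ip p p + (s1 * t2 + s2 * t1) * ip p q + s2 * t2 * ip q q)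
      + ((1 + z.2 * al) * (1 + z.2 * al) * ip p p
          + ((1 + z.2 * al) * (z.2 * be) + z.2 * be * (1 + z.2 * al)) * ip p q
          + z.2 * be * (z.2 * be) * ip q q)
        * (t1 * t1 * ip p p + (t1 * t2 + t2 * t1) * ip p q + t2 * t2 * ip q q)) / Jc p q w z := by
  have e1 : ip (q + z.1 * w) (q + z.1 * w) = z.1 * al * (z.1 * al) * ip p p
      + (z.1 * al * (1 + z.1 * be) + (1 + z.1 * be) * (z.1 * al)) * ip p q
      + (1 + z.1 * be) * (1 + z.1 * be) * ip q q := by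
    rw [← dot_id]
    simp only [ip, Complex.add_re, Complex.add_im, Complex.re_ofReal_mul, Complex.im_ofReal_mul,
      hwr, hwi]
    ring
  have e2 : ip (p + z.2 * w) (q + z.1 * w) = (1 + z.2 * al) * (z.1 * al) * ip p p
      + ((1 + z.2 * al) * (1 + z.1 * be) + z.2 * be * (z.1 * al)) * ip p q
      + z.2 * be * (1 + z.1 * be) * ip q q := by
    rw [← dot_id]
    simp only [ip, Complex.add_re, Complex.add_im, Complex.re_ofReal_mul, Complex.im_ofReal_mul,
      hwr, hwi]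
    ring
  have e3 : ip (p + z.2 * w) (p + z.2 * w) = (1 + z.2 * al) * (1 + z.2 * al) * ip p p
      + ((1 + z.2 * al) * (z.2 * be) + z.2 * be * (1 + z.2 * al)) * ip p q
      + z.2 * be * (z.2 * be) * ip q q := by
    rw [← dot_id]
    simp only [ip, Complex.add_re, Complex.add_im, Complex.re_ofReal_mul, Complex.im_ofReal_mul,
      hwr, hwi]
    ring
  have s_ss := dot_id p q s1 s2 s1 s2
  have s_st := dot_id p q s1 s2 t1 t2
  have s_tt := dot_id p q t1 t2 t1 t2
  rw [← hSr, ← hSi] at s_ss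
  rw [← hSr, ← hSi, ← hTr, ← hTi] at s_st
  rw [← hTr, ← hTi] at s_tt
  rw [← s_ss, ← s_st, ← s_tt]
  unfold en
  rw [e1, e2, e3]
  ring

/-- SQ-ENERGY.1 Pointwise identity: the sum of the energy densities at `z` and `-z`. -/
theorem energy_pt (p q w : ℂ) (hC : Cvx p q w) {f : ℝ × ℝ → ℝ} (hf : ContDiff ℝ 1 f)
    (hOE : OE f) (κ : ℝ) (z : ℝ × ℝ) (hz : z ∈ Sq) :
    en p q w (fun z => (FF f κ p q w z).re) z + en p q w (fun z => (FF f κ p q w z).im) z
      + en p q w (fun z => (FF f κ p q w z).re) (-z) + en p q w (fun z => (FF f κ p q w z).im) (-z)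
      = 2 / cr p q * (ip p p * ip q q * (dS f z ^ 2 + dS f z.swap ^ 2)
        + ip p p ^ 2 * dT f z ^ 2 + ip q q ^ 2 * dT f z.swap ^ 2
        - 2 * ip p q ^ 2 * (dS f z * dS f z.swap + dT f z * dT f z.swap)
        + 2 * ip p q * (dS f z - dS f z.swap) * (ip q q * dT f z.swap - ip p p * dT f z)
        + ph f κ p q w z / (cr p q ^ 2 - et p q w z ^ 2)) := by
  obtain ⟨x, y⟩ := z
  have hz' : (-1 ≤ x ∧ x ≤ 1) ∧ (-1 ≤ y ∧ y ≤ 1) := by
    exact ⟨hz.1, hz.2⟩
  obtain ⟨⟨hx1, hx2⟩, hy1, hy2⟩ := hz'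
  have hC' : |cr p w| + |cr w q| < cr p q := hC
  have hd : 0 < cr p q := lt_of_le_of_lt (by positivity) hC'
  have hxp : |x * cr p w| ≤ |cr p w| := by
    rw [abs_mul]
    exact mul_le_of_le_one_left (abs_nonneg _) (abs_le.mpr ⟨hx1, hx2⟩)
  have hyq : |y * cr w q| ≤ |cr w q| := by
    rw [abs_mul]
    exact mul_le_of_le_one_left (abs_nonneg _) (abs_le.mpr ⟨hy1, hy2⟩)
  have hxp' := abs_le.mp hxp
  have hyq' := abs_le.mp hyq
  set d := cr p q with hdd
  set al := cr w q / d with hal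
  set be := cr p w / d with hbe
  have hald : cr w q = d * al := by rw [hal]; field_simp
  have hbed : cr p w = d * be := by rw [hbe]; field_simp
  have hwr : w.re = al * p.re + be * q.re := by
    rw [hal, hbe]
    field_simp
    rw [hdd]
    unfold cr
    ring
  have hwi : w.im = al * p.im + be * q.im := by
    rw [hal, hbe]
    field_simp
    rw [hdd]
    unfold cr
    ring
  have hp1 : 0 < 1 + (x * be + y * al) := by
    have : 0 < d * (1 + (x * be + y * al)) := by
      have : d * (1 + (x * be + y * al)) = d + x * cr p w + y * cr w q := by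
        rw [hald, hbed]; ring
      rw [this]
      linarith
    exact (mul_pos_iff_of_pos_left hd).mp this
  have hp2 : 0 < 1 - (x * be + y * al) := by
    have : 0 < d * (1 - (x * be + y * al)) := by
      have : d * (1 - (x * be + y * al)) = d - x * cr p w - y * cr w q := by
        rw [hald, hbed]; ring
      rw [this]
      linarith
    exact (mul_pos_iff_of_pos_left hd).mp this
  have hsw : ((x, y) : ℝ × ℝ).swap = (y, x) := rfl
  have hng : (-(x, y) : ℝ × ℝ) = (-x, -y) := rfl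
  have hswn : ((-x, -y) : ℝ × ℝ).swap = -(y, x) := rfl
  set f1 := dS f (x, y) with hf1
  set f2 := dT f (x, y) with hf2
  set g1 := dS f (y, x) with hg1
  set g2 := dT f (y, x) with hg2
  have n1 : dS f (-x, -y) = f1 := by
    rw [hf1, ← hng]; unfold dS; rw [fderiv_neg_pt hf hOE]
  have n2 : dT f (-x, -y) = f2 := by
    rw [hf2, ← hng]; unfold dT; rw [fderiv_neg_pt hf hOE]
  have n3 : dS f (-(y, x)) = g1 := by
    rw [hg1]; unfold dS; rw [fderiv_neg_pt hf hOE]
  have n4 : dT f (-(y, x)) = g2 := by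
    rw [hg2]; unfold dT; rw [fderiv_neg_pt hf hOE]
  rw [FF_re, FF_im, hng]
  have A1 := en_sum p q w (x, y)
    (fun z : ℝ × ℝ => f z * p.re + f z.swap * q.re + κ * z.1 * z.2 * w.re)
    (fun z : ℝ × ℝ => f z * p.im + f z.swap * q.im + κ * z.1 * z.2 * w.im) al be hwr hwi
    (f1 + κ * y * al) (g2 + κ * y * be) (f2 + κ * x * al) (g1 + κ * x * be)
    (by rw [dS_gen hf, hsw, ← hf1, ← hg2, hwr]; ring)
    (by rw [dS_gen hf, hsw, ← hf1, ← hg2, hwi]; ring)
    (by rw [dT_gen hf, hsw, ← hf2, ← hg1, hwr]; ring)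
    (by rw [dT_gen hf, hsw, ← hf2, ← hg1, hwi]; ring)
  have A2 := en_sum p q w (-x, -y)
    (fun z : ℝ × ℝ => f z * p.re + f z.swap * q.re + κ * z.1 * z.2 * w.re)
    (fun z : ℝ × ℝ => f z * p.im + f z.swap * q.im + κ * z.1 * z.2 * w.im) al be hwr hwi
    (f1 + κ * -y * al) (g2 + κ * -y * be) (f2 + κ * -x * al) (g1 + κ * -x * be)
    (by rw [dS_gen hf, hswn, n1, n4, hwr]; ring)
    (by rw [dS_gen hf, hswn, n1, n4, hwi]; ring)
    (by rw [dT_gen hf, hswn, n2, n3, hwr]; ring)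
    (by rw [dT_gen hf, hswn, n2, n3, hwi]; ring)
  have hJ1 : Jc p q w (x, y) = d * (1 + (x * be + y * al)) := by
    unfold Jc; simp only; rw [hald, hbed]; ring
  have hJ2 : Jc p q w (-x, -y) = d * (1 - (x * be + y * al)) := by
    unfold Jc; simp only; rw [hald, hbed]; ring
  rw [hJ1] at A1
  rw [hJ2] at A2
  have hph : ph f κ p q w (x, y) = d ^ 2 * ((ip p p * x ^ 2 + ip q q * y ^ 2 - 2 * ip p q * x * y)
        * (ip p p * (al * (f1 - κ) + be * f2) ^ 2 + ip q q * (al * g2 + be * (g1 - κ)) ^ 2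
          + 2 * ip p q * (al * (f1 - κ) + be * f2) * (al * g2 + be * (g1 - κ)))) := by
    unfold ph B1 B2
    simp only [hsw]
    rw [hald, hbed, ← hf1, ← hf2, ← hg1, ← hg2]
    ring
  have het : d ^ 2 - et p q w (x, y) ^ 2 = d ^ 2 * (1 - (x * be + y * al) ^ 2) := by
    unfold et; simp only; rw [hald, hbed]; ring
  rw [hsw, ← hg1, ← hg2, hph, het]
  have hpoly := poly_id (ip p p) (ip q q) (ip p q) al be x y f1 f2 g1 g2 κ
  have hre : ∀ a b c e : ℝ, a + b + c + e = (a + b) + (c + e) := fun a b c e => by ring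
  rw [hre, A1, A2]
  simp only
  have hd0 : d ≠ 0 := ne_of_gt hd
  have h10 : 1 + (x * be + y * al) ≠ 0 := ne_of_gt hp1
  have h20 : 1 - (x * be + y * al) ≠ 0 := ne_of_gt hp2
  have h30 : 1 - (x * be + y * al) ^ 2 ≠ 0 := by
    have : 1 - (x * be + y * al) ^ 2 = (1 + (x * be + y * al)) * (1 - (x * be + y * al)) := by ring
    rw [this]
    exact mul_ne_zero h10 h20
  have hfrac : ∀ N1 N2 E Th : ℝ, N1 * (1 - (x * be + y * al)) + N2 * (1 + (x * be + y * al)) =
      2 * (1 - (x * be + y * al) ^ 2) * E + 2 * Th →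
      N1 / (d * (1 + (x * be + y * al))) + N2 / (d * (1 - (x * be + y * al))) =
      2 / d * (E + d ^ 2 * Th / (d ^ 2 * (1 - (x * be + y * al) ^ 2))) := by
    intro N1 N2 E Th h
    have e1 : d ^ 2 * Th / (d ^ 2 * (1 - (x * be + y * al) ^ 2)) =
        Th / (1 - (x * be + y * al) ^ 2) := by
      rw [mul_div_mul_left _ _ (pow_ne_zero 2 hd0)]
    rw [e1]
    have e2 : N1 / (d * (1 + (x * be + y * al))) + N2 / (d * (1 - (x * be + y * al))) =
        (N1 * (1 - (x * be + y * al)) + N2 * (1 + (x * be + y * al))) /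
          (d * (1 - (x * be + y * al) ^ 2)) := by
      rw [div_add_div _ _ (mul_ne_zero hd0 h10) (mul_ne_zero hd0 h20)]
      rw [div_eq_div_iff (mul_ne_zero (mul_ne_zero hd0 h10) (mul_ne_zero hd0 h20))
        (mul_ne_zero hd0 h30)]
      ring
    rw [e2, h, div_eq_iff (mul_ne_zero hd0 h30)]
    field_simp
  exact hfrac _ _ _ _ hpoly

end Pool.Agent.Sq4
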