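import Pool.Agent.Sq4.Defs

/-!
# SQ-EXT: smooth push forward of functions by the bilinear map
-/

set_option autoImplicit false

noncomputable section

namespace Pool.Agent.Sq4

open MeasureTheory Pool.Agent.Stk
open scoped Topology Manifold ContDiff

private theorem ext_Jpos {p q w : ℂ} {r : ℝ} (he : r * (|cr p w| + |cr w q|) < cr p q)
    {z : ℝ × ℝ} (h1 : |z.1| < r) (h2 : |z.2| < r) : 0 < Jc p q w z := by
  unfold Jc
  have a1 : |z.1 * cr p w| ≤ r * |cr p w| := by
    rw [abs_mul]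
    exact mul_le_mul_of_nonneg_right h1.le (abs_nonneg _)
  have a2 : |z.2 * cr w q| ≤ r * |cr w q| := by
    rw [abs_mul]
    exact mul_le_mul_of_nonneg_right h2.le (abs_nonneg _)
  have a3 := neg_abs_le (z.1 * cr p w)
  have a4 := neg_abs_le (z.2 * cr w q)
  have a5 : r * (|cr p w| + |cr w q|) = r * |cr p w| + r * |cr w q| := by ring
  linarith

private theorem ext_inj {o p q w : ℂ} {r : ℝ} (he : r * (|cr p w| + |cr w q|) < cr p q)
    {z z' : ℝ × ℝ} (h1 : |z.1| < r) (h2 : |z.2| < r) (h1' : |z'.1| < r) (h2' : |z'.2| < r)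
    (h : psi o p q w z = psi o p q w z') : z = z' := by
  have hre := congrArg Complex.re h
  have him := congrArg Complex.im h
  simp only [psi, Complex.add_re, Complex.add_im, Complex.mul_re, Complex.mul_im,
    Complex.ofReal_re, Complex.ofReal_im] at hre him
  have hm1 : |(z.1 + z'.1) / 2| < r := by
    rw [abs_lt] at *
    constructor <;> linarith [h1.1, h1.2, h1'.1, h1'.2]
  have hm2 : |(z.2 + z'.2) / 2| < r := by
    rw [abs_lt] at *
    constructor <;> linarith [h2.1, h2.2, h2'.1, h2'.2]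
  have hJ : 0 < Jc p q w ((z.1 + z'.1) / 2, (z.2 + z'.2) / 2) := ext_Jpos he hm1 hm2
  have e1 : (z.1 - z'.1) * Jc p q w ((z.1 + z'.1) / 2, (z.2 + z'.2) / 2) = 0 := by
    simp only [Jc, cr]
    linear_combination (q.im + (z.1 + z'.1) / 2 * w.im) * hre
      - (q.re + (z.1 + z'.1) / 2 * w.re) * him
  have e2 : (z.2 - z'.2) * Jc p q w ((z.1 + z'.1) / 2, (z.2 + z'.2) / 2) = 0 := by
    simp only [Jc, cr]
    linear_combination (p.re + (z.2 + z'.2) / 2 * w.re) * him
      - (p.im + (z.2 + z'.2) / 2 * w.im) * hre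
  have e3 := (mul_eq_zero.mp e1).resolve_right hJ.ne'
  have e4 := (mul_eq_zero.mp e2).resolve_right hJ.ne'
  ext
  · linarith
  · linarith

private theorem psi_smul (o p q w : ℂ) :
    psi o p q w = fun z : ℝ × ℝ => o + z.1 • p + z.2 • q + (z.1 * z.2) • w := by
  funext z
  simp [psi, Complex.real_smul]

private theorem psi_contDiff (o p q w : ℂ) (n : WithTop ℕ∞) : ContDiff ℝ n (psi o p q w) := by
  rw [psi_smul]
  exact (((contDiff_const.add (contDiff_fst.smul contDiff_const)).add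
    (contDiff_snd.smul contDiff_const)).add ((contDiff_fst.mul contDiff_snd).smul contDiff_const))

/-- the derivative of `psi` -/
private def dpsi (p q w : ℂ) (z : ℝ × ℝ) : ℝ × ℝ →L[ℝ] ℂ :=
  (ContinuousLinearMap.fst ℝ ℝ ℝ).smulRight (p + z.2 • w) +
    (ContinuousLinearMap.snd ℝ ℝ ℝ).smulRight (q + z.1 • w)

private theorem psi_hasFDerivAt (o p q w : ℂ) (z : ℝ × ℝ) :
    HasFDerivAt (psi o p q w) (dpsi p q w z) z := by
  rw [psi_smul]
  have h1 : HasFDerivAt (fun z : ℝ × ℝ => z.1 • p)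
      ((ContinuousLinearMap.fst ℝ ℝ ℝ).smulRight p) z := hasFDerivAt_fst.smul_const p
  have h2 : HasFDerivAt (fun z : ℝ × ℝ => z.2 • q)
      ((ContinuousLinearMap.snd ℝ ℝ ℝ).smulRight q) z := hasFDerivAt_snd.smul_const q
  have h3 : HasFDerivAt (fun z : ℝ × ℝ => (z.1 * z.2) • w)
      ((z.1 • ContinuousLinearMap.snd ℝ ℝ ℝ + z.2 • ContinuousLinearMap.fst ℝ ℝ ℝ).smulRight w) z :=
    (hasFDerivAt_fst.mul hasFDerivAt_snd).smul_const w
  have h4 := ((h1.const_add o).add h2).add h3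
  refine h4.congr_fderiv ?_
  ext v
  · simp [dpsi, mul_comm]
  · simp [dpsi, mul_comm]

private theorem dpsi_ker {p q w : ℂ} {z : ℝ × ℝ} (hJ : Jc p q w z ≠ 0) :
    Function.Injective (dpsi p q w z) := by
  rw [injective_iff_map_eq_zero]
  intro v hv
  have hv' : v.1 • (p + z.2 • w) + v.2 • (q + z.1 • w) = 0 := hv
  have hre := congrArg Complex.re hv'
  have him := congrArg Complex.im hv'
  simp only [Complex.add_re, Complex.add_im, Complex.smul_re, Complex.smul_im, smul_eq_mul,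
    Complex.zero_re, Complex.zero_im] at hre him
  have e1 : v.1 * Jc p q w z = 0 := by
    simp only [Jc, cr]
    linear_combination (q.im + z.1 * w.im) * hre - (q.re + z.1 * w.re) * him
  have e2 : v.2 * Jc p q w z = 0 := by
    simp only [Jc, cr]
    linear_combination (p.re + z.2 * w.re) * him - (p.im + z.2 * w.im) * hre
  ext
  · exact (mul_eq_zero.mp e1).resolve_right hJ
  · exact (mul_eq_zero.mp e2).resolve_right hJ

private theorem dpsi_equiv {p q w : ℂ} {z : ℝ × ℝ} (hJ : Jc p q w z ≠ 0) :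
    ∃ f : (ℝ × ℝ) ≃L[ℝ] ℂ, (f : ℝ × ℝ →L[ℝ] ℂ) = dpsi p q w z := by
  have hinj := dpsi_ker hJ
  have hfr : Module.finrank ℝ (ℝ × ℝ) = Module.finrank ℝ ℂ := by
    rw [Module.finrank_prod, Module.finrank_self, Complex.finrank_real_complex]
  have hsurj : Function.Surjective (dpsi p q w z) :=
    (LinearMap.injective_iff_surjective_of_finrank_eq_finrank
      (f := (dpsi p q w z : ℝ × ℝ →ₗ[ℝ] ℂ)) hfr).mp hinj
  refine ⟨ContinuousLinearEquiv.ofBijective (dpsi p q w z) (LinearMap.ker_eq_bot.mpr hinj)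
    (LinearMap.range_eq_top.mpr hsurj), ?_⟩
  exact ContinuousLinearEquiv.coe_ofBijective _ _ _

/-- SQ-EXT Every `C^k` function `h` on `ℝ²` is, near the square, of the form `G ∘ psi` with a
`C^k` function `G` on the plane. -/
theorem exists_ext (o p q w : ℂ) (hC : Cvx p q w) (k : ℕ∞) (h : ℝ × ℝ → ℝ)
    (hh : ContDiff ℝ k h) :
    ∃ G : ℂ → ℝ, ContDiff ℝ k G ∧ ∃ ε > 0, ∀ z : ℝ × ℝ, |z.1| < 1 + ε → |z.2| < 1 + ε →
      G (psi o p q w z) = h z := by
  -- choice of `e`
  obtain ⟨e, he0, he⟩ : ∃ e : ℝ, 0 < e ∧ (1 + 2 * e) * (|cr p w| + |cr w q|) < cr p q := by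
    have hS : 0 ≤ |cr p w| + |cr w q| := by positivity
    have hD : 0 < cr p q - (|cr p w| + |cr w q|) := by
      have : |cr p w| + |cr w q| < cr p q := hC
      linarith
    refine ⟨(cr p q - (|cr p w| + |cr w q|)) / (4 * (|cr p w| + |cr w q| + 1)),
      by positivity, ?_⟩
    have h1 : 2 * ((cr p q - (|cr p w| + |cr w q|)) / (4 * (|cr p w| + |cr w q| + 1))) *
        (|cr p w| + |cr w q|) ≤ (cr p q - (|cr p w| + |cr w q|)) / 2 := by
      rw [mul_div_assoc', div_mul_eq_mul_div, div_le_div_iff₀ (by positivity) (by norm_num)]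
      nlinarith
    nlinarith
  set U : Set (ℝ × ℝ) := {z | |z.1| < 1 + 2 * e ∧ |z.2| < 1 + 2 * e} with hU
  have hUo : IsOpen U := by
    have e1 : IsOpen {z : ℝ × ℝ | |z.1| < 1 + 2 * e} := isOpen_lt continuous_fst.abs continuous_const
    have e2 : IsOpen {z : ℝ × ℝ | |z.2| < 1 + 2 * e} := isOpen_lt continuous_snd.abs continuous_const
    exact e1.inter e2
  have hinj : Set.InjOn (psi o p q w) U := fun z hz z' hz' hzz =>
    ext_inj he hz.1 hz.2 hz'.1 hz'.2 hzz
  set g : ℂ → ℝ × ℝ := Function.invFunOn (psi o p q w) U with hg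
  have hgl : ∀ z ∈ U, g (psi o p q w z) = z := fun z hz => hinj.leftInvOn_invFunOn hz
  -- local structure
  have hloc : ∀ z ∈ U, psi o p q w '' U ∈ 𝓝 (psi o p q w z) ∧
      ContDiffAt ℝ k g (psi o p q w z) := by
    intro z hz
    have hJ : Jc p q w z ≠ 0 := (ext_Jpos he hz.1 hz.2).ne'
    obtain ⟨f', hf'⟩ := dpsi_equiv hJ
    have hd : HasFDerivAt (psi o p q w) (f' : ℝ × ℝ →L[ℝ] ℂ) z := by
      rw [hf']; exact psi_hasFDerivAt o p q w z
    have hcd : ContDiffAt ℝ ∞ (psi o p q w) z := (psi_contDiff o p q w ∞).contDiffAt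
    have hn : (∞ : WithTop ℕ∞) ≠ 0 := by simp
    set E := hcd.toOpenPartialHomeomorph (psi o p q w) hd hn with hE
    have hzE : z ∈ E.source := hcd.mem_toOpenPartialHomeomorph_source hd hn
    have hyE : psi o p q w z ∈ E.target := hcd.image_mem_toOpenPartialHomeomorph_target hd hn
    have hEf : ∀ x, E x = psi o p q w x := fun x => rfl
    have hsymm : E.symm (psi o p q w z) = z := by
      rw [← hEf z]; exact E.left_inv hzE
    have hev : ∀ᶠ y in 𝓝 (psi o p q w z), y ∈ E.target ∧ E.symm y ∈ U := by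
      have h1 : ∀ᶠ y in 𝓝 (psi o p q w z), y ∈ E.target := E.open_target.mem_nhds hyE
      have h2 : ContinuousAt E.symm (psi o p q w z) := E.continuousAt_symm hyE
      have h3 : ∀ᶠ y in 𝓝 (psi o p q w z), E.symm y ∈ U :=
        h2.eventually (by rw [hsymm]; exact hUo.mem_nhds hz)
      exact h1.and h3
    refine ⟨?_, ?_⟩
    · filter_upwards [hev] with y hy
      exact ⟨E.symm y, hy.2, by rw [← hEf]; exact E.right_inv hy.1⟩
    · have hloc : ContDiffAt ℝ ∞ (hcd.localInverse hd hn) (psi o p q w z) :=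
        hcd.to_localInverse hd hn
      have heq : g =ᶠ[𝓝 (psi o p q w z)] hcd.localInverse hd hn := by
        filter_upwards [hev] with y hy
        have h1 : psi o p q w (E.symm y) = y := by rw [← hEf]; exact E.right_inv hy.1
        have h2 : g y = E.symm y := by
          conv_lhs => rw [← h1]
          exact hgl _ hy.2
        rw [h2]
        rfl
      exact (hloc.congr_of_eventuallyEq heq).of_le (by exact_mod_cast le_top)
  set V : Set ℂ := psi o p q w '' U with hV
  have hVo : IsOpen V := by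
    rw [isOpen_iff_mem_nhds]
    rintro _ ⟨z, hz, rfl⟩
    exact (hloc z hz).1
  set K : Set ℂ := psi o p q w '' (Set.Icc (-(1 + e)) (1 + e) ×ˢ Set.Icc (-(1 + e)) (1 + e))
    with hK
  have hKc : IsCompact K := (isCompact_Icc.prod isCompact_Icc).image
    (psi_contDiff o p q w 0).continuous
  have hKV : K ⊆ V := by
    rintro _ ⟨z, hz, rfl⟩
    rw [Set.mem_prod] at hz
    refine ⟨z, ⟨?_, ?_⟩, rfl⟩
    · have := abs_le.mpr hz.1; linarith
    · have := abs_le.mpr hz.2; linarith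
  obtain ⟨χ, hχ0, hχ1, -⟩ := exists_contMDiffMap_zero_one_nhds_of_isClosed (n := ⊤) 𝓘(ℝ, ℂ)
    hVo.isClosed_compl hKc.isClosed (Set.disjoint_left.mpr fun y hy hy' => hy (hKV hy'))
  have hχ : ContDiff ℝ k (fun y => χ y) := by
    have h1 : ContMDiff 𝓘(ℝ, ℂ) 𝓘(ℝ, ℝ) ∞ χ := χ.contMDiff
    exact (contMDiff_iff_contDiff.mp h1).of_le (by exact_mod_cast le_top)
  refine ⟨fun y => χ y * h (g y), ?_, e, he0, ?_⟩
  · rw [contDiff_iff_contDiffAt]
    intro y
    by_cases hy : y ∈ V
    · obtain ⟨z, hz, rfl⟩ := hy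
      exact hχ.contDiffAt.mul (hh.contDiffAt.comp _ (hloc z hz).2)
    · have h1 : ∀ᶠ x in 𝓝 y, χ x = 0 :=
        hχ0.filter_mono (nhds_le_nhdsSet hy)
      have h2 : (fun x => χ x * h (g x)) =ᶠ[𝓝 y] fun _ => (0 : ℝ) := by
        filter_upwards [h1] with x hx
        rw [hx, zero_mul]
      exact contDiffAt_const.congr_of_eventuallyEq h2
  · intro z hz1 hz2
    have hzU : z ∈ U := ⟨by linarith, by linarith⟩
    have hzK : psi o p q w z ∈ K := by
      refine ⟨z, ?_, rfl⟩
      rw [Set.mem_prod]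
      exact ⟨abs_le.mp hz1.le, abs_le.mp hz2.le⟩
    have h1 : χ (psi o p q w z) = 1 := by
      have := hχ1.filter_mono (nhds_le_nhdsSet hzK)
      exact this.self_of_nhds
    change χ (psi o p q w z) * h (g (psi o p q w z)) = h z
    rw [h1, one_mul, hgl z hzU]

end Pool.Agent.Sq4
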