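import Pool.Agent.Sq4.Psi

/-!
# SQ-GRAD: Dirichlet integral of a transplanted function
-/

set_option autoImplicit false

noncomputable section

namespace Pool.Agent.Sq4

open MeasureTheory Pool.Agent.Stk

/-- derivative of the bilinear map. -/
private theorem hasFDerivAt_psi (o p q w : ℂ) (z : ℝ × ℝ) :
    HasFDerivAt (psi o p q w)
      ((ContinuousLinearMap.fst ℝ ℝ ℝ).smulRight (p + z.2 * w) +
        (ContinuousLinearMap.snd ℝ ℝ ℝ).smulRight (q + z.1 * w)) z := by
  have h1 : HasFDerivAt (fun z : ℝ × ℝ => (z.1 : ℂ))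
      (Complex.ofRealCLM.comp (ContinuousLinearMap.fst ℝ ℝ ℝ)) z :=
    (Complex.ofRealCLM.comp (ContinuousLinearMap.fst ℝ ℝ ℝ)).hasFDerivAt
  have h2 : HasFDerivAt (fun z : ℝ × ℝ => (z.2 : ℂ))
      (Complex.ofRealCLM.comp (ContinuousLinearMap.snd ℝ ℝ ℝ)) z :=
    (Complex.ofRealCLM.comp (ContinuousLinearMap.snd ℝ ℝ ℝ)).hasFDerivAt
  have h3 := (((h1.mul_const p).const_add o).add (h2.mul_const q)).add ((h1.mul h2).mul_const w)
  refine h3.congr_fderiv ?_
  ext
  · simp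
    ring
  · simp
    ring

private theorem fderiv_apply (G : ℂ → ℝ) (x v : ℂ) :
    fderiv ℝ G x v = v.re * fderiv ℝ G x 1 + v.im * fderiv ℝ G x Complex.I := by
  have hv : v = v.re • (1 : ℂ) + v.im • Complex.I := by
    apply Complex.ext <;> simp
  conv_lhs => rw [hv]
  rw [map_add, map_smul, map_smul, smul_eq_mul, smul_eq_mul]

/-- SQ-GRAD -/
theorem dir4_pull (o p q w : ℂ) (hC : Cvx p q w) {k : WithTop ℕ∞} (hk : 1 ≤ k) {G : ℂ → ℝ}
    (hG : ContDiff ℝ k G) {h : ℝ × ℝ → ℝ} (hh : ContDiff ℝ k h) {ε : ℝ} (hε : 0 < ε)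
    (hGh : ∀ z : ℝ × ℝ, |z.1| < 1 + ε → |z.2| < 1 + ε → G (psi o p q w z) = h z) :
    dir4 (vA o p q w) (vB o p q w) (vC o p q w) (vD o p q w) G = ∫ z in Sq, en p q w h z := by
  have hG1 : ContDiff ℝ 1 G := hG.of_le hk
  have hcf : Continuous (fderiv ℝ G) := hG1.continuous_fderiv one_ne_zero
  have hc1 : Continuous (fun z => fderiv ℝ G z 1) := hcf.clm_apply continuous_const
  have hc2 : Continuous (fun z => fderiv ℝ G z Complex.I) := hcf.clm_apply continuous_const
  rw [dir4, int_quad o p q w hC (fun z => (fderiv ℝ G z 1) ^ 2 + (fderiv ℝ G z Complex.I) ^ 2)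
    ((hc1.pow 2).add (hc2.pow 2))]
  have hms : MeasurableSet Sq := measurableSet_Icc.prod measurableSet_Icc
  refine setIntegral_congr_fun hms ?_
  intro z hz
  obtain ⟨⟨hz1, hz2⟩, hz3, hz4⟩ := hz
  have hnear : ∀ᶠ y in nhds z, G (psi o p q w y) = h y := by
    have ho : IsOpen {y : ℝ × ℝ | |y.1| < 1 + ε ∧ |y.2| < 1 + ε} :=
      (isOpen_lt (continuous_abs.comp continuous_fst) continuous_const).inter
        (isOpen_lt (continuous_abs.comp continuous_snd) continuous_const)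
    have hm : z ∈ {y : ℝ × ℝ | |y.1| < 1 + ε ∧ |y.2| < 1 + ε} :=
      ⟨lt_of_le_of_lt (abs_le.2 ⟨hz1, hz2⟩) (by linarith),
        lt_of_le_of_lt (abs_le.2 ⟨hz3, hz4⟩) (by linarith)⟩
    filter_upwards [ho.mem_nhds hm] with y hy
    exact hGh y hy.1 hy.2
  have hGd : DifferentiableAt ℝ G (psi o p q w z) := (hG1.differentiable one_ne_zero) _
  have hd := hGd.hasFDerivAt.comp z (hasFDerivAt_psi o p q w z)
  have hd' : HasFDerivAt h ((fderiv ℝ G (psi o p q w z)).comp
      ((ContinuousLinearMap.fst ℝ ℝ ℝ).smulRight (p + z.2 * w) +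
        (ContinuousLinearMap.snd ℝ ℝ ℝ).smulRight (q + z.1 * w))) z :=
    hd.congr_of_eventuallyEq (hnear.mono fun y hy => hy.symm)
  have hS : dS h z = fderiv ℝ G (psi o p q w z) (p + z.2 * w) := by
    rw [dS, hd'.fderiv]
    simp
  have hT : dT h z = fderiv ℝ G (psi o p q w z) (q + z.1 * w) := by
    rw [dT, hd'.fderiv]
    simp
  have hJ : 0 < Jc p q w z := by
    have hC' : |cr p w| + |cr w q| < cr p q := hC
    have e1 : -|cr p w| ≤ z.1 * cr p w := by
      have : |z.1 * cr p w| ≤ |cr p w| := by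
        rw [abs_mul]
        exact mul_le_of_le_one_left (abs_nonneg _) (abs_le.2 ⟨hz1, hz2⟩)
      linarith [neg_abs_le (z.1 * cr p w)]
    have e2 : -|cr w q| ≤ z.2 * cr w q := by
      have : |z.2 * cr w q| ≤ |cr w q| := by
        rw [abs_mul]
        exact mul_le_of_le_one_left (abs_nonneg _) (abs_le.2 ⟨hz3, hz4⟩)
      linarith [neg_abs_le (z.2 * cr w q)]
    rw [Jc]
    linarith
  rw [fderiv_apply] at hS hT
  simp only [en]
  rw [eq_div_iff hJ.ne', hS, hT]
  simp only [Jc, ip, cr, Complex.add_re, Complex.add_im, Complex.mul_re, Complex.mul_im,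
    Complex.ofReal_re, Complex.ofReal_im, zero_mul, sub_zero, add_zero]
  ring

end Pool.Agent.Sq4
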