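import Pool.Agent.Sq4.Defs

/-!
# SQ-KREG: constants and interaction energy for linear functions
-/

set_option autoImplicit false

noncomputable section

namespace Pool.Agent.Sq4

open MeasureTheory Pool.Agent.Stk
/-- the linear function -/
def fK (z : ℝ × ℝ) : ℝ := z.1

theorem fK_contDiff {k : WithTop ℕ∞} : ContDiff ℝ k fK := contDiff_fst

theorem fK_OE : OE fK := ⟨fun _ _ => rfl, fun _ _ => rfl⟩

private theorem dS_fK (z : ℝ × ℝ) : dS fK z = 1 := by
  have h : HasFDerivAt fK (ContinuousLinearMap.fst ℝ ℝ ℝ) z := hasFDerivAt_fst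
  simp [dS, h.fderiv]

private theorem dT_fK (z : ℝ × ℝ) : dT fK z = 0 := by
  have h : HasFDerivAt fK (ContinuousLinearMap.fst ℝ ℝ ℝ) z := hasFDerivAt_fst
  simp [dT, h.fderiv]

private theorem Sq_int {g : ℝ × ℝ → ℝ} (hg : Continuous g) :
    ∫ z in Sq, g z = ∫ x in (-1 : ℝ)..1, ∫ y in (-1 : ℝ)..1, g (x, y) := by
  have hI : IntegrableOn g Sq (volume.prod volume) := by
    have : IntegrableOn g Sq := hg.continuousOn.integrableOn_compact
      (isCompact_Icc.prod isCompact_Icc)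
    exact this
  unfold Sq at hI ⊢
  rw [Measure.volume_eq_prod, setIntegral_prod g hI, integral_Icc_eq_integral_Ioc,
    intervalIntegral.integral_of_le (by norm_num)]
  congr 1
  funext x
  rw [integral_Icc_eq_integral_Ioc, intervalIntegral.integral_of_le (by norm_num)]

private theorem Sq_const (c : ℝ) : ∫ _z in Sq, c = 4 * c := by
  rw [Sq_int continuous_const]
  simp
  ring

private theorem Sq_poly (a b c d e f g h : ℝ) :
    ∫ z in Sq, (a * z.1 ^ 2 + b * z.2 ^ 2 + c * (z.1 * z.2) + d * z.1 ^ 4 + e * (z.1 ^ 2 * z.2 ^ 2)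
      + f * z.2 ^ 4 + g * (z.1 ^ 3 * z.2) + h * (z.1 * z.2 ^ 3))
      = 4 / 3 * (a + b) + 4 / 5 * (d + f) + 4 / 9 * e := by
  rw [Sq_int (by fun_prop)]
  have h1 : ∀ x : ℝ, ∫ y in (-1 : ℝ)..1, (a * x ^ 2 + b * y ^ 2 + c * (x * y) + d * x ^ 4
      + e * (x ^ 2 * y ^ 2) + f * y ^ 4 + g * (x ^ 3 * y) + h * (x * y ^ 3))
      = 2 * a * x ^ 2 + 2 / 3 * b + 2 * d * x ^ 4 + 2 / 3 * e * x ^ 2 + 2 / 5 * f := by
    intro x
    have hd : ∀ y ∈ Set.uIcc (-1 : ℝ) 1, HasDerivAt (fun y : ℝ => a * x ^ 2 * y + b / 3 * y ^ 3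
        + c * x / 2 * y ^ 2 + d * x ^ 4 * y + e * x ^ 2 / 3 * y ^ 3 + f / 5 * y ^ 5
        + g * x ^ 3 / 2 * y ^ 2 + h * x / 4 * y ^ 4)
        (a * x ^ 2 + b * y ^ 2 + c * (x * y) + d * x ^ 4
      + e * (x ^ 2 * y ^ 2) + f * y ^ 4 + g * (x ^ 3 * y) + h * (x * y ^ 3)) y := by
      intro y _
      have h0 := hasDerivAt_id' y
      have h2 := h0.pow 2
      have h3 := h0.pow 3
      have h4 := h0.pow 4
      have h5 := h0.pow 5
      have := ((((((((h0.const_mul (a * x ^ 2)).add (h3.const_mul (b / 3))).add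
        (h2.const_mul (c * x / 2))).add (h0.const_mul (d * x ^ 4))).add
        (h3.const_mul (e * x ^ 2 / 3))).add (h5.const_mul (f / 5))).add
        (h2.const_mul (g * x ^ 3 / 2))).add (h4.const_mul (h * x / 4)))
      refine this.congr_deriv ?_
      norm_num
      ring
    rw [intervalIntegral.integral_eq_sub_of_hasDerivAt hd
      (Continuous.intervalIntegrable (by fun_prop) _ _)]
    ring
  simp only [h1]
  have hd : ∀ x ∈ Set.uIcc (-1 : ℝ) 1, HasDerivAt (fun x : ℝ => 2 / 3 * a * x ^ 3 + 2 / 3 * b * x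
        + 2 / 5 * d * x ^ 5 + 2 / 9 * e * x ^ 3 + 2 / 5 * f * x)
        (2 * a * x ^ 2 + 2 / 3 * b + 2 * d * x ^ 4 + 2 / 3 * e * x ^ 2 + 2 / 5 * f) x := by
    intro x _
    have h0 := hasDerivAt_id' x
    have h3 := h0.pow 3
    have h5 := h0.pow 5
    have := (((((h3.const_mul (2 / 3 * a)).add (h0.const_mul (2 / 3 * b))).add
      (h5.const_mul (2 / 5 * d))).add (h3.const_mul (2 / 9 * e))).add
      (h0.const_mul (2 / 5 * f)))
    refine this.congr_deriv ?_
    norm_num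
    ring
  rw [intervalIntegral.integral_eq_sub_of_hasDerivAt hd
    (Continuous.intervalIntegrable (by fun_prop) _ _)]
  ring

theorem fK_const : cso fK = 2 / 3 ∧ cse fK = 2 ∧ csx fK = 2 / 3 ∧ cme fK = 2 ∧ cE1 fK = 4 ∧
    cE2 fK = 0 ∧ cK fK = 4 := by
  refine ⟨?_, ?_, ?_, ?_, ?_, ?_, ?_⟩
  · simp only [cso, fK]
    rw [integral_pow]; norm_num
  · simp only [cse, fK]
    norm_num
  · simp only [csx, fK]
    have : ∀ x : ℝ, x * x = x ^ 2 := fun x => by ring
    simp only [this]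
    rw [integral_pow]; norm_num
  · simp only [cme, fK]
    norm_num
  · simp only [cE1, dS_fK]
    rw [Sq_const]; norm_num
  · simp only [cE2, dT_fK]
    rw [Sq_const]; norm_num
  · simp only [cK, dS_fK, dT_fK]
    rw [Sq_const]; norm_num

theorem DV_fK (p q : ℂ) (hd : 0 < cr p q) : DV fK p q = 8 * cr p q := by
  obtain ⟨-, -, -, -, h1, h2, h3⟩ := fK_const
  unfold DV
  rw [h1, h2, h3, div_eq_iff hd.ne']
  simp only [ip, cr]
  ring

/-- SQ-KREG The interaction energy for `κ = 2`. -/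
theorem TT_fK (p q w : ℂ) (hd : 0 < cr p q)
    (hr : ip w w * (ip p p + ip q q + 2 * |ip p q|) < cr p q ^ 2) :
    TT fK 2 p q w ≤ ip w w / cr p q * (4 / 3 * (ip p p + ip q q)
      + (ip p p * (4 / 5 * cr p w ^ 2 + 4 / 9 * cr w q ^ 2)
        + ip q q * (4 / 9 * cr p w ^ 2 + 4 / 5 * cr w q ^ 2)
        - 16 / 9 * ip p q * cr p w * cr w q)
        / (cr p q ^ 2 - ip w w * (ip p p + ip q q + 2 * |ip p q|))) := by
  set Den := cr p q ^ 2 - ip w w * (ip p p + ip q q + 2 * |ip p q|) with hDen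
  have hDen0 : 0 < Den := by rw [hDen]; linarith
  have hW : 0 ≤ ip w w := by simp only [ip]; nlinarith [sq_nonneg w.re, sq_nonneg w.im]
  have hP : 0 ≤ ip p p := by simp only [ip]; nlinarith [sq_nonneg p.re, sq_nonneg p.im]
  have hQ : 0 ≤ ip q q := by simp only [ip]; nlinarith [sq_nonneg q.re, sq_nonneg q.im]
  have gram : ip p p * (cr w q) ^ 2 + ip q q * (cr p w) ^ 2 + 2 * ip p q * (cr w q) * (cr p w)
      = ip w w * cr p q ^ 2 := by
    simp only [ip, cr]; ring
  -- the first factor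
  have hnn : ∀ z : ℝ × ℝ, 0 ≤ ip p p * z.1 ^ 2 + ip q q * z.2 ^ 2 - 2 * ip p q * z.1 * z.2 := by
    intro z
    have : ip p p * z.1 ^ 2 + ip q q * z.2 ^ 2 - 2 * ip p q * z.1 * z.2
        = (z.1 * p.re - z.2 * q.re) ^ 2 + (z.1 * p.im - z.2 * q.im) ^ 2 := by
      simp only [ip]; ring
    rw [this]; positivity
  have het : ∀ z ∈ Sq, et p q w z ^ 2 ≤ ip w w * (ip p p + ip q q + 2 * |ip p q|) := by
    rintro ⟨x, y⟩ ⟨hx, hy⟩
    have hx2 : x ^ 2 ≤ 1 := by
      have h1 := hx.1; have h2 := hx.2; simp only at h1 h2; nlinarith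
    have hy2 : y ^ 2 ≤ 1 := by
      have h1 := hy.1; have h2 := hy.2; simp only at h1 h2; nlinarith
    have hxy : |x * y| ≤ 1 := by
      rw [abs_le]; constructor <;> nlinarith [sq_nonneg (x + y), sq_nonneg (x - y)]
    have e1 : ip w w * (ip p p * x ^ 2 + ip q q * y ^ 2 - 2 * ip p q * x * y)
        - et p q w (x, y) ^ 2 = (w.re * (x * p.re - y * q.re) + w.im * (x * p.im - y * q.im)) ^ 2 := by
      simp only [ip, cr, et]; ring
    have e2 : et p q w (x, y) ^ 2
        ≤ ip w w * (ip p p * x ^ 2 + ip q q * y ^ 2 - 2 * ip p q * x * y) := by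
      have := sq_nonneg (w.re * (x * p.re - y * q.re) + w.im * (x * p.im - y * q.im))
      linarith
    refine e2.trans (mul_le_mul_of_nonneg_left ?_ hW)
    have e3 : -(ip p q * (x * y)) ≤ |ip p q| := by
      have h1 : |ip p q * (x * y)| ≤ |ip p q| := by
        rw [abs_mul]; exact mul_le_of_le_one_right (abs_nonneg _) hxy
      have := neg_abs_le (ip p q * (x * y))
      linarith
    nlinarith [mul_le_mul_of_nonneg_left hx2 hP, mul_le_mul_of_nonneg_left hy2 hQ]
  have hden : ∀ z ∈ Sq, Den ≤ cr p q ^ 2 - et p q w z ^ 2 := by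
    intro z hz
    have := het z hz
    rw [hDen]; linarith
  have hph : ∀ z : ℝ × ℝ, ph fK 2 p q w z
      = (ip p p * z.1 ^ 2 + ip q q * z.2 ^ 2 - 2 * ip p q * z.1 * z.2) * (ip w w * cr p q ^ 2) := by
    intro z
    rw [← gram]
    simp only [ph, B1, B2, dS_fK, dT_fK]
    ring
  have hcet : Continuous (et p q w) := by unfold et; fun_prop
  have hcomp : IsCompact Sq := isCompact_Icc.prod isCompact_Icc
  have hmeas : MeasurableSet Sq := measurableSet_Icc.prod measurableSet_Icc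
  have hI1 : IntegrableOn (fun z => ph fK 2 p q w z / (cr p q ^ 2 - et p q w z ^ 2)) Sq := by
    apply ContinuousOn.integrableOn_compact hcomp
    simp only [hph]
    refine ContinuousOn.div (by fun_prop) (by fun_prop) ?_
    intro z hz
    exact (hDen0.trans_le (hden z hz)).ne'
  have hpoint : ∀ z ∈ Sq, ph fK 2 p q w z / (cr p q ^ 2 - et p q w z ^ 2)
      ≤ ip w w * ((ip p p * z.1 ^ 2 + ip q q * z.2 ^ 2 - 2 * ip p q * z.1 * z.2)
        * (1 + et p q w z ^ 2 / Den)) := by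
    intro z hz
    have h1 := hden z hz
    have h0 : 0 < cr p q ^ 2 - et p q w z ^ 2 := hDen0.trans_le h1
    rw [hph, div_le_iff₀ h0]
    have h2 : cr p q ^ 2 ≤ (1 + et p q w z ^ 2 / Den) * (cr p q ^ 2 - et p q w z ^ 2) := by
      have h3 : et p q w z ^ 2 ≤ et p q w z ^ 2 / Den * (cr p q ^ 2 - et p q w z ^ 2) := by
        rw [div_mul_eq_mul_div, le_div_iff₀ hDen0]
        exact mul_le_mul_of_nonneg_left h1 (sq_nonneg _)
      nlinarith
    have h4 := mul_le_mul_of_nonneg_left h2 (mul_nonneg hW (hnn z))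
    nlinarith
  have hmono : (∫ z in Sq, ph fK 2 p q w z / (cr p q ^ 2 - et p q w z ^ 2))
      ≤ ∫ z in Sq, ip w w * ((ip p p * z.1 ^ 2 + ip q q * z.2 ^ 2 - 2 * ip p q * z.1 * z.2)
        * (1 + et p q w z ^ 2 / Den)) := by
    refine setIntegral_mono_on hI1 ?_ hmeas hpoint
    exact Continuous.continuousOn (by fun_prop) |>.integrableOn_compact hcomp
  have hval : (∫ z in Sq, ip w w * ((ip p p * z.1 ^ 2 + ip q q * z.2 ^ 2 - 2 * ip p q * z.1 * z.2)
        * (1 + et p q w z ^ 2 / Den)))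
      = ip w w * (4 / 3 * (ip p p + ip q q)
      + (ip p p * (4 / 5 * cr p w ^ 2 + 4 / 9 * cr w q ^ 2)
        + ip q q * (4 / 9 * cr p w ^ 2 + 4 / 5 * cr w q ^ 2)
        - 16 / 9 * ip p q * cr p w * cr w q) / Den) := by
    have := Sq_poly (ip w w * ip p p) (ip w w * ip q q) (- 2 * ip w w * ip p q)
      (ip w w / Den * (ip p p * cr p w ^ 2))
      (ip w w / Den * (ip p p * cr w q ^ 2 + ip q q * cr p w ^ 2 - 4 * ip p q * cr p w * cr w q))
      (ip w w / Den * (ip q q * cr w q ^ 2))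
      (ip w w / Den * (2 * ip p p * cr p w * cr w q - 2 * ip p q * cr p w ^ 2))
      (ip w w / Den * (2 * ip q q * cr p w * cr w q - 2 * ip p q * cr w q ^ 2))
    refine Eq.trans ?_ (this.trans ?_)
    · congr 1
      funext z
      simp only [et]
      field_simp
      ring
    · field_simp
      ring
  unfold TT
  rw [div_mul_eq_mul_div, div_le_div_iff_of_pos_right hd]
  exact hmono.trans hval.le

end Pool.Agent.Sq4
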