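import Pool.Agent.Sq4.Defs

/-!
# SQ-LENS: from vectors to the normalised shape data
-/

set_option autoImplicit false

noncomputable section

namespace Pool.Agent.Sq4

open MeasureTheory Pool.Agent.Stk

theorem nsq_lens (z : ℂ) : ‖z‖ ^ 2 = z.re ^ 2 + z.im ^ 2 := by
  rw [Complex.sq_norm, Complex.normSq_apply]; ring

theorem ip_self_lens (z : ℂ) : ip z z = ‖z‖ ^ 2 := by
  rw [nsq_lens]; unfold ip; ring

theorem la_pos_of_ne (p w : ℂ) (hp : p ≠ 0) : 0 < la p w := by
  have h : 2 * ‖p‖ ≤ ‖p + w‖ + ‖p - w‖ := by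
    have h1 : ‖(p + w) + (p - w)‖ ≤ ‖p + w‖ + ‖p - w‖ := norm_add_le _ _
    have h2 : (p + w) + (p - w) = (2 : ℂ) * p := by ring
    rw [h2, norm_mul] at h1
    simpa using h1
  have hp' : 0 < ‖p‖ := norm_pos_iff.mpr hp
  unfold la
  linarith

theorem ne_zero_of_cr (p q : ℂ) (hd : 0 < cr p q) : p ≠ 0 ∧ q ≠ 0 := by
  constructor
  · rintro rfl
    simp [cr] at hd
  · rintro rfl
    simp [cr] at hd

theorem la_pos (p q w : ℂ) (hd : 0 < cr p q) : 0 < la p w ∧ 0 < la q w :=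
  ⟨la_pos_of_ne p w (ne_zero_of_cr p q hd).1, la_pos_of_ne q w (ne_zero_of_cr p q hd).2⟩

/-- `a² + δ² = |p|² + |w|²` and `a δ = p · w` -/
theorem la_lb (p w : ℂ) : la p w ^ 2 + lb p w ^ 2 = ip p p + ip w w ∧
    la p w * lb p w = ip p w := by
  have h1 := nsq_lens (p + w)
  have h2 := nsq_lens (p - w)
  simp only [Complex.add_re, Complex.add_im, Complex.sub_re, Complex.sub_im] at h1 h2
  constructor
  · have : la p w ^ 2 + lb p w ^ 2 = (‖p + w‖ ^ 2 + ‖p - w‖ ^ 2) / 2 := by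
      unfold la lb; ring
    rw [this, h1, h2]; unfold ip; ring
  · have : la p w * lb p w = (‖p + w‖ ^ 2 - ‖p - w‖ ^ 2) / 4 := by
      unfold la lb; ring
    rw [this, h1, h2]; unfold ip; ring

theorem norm_le_la (p w : ℂ) : ‖w‖ ≤ la p w := by
  have h1 : ‖(p + w) - (p - w)‖ ≤ ‖p + w‖ + ‖p - w‖ := norm_sub_le _ _
  have h2 : (p + w) - (p - w) = (2 : ℂ) * w := by ring
  rw [h2, norm_mul] at h1
  have h3 : ‖(2 : ℂ)‖ = 2 := by simp
  rw [h3] at h1
  unfold la
  linarith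

theorem abs_lb_le (p w : ℂ) : |lb p w| ≤ ‖w‖ := by
  have h1 : |‖p + w‖ - ‖p - w‖| ≤ ‖(p + w) - (p - w)‖ := abs_norm_sub_norm_le _ _
  have h2 : (p + w) - (p - w) = (2 : ℂ) * w := by ring
  rw [h2, norm_mul] at h1
  have h3 : ‖(2 : ℂ)‖ = 2 := by simp
  rw [h3] at h1
  unfold lb
  rw [abs_div, abs_of_pos (by norm_num : (0 : ℝ) < 2)]
  linarith

theorem ip_le_la_sq (p w : ℂ) : ip w w ≤ la p w ^ 2 := by
  rw [ip_self_lens]
  exact pow_le_pow_left₀ (norm_nonneg _) (norm_le_la p w) 2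

theorem lb_sq_le_ip (p w : ℂ) : lb p w ^ 2 ≤ ip w w := by
  rw [ip_self_lens, ← sq_abs (lb p w)]
  exact pow_le_pow_left₀ (abs_nonneg _) (abs_lb_le p w) 2

theorem lagr (p q : ℂ) : cr p q ^ 2 = ip p p * ip q q - ip p q ^ 2 := by
  unfold cr ip; ring

theorem gram_lens (p q w : ℂ) : ip w w * cr p q ^ 2
    = ip p w ^ 2 * ip q q + ip q w ^ 2 * ip p p - 2 * ip p q * (ip p w * ip q w) := by
  unfold cr ip; ring

/-- SQ-LENS.2 -/
theorem ip_of (p q w : ℂ) (hd : 0 < cr p q) {s : ℝ} (hs : s = la p w + la q w) :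
    4 * ip p p / s ^ 2 = (1 + (la p w - la q w) / s) ^ 2 + 4 * lb p w ^ 2 / s ^ 2
        - 4 * ip w w / s ^ 2 ∧
      4 * ip q q / s ^ 2 = (1 - (la p w - la q w) / s) ^ 2 + 4 * lb q w ^ 2 / s ^ 2
        - 4 * ip w w / s ^ 2 := by
  obtain ⟨ha, hb⟩ := la_pos p q w hd
  have hs0 : 0 < s := by rw [hs]; positivity
  have hsn : s ≠ 0 := hs0.ne'
  have e1 : 1 + (la p w - la q w) / s = 2 * la p w / s := by
    field_simp; rw [hs]; ring
  have e2 : 1 - (la p w - la q w) / s = 2 * la q w / s := by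
    field_simp; rw [hs]; ring
  have h1 := (la_lb p w).1
  have h2 := (la_lb q w).1
  rw [e1, e2]
  constructor
  · have : ip p p = la p w ^ 2 + lb p w ^ 2 - ip w w := by linarith
    rw [this]; ring
  · have : ip q q = la q w ^ 2 + lb q w ^ 2 - ip w w := by linarith
    rw [this]; ring

/-- SQ-LENS.1 -/
theorem shp_of (p q w : ℂ) (hd : 0 < cr p q) {s : ℝ} (hs : s = la p w + la q w) :
    Shp ((la p w - la q w) / s) (4 * ip w w / s ^ 2) (4 * lb p w ^ 2 / s ^ 2)
      (4 * lb q w ^ 2 / s ^ 2) (4 * ip p q / s ^ 2) (4 * (lb p w * lb q w) / s ^ 2)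
      (4 * cr p q / s ^ 2) := by
  obtain ⟨ha, hb⟩ := la_pos p q w hd
  obtain ⟨hp, hq⟩ := ne_zero_of_cr p q hd
  have hs0 : 0 < s := by rw [hs]; positivity
  have hsn : s ≠ 0 := hs0.ne'
  have hs2 : 0 < s ^ 2 := by positivity
  have e1 : 1 + (la p w - la q w) / s = 2 * la p w / s := by
    field_simp; rw [hs]; ring
  have e2 : 1 - (la p w - la q w) / s = 2 * la q w / s := by
    field_simp; rw [hs]; ring
  have e3 : 1 - ((la p w - la q w) / s) ^ 2 = (2 * la p w / s) * (2 * la q w / s) := by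
    rw [← e1, ← e2]; ring
  obtain ⟨i1, i2⟩ := ip_of p q w hd hs
  have hpp : 0 < ip p p := by
    rw [ip_self_lens]; have := norm_pos_iff.mpr hp; positivity
  have hqq : 0 < ip q q := by
    rw [ip_self_lens]; have := norm_pos_iff.mpr hq; positivity
  have pos1 : 0 < 2 * la p w / s := by positivity
  have pos2 : 0 < 2 * la q w / s := by positivity
  refine
    { ht1 := by linarith
      ht2 := by linarith
      hu0 := by positivity
      hu := ?_
      hv0 := by positivity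
      hv := ?_
      hR1 := ?_
      hR2 := ?_
      hX := by field_simp
      hd := by positivity
      hP := by rw [← i1]; positivity
      hQ := by rw [← i2]; positivity
      hd2 := ?_
      hG := ?_ }
  · have := lb_sq_le_ip p w
    gcongr
  · have := lb_sq_le_ip q w
    gcongr
  · rw [e1]
    have := ip_le_la_sq p w
    have e : (2 * la p w / s) ^ 2 = 4 * la p w ^ 2 / s ^ 2 := by ring
    rw [e]
    gcongr
  · rw [e2]
    have := ip_le_la_sq q w
    have e : (2 * la q w / s) ^ 2 = 4 * la q w ^ 2 / s ^ 2 := by ring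
    rw [e]
    gcongr
  · rw [← i1, ← i2]
    have := lagr p q
    have e : (4 * cr p q / s ^ 2) ^ 2 = 16 * cr p q ^ 2 / s ^ 4 := by ring
    rw [e, this]
    ring
  · rw [← i1, ← i2, e3, e1, e2]
    have g := gram_lens p q w
    rw [← (la_lb p w).2, ← (la_lb q w).2] at g
    have e : 4 * ip w w / s ^ 2 * (4 * cr p q / s ^ 2) ^ 2
        = 64 * (ip w w * cr p q ^ 2) / s ^ 6 := by ring
    rw [e, g]
    ring

/-- SQ-LENS.3 -/
theorem cr_of (p q w : ℂ) : cr p w ^ 2 = (ip w w - lb p w ^ 2) * (la p w ^ 2 - ip w w) ∧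
    cr w q ^ 2 = (ip w w - lb q w ^ 2) * (la q w ^ 2 - ip w w) ∧
    ip w w * cr p q ^ 2 = ip p p * cr w q ^ 2 + ip q q * cr p w ^ 2
      + 2 * ip p q * (cr p w * cr w q) := by
  refine ⟨?_, ?_, ?_⟩
  · have h1 := (la_lb p w).1
    have h2 := (la_lb p w).2
    have h3 := lagr p w
    have h4 : ip p p = la p w ^ 2 + lb p w ^ 2 - ip w w := by linarith
    rw [h3, h4, ← h2]; ring
  · have h1 := (la_lb q w).1
    have h2 := (la_lb q w).2
    have h3 := lagr q w
    have h5 : cr w q ^ 2 = cr q w ^ 2 := by unfold cr; ring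
    have h4 : ip q q = la q w ^ 2 + lb q w ^ 2 - ip w w := by linarith
    rw [h5, h3, h4, ← h2]; ring
  · unfold cr ip; ring

/-- SQ-LENS.4 Criterion for convexity. -/
theorem cvx_of (p q w : ℂ) (hd : 0 < cr p q)
    (hr : ip w w * (ip p p + ip q q + 2 * |ip p q|) < cr p q ^ 2) : Cvx p q w := by
  unfold Cvx
  have key : (|cr p w| + |cr w q|) ^ 2 ≤ ip w w * (ip p p + ip q q + 2 * |ip p q|) := by
    have hw : 0 ≤ ip w w := by rw [ip_self_lens]; positivity
    have hx : (|cr p w| + |cr w q|) ^ 2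
        = cr p w ^ 2 + cr w q ^ 2 + 2 * |cr p w * cr w q| := by
      rw [abs_mul]
      have a1 := sq_abs (cr p w)
      have a2 := sq_abs (cr w q)
      nlinarith
    rw [hx]
    have i1 : cr p w ^ 2 + cr w q ^ 2 + 2 * (cr p w * cr w q)
        = ip w w * (ip p p + ip q q - 2 * ip p q) - ip w (p - q) ^ 2 := by
      unfold cr ip; simp only [Complex.sub_re, Complex.sub_im]; ring
    have i2 : cr p w ^ 2 + cr w q ^ 2 - 2 * (cr p w * cr w q)
        = ip w w * (ip p p + ip q q + 2 * ip p q) - ip w (p + q) ^ 2 := by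
      unfold cr ip; simp only [Complex.add_re, Complex.add_im]; ring
    have b1 := le_abs_self (ip p q)
    have b2 := neg_abs_le (ip p q)
    have c1 : ip w w * (-(ip p q)) ≤ ip w w * |ip p q| :=
      mul_le_mul_of_nonneg_left (by linarith) hw
    have c2 : ip w w * (ip p q) ≤ ip w w * |ip p q| :=
      mul_le_mul_of_nonneg_left (by linarith) hw
    rcases abs_cases (cr p w * cr w q) with ⟨h, _⟩ | ⟨h, _⟩
    · rw [h]
      nlinarith [sq_nonneg (ip w (p - q))]
    · rw [h]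
      nlinarith [sq_nonneg (ip w (p + q))]
  have h2 : (|cr p w| + |cr w q|) ^ 2 < cr p q ^ 2 := lt_of_le_of_lt key hr
  exact lt_of_pow_lt_pow_left₀ 2 hd.le h2

end Pool.Agent.Sq4
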