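import Pool.Agent.Sq4.RA
import Pool.Agent.Sq4.RSa
import Pool.Agent.Sq4.RSb
import Pool.Agent.Sq4.RSc
import Pool.Agent.Sq4.RSd

/-!
# SQ-RS: the defect is seen by the side lengths (real inequality)
-/

set_option autoImplicit false

noncomputable section

namespace Pool.Agent.Sq4

open MeasureTheory Pool.Agent.Stk

/-- SQ-RS.1 The Gram relation. -/
theorem gram_le {t R u v c X d : ℝ} (h : Shp t R u v c X d) :
    R * (1 - |c| / Real.sqrt (((1 + t) ^ 2 + u - R) * ((1 - t) ^ 2 + v - R)))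
      ≤ u * ((1 + t) ^ 2 / ((1 + t) ^ 2 + u - R)) + v * ((1 - t) ^ 2 / ((1 - t) ^ 2 + v - R)) := by
  have hP := h.hP
  have hQ := h.hQ
  have hG := h.hG
  have hd2 := h.hd2
  have hX := h.hX
  have ht1 : 0 < 1 + t := by linarith [h.ht1]
  have ht2 : 0 < 1 - t := by linarith [h.ht2]
  set P := (1 + t) ^ 2 + u - R with hPd
  set Q := (1 - t) ^ 2 + v - R with hQd
  have hPQ : 0 < P * Q := mul_pos hP hQ
  set s := Real.sqrt (P * Q) with hs
  have hs0 : 0 < s := Real.sqrt_pos.mpr hPQ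
  have hs2 : s ^ 2 = P * Q := Real.sq_sqrt hPQ.le
  have hu := h.hu0
  have hv := h.hv0
  -- the two numbers
  have hα : 0 ≤ u * ((1 + t) ^ 2 / P) := by positivity
  have hβ : 0 ≤ v * ((1 - t) ^ 2 / Q) := by positivity
  have hy : 0 ≤ |c| / s := by positivity
  -- |2 c (1-t^2) X| / (PQ) ≤ y (α + β)
  have key : -(2 * c * (1 - t ^ 2) * X) / (P * Q)
      ≤ |c| / s * (u * ((1 + t) ^ 2 / P) + v * ((1 - t) ^ 2 / Q)) := by
    have h1 : -(2 * c * (1 - t ^ 2) * X) ≤ |c| * (2 * |(1 - t ^ 2) * X|) := by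
      have : -(2 * c * (1 - t ^ 2) * X) = 2 * (-(c * ((1 - t ^ 2) * X))) := by ring
      rw [this]
      have h2 : -(c * ((1 - t ^ 2) * X)) ≤ |c| * |(1 - t ^ 2) * X| := by
        rw [← abs_mul]; exact neg_le_abs _
      linarith
    have h3 : 2 * |(1 - t ^ 2) * X| * s ≤ u * (1 + t) ^ 2 * Q + v * (1 - t) ^ 2 * P := by
      have hnn : 0 ≤ u * (1 + t) ^ 2 * Q + v * (1 - t) ^ 2 * P := by positivity
      refine abs_le_of_sq_le_sq' ?_ hnn |>.2
      rw [mul_pow, mul_pow, sq_abs, hs2, mul_pow, hX]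
      linarith [sq_nonneg (u * (1 + t) ^ 2 * Q - v * (1 - t) ^ 2 * P)]
    have h4 : -(2 * c * (1 - t ^ 2) * X) * s ≤ |c| * (u * (1 + t) ^ 2 * Q + v * (1 - t) ^ 2 * P) := by
      calc -(2 * c * (1 - t ^ 2) * X) * s ≤ |c| * (2 * |(1 - t ^ 2) * X|) * s :=
            mul_le_mul_of_nonneg_right h1 hs0.le
        _ = |c| * (2 * |(1 - t ^ 2) * X| * s) := by ring
        _ ≤ _ := mul_le_mul_of_nonneg_left h3 (abs_nonneg c)
    have e : |c| / s * (u * ((1 + t) ^ 2 / P) + v * ((1 - t) ^ 2 / Q))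
        = |c| * (u * (1 + t) ^ 2 * Q + v * (1 - t) ^ 2 * P) / (s * (P * Q)) := by
      field_simp
    rw [e, div_le_div_iff₀ hPQ (mul_pos hs0 hPQ)]
    have h5 := mul_le_mul_of_nonneg_right h4 hPQ.le
    linarith
  have e2 : R * (1 - (|c| / s) ^ 2)
      = u * ((1 + t) ^ 2 / P) + v * ((1 - t) ^ 2 / Q) + -(2 * c * (1 - t ^ 2) * X) / (P * Q) := by
    rw [div_pow, sq_abs, hs2]
    field_simp
    nlinarith
  have e3 : R * (1 - (|c| / s) ^ 2) ≤ (1 + |c| / s)
      * (u * ((1 + t) ^ 2 / P) + v * ((1 - t) ^ 2 / Q)) := by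
    rw [e2]; linarith [key]
  have e4 : (1 + |c| / s) * (R * (1 - |c| / s)) = R * (1 - (|c| / s) ^ 2) := by ring
  rw [← e4] at e3
  exact le_of_mul_le_mul_left e3 (by linarith)

private theorem rsM_nonneg {t x g : ℝ} (ht0 : -3 / 10 ≤ t) (ht1 : t ≤ 3 / 10)
    (hx0 : 0 ≤ x) (hx1 : x ≤ 1) (hg0 : 0 ≤ g) (hg1 : g ≤ 81 / 200) : 0 ≤ rsM t x g := by
  rcases le_total t 0 with ht | ht
  · rcases le_total g (81 / 400) with hg | hg
    · rcases le_total x (1 / 2) with hx | hx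
      · apply rs_box0 <;> linarith
      · rcases le_total x (3 / 4) with hx' | hx'
        · apply rs_box4 <;> linarith
        · apply rs_box10 <;> linarith
    · rcases le_total x (1 / 2) with hx | hx
      · apply rs_box1 <;> linarith
      · rcases le_total x (3 / 4) with hx' | hx'
        · rcases le_total x (5 / 8) with hx'' | hx''
          · apply rs_box5 <;> linarith
          · apply rs_box6 <;> linarith
        · apply rs_box12 <;> linarith
  · rcases le_total g (81 / 400) with hg | hg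
    · rcases le_total x (1 / 2) with hx | hx
      · apply rs_box2 <;> linarith
      · rcases le_total x (3 / 4) with hx' | hx'
        · rcases le_total g (81 / 800) with hg' | hg'
          · apply rs_box7 <;> linarith
          · apply rs_box8 <;> linarith
        · apply rs_box11 <;> linarith
    · rcases le_total x (1 / 2) with hx | hx
      · apply rs_box3 <;> linarith
      · rcases le_total x (3 / 4) with hx' | hx'
        · apply rs_box9 <;> linarith
        · apply rs_box13 <;> linarith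

private theorem rs_conv {A B r : ℝ} (hA : 0 < A) (hB : 0 < B) (hr0 : 0 ≤ r) (hr1 : r ≤ 1) :
    1 / ((1 - r) * A + r * B) ≤ (1 - r) * (1 / A) + r * (1 / B) := by
  have hC : 0 < (1 - r) * A + r * B := by
    rcases eq_or_lt_of_le hr0 with h | h
    · rw [← h]; linarith
    · have := mul_pos h hB
      have := mul_nonneg (by linarith : 0 ≤ 1 - r) hA.le
      linarith
  rw [mul_one_div, mul_one_div, div_add_div _ _ hA.ne' hB.ne', div_le_div_iff₀ hC (mul_pos hA hB)]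
  have := mul_nonneg (mul_nonneg hr0 (by linarith : 0 ≤ 1 - r)) (sq_nonneg (A - B))
  nlinarith

/-- the half inequality at a general radius -/
private theorem rs_half {t R a g : ℝ} (ht0 : -3 / 10 ≤ t) (ht1 : t ≤ 3 / 10)
    (hR0 : 0 ≤ R) (hR : R ≤ 8 / 25) (ha0 : 0 ≤ a) (ha1 : a ≤ 1) (hg0 : 0 ≤ g)
    (hg1 : g ≤ 81 / 200) :
    (R * a * (1 - a) + g * ((1 + t) / (1 - t)) / 2) / ((1 + t) ^ 2 - R * (1 - a))
      ≤ R * (-11 / 16 + 11 / 8 * a - 11 / 32 * a * ((1 - t) ^ 2 + g)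
          + (1 - t) / (1 + t) * (1 - a) - t / 5) + 1 / 60 + t ^ 2 + g ^ 2 / 2 + g / 2 := by
  have h1 : 0 < 1 + t := by linarith
  have h2 : 0 < 1 - t := by linarith
  have hT : (49 / 100 : ℝ) ≤ (1 + t) ^ 2 := by nlinarith
  have hx0 : 0 ≤ 1 - a := by linarith
  have hx1 : 1 - a ≤ 1 := by linarith
  have hP1 : 0 < (1 + t) ^ 2 - 8 / 25 * (1 - a) := by nlinarith
  have hPR : 0 < (1 + t) ^ 2 - R * (1 - a) := by nlinarith
  have hT0 : 0 < (1 + t) ^ 2 := by positivity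
  set T := (1 + t) ^ 2 with hTd
  -- value at R1
  have hM := rsM_nonneg ht0 ht1 hx0 hx1 hg0 hg1
  have f1 : (8 / 25 * a * (1 - a) + g * ((1 + t) / (1 - t)) / 2) / (T - 8 / 25 * (1 - a))
      ≤ 8 / 25 * (-11 / 16 + 11 / 8 * a - 11 / 32 * a * ((1 - t) ^ 2 + g)
          + (1 - t) / (1 + t) * (1 - a) - t / 5) + 1 / 60 + t ^ 2 + g ^ 2 / 2 + g / 2 := by
    rw [div_le_iff₀ hP1]
    have h12 : 0 < 1 - t ^ 2 := by nlinarith
    have e : (1 - t ^ 2) * ((8 / 25 * (-11 / 16 + 11 / 8 * a - 11 / 32 * a * ((1 - t) ^ 2 + g)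
          + (1 - t) / (1 + t) * (1 - a) - t / 5) + 1 / 60 + t ^ 2 + g ^ 2 / 2 + g / 2)
          * (T - 8 / 25 * (1 - a)) - (8 / 25 * a * (1 - a) + g * ((1 + t) / (1 - t)) / 2))
        = rsM t (1 - a) g := by
      have e1 : (1 - t ^ 2) * ((1 - t) / (1 + t)) = (1 - t) ^ 2 := by field_simp; ring
      have e2 : (1 - t ^ 2) * ((1 + t) / (1 - t)) = (1 + t) ^ 2 := by field_simp; ring
      unfold rsM
      rw [hTd]
      linear_combination (8 / 25 * (1 - a) * ((1 + t) ^ 2 - 8 / 25 * (1 - a))) * e1 - g / 2 * e2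
    rw [← e] at hM
    have := nonneg_of_mul_nonneg_right hM h12
    linarith
  -- value at 0
  have f0 : (g * ((1 + t) / (1 - t)) / 2) / T ≤ 1 / 60 + t ^ 2 + g ^ 2 / 2 + g / 2 := by
    have e : (g * ((1 + t) / (1 - t)) / 2) / T = g / 2 / (1 - t ^ 2) := by
      rw [hTd]
      have : 1 - t ^ 2 ≠ 0 := by nlinarith
      field_simp
      ring
    rw [e, div_le_iff₀ (by nlinarith)]
    have t2 : t ^ 2 ≤ 9 / 100 := by nlinarith
    have g2 : g ^ 2 ≤ 1 / 5 := by nlinarith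
    have q : 0 ≤ t ^ 2 * (1 - t ^ 2 - g ^ 2 / 2 - g / 2) :=
      mul_nonneg (sq_nonneg t) (by linarith)
    nlinarith [sq_nonneg g]
  -- convexity
  set ρ := R / (8 / 25) with hρ
  have hρ0 : 0 ≤ ρ := by positivity
  have hρ1 : ρ ≤ 1 := by rw [hρ, div_le_one (by norm_num)]; exact hR
  have hRρ : R = 8 / 25 * ρ := by rw [hρ]; field_simp
  have hconv : 1 / (T - R * (1 - a)) ≤ (1 - ρ) * (1 / T) + ρ * (1 / (T - 8 / 25 * (1 - a))) := by
    have e : T - R * (1 - a) = (1 - ρ) * T + ρ * (T - 8 / 25 * (1 - a)) := by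
      rw [hRρ]; ring
    rw [e]
    exact rs_conv hT0 hP1 hρ0 hρ1
  have hmono : 1 / (T - R * (1 - a)) ≤ 1 / (T - 8 / 25 * (1 - a)) := by
    apply one_div_le_one_div_of_le hP1
    nlinarith
  have hκ : 0 ≤ g * ((1 + t) / (1 - t)) / 2 := by positivity
  set κ := g * ((1 + t) / (1 - t)) / 2 with hκd
  set L := -11 / 16 + 11 / 8 * a - 11 / 32 * a * ((1 - t) ^ 2 + g)
          + (1 - t) / (1 + t) * (1 - a) - t / 5 with hL
  set C := 1 / 60 + t ^ 2 + g ^ 2 / 2 + g / 2 with hC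
  have g1 : κ * (1 / (T - R * (1 - a)))
      ≤ κ * ((1 - ρ) * (1 / T) + ρ * (1 / (T - 8 / 25 * (1 - a)))) :=
    mul_le_mul_of_nonneg_left hconv hκ
  have g2 : R * a * (1 - a) * (1 / (T - R * (1 - a)))
      ≤ R * a * (1 - a) * (1 / (T - 8 / 25 * (1 - a))) :=
    mul_le_mul_of_nonneg_left hmono (by positivity)
  have f1' : (8 / 25 * a * (1 - a)) * (1 / (T - 8 / 25 * (1 - a))) + κ * (1 / (T - 8 / 25 * (1 - a)))
      ≤ 8 / 25 * L + C := by
    have := f1
    rw [div_eq_mul_one_div, add_mul] at this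
    linarith
  have f0' : κ * (1 / T) ≤ C := by
    have := f0
    rw [div_eq_mul_one_div] at this
    exact this
  have m1 := mul_le_mul_of_nonneg_left f1' hρ0
  have m0 := mul_le_mul_of_nonneg_left f0' (by linarith : (0 : ℝ) ≤ 1 - ρ)
  rw [div_eq_mul_one_div, add_mul]
  calc R * a * (1 - a) * (1 / (T - R * (1 - a))) + κ * (1 / (T - R * (1 - a)))
      ≤ R * a * (1 - a) * (1 / (T - 8 / 25 * (1 - a)))
        + κ * ((1 - ρ) * (1 / T) + ρ * (1 / (T - 8 / 25 * (1 - a)))) := add_le_add g2 g1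
    _ = ρ * ((8 / 25 * a * (1 - a)) * (1 / (T - 8 / 25 * (1 - a)))
          + κ * (1 / (T - 8 / 25 * (1 - a)))) + (1 - ρ) * (κ * (1 / T)) := by
        rw [hRρ]; ring
    _ ≤ ρ * (8 / 25 * L + C) + (1 - ρ) * C := add_le_add m1 m0
    _ = R * L + C := by rw [hRρ]; ring
    _ = _ := by rw [hC]; ring

/-- SQ-RS.2 (numerically the minimum of `(u+v)/R + |c|` is `0.8557`). -/
theorem reg_sigma {t R u v c X d : ℝ} (h : Shp t R u v c X d)
    (hA : 11 / 2 * FA t R u v c X ≤ 8 * d) :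
    (4 / 5 - |c|) * R ≤ u + v := by
  obtain ⟨hR, ht, hc⟩ := reg_bounds h hA
  have hu0 := h.hu0
  have hv0 := h.hv0
  have hu := h.hu
  have hv := h.hv
  have hR0 : 0 ≤ R := hu0.trans hu
  rcases eq_or_lt_of_le hR0 with hR' | hR'
  · rw [← hR']; linarith
  have ht0 : -3 / 10 ≤ t := by nlinarith
  have ht1 : t ≤ 3 / 10 := by nlinarith
  have hg0 := abs_nonneg c
  have hg1 : |c| ≤ 81 / 200 := by
    have : |c| ^ 2 = c ^ 2 := sq_abs c
    nlinarith
  have hgr := gram_le h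
  have hb := bud1 h hA
  have hP := h.hP
  have hQ := h.hQ
  have hgc : |c| ^ 2 = c ^ 2 := sq_abs c
  set g := |c| with hg
  have a1 : 0 < 1 + t := by linarith
  have a2 : 0 < 1 - t := by linarith
  obtain ⟨a, ha⟩ : ∃ a, a = u / R := ⟨_, rfl⟩
  obtain ⟨b, hbd⟩ : ∃ b, b = v / R := ⟨_, rfl⟩
  have hua : u = R * a := by rw [ha]; field_simp
  have hvb : v = R * b := by rw [hbd]; field_simp
  have ha0 : 0 ≤ a := by rw [ha]; positivity
  have hb0 : 0 ≤ b := by rw [hbd]; positivity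
  have ha1 : a ≤ 1 := by rw [ha, div_le_one hR']; exact hu
  have hb1 : b ≤ 1 := by rw [hbd, div_le_one hR']; exact hv
  have H1 := rs_half ht0 ht1 hR0 hR ha0 ha1 hg0 hg1
  have H2 := rs_half (t := -t) (R := R) (a := b) (g := g) (by linarith) (by linarith) hR0 hR
    hb0 hb1 hg0 hg1
  have eP : (1 + t) ^ 2 - R * (1 - a) = (1 + t) ^ 2 + u - R := by rw [hua]; ring
  have eQ : (1 + -t) ^ 2 - R * (1 - b) = (1 - t) ^ 2 + v - R := by rw [hvb]; ring
  rw [eP] at H1
  rw [eQ] at H2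
  set P := (1 + t) ^ 2 + u - R with hPd
  set Q := (1 - t) ^ 2 + v - R with hQd
  have hPQ : 0 < P * Q := mul_pos hP hQ
  set s := Real.sqrt (P * Q) with hs
  have hs0 : 0 < s := Real.sqrt_pos.mpr hPQ
  have hs2 : s ^ 2 = P * Q := Real.sq_sqrt hPQ.le
  set th := (1 - t) / (1 + t) with hth
  have hth0 : 0 < th := by positivity
  have hinv : (1 + t) / (1 - t) = 1 / th := by rw [hth]; field_simp
  -- AM-GM
  have hAM : 1 / s ≤ (1 / th) / 2 / P + th / 2 / Q := by
    have e : ((1 / th) / 2 / P + th / 2 / Q) ^ 2 - (1 / s) ^ 2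
        = ((1 / th) / 2 / P - th / 2 / Q) ^ 2 := by
      rw [div_pow 1 s, hs2]
      field_simp
      ring
    have h1 : (1 / s) ^ 2 ≤ ((1 / th) / 2 / P + th / 2 / Q) ^ 2 := by
      linarith [sq_nonneg ((1 / th) / 2 / P - th / 2 / Q)]
    exact (abs_le_of_sq_le_sq' h1 (by positivity)).2
  have e1 : (1 + t) ^ 2 / P = 1 + R * (1 - a) / P := by
    have : (1 + t) ^ 2 = P + R * (1 - a) := by rw [hPd, hua]; ring
    rw [this]; field_simp
  have e2 : (1 - t) ^ 2 / Q = 1 + R * (1 - b) / Q := by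
    have : (1 - t) ^ 2 = Q + R * (1 - b) := by rw [hQd, hvb]; ring
    rw [this]; field_simp
  rw [e1, e2] at hgr
  -- combine
  have hAMg : g * (1 / s) ≤ g * ((1 / th) / 2 / P + th / 2 / Q) :=
    mul_le_mul_of_nonneg_left hAM hg0
  have hgs : g / s = g * (1 / s) := by rw [mul_one_div]
  have n1 : (1 + -t) / (1 - -t) = th := by rw [hth]; ring
  have n2 : (1 - -t) / (1 + -t) = 1 / th := by rw [← hinv]; ring
  have n3 : (1 - -t) ^ 2 = (1 + t) ^ 2 := by ring
  have n4 : (-t) ^ 2 = t ^ 2 := by ring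
  rw [n1, n2, n3, n4] at H2
  rw [hinv] at H1
  -- the energy bound, divided
  have hbR : 11 / 2 * F0 t R u v c + 4 * th * (R - u) + 4 * ((1 + t) / (1 - t)) * (R - v)
      + 4 * g ^ 2 ≤ 8 * (1 - t ^ 2) := by rw [hgc]; exact hb
  rw [hinv] at hbR
  have hF : F0 t R u v c = 4 / 3 - R + (R * a + R * b)
    - (R * a * ((1 - t) ^ 2 + R * b - R) + R * b * ((1 + t) ^ 2 + R * a - R)
        + g * (R * a + R * b)) / 4 := by
    unfold F0; rw [← hg, hua, hvb]
  rw [hF, hua, hvb] at hbR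
  have hab : 0 ≤ R ^ 2 * (a * (1 - b) + b * (1 - a)) := by
    have : 0 ≤ 1 - a := by linarith
    have : 0 ≤ 1 - b := by linarith
    positivity
  -- total
  have tot : g * ((1 / th) / 2 / P + th / 2 / Q) - g + R * a * (1 - a) / P
      + R * b * (1 - b) / Q ≤ 1 / 5 := by
    have s1 : (R * a * (1 - a) + g * (1 / th) / 2) / P
        = R * a * (1 - a) / P + g * ((1 / th) / 2 / P) := by ring
    have s2 : (R * b * (1 - b) + g * th / 2) / Q
        = R * b * (1 - b) / Q + g * (th / 2 / Q) := by ring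
    rw [s1] at H1
    rw [s2] at H2
    linarith [H1, H2, hbR, hab]
  rw [hgs, hua, hvb] at hgr
  have f1 : R * (g * (1 / s)) ≤ R * (g * ((1 / th) / 2 / P + th / 2 / Q)) :=
    mul_le_mul_of_nonneg_left hAMg hR0
  have f2 := mul_le_mul_of_nonneg_left tot hR0
  have f3 : R * a * (1 + R * (1 - a) / P) = R * a + R * (R * a * (1 - a) / P) := by ring
  have f4 : R * b * (1 + R * (1 - b) / Q) = R * b + R * (R * b * (1 - b) / Q) := by ring
  rw [f3, f4] at hgr
  rw [hua, hvb]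
  linarith [hgr, f1, f2]

end Pool.Agent.Sq4
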