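import Pool.Agent.Sq4.RC
import Pool.Agent.Sq4.RS
import Pool.Agent.Sq4.RKx
import Pool.Agent.Sq4.RKy
import Pool.Agent.Sq4.RKz

/-!
# SQ-RKB: real inequality for the middle regime, interaction energy
-/

set_option autoImplicit false

noncomputable section

namespace Pool.Agent.Sq4

open MeasureTheory Pool.Agent.Stk

theorem kbA_bi {t R u v g la y mu : ℝ} (hu0 : 0 ≤ u) (hu : u ≤ R) (hv0 : 0 ≤ v) (hv : v ≤ R)
    (hR : 0 < R) (h00 : 0 ≤ kbA t R 0 0 g la y mu) (h01 : 0 ≤ kbA t R 0 R g la y mu)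
    (h10 : 0 ≤ kbA t R R 0 g la y mu) (h11 : 0 ≤ kbA t R R R g la y mu) :
    0 ≤ kbA t R u v g la y mu := by
  have key : R * R * kbA t R u v g la y mu
      = (R - u) * (R - v) * kbA t R 0 0 g la y mu + u * (R - v) * kbA t R R 0 g la y mu
        + (R - u) * v * kbA t R 0 R g la y mu + u * v * kbA t R R R g la y mu := by
    unfold kbA; ring
  have p1 : 0 ≤ R - u := by linarith
  have p2 : 0 ≤ R - v := by linarith
  have q1 := mul_nonneg (mul_nonneg p1 p2) h00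
  have q2 := mul_nonneg (mul_nonneg hu0 p2) h10
  have q3 := mul_nonneg (mul_nonneg p1 hv0) h01
  have q4 := mul_nonneg (mul_nonneg hu0 hv0) h11
  by_contra hn
  push Not at hn
  have := mul_neg_of_pos_of_neg (mul_pos hR hR) hn
  linarith

theorem kbB_bi {t R u v g la y mu : ℝ} (hu0 : 0 ≤ u) (hu : u ≤ R) (hv0 : 0 ≤ v) (hv : v ≤ R)
    (hR : 0 < R) (h00 : 0 ≤ kbB t R 0 0 g la y mu) (h01 : 0 ≤ kbB t R 0 R g la y mu)
    (h10 : 0 ≤ kbB t R R 0 g la y mu) (h11 : 0 ≤ kbB t R R R g la y mu) :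
    0 ≤ kbB t R u v g la y mu := by
  have key : R * R * kbB t R u v g la y mu
      = (R - u) * (R - v) * kbB t R 0 0 g la y mu + u * (R - v) * kbB t R R 0 g la y mu
        + (R - u) * v * kbB t R 0 R g la y mu + u * v * kbB t R R R g la y mu := by
    unfold kbB; ring
  have p1 : 0 ≤ R - u := by linarith
  have p2 : 0 ≤ R - v := by linarith
  have q1 := mul_nonneg (mul_nonneg p1 p2) h00
  have q2 := mul_nonneg (mul_nonneg hu0 p2) h10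
  have q3 := mul_nonneg (mul_nonneg p1 hv0) h01
  have q4 := mul_nonneg (mul_nonneg hu0 hv0) h11
  by_contra hn
  push Not at hn
  have := mul_neg_of_pos_of_neg (mul_pos hR hR) hn
  linarith

/-- The relaxed constraints. -/
structure KbReg (t R u v g : ℝ) : Prop where
  ht0 : 0 ≤ t
  ht : t ≤ 7 / 24
  hR0 : 3 / 20 ≤ R
  hR : R ≤ 8 / 25
  hu0 : 0 ≤ u
  hu : u ≤ R
  hv0 : 0 ≤ v
  hv : v ≤ R
  hg0 : 0 ≤ g
  hg : g ≤ 161 / 400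
  hG : ∀ y : ℝ, 0 ≤ y → 11 / 8 * y * (4 / 3 - R + (u + v)
        - (u * ((1 - t) ^ 2 + v - R) + v * ((1 + t) ^ 2 + u - R) + g * (u + v)) / 4)
        - y ^ 2 - ((1 + t) ^ 2 + u - R) * ((1 - t) ^ 2 + v - R) + g ^ 2 ≤ 0
  hs : (4 / 5 - g) * R ≤ u + v

theorem kbA_drop {t R u v g : ℝ} (h : KbReg t R u v g) (la y mu : ℝ) (hla : 0 ≤ la) (hy : 0 ≤ y)
    (hmu : 0 ≤ mu)
    (hp : 0 ≤ kbA t R u v g la y mu) : 0 ≤ kbA t R u v g 0 0 0 := by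
  have h1 := mul_nonneg hla (sub_nonneg.2 (h.hG y hy))
  have h2 := mul_nonneg hmu (sub_nonneg.2 h.hs)
  unfold kbA at hp ⊢
  linarith

theorem kbB_drop {t R u v g : ℝ} (h : KbReg t R u v g) (la y mu : ℝ) (hla : 0 ≤ la) (hy : 0 ≤ y)
    (hmu : 0 ≤ mu)
    (hp : 0 ≤ kbB t R u v g la y mu) : 0 ≤ kbB t R u v g 0 0 0 := by
  have h1 := mul_nonneg hla (sub_nonneg.2 (h.hG y hy))
  have h2 := mul_nonneg hmu (sub_nonneg.2 h.hs)
  unfold kbB at hp ⊢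
  linarith

theorem A1_box {t R u v g : ℝ} (h : KbReg t R u v g) (h1 : 0 ≤ t) (h2 : t ≤ 7 / 24) (h3 : 3 / 20 ≤ R)
    (h4 : R ≤ 1 / 5) : 0 ≤ kbA t R u v g 0 0 0 := by
  have ht2 : t ^ 2 ≤ (7 / 24) ^ 2 := by nlinarith
  have hk : (0:ℝ) ≤ (17) := by linarith
  have hm : (0:ℝ) ≤ (29 / 20 - (17) * t ^ 2) := by nlinarith [mul_le_mul_of_nonneg_left ht2 hk]
  refine kbA_drop h (19 * R) (21 / 25) (29 / 20 - (17) * t ^ 2) (by linarith) (by norm_num) hm ?_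
  exact kbA_bi h.hu0 h.hu h.hv0 h.hv (by linarith) (A1_0 h1 h2 h3 h4 h.hg0 h.hg)
    (A1_1 h1 h2 h3 h4 h.hg0 h.hg) (A1_2 h1 h2 h3 h4 h.hg0 h.hg) (A1_3 h1 h2 h3 h4 h.hg0 h.hg)

theorem A2_box {t R u v g : ℝ} (h : KbReg t R u v g) (h1 : 0 ≤ t) (h2 : t ≤ 3 / 20) (h3 : 1 / 5 ≤ R)
    (h4 : R ≤ 13 / 50) : 0 ≤ kbA t R u v g 0 0 0 := by
  have ht2 : t ^ 2 ≤ (3 / 20) ^ 2 := by nlinarith
  have hk : (0:ℝ) ≤ (67) := by linarith
  have hm : (0:ℝ) ≤ (19 / 10 - (67) * t ^ 2) := by nlinarith [mul_le_mul_of_nonneg_left ht2 hk]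
  refine kbA_drop h (51 * R - 43 / 10) (41 / 50) (19 / 10 - (67) * t ^ 2) (by linarith) (by norm_num) hm ?_
  exact kbA_bi h.hu0 h.hu h.hv0 h.hv (by linarith) (A2_0 h1 h2 h3 h4 h.hg0 h.hg)
    (A2_1 h1 h2 h3 h4 h.hg0 h.hg) (A2_2 h1 h2 h3 h4 h.hg0 h.hg) (A2_3 h1 h2 h3 h4 h.hg0 h.hg)

theorem A3_box {t R u v g : ℝ} (h : KbReg t R u v g) (h1 : 0 ≤ t) (h2 : t ≤ 3 / 20) (h3 : 13 / 50 ≤ R)
    (h4 : R ≤ 8 / 25) : 0 ≤ kbA t R u v g 0 0 0 := by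
  have ht2 : t ^ 2 ≤ (3 / 20) ^ 2 := by nlinarith
  have hk : (0:ℝ) ≤ (86) := by linarith
  have hm : (0:ℝ) ≤ (39 / 20 - (86) * t ^ 2) := by nlinarith [mul_le_mul_of_nonneg_left ht2 hk]
  refine kbA_drop h (104 * R - 83 / 5) (41 / 50) (39 / 20 - (86) * t ^ 2) (by linarith) (by norm_num) hm ?_
  exact kbA_bi h.hu0 h.hu h.hv0 h.hv (by linarith) (A3_0 h1 h2 h3 h4 h.hg0 h.hg)
    (A3_1 h1 h2 h3 h4 h.hg0 h.hg) (A3_2 h1 h2 h3 h4 h.hg0 h.hg) (A3_3 h1 h2 h3 h4 h.hg0 h.hg)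

theorem A4_box {t R u v g : ℝ} (h : KbReg t R u v g) (h1 : 3 / 20 ≤ t) (h2 : t ≤ 11 / 50) (h3 : 1 / 5 ≤ R)
    (h4 : R ≤ 13 / 50) : 0 ≤ kbA t R u v g 0 0 0 := by
  refine kbA_drop h (47 * R - 3 / 2) (43 / 50) 0 (by linarith) (by norm_num) le_rfl ?_
  exact kbA_bi h.hu0 h.hu h.hv0 h.hv (by linarith) (A4_0 h1 h2 h3 h4 h.hg0 h.hg)
    (A4_1 h1 h2 h3 h4 h.hg0 h.hg) (A4_2 h1 h2 h3 h4 h.hg0 h.hg) (A4_3 h1 h2 h3 h4 h.hg0 h.hg)

theorem A5_box {t R u v g : ℝ} (h : KbReg t R u v g) (h1 : 3 / 20 ≤ t) (h2 : t ≤ 11 / 50) (h3 : 13 / 50 ≤ R)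
    (h4 : R ≤ 8 / 25) : 0 ≤ kbA t R u v g 0 0 0 := by
  refine kbA_drop h (78 * R - 15 / 2) (107 / 125) 0 (by linarith) (by norm_num) le_rfl ?_
  exact kbA_bi h.hu0 h.hu h.hv0 h.hv (by linarith) (A5_0 h1 h2 h3 h4 h.hg0 h.hg)
    (A5_1 h1 h2 h3 h4 h.hg0 h.hg) (A5_2 h1 h2 h3 h4 h.hg0 h.hg) (A5_3 h1 h2 h3 h4 h.hg0 h.hg)

theorem A6_box {t R u v g : ℝ} (h : KbReg t R u v g) (h1 : 11 / 50 ≤ t) (h2 : t ≤ 7 / 24) (h3 : 1 / 5 ≤ R)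
    (h4 : R ≤ 8 / 25) : 0 ≤ kbA t R u v g 0 0 0 := by
  refine kbA_drop h (71 * R - 9 / 2) (171 / 200) 0 (by linarith) (by norm_num) le_rfl ?_
  exact kbA_bi h.hu0 h.hu h.hv0 h.hv (by linarith) (A6_0 h1 h2 h3 h4 h.hg0 h.hg)
    (A6_1 h1 h2 h3 h4 h.hg0 h.hg) (A6_2 h1 h2 h3 h4 h.hg0 h.hg) (A6_3 h1 h2 h3 h4 h.hg0 h.hg)

theorem B1_box {t R u v g : ℝ} (h : KbReg t R u v g) (h1 : 0 ≤ t) (h2 : t ≤ 7 / 24) (h3 : 3 / 20 ≤ R)
    (h4 : R ≤ 1 / 5) : 0 ≤ kbB t R u v g 0 0 0 := by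
  have ht2 : t ^ 2 ≤ (7 / 24) ^ 2 := by nlinarith
  have hk : (0:ℝ) ≤ (5) := by linarith
  have hm : (0:ℝ) ≤ (1 / 2 - (5) * t ^ 2) := by nlinarith [mul_le_mul_of_nonneg_left ht2 hk]
  refine kbB_drop h (45 * R - 6) (43 / 50) (1 / 2 - (5) * t ^ 2) (by linarith) (by norm_num) hm ?_
  exact kbB_bi h.hu0 h.hu h.hv0 h.hv (by linarith) (B1_0 h1 h2 h3 h4 h.hg0 h.hg)
    (B1_1 h1 h2 h3 h4 h.hg0 h.hg) (B1_2 h1 h2 h3 h4 h.hg0 h.hg) (B1_3 h1 h2 h3 h4 h.hg0 h.hg)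

theorem B2_box {t R u v g : ℝ} (h : KbReg t R u v g) (h1 : 0 ≤ t) (h2 : t ≤ 3 / 20) (h3 : 1 / 5 ≤ R)
    (h4 : R ≤ 8 / 25) : 0 ≤ kbB t R u v g 0 0 0 := by
  have ht2 : t ^ 2 ≤ (3 / 20) ^ 2 := by nlinarith
  have hk : (0:ℝ) ≤ (171 * R - 15) := by linarith
  have hm : (0:ℝ) ≤ (8 * R - 1 - (171 * R - 15) * t ^ 2) := by nlinarith [mul_le_mul_of_nonneg_left ht2 hk]
  refine kbB_drop h (41 * R - 43 / 10) (41 / 50) (8 * R - 1 - (171 * R - 15) * t ^ 2) (by linarith) (by norm_num) hm ?_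
  exact kbB_bi h.hu0 h.hu h.hv0 h.hv (by linarith) (B2_0 h1 h2 h3 h4 h.hg0 h.hg)
    (B2_1 h1 h2 h3 h4 h.hg0 h.hg) (B2_2 h1 h2 h3 h4 h.hg0 h.hg) (B2_3 h1 h2 h3 h4 h.hg0 h.hg)

theorem B3_box {t R u v g : ℝ} (h : KbReg t R u v g) (h1 : 3 / 20 ≤ t) (h2 : t ≤ 7 / 24) (h3 : 1 / 5 ≤ R)
    (h4 : R ≤ 8 / 25) : 0 ≤ kbB t R u v g 0 0 0 := by
  refine kbB_drop h (7 / 2 + 14 * R) (21 / 25) 0 (by linarith) (by norm_num) le_rfl ?_
  exact kbB_bi h.hu0 h.hu h.hv0 h.hv (by linarith) (B3_0 h1 h2 h3 h4 h.hg0 h.hg)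
    (B3_1 h1 h2 h3 h4 h.hg0 h.hg) (B3_2 h1 h2 h3 h4 h.hg0 h.hg) (B3_3 h1 h2 h3 h4 h.hg0 h.hg)
theorem kbA_all {t R u v g : ℝ} (h : KbReg t R u v g) : 0 ≤ kbA t R u v g 0 0 0 := by
  rcases le_total R (1 / 5) with hR | hR
  · exact A1_box h h.ht0 h.ht h.hR0 hR
  rcases le_total t (3 / 20) with ht | ht
  · rcases le_total R (13 / 50) with hR2 | hR2
    · exact A2_box h h.ht0 ht hR hR2
    · exact A3_box h h.ht0 ht hR2 h.hR
  rcases le_total t (11 / 50) with ht2 | ht2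
  · rcases le_total R (13 / 50) with hR2 | hR2
    · exact A4_box h ht ht2 hR hR2
    · exact A5_box h ht ht2 hR2 h.hR
  · exact A6_box h ht2 h.ht hR h.hR

theorem kbB_all {t R u v g : ℝ} (h : KbReg t R u v g) : 0 ≤ kbB t R u v g 0 0 0 := by
  rcases le_total R (1 / 5) with hR | hR
  · exact B1_box h h.ht0 h.ht h.hR0 hR
  rcases le_total t (3 / 20) with ht | ht
  · exact B2_box h h.ht0 ht hR h.hR
  · exact B3_box h ht h.ht hR h.hR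

/-- The case `0 ≤ t`. -/
theorem reg_KB_aux {t R u v c X d : ℝ} (h : Shp t R u v c X d)
    (hA : 11 / 2 * FA t R u v c X ≤ 8 * d) (hR : 3 / 20 ≤ R) (ht0 : 0 ≤ t) :
    R / d * (4 / 3 * (((1 + t) ^ 2 + u - R) + ((1 - t) ^ 2 + v - R))
      + ((4 / 3 * ((1 + t) ^ 2 + u - R) + 4 / 5 * ((1 - t) ^ 2 + v - R))
          * ((R - v) * ((1 - t) ^ 2 - R))
        + (4 / 5 * ((1 + t) ^ 2 + u - R) + 4 / 3 * ((1 - t) ^ 2 + v - R))
          * ((R - u) * ((1 + t) ^ 2 - R)) - 8 / 9 * (R * d ^ 2))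
        / (d ^ 2 - R * (((1 + t) ^ 2 + u - R) + ((1 - t) ^ 2 + v - R) + 2 * |c|)))
      ≤ R * (29 / 10 + 10 * R) := by
  obtain ⟨b1, b2, b3⟩ := reg_bounds h hA
  have hc := reg_convex h hA
  have hs := reg_sigma h hA
  have hd := d_ge h hA
  have hd0 := h.hd
  have hg0 : 0 ≤ |c| := abs_nonneg c
  have hg2 : |c| ^ 2 = c ^ 2 := sq_abs c
  have hg : |c| ≤ 161 / 400 := by nlinarith
  have ht : t ≤ 7 / 24 := by nlinarith
  have hd2 := h.hd2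
  have hreg : KbReg t R u v |c| := by
    refine ⟨ht0, ht, hR, b1, h.hu0, h.hu, h.hv0, h.hv, hg0, hg, ?_, hs⟩
    intro y hy
    have e : 11 / 8 * y * (4 / 3 - R + (u + v)
        - (u * ((1 - t) ^ 2 + v - R) + v * ((1 + t) ^ 2 + u - R) + |c| * (u + v)) / 4)
        = 2 * y * (11 / 16 * F0 t R u v c) := by unfold F0; ring
    rw [e, hg2]
    have h1 := mul_le_mul_of_nonneg_left hd (show (0:ℝ) ≤ 2 * y by linarith)
    linarith [sq_nonneg (d - y), show (d - y) ^ 2 = d ^ 2 - 2 * y * d + y ^ 2 by ring]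
  have hAA := kbA_all hreg
  have hBB := kbB_all hreg
  have hP := h.hP
  have hQ := h.hQ
  set P := (1 + t) ^ 2 + u - R with hPd
  set Q := (1 - t) ^ 2 + v - R with hQd
  have hDen : 0 < d ^ 2 - R * (P + Q + 2 * |c|) := by linarith
  have hN : ((4 / 3 * P + 4 / 5 * Q) * ((R - v) * ((1 - t) ^ 2 - R))
        + (4 / 5 * P + 4 / 3 * Q) * ((R - u) * ((1 + t) ^ 2 - R)) - 8 / 9 * (R * d ^ 2))
        / (d ^ 2 - R * (P + Q + 2 * |c|)) ≤ 11 * R - 17 / 25 := by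
    rw [div_le_iff₀ hDen]
    have e1 : 0 ≤ (R - v) * ((1 - t) ^ 2 - R) :=
      mul_nonneg (by linarith [h.hv]) (by linarith [h.hR2])
    have e2 : 0 ≤ ((1 - t) ^ 2 - Q) * ((R - v) * ((1 - t) ^ 2 - R)) :=
      mul_nonneg (by rw [hQd]; linarith [h.hv]) e1
    have e3 : 0 ≤ ((1 + t) ^ 2 - R) * (u * u) :=
      mul_nonneg (by linarith [h.hR1]) (mul_self_nonneg u)
    unfold kbA at hAA
    rw [← hPd, ← hQd, hg2] at hAA
    have e4 : P * Q - c ^ 2 = d ^ 2 := by rw [hd2]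
    rw [e4] at hAA
    have e5 : P * (R - u) = ((1 + t) ^ 2 - R) * R + (R - ((1 + t) ^ 2 - R)) * u - u * u := by
      rw [hPd]; ring
    linear_combination hAA + 4 / 5 * e2 + 4 / 5 * e3 + (4 / 5 * ((1 + t) ^ 2 - R)) * e5
  have hB2 : 4 / 3 * (P + Q) + (11 * R - 17 / 25) ≤ (29 / 10 + 10 * R) * d := by
    unfold kbB at hBB
    rw [← hPd, ← hQd] at hBB
    have hd' : 11 / 16 * (4 / 3 - R + (u + v) - (u * Q + v * P + |c| * (u + v)) / 4) ≤ d := by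
      unfold F0 at hd
      rw [← hPd, ← hQd] at hd
      exact hd
    have := mul_le_mul_of_nonneg_left hd' (show (0:ℝ) ≤ 29 / 10 + 10 * R by linarith)
    linarith
  have hR0 : 0 < R := by linarith
  rw [div_mul_eq_mul_div, div_le_iff₀ hd0]
  have := mul_le_mul_of_nonneg_left (show 4 / 3 * (P + Q)
      + ((4 / 3 * P + 4 / 5 * Q) * ((R - v) * ((1 - t) ^ 2 - R))
        + (4 / 5 * P + 4 / 3 * Q) * ((R - u) * ((1 + t) ^ 2 - R)) - 8 / 9 * (R * d ^ 2))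
        / (d ^ 2 - R * (P + Q + 2 * |c|)) ≤ (29 / 10 + 10 * R) * d by linarith) hR0.le
  linarith

theorem shp_swap {t R u v c X d : ℝ} (h : Shp t R u v c X d) : Shp (-t) R v u c X d where
  ht1 := by linarith [h.ht2]
  ht2 := by linarith [h.ht1]
  hu0 := h.hv0
  hu := h.hv
  hv0 := h.hu0
  hv := h.hu
  hR1 := by have := h.hR2; rwa [show (1 + -t) = 1 - t by ring]
  hR2 := by have := h.hR1; rwa [show (1 - -t) = 1 + t by ring]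
  hX := by rw [h.hX]; ring
  hd := h.hd
  hP := by have := h.hQ; rwa [show (1 + -t) = 1 - t by ring]
  hQ := by have := h.hP; rwa [show (1 - -t) = 1 + t by ring]
  hd2 := by rw [h.hd2]; ring
  hG := by rw [h.hG]; ring

/-- SQ-RKB (numerically the difference of the two sides is `≥ 0.4 R`). -/
theorem reg_KB {t R u v c X d : ℝ} (h : Shp t R u v c X d)
    (hA : 11 / 2 * FA t R u v c X ≤ 8 * d) (hR : 3 / 20 ≤ R) :
    R / d * (4 / 3 * (((1 + t) ^ 2 + u - R) + ((1 - t) ^ 2 + v - R))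
      + ((4 / 3 * ((1 + t) ^ 2 + u - R) + 4 / 5 * ((1 - t) ^ 2 + v - R))
          * ((R - v) * ((1 - t) ^ 2 - R))
        + (4 / 5 * ((1 + t) ^ 2 + u - R) + 4 / 3 * ((1 - t) ^ 2 + v - R))
          * ((R - u) * ((1 + t) ^ 2 - R)) - 8 / 9 * (R * d ^ 2))
        / (d ^ 2 - R * (((1 + t) ^ 2 + u - R) + ((1 - t) ^ 2 + v - R) + 2 * |c|)))
      ≤ R * (29 / 10 + 10 * R) := by
  rcases le_total 0 t with ht | ht
  · exact reg_KB_aux h hA hR ht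
  · have hA' : 11 / 2 * FA (-t) R v u c X ≤ 8 * d := by
      have : FA (-t) R v u c X = FA t R u v c X := by unfold FA; ring
      rw [this]; exact hA
    have key := reg_KB_aux (shp_swap h) hA' hR (by linarith)
    rw [show (1 + -t) = 1 - t by ring, show (1 - -t) = 1 + t by ring] at key
    have e1 : ((1 - t) ^ 2 + v - R) + ((1 + t) ^ 2 + u - R)
        = ((1 + t) ^ 2 + u - R) + ((1 - t) ^ 2 + v - R) := by ring
    rw [e1] at key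
    have e2 : (4 / 3 * ((1 - t) ^ 2 + v - R) + 4 / 5 * ((1 + t) ^ 2 + u - R))
          * ((R - u) * ((1 + t) ^ 2 - R))
        + (4 / 5 * ((1 - t) ^ 2 + v - R) + 4 / 3 * ((1 + t) ^ 2 + u - R))
          * ((R - v) * ((1 - t) ^ 2 - R)) - 8 / 9 * (R * d ^ 2)
        = (4 / 3 * ((1 + t) ^ 2 + u - R) + 4 / 5 * ((1 - t) ^ 2 + v - R))
          * ((R - v) * ((1 - t) ^ 2 - R))
        + (4 / 5 * ((1 + t) ^ 2 + u - R) + 4 / 3 * ((1 - t) ^ 2 + v - R))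
          * ((R - u) * ((1 + t) ^ 2 - R)) - 8 / 9 * (R * d ^ 2) := by ring
    rw [e2] at key
    exact key

end Pool.Agent.Sq4
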