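import Pool.Agent.Sq4.RKA
import Pool.Agent.Sq4.RKB

/-!
# Real inequality for the middle regime
-/

set_option autoImplicit false

noncomputable section

namespace Pool.Agent.Sq4

open MeasureTheory Pool.Agent.Stk

/-- Middle regime. -/
theorem reg_K {t R u v c X d T m : ℝ} (h : Shp t R u v c X d) (hm : 11 / 2 ≤ m)
    (hA : 11 / 2 * FA t R u v c X ≤ 8 * d) (hR : 3 / 20 ≤ R)
    (hT : T ≤ R / d * (4 / 3 * (((1 + t) ^ 2 + u - R) + ((1 - t) ^ 2 + v - R))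
      + ((4 / 3 * ((1 + t) ^ 2 + u - R) + 4 / 5 * ((1 - t) ^ 2 + v - R))
          * ((R - v) * ((1 - t) ^ 2 - R))
        + (4 / 5 * ((1 + t) ^ 2 + u - R) + 4 / 3 * ((1 - t) ^ 2 + v - R))
          * ((R - u) * ((1 + t) ^ 2 - R)) - 8 / 9 * (R * d ^ 2))
        / (d ^ 2 - R * (((1 + t) ^ 2 + u - R) + ((1 - t) ^ 2 + v - R) + 2 * |c|)))) :
    8 * (8 * d + T) < m * NN (2 / 3) 2 (2 / 3) 4 2 t R u v c X := by
  have h1 := reg_KA h hA hR
  have h2 := hT.trans (reg_KB h hA hR)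
  have hd := h.hd
  have hN : 0 < NN (2 / 3) 2 (2 / 3) 4 2 t R u v c X := by
    have : 0 ≤ R * (29 / 10 + 10 * R) := by positivity
    linarith
  have h3 : 11 / 2 * NN (2 / 3) 2 (2 / 3) 4 2 t R u v c X
      ≤ m * NN (2 / 3) 2 (2 / 3) 4 2 t R u v c X := mul_le_mul_of_nonneg_right hm hN.le
  linarith

end Pool.Agent.Sq4
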