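import Pool.Agent.Sq4.RC
import Pool.Agent.Sq4.RS

/-!
# SQ-RUB: real inequality for the regime near the square, interaction energy
-/

set_option autoImplicit false

noncomputable section

namespace Pool.Agent.Sq4

open MeasureTheory Pool.Agent.Stk



private theorem c00_nonneg {R g : ℝ} (hR0 : 0 ≤ R) (hR : R ≤ 3 / 20) (hg0 : 0 ≤ g)
    (hg : g ≤ 161 / 400) :
    0 ≤ (764469/40000)*g^2 + (62410657/10000000)*R + (-5351283/2000000)*R*g
      + (-38331239/600000)*R*g^2 + (-479363/6000)*R*g^3 + (-5926803467/150000000)*R^2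
      + (-1528758107/30000000)*R^2*g + (15805541/300000)*R^2*g^2 + (325067/12500)*R^3
      + (-81161/2500)*R^3*g + (-5553/500)*R^3*g^2 := by
  have h1 : R * g ^ 3 ≤ (161/400) * (R * g ^ 2) := by
    have : 0 ≤ (R * g^2) * (161/400 - g) := mul_nonneg (by positivity) (by linarith)
    nlinarith
  -- gamma, beta, alpha
  set al := (62410657/10000000) + (-5926803467/150000000)*R + (325067/12500)*R^2 with hal
  set be := (5351283/2000000) + (1528758107/30000000)*R + (81161/2500)*R^2 with hbe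
  set ga := (764469/40000) + (-38331239/600000 - (479363/6000)*(161/400))*R + (15805541/300000)*R^2 + (-5553/500)*R^3 with hga
  have hga0 : 0 < ga := by
    rw [hga]; nlinarith [mul_nonneg hR0 hR0, mul_nonneg (mul_nonneg hR0 hR0) (sub_nonneg.mpr hR)]
  have hkey : R * be ^ 2 ≤ 4 * (al * ga) := by
    rw [hal, hbe, hga]
    nlinarith [mul_nonneg hR0 hR0, mul_nonneg hR0 (sub_nonneg.mpr hR), mul_nonneg (mul_nonneg hR0 hR0) (sub_nonneg.mpr hR), mul_nonneg (mul_nonneg hR0 hR0) hR0,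
      mul_nonneg (mul_nonneg (mul_nonneg hR0 hR0) hR0) hR0, mul_nonneg (mul_nonneg (mul_nonneg hR0 hR0) hR0) (sub_nonneg.mpr hR),
      mul_nonneg (mul_nonneg (mul_nonneg hR0 hR0) (mul_nonneg hR0 hR0)) (sub_nonneg.mpr hR)]
  have h2 : 0 ≤ ga * g ^ 2 - R * be * g + R * al := by
    have h3 : 0 ≤ ga * (ga * g ^ 2 - R * be * g + R * al) := by
      nlinarith [sq_nonneg (2 * ga * g - R * be), mul_le_mul_of_nonneg_left hkey hR0]
    by_contra hn
    push Not at hn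
    have := mul_neg_of_pos_of_neg hga0 hn
    linarith
  rw [hal, hbe, hga] at h2
  nlinarith [h1, h2]


private theorem cA_nonneg {R g : ℝ} (hR0 : 0 ≤ R) (hR : R ≤ 3 / 20) (hg0 : 0 ≤ g)
    (hg : g ≤ 161 / 400) :
    0 ≤ (12713793111/8000000000) + (747870183/40000000)*g^2 + (-113960073853/30000000000)*R
      + (-56451128843/6000000000)*R*g + (-40498739/600000)*R*g^2 + (-479363/6000)*R*g^3
      + (-5266368767/150000000)*R^2 + (-1400304407/30000000)*R^2*g + (15805541/300000)*R^2*g^2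
      + (325067/12500)*R^3 + (-81161/2500)*R^3*g + (-5553/500)*R^3*g^2 := by
  have h1 : 0 ≤ R * ((g - 1/5) ^ 2 * (161/400 - g)) :=
    mul_nonneg hR0 (mul_nonneg (sq_nonneg _) (by linarith))
  have hRR : 0 ≤ R * (3/20 - R) := mul_nonneg hR0 (by linarith)
  have hRRR : 0 ≤ R * R * (3/20 - R) := mul_nonneg (by positivity) (by linarith)
  have j0 : (11/100 : ℝ) ≤ (12713793111/8000000000) + (-50849598451/10000000000)*R + (-5266368767/150000000)*R^2 + (325067/12500)*R^3 := by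
    nlinarith [pow_nonneg hR0 3]
  have j1 : (-1/5 : ℝ) ≤ (39900834157/6000000000)*R + (-1400304407/30000000)*R^2 + (-81161/2500)*R^3 := by
    nlinarith
  have j2 : (0 : ℝ) ≤ (747870183/40000000) + (-315870479/2400000)*R + (15805541/300000)*R^2 + (-5553/500)*R^3 := by
    nlinarith
  have k1 := mul_le_mul_of_nonneg_right j1 hg0
  have k2 := mul_nonneg j2 (sq_nonneg g)
  nlinarith [k1, k2, j0, h1]

private theorem fin_ineq {R g a x : ℝ} (hR0 : 0 ≤ R) (hR : R ≤ 3 / 20) (hg0 : 0 ≤ g)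
    (hg : g ≤ 161 / 400) (ha0 : 0 ≤ a) (ha : a ≤ 17 / 200) (hx : 0 ≤ x)
    (h00 : 0 ≤ (764469/40000)*g^2 + (62410657/10000000)*R + (-5351283/2000000)*R*g
      + (-38331239/600000)*R*g^2 + (-479363/6000)*R*g^3 + (-5926803467/150000000)*R^2
      + (-1528758107/30000000)*R^2*g + (15805541/300000)*R^2*g^2 + (325067/12500)*R^3
      + (-81161/2500)*R^3*g + (-5553/500)*R^3*g^2)
    (hA : 0 ≤ (12713793111/8000000000) + (747870183/40000000)*g^2 + (-113960073853/30000000000)*R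
      + (-56451128843/6000000000)*R*g + (-40498739/600000)*R*g^2 + (-479363/6000)*R*g^3
      + (-5266368767/150000000)*R^2 + (-1400304407/30000000)*R^2*g + (15805541/300000)*R^2*g^2
      + (325067/12500)*R^3 + (-81161/2500)*R^3*g + (-5553/500)*R^3*g^2) :
    R * (131/10 + 419/10 * (a - 6/10*R - g*R/2 + x/2) + 44424/1000 * (a - 6/10*R - g*R/2 + x/2)^2)
      ≤ (25*a + 25*g^2 + (253/10 - 35/10*g)*R + 35/10*x)
        * (3*(87/100)^2*(11/12 - 86/1000*a - R*(318/1000 + 6/10*g) + 39/100*x) - 2*(87/100)^3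
          - 2*R*(11/12*(1+g) + 85/100*a - 83/100*R + x)) := by
  have hRg : 0 ≤ R * g := mul_nonneg hR0 hg0
  have e01 : 0 ≤ (5351283/2000000) + (885573/40000)*g^2 + (-112334383/15000000)*R
      + (-85707853/6000000)*R*g + (-50)*R*g^2 + (-45339/2500)*R^2 + (7303/250)*R^2*g := by
    have q1 : R * g ≤ 3/20 * g := mul_le_mul_of_nonneg_right hR hg0
    have q2 : R * g^2 ≤ 3/20 * g^2 := mul_le_mul_of_nonneg_right hR (sq_nonneg _)
    have q3 : R * R ≤ 3/20 * R := mul_le_mul_of_nonneg_right hR hR0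
    have q4 : 0 ≤ R^2 * g := by positivity
    nlinarith [sq_nonneg (g - 7/100)]
  have e02 : 0 ≤ (6199011/2000000) + (-9053/500)*R := by linarith
  have e11 : 0 ≤ (214558443/10000000) + (-50187/500)*R := by linarith
  have e20 : (-976401/200000) + (-21731/250)*R ≤ 0 := by linarith
  have hx01 := mul_nonneg e01 hx
  have hx02 := mul_nonneg e02 (sq_nonneg x)
  have hx11 := mul_nonneg e11 (mul_nonneg ha0 hx)
  have hconc : 0 ≤ (-((-976401/200000) + (-21731/250)*R)) * (a * (17/200 - a)) :=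
    mul_nonneg (by linarith) (mul_nonneg ha0 (by linarith))
  have w1 := mul_nonneg (sub_nonneg.mpr ha) h00
  have w2 := mul_nonneg ha0 hA
  nlinarith [hx01, hx02, hx11, hconc, w1, w2]

/-- bound of the interaction denominator from below -/
private theorem cub_low {d D R M g a x : ℝ} (hD : D ≤ d) (hD0 : 82/100 ≤ D)
    (hR0 : 0 ≤ R) (hMg : 2 * R * (M + g) ≤ 46/100)
    (hB : D * (M + g) ≤ 11/12*(1+g) + 85/100*a - 83/100*R + x) :
    3*(87/100)^2*D - 2*(87/100)^3 - 2*R*(11/12*(1+g) + 85/100*a - 83/100*R + x)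
      ≤ d * (d ^ 2 - 2 * R * (M + g)) := by
  have h1 : 3*(87/100)^2*D - 2*(87/100)^3 ≤ D ^ 3 := by
    nlinarith [mul_nonneg (show (0:ℝ) ≤ D + 2*(87/100) by linarith) (sq_nonneg (D - 87/100))]
  have h2 : 2 * R * (D * (M + g)) ≤ 2 * R * (11/12*(1+g) + 85/100*a - 83/100*R + x) :=
    mul_le_mul_of_nonneg_left hB (by linarith)
  have h3 : D * (D ^ 2 - 2 * R * (M + g)) ≤ d * (d ^ 2 - 2 * R * (M + g)) := by
    have e : d * (d ^ 2 - 2 * R * (M + g)) - D * (D ^ 2 - 2 * R * (M + g))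
        = (d - D) * (d ^ 2 + d * D + D ^ 2 - 2 * R * (M + g)) := by ring
    have : 0 ≤ (d - D) * (d ^ 2 + d * D + D ^ 2 - 2 * R * (M + g)) := by
      apply mul_nonneg (by linarith)
      nlinarith [mul_nonneg (sub_nonneg.mpr hD) (show (0:ℝ) ≤ D by linarith)]
    linarith
  nlinarith

private theorem B_low {R g a x : ℝ} (hR0 : 0 ≤ R) (hR : R ≤ 3 / 20) (hg0 : 0 ≤ g)
    (hg : g ≤ 161 / 400) (ha0 : 0 ≤ a) (ha : a ≤ 17 / 200) (hx : 0 ≤ x)
    (hx1 : x ≤ (12/10 + g) * R) :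
    (11/12 - 86/1000*a - R*(318/1000 + 6/10*g) + 39/100*x)
        * ((1 + a - 6/10*R - g*R/2 + x/2) + g)
      ≤ 11/12*(1+g) + 85/100*a - 83/100*R + x := by
  have hx2 : x ≤ 1/4 := by nlinarith
  have q1 : R * R ≤ 3/20 * R := mul_le_mul_of_nonneg_right hR hR0
  have hRg : 0 ≤ R * g := mul_nonneg hR0 hg0
  have q2 : R * (R * g) ≤ 3/20 * (R * g) := mul_le_mul_of_nonneg_right hR hRg
  have hRg2 : 0 ≤ R * g * g := mul_nonneg hRg hg0
  have q3 : R * (R * g * g) ≤ 3/20 * (R * g * g) := mul_le_mul_of_nonneg_right hR hRg2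
  have haR : 0 ≤ a * R := mul_nonneg ha0 hR0
  have q4 : R * a ≤ 3/20 * a := mul_le_mul_of_nonneg_right hR ha0
  have hag : 0 ≤ a * g := mul_nonneg ha0 hg0
  have q5 : R * (a * g) ≤ 3/20 * (a * g) := mul_le_mul_of_nonneg_right hR hag
  have q6 : a * x ≤ 17/200 * x := mul_le_mul_of_nonneg_right ha hx
  have q7 : x * x ≤ 1/4 * x := mul_le_mul_of_nonneg_right hx2 hx
  have q8 : g * x ≤ 161/400 * x := mul_le_mul_of_nonneg_right hg hx
  have q9 : g * x ≤ g * ((12/10 + g) * R) := mul_le_mul_of_nonneg_left hx1 hg0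
  have hxR : 0 ≤ x * R := mul_nonneg hx hR0
  have hxRg : 0 ≤ x * R * g := mul_nonneg hxR hg0
  have haa : 0 ≤ a * a := mul_nonneg ha0 ha0
  have haRg : 0 ≤ a * R * g := mul_nonneg haR hg0
  nlinarith

private theorem EM_low {M d g a : ℝ} (hM0 : 0 < M) (hMa : M ≤ 1 + a) (ha : a ≤ 17 / 200)
    (hd0 : 825/1000 ≤ d) :
    16 * M * (9/10 * M ^ 2 - 12/100 * d ^ 2 - 12/100 * g ^ 2)
      ≤ 131/10 + 419/10 * (M - 1) + 44424/1000 * (M - 1) ^ 2 := by
  have e1 : 0 ≤ (M - 1) ^ 2 * (17/200 - (M - 1)) := mul_nonneg (sq_nonneg _) (by linarith)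
  have e2 : 6771/10000 ≤ d ^ 2 := by
    have := pow_le_pow_left₀ (by norm_num) hd0 2
    norm_num at this ⊢
    linarith
  have e3 : M * (6771/10000) ≤ M * d ^ 2 := mul_le_mul_of_nonneg_left e2 hM0.le
  have e4 : 0 ≤ M * g ^ 2 := mul_nonneg hM0.le (sq_nonneg _)
  nlinarith only [e1, e3, e4]

private theorem D_low {R g a x : ℝ} (hR0 : 0 ≤ R) (hR : R ≤ 3 / 20) (hg0 : 0 ≤ g)
    (hg : g ≤ 161 / 400) (ha : a ≤ 17 / 200) (hx : 0 ≤ x) :
    825/1000 ≤ 11/12 - 86/1000*a - R*(318/1000 + 6/10*g) + 39/100*x := by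
  have h1 : R * (318/1000 + 6/10*g) ≤ 3/20 * (318/1000 + 6/10*(161/400)) :=
    mul_le_mul hR (by linarith) (by linarith) (by norm_num)
  linarith

private theorem D_le {R g t u v x M d : ℝ} (hR0 : 0 ≤ R) (hR : R ≤ 3 / 20) (hg0 : 0 ≤ g)
    (hg : g ≤ 161 / 400) (ha : t ^ 2 ≤ 17 / 200) (hx : 0 ≤ x)
    (hxd : u + v = (4/5 - g) * R + x)
    (hu0 : 0 ≤ u) (hu : u ≤ R) (hv0 : 0 ≤ v) (hv : v ≤ R)
    (hM1 : M = 1 + t ^ 2 - R + (u + v) / 2) (hM2 : M ≤ 1 + t ^ 2)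
    (hdg : 11 / 16 * (4 / 3 - R + (u + v)
      - (u * ((1 - t) ^ 2 + v - R) + v * ((1 + t) ^ 2 + u - R) + g * (u + v)) / 4) ≤ d) :
    11/12 - 86/1000*t^2 - R*(318/1000 + 6/10*g) + 39/100*x ≤ d := by
  have hs0 : 0 ≤ u + v := by linarith
  have hdel : (u - v) ^ 2 ≤ 3 / 20 * (u + v) := by
    have e1 : (u - v) ^ 2 ≤ R * (u + v) := by
      nlinarith only [mul_nonneg hu0 (sub_nonneg.mpr hu), mul_nonneg hv0 (sub_nonneg.mpr hv), mul_nonneg hu0 hv0]
    have e2 : R * (u + v) ≤ 3 / 20 * (u + v) := mul_le_mul_of_nonneg_right hR hs0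
    linarith
  have e1 : u * ((1 - t) ^ 2 + v - R) + v * ((1 + t) ^ 2 + u - R)
      = (u + v) * M - (u - v) * (2 * t + (u - v) / 2) := by rw [hM1]; ring
  rw [e1] at hdg
  have e2 : (u + v) * M ≤ (u + v) * (1 + t ^ 2) := mul_le_mul_of_nonneg_left hM2 hs0
  have e3 : -((u - v) * (2 * t + (u - v) / 2)) ≤ t ^ 2 / 2 + 225/1000 * (u + v) := by
    nlinarith only [sq_nonneg (t + 2 * (u - v)), hdel]
  have e4 : (u + v) * t ^ 2 ≤ 17/200 * (u + v) := by
    rw [mul_comm]; exact mul_le_mul_of_nonneg_right ha hs0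
  have e5 : g * x ≤ 161/400 * x := mul_le_mul_of_nonneg_right hg hx
  have hgR : 0 ≤ g ^ 2 * R := mul_nonneg (sq_nonneg _) hR0
  have hgR1 : 0 ≤ g * R := mul_nonneg hg0 hR0
  have ht0 : 0 ≤ t ^ 2 := sq_nonneg t
  have e6 : 11 / 16 * (4 / 3 - R + (u + v)
      - ((u + v) * (1 + 17/200) + t ^ 2 / 2 + 225/1000 * (u + v) + g * (u + v)) / 4) ≤ d := by
    linarith
  rw [hxd] at e6
  nlinarith only [e5, e6, hgR, hgR1, ht0, hR0, hx]

/-- SQ-RUB (numerically the difference of the two sides is `≥ 4.5 (t² + c² + R)`). -/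
theorem reg_UB {t R u v c X d : ℝ} (h : Shp t R u v c X d)
    (hA : 11 / 2 * FA t R u v c X ≤ 8 * d) (hR : R ≤ 3 / 20) :
    8 * (R * (((1 + t) ^ 2 + u - R) + ((1 - t) ^ 2 + v - R))
      * (33 / 100 * (((1 + t) ^ 2 + u - R) * ((1 - t) ^ 2 + v - R))
        + 9 / 40 * (((1 + t) ^ 2 + u - R) ^ 2 + ((1 - t) ^ 2 + v - R) ^ 2))
      / (d * (d ^ 2 - R * (((1 + t) ^ 2 + u - R) + ((1 - t) ^ 2 + v - R) + 2 * |c|))))
      ≤ 25 * t ^ 2 + 25 * c ^ 2 + 7 / 2 * (u + v) + 45 / 2 * R := by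
  obtain ⟨_, htA, hcA⟩ := reg_bounds h hA
  have hsig := reg_sigma h hA
  have hconv := reg_convex h hA
  have hdg := d_ge h hA
  have hu0 := h.hu0
  have hu := h.hu
  have hv0 := h.hv0
  have hv := h.hv
  have hR0 : 0 ≤ R := hu0.trans hu
  have hd := h.hd
  have hd2 := h.hd2
  unfold F0 at hdg
  have hg0 : 0 ≤ |c| := abs_nonneg c
  have hc2 : |c| ^ 2 = c ^ 2 := sq_abs c
  generalize |c| = g at hsig hconv hdg hg0 hc2 ⊢
  have hg : g ≤ 161 / 400 := by
    by_contra hn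
    push Not at hn
    have := pow_lt_pow_left₀ hn (by norm_num) (two_ne_zero)
    norm_num at this
    linarith
  set a := t ^ 2 with had
  have ha0 : 0 ≤ a := sq_nonneg t
  set x := (u + v) - (4 / 5 - g) * R with hxd
  have hx0 : 0 ≤ x := by rw [hxd]; linarith
  have hx1 : x ≤ (12/10 + g) * R := by rw [hxd]; linarith
  set M := 1 + a - 6/10*R - g*R/2 + x/2 with hM
  have hM1 : M = 1 + t ^ 2 - R + (u + v) / 2 := by rw [hM, hxd]; ring
  have hM2 : M ≤ 1 + a := by rw [hM1]; linarith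
  set D := 11/12 - 86/1000*a - R*(318/1000 + 6/10*g) + 39/100*x with hD
  have hs0 : 0 ≤ u + v := by linarith
  have hDd : D ≤ d := D_le hR0 hR hg0 hg htA hx0 (by rw [hxd]; ring) hu0 hu hv0 hv hM1 hM2 hdg
  have hD0 : 825/1000 ≤ D := D_low hR0 hR hg0 hg htA hx0
  have hM0 : 0 < M := by
    rw [hM1]; have := sq_nonneg t; linarith
  have hMg : 2 * R * (M + g) ≤ 46/100 := by
    have e1 : M + g ≤ 149/100 := by linarith
    have e2 := mul_le_mul hR e1 (by linarith : 0 ≤ M + g) (by norm_num : (0:ℝ) ≤ 3/20)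
    linarith
  have hBl := B_low hR0 hR hg0 hg ha0 htA hx0 hx1
  rw [← hM, ← hD] at hBl
  have hZ := cub_low hDd (by linarith) hR0 hMg hBl
  have hfin := fin_ineq hR0 hR hg0 hg ha0 htA hx0 (c00_nonneg hR0 hR hg0 hg)
    (cA_nonneg hR0 hR hg0 hg)
  rw [← hD] at hfin
  set K := 25*a + 25*g^2 + (253/10 - 35/10*g)*R + 35/10*x with hK
  have hK0 : 0 ≤ K := by
    rw [hK]
    have : 0 ≤ (253/10 - 35/10*g)*R := mul_nonneg (by linarith) hR0
    positivity
  have hm : a - 6/10*R - g*R/2 + x/2 = M - 1 := by rw [hM]; ring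
  rw [hm] at hfin
  have hd0 : 825/1000 ≤ d := by linarith
  have hEM : 16 * M * (9/10 * M ^ 2 - 12/100 * d ^ 2 - 12/100 * g ^ 2)
      ≤ 131/10 + 419/10 * (M - 1) + 44424/1000 * (M - 1) ^ 2 := EM_low hM0 hM2 htA hd0
  have hS : ((1 + t) ^ 2 + u - R) + ((1 - t) ^ 2 + v - R) = 2 * M := by rw [hM1]; ring
  have hE : 33 / 100 * (((1 + t) ^ 2 + u - R) * ((1 - t) ^ 2 + v - R))
        + 9 / 40 * (((1 + t) ^ 2 + u - R) ^ 2 + ((1 - t) ^ 2 + v - R) ^ 2)
      = 9/10 * M ^ 2 - 12/100 * d ^ 2 - 12/100 * g ^ 2 := by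
    rw [hd2, hc2, hM1]; ring
  rw [hE, hS]
  have hden : 0 < d * (d ^ 2 - R * (2 * M + 2 * g)) := by
    apply mul_pos hd
    rw [hS] at hconv
    linarith
  have hKe : 25 * a + 25 * c ^ 2 + 7 / 2 * (u + v) + 45 / 2 * R = K := by
    rw [hK, hxd, ← hc2]; ring
  rw [hKe, ← mul_div_assoc, div_le_iff₀ hden]
  have f1 : K * (3*(87/100)^2*D - 2*(87/100)^3 - 2*R*(11/12*(1+g) + 85/100*a - 83/100*R + x))
      ≤ K * (d * (d ^ 2 - 2 * R * (M + g))) := mul_le_mul_of_nonneg_left hZ hK0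
  have f2 : R * (16 * M * (9/10 * M ^ 2 - 12/100 * d ^ 2 - 12/100 * g ^ 2))
      ≤ R * (131/10 + 419/10 * (M - 1) + 44424/1000 * (M - 1) ^ 2) :=
    mul_le_mul_of_nonneg_left hEM hR0
  have f3 : K * (d * (d ^ 2 - R * (2 * M + 2 * g))) = K * (d * (d ^ 2 - 2 * R * (M + g))) := by ring
  rw [f3]
  linarith

end Pool.Agent.Sq4
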