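import Pool.Agent.Sq4.RUA
import Pool.Agent.Sq4.RUB
import Pool.Agent.Sq4.RK

/-!
# Real inequality for the regime near the square
-/

set_option autoImplicit false

noncomputable section

namespace Pool.Agent.Sq4

open MeasureTheory Pool.Agent.Stk

/-- Regime near the square. -/
theorem reg_U {t R u v c X d T so se sx me2 E1 E2 K m : ℝ} (h : Shp t R u v c X d)
    (hA : 11 / 2 * FA t R u v c X ≤ 8 * d) (hR : R ≤ 3 / 20)
    (hso : 1.211 < so ∧ so < 1.213) (hse : 1.993 < se ∧ se < 1.996) (hsx : 0.897 < sx)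
    (hme : me2 < 3.94) (hE2 : E2 < 0.344) (hK : 4.13 < K) (hE : E1 + E2 = m / 4 * (so + se))
    (hm : 5.5 < m ∧ m < 5.51)
    (hT : T ≤ R * (((1 + t) ^ 2 + u - R) + ((1 - t) ^ 2 + v - R))
      * (33 / 100 * (((1 + t) ^ 2 + u - R) * ((1 - t) ^ 2 + v - R))
        + 9 / 40 * (((1 + t) ^ 2 + u - R) ^ 2 + ((1 - t) ^ 2 + v - R) ^ 2))
      / (d * (d ^ 2 - R * (((1 + t) ^ 2 + u - R) + ((1 - t) ^ 2 + v - R) + 2 * |c|))))
    (hne : ¬ (t = 0 ∧ R = 0 ∧ c = 0)) :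
    8 * ((2 * ((1 + t) ^ 2 + u - R) * ((1 - t) ^ 2 + v - R) * E1
      + (((1 + t) ^ 2 + u - R) ^ 2 + ((1 - t) ^ 2 + v - R) ^ 2) * E2 - 2 * c ^ 2 * K) / d + T)
      < m * NN so se sx me2 (5 / 4) t R u v c X := by
  have h1 := reg_UA h hA hR hso hse hsx hme hE2 hK hE hm hne
  have h2 := reg_UB h hA hR
  linarith

end Pool.Agent.Sq4
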