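import Pool.Agent.Sq4.Defs
import Pool.Agent.Stk.Tri

/-!
# SQ-REGION: the region, its area, symmetry
-/

set_option autoImplicit false

noncomputable section

namespace Pool.Agent.Sq4

open MeasureTheory Pool.Agent.Stk
theorem quad_swap (A B C D : ℂ) : quad A D C B = quad A B C D := by
  unfold quad
  have h1 : ({A, D, C} : Set ℂ) = {A, C, D} := by
    ext z; simp only [Set.mem_insert_iff, Set.mem_singleton_iff]; tauto
  have h2 : ({A, C, B} : Set ℂ) = {A, B, C} := by
    ext z; simp only [Set.mem_insert_iff, Set.mem_singleton_iff]; tauto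
  rw [h1, h2, Set.union_comm]

theorem dir4_swap (A B C D : ℂ) (u : ℂ → ℝ) : dir4 A D C B u = dir4 A B C D u := by
  unfold dir4
  rw [quad_swap]

private theorem segInt_symm (P Q : ℂ) (f : ℂ → ℝ) : segInt P Q f = segInt Q P f := by
  unfold segInt
  rw [dist_comm P Q]
  congr 1
  have h := intervalIntegral.integral_comp_sub_left (a := (0 : ℝ)) (b := 1)
    (fun t : ℝ => f (Q + (t : ℂ) * (P - Q))) 1
  simp only [sub_self, sub_zero] at h
  rw [← h]
  refine intervalIntegral.integral_congr fun t _ => ?_
  refine congrArg f ?_
  push_cast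
  ring

theorem bd4_swap (A B C D : ℂ) (f : ℂ → ℝ) : bd4 A D C B f = bd4 A B C D f := by
  unfold bd4
  rw [segInt_symm A D, segInt_symm D C, segInt_symm C B, segInt_symm B A]
  ring

theorem sig4_swap (k : WithTop ℕ∞) (A B C D : ℂ) : sig4 k A D C B = sig4 k A B C D := by
  unfold sig4
  simp only [bd4_swap A B C D, dir4_swap A B C D]

theorem area4_swap (A B C D : ℂ) : area4 A D C B = area4 A B C D := by
  unfold area4
  rw [quad_swap]

/-- The open quadrilateral is the union of the two closed triangles up to a null set. -/
theorem quad_ae (A B C D : ℂ) :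
    quad A B C D =ᵐ[volume] (convexHull ℝ {A, B, C} ∪ convexHull ℝ {A, C, D} : Set ℂ) := by
  unfold quad
  refine interior_ae_eq_of_null_frontier ?_
  refine measure_mono_null (frontier_union_subset _ _) (measure_union_null ?_ ?_)
  · exact measure_mono_null Set.inter_subset_left
      ((convex_convexHull ℝ _).addHaar_frontier volume)
  · exact measure_mono_null Set.inter_subset_right
      ((convex_convexHull ℝ _).addHaar_frontier volume)

/-- the signed distance from the line through `0` and `c`, as a linear form -/
private def lin (c : ℂ) : ℂ →ₗ[ℝ] ℝ where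
  toFun z := c.re * z.im - c.im * z.re
  map_add' x y := by simp; ring
  map_smul' r x := by simp; ring

private theorem lin_apply (c z : ℂ) : lin c z = c.re * z.im - c.im * z.re := rfl

private theorem hull_real {P Q R : ℂ} (h : det2 P Q R ≠ 0) :
    volume.real (convexHull ℝ {P, Q, R} : Set ℂ) = |det2 P Q R| / 2 := by
  rw [← area_eq h]
  unfold area tri
  exact (measureReal_congr (interior_ae_eq_of_null_frontier
    ((convex_convexHull ℝ _).addHaar_frontier volume))).symm

/-- Area in coordinates. -/
theorem area4_v (o p q w : ℂ) (hd : 0 < cr p q) (hw : |cr p w - cr w q| < cr p q) :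
    area4 (vA o p q w) (vB o p q w) (vC o p q w) (vD o p q w) = 4 * cr p q := by
  obtain ⟨hw1, hw2⟩ := abs_lt.1 hw
  have e1 : det2 (vA o p q w) (vB o p q w) (vC o p q w) =
      4 * (cr p q + (cr p w - cr w q)) := by
    simp only [det2, vA, vB, vC, cr, Complex.sub_re, Complex.add_re, Complex.sub_im,
      Complex.add_im]
    ring
  have e2 : det2 (vA o p q w) (vC o p q w) (vD o p q w) =
      4 * (cr p q - (cr p w - cr w q)) := by
    simp only [det2, vA, vC, vD, cr, Complex.sub_re, Complex.add_re, Complex.sub_im,
      Complex.add_im]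
    ring
  generalize vA o p q w = A at *
  generalize vB o p q w = B at *
  generalize vC o p q w = C at *
  generalize vD o p q w = D at *
  have p1 : 0 < det2 A B C := by rw [e1]; linarith
  have p2 : 0 < det2 A C D := by rw [e2]; linarith
  have hB : lin (C - A) B < lin (C - A) A := by
    have : lin (C - A) B - lin (C - A) A = - det2 A B C := by
      simp only [lin_apply, det2, Complex.sub_re, Complex.sub_im]
      ring
    linarith
  have hD : lin (C - A) A < lin (C - A) D := by
    have : lin (C - A) D - lin (C - A) A = det2 A C D := by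
      simp only [lin_apply, det2, Complex.sub_re, Complex.sub_im]
      ring
    linarith
  have hC : lin (C - A) C = lin (C - A) A := by
    simp only [lin_apply, Complex.sub_re, Complex.sub_im]
    ring
  have s1 : (convexHull ℝ {A, B, C} : Set ℂ) ⊆ {z | lin (C - A) z ≤ lin (C - A) A} := by
    refine convexHull_min ?_ (convex_halfSpace_le (lin (C - A)).isLinear _)
    intro z hz
    simp only [Set.mem_insert_iff, Set.mem_singleton_iff] at hz
    change lin (C - A) z ≤ lin (C - A) A
    rcases hz with h | h | h
    · rw [h]
    · rw [h]; exact hB.le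
    · rw [h]; exact hC.le
  have s2 : (convexHull ℝ {A, C, D} : Set ℂ) ⊆ {z | lin (C - A) A ≤ lin (C - A) z} := by
    refine convexHull_min ?_ (convex_halfSpace_ge (lin (C - A)).isLinear _)
    intro z hz
    simp only [Set.mem_insert_iff, Set.mem_singleton_iff] at hz
    change lin (C - A) A ≤ lin (C - A) z
    rcases hz with h | h | h
    · rw [h]
    · rw [h]; exact hC.ge
    · rw [h]; exact hD.le
  have hnull : volume ((convexHull ℝ {A, B, C} : Set ℂ) ∩ convexHull ℝ {A, C, D}) = 0 := by
    have hne : (AffineSubspace.mk' A (LinearMap.ker (lin (C - A)))) ≠ ⊤ := by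
      intro htop
      have hmem : D ∈ (AffineSubspace.mk' A (LinearMap.ker (lin (C - A)))) := by
        rw [htop]; exact AffineSubspace.mem_top ℝ ℂ D
      rw [AffineSubspace.mem_mk', vsub_eq_sub, LinearMap.mem_ker, map_sub] at hmem
      linarith
    refine measure_mono_null ?_ (Measure.addHaar_affineSubspace volume _ hne)
    rintro z ⟨hz1, hz2⟩
    have h1 : lin (C - A) z ≤ lin (C - A) A := s1 hz1
    have h2 : lin (C - A) A ≤ lin (C - A) z := s2 hz2
    change z ∈ (AffineSubspace.mk' A (LinearMap.ker (lin (C - A))))
    rw [AffineSubspace.mem_mk', vsub_eq_sub, LinearMap.mem_ker, map_sub]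
    linarith
  have hcl : ∀ P Q R : ℂ, IsCompact (convexHull ℝ {P, Q, R} : Set ℂ) := fun P Q R =>
    (Set.toFinite _).isCompact_convexHull ℝ
  unfold area4
  rw [measureReal_congr (quad_ae A B C D)]
  rw [measureReal_union₀ (hcl A C D).isClosed.measurableSet.nullMeasurableSet hnull
    (hcl A B C).measure_ne_top (hcl A C D).measure_ne_top]
  rw [hull_real p1.ne', hull_real p2.ne', abs_of_pos p1, abs_of_pos p2, e1, e2]
  ring

end Pool.Agent.Sq4
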