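import Pool.Agent.Sq4.Defs

/-!
# SQ-PAIR: from a pair of trial functions to a bound for `σ₁ L`
-/

set_option autoImplicit false

noncomputable section

namespace Pool.Agent.Sq4

open MeasureTheory Pool.Agent.Stk

/-! ### auxiliary statements -/

private lemma pr_segInt_nonneg (P Q : ℂ) (f : ℂ → ℝ) (hf : ∀ z, 0 ≤ f z) : 0 ≤ segInt P Q f := by
  unfold segInt
  refine mul_nonneg dist_nonneg ?_
  exact intervalIntegral.integral_nonneg zero_le_one (fun t _ => hf _)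

private lemma pr_bd4_nonneg (A B C D : ℂ) (f : ℂ → ℝ) (hf : ∀ z, 0 ≤ f z) :
    0 ≤ bd4 A B C D f := by
  unfold bd4
  have h1 := pr_segInt_nonneg A B f hf
  have h2 := pr_segInt_nonneg B C f hf
  have h3 := pr_segInt_nonneg C D f hf
  have h4 := pr_segInt_nonneg D A f hf
  linarith

private lemma pr_dir4_nonneg (A B C D : ℂ) (u : ℂ → ℝ) : 0 ≤ dir4 A B C D u := by
  unfold dir4
  exact integral_nonneg (fun z => by positivity)

private lemma pr_line (w : ℝ → ℝ) (hw : Continuous w) (c : ℝ) :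
    ∫ t in (0 : ℝ)..1, (w t - c) = (∫ t in (0 : ℝ)..1, w t) - c := by
  rw [intervalIntegral.integral_sub (hw.intervalIntegrable _ _) (by simp)]
  simp

private lemma pr_line_sq (w : ℝ → ℝ) (hw : Continuous w) (c : ℝ) :
    ∫ t in (0 : ℝ)..1, (w t - c) ^ 2 =
      (∫ t in (0 : ℝ)..1, w t ^ 2) - 2 * c * (∫ t in (0 : ℝ)..1, w t) + c ^ 2 := by
  have h1 : ∀ t, (w t - c) ^ 2 = w t ^ 2 - 2 * c * w t + c ^ 2 := fun t => by ring
  simp only [h1]
  have h2 : IntervalIntegrable (fun t => w t ^ 2) volume 0 1 :=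
    (hw.pow 2).intervalIntegrable _ _
  have h3 : IntervalIntegrable (fun t => 2 * c * w t) volume 0 1 :=
    (continuous_const.mul hw).intervalIntegrable _ _
  have h4 : IntervalIntegrable (fun _ : ℝ => c ^ 2) volume 0 1 :=
    continuous_const.intervalIntegrable _ _
  rw [intervalIntegral.integral_add (h2.sub h3) h4, intervalIntegral.integral_sub h2 h3,
    intervalIntegral.integral_const_mul]
  simp

private lemma pr_seg_sub (P Q : ℂ) {g : ℂ → ℝ} (hg : Continuous g) (c : ℝ) :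
    segInt P Q (fun z => g z - c) = segInt P Q g - c * dist P Q := by
  unfold segInt
  have h : Continuous (fun t : ℝ => g (P + (t : ℂ) * (Q - P))) := hg.comp (by fun_prop)
  rw [pr_line _ h c]
  ring

private lemma pr_seg_sub_sq (P Q : ℂ) {g : ℂ → ℝ} (hg : Continuous g) (c : ℝ) :
    segInt P Q (fun z => (g z - c) ^ 2) =
      segInt P Q (fun z => g z ^ 2) - 2 * c * segInt P Q g + c ^ 2 * dist P Q := by
  unfold segInt
  have h : Continuous (fun t : ℝ => g (P + (t : ℂ) * (Q - P))) := hg.comp (by fun_prop)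
  rw [pr_line_sq _ h c]
  ring

private lemma pr_bd4_sub (A B C D : ℂ) {g : ℂ → ℝ} (hg : Continuous g) (c : ℝ) :
    bd4 A B C D (fun z => g z - c) = bd4 A B C D g - c * perim4 A B C D := by
  unfold bd4 perim4
  rw [pr_seg_sub _ _ hg, pr_seg_sub _ _ hg, pr_seg_sub _ _ hg, pr_seg_sub _ _ hg]
  ring

private lemma pr_bd4_sub_sq (A B C D : ℂ) {g : ℂ → ℝ} (hg : Continuous g) (c : ℝ) :
    bd4 A B C D (fun z => (g z - c) ^ 2) =
      bd4 A B C D (fun z => g z ^ 2) - 2 * c * bd4 A B C D g + c ^ 2 * perim4 A B C D := by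
  unfold bd4 perim4
  rw [pr_seg_sub_sq _ _ hg, pr_seg_sub_sq _ _ hg, pr_seg_sub_sq _ _ hg, pr_seg_sub_sq _ _ hg]
  ring

private lemma pr_dir4_sub (A B C D : ℂ) (g : ℂ → ℝ) (c : ℝ) :
    dir4 A B C D (fun z => g z - c) = dir4 A B C D g := by
  unfold dir4
  congr 1
  funext z
  rw [fderiv_sub_const]

private lemma pr_main {k : WithTop ℕ∞} {A B C D : ℂ} (hL : 0 < perim4 A B C D)
    {g : ℂ → ℝ} (hg : ContDiff ℝ k g) :
    0 ≤ bd4 A B C D (fun z => g z ^ 2) - bd4 A B C D g ^ 2 / perim4 A B C D ∧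
    sig4 k A B C D * (bd4 A B C D (fun z => g z ^ 2) - bd4 A B C D g ^ 2 / perim4 A B C D) ≤
      dir4 A B C D g := by
  have hgc : Continuous g := hg.continuous
  obtain ⟨c, hc⟩ : ∃ c : ℝ, c = bd4 A B C D g / perim4 A B C D := ⟨_, rfl⟩
  have hcL : c * perim4 A B C D = bd4 A B C D g := by
    rw [hc]
    field_simp
  have h0 : bd4 A B C D (fun z => g z - c) = 0 := by
    rw [pr_bd4_sub A B C D hgc c, hcL]
    ring
  have hN : bd4 A B C D (fun z => (g z - c) ^ 2) =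
      bd4 A B C D (fun z => g z ^ 2) - bd4 A B C D g ^ 2 / perim4 A B C D := by
    rw [pr_bd4_sub_sq A B C D hgc c, ← hcL]
    field_simp
    ring
  have hnn : 0 ≤ bd4 A B C D (fun z => (g z - c) ^ 2) :=
    pr_bd4_nonneg A B C D _ (fun z => sq_nonneg _)
  rw [← hN]
  refine ⟨hnn, ?_⟩
  by_cases hz : bd4 A B C D (fun z => (g z - c) ^ 2) = 0
  · rw [hz, mul_zero]
    exact pr_dir4_nonneg A B C D g
  · have hpos : 0 < bd4 A B C D (fun z => (g z - c) ^ 2) := lt_of_le_of_ne hnn (Ne.symm hz)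
    have hb : BddBelow {x : ℝ | ∃ u : ℂ → ℝ, ContDiff ℝ k u ∧ bd4 A B C D u = 0 ∧
        bd4 A B C D (fun z => u z ^ 2) ≠ 0 ∧
          x = dir4 A B C D u / bd4 A B C D (fun z => u z ^ 2)} := by
      refine ⟨0, ?_⟩
      rintro x ⟨u, -, -, -, rfl⟩
      exact div_nonneg (pr_dir4_nonneg A B C D u)
        (pr_bd4_nonneg A B C D _ (fun z => sq_nonneg _))
    have hle : sig4 k A B C D ≤
        dir4 A B C D g / bd4 A B C D (fun z => (g z - c) ^ 2) := by
      unfold sig4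
      refine csInf_le hb ⟨fun z => g z - c, hg.sub contDiff_const, h0, hz, ?_⟩
      rw [pr_dir4_sub]
    rwa [le_div_iff₀ hpos] at hle

/-- SQ-PAIR.1 Strict bound. -/
theorem pair_lt {k : WithTop ℕ∞} {A B C D : ℂ} {m : ℝ} (hm : 0 < m) (hL : 0 < perim4 A B C D)
    {g1 g2 : ℂ → ℝ} (h1 : ContDiff ℝ k g1) (h2 : ContDiff ℝ k g2)
    (h : perim4 A B C D * (dir4 A B C D g1 + dir4 A B C D g2) <
      m * (bd4 A B C D (fun z => g1 z ^ 2) + bd4 A B C D (fun z => g2 z ^ 2)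
        - (bd4 A B C D g1 ^ 2 + bd4 A B C D g2 ^ 2) / perim4 A B C D)) :
    sig4 k A B C D * perim4 A B C D < m := by
  obtain ⟨n1, e1⟩ := pr_main hL h1
  obtain ⟨n2, e2⟩ := pr_main hL h2
  have hs : bd4 A B C D (fun z => g1 z ^ 2) + bd4 A B C D (fun z => g2 z ^ 2)
        - (bd4 A B C D g1 ^ 2 + bd4 A B C D g2 ^ 2) / perim4 A B C D =
      (bd4 A B C D (fun z => g1 z ^ 2) - bd4 A B C D g1 ^ 2 / perim4 A B C D) +
      (bd4 A B C D (fun z => g2 z ^ 2) - bd4 A B C D g2 ^ 2 / perim4 A B C D) := by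
    rw [add_div]
    ring
  rw [hs] at h
  have hD : 0 ≤ perim4 A B C D * (dir4 A B C D g1 + dir4 A B C D g2) :=
    mul_nonneg hL.le (add_nonneg (pr_dir4_nonneg A B C D g1) (pr_dir4_nonneg A B C D g2))
  generalize bd4 A B C D (fun z => g1 z ^ 2) - bd4 A B C D g1 ^ 2 / perim4 A B C D = N1 at *
  generalize bd4 A B C D (fun z => g2 z ^ 2) - bd4 A B C D g2 ^ 2 / perim4 A B C D = N2 at *
  generalize dir4 A B C D g1 = D1 at *
  generalize dir4 A B C D g2 = D2 at *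
  generalize sig4 k A B C D = s at *
  generalize perim4 A B C D = L at *
  have hNpos : 0 < N1 + N2 := by
    have : 0 < m * (N1 + N2) := lt_of_le_of_lt hD h
    exact (pos_iff_pos_of_mul_pos this).1 hm
  have hkey : (s * L) * (N1 + N2) < m * (N1 + N2) := by
    have : L * (s * N1 + s * N2) ≤ L * (D1 + D2) :=
      mul_le_mul_of_nonneg_left (add_le_add e1 e2) hL.le
    nlinarith
  exact lt_of_mul_lt_mul_right hkey hNpos.le

/-- SQ-PAIR.2 Weak bound. -/
theorem pair_le {k : WithTop ℕ∞} {A B C D : ℂ} {m : ℝ} (hm : 0 < m) (hL : 0 < perim4 A B C D)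
    {g1 g2 : ℂ → ℝ} (h1 : ContDiff ℝ k g1) (h2 : ContDiff ℝ k g2)
    (hN : 0 < bd4 A B C D (fun z => g1 z ^ 2) + bd4 A B C D (fun z => g2 z ^ 2)
        - (bd4 A B C D g1 ^ 2 + bd4 A B C D g2 ^ 2) / perim4 A B C D)
    (h : perim4 A B C D * (dir4 A B C D g1 + dir4 A B C D g2) ≤
      m * (bd4 A B C D (fun z => g1 z ^ 2) + bd4 A B C D (fun z => g2 z ^ 2)
        - (bd4 A B C D g1 ^ 2 + bd4 A B C D g2 ^ 2) / perim4 A B C D)) :
    sig4 k A B C D * perim4 A B C D ≤ m := by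
  have _ := hm
  obtain ⟨n1, e1⟩ := pr_main hL h1
  obtain ⟨n2, e2⟩ := pr_main hL h2
  have hs : bd4 A B C D (fun z => g1 z ^ 2) + bd4 A B C D (fun z => g2 z ^ 2)
        - (bd4 A B C D g1 ^ 2 + bd4 A B C D g2 ^ 2) / perim4 A B C D =
      (bd4 A B C D (fun z => g1 z ^ 2) - bd4 A B C D g1 ^ 2 / perim4 A B C D) +
      (bd4 A B C D (fun z => g2 z ^ 2) - bd4 A B C D g2 ^ 2 / perim4 A B C D) := by
    rw [add_div]
    ring
  rw [hs] at h hN
  generalize bd4 A B C D (fun z => g1 z ^ 2) - bd4 A B C D g1 ^ 2 / perim4 A B C D = N1 at *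
  generalize bd4 A B C D (fun z => g2 z ^ 2) - bd4 A B C D g2 ^ 2 / perim4 A B C D = N2 at *
  generalize dir4 A B C D g1 = D1 at *
  generalize dir4 A B C D g2 = D2 at *
  generalize sig4 k A B C D = s at *
  generalize perim4 A B C D = L at *
  have hkey : (s * L) * (N1 + N2) ≤ m * (N1 + N2) := by
    have : L * (s * N1 + s * N2) ≤ L * (D1 + D2) :=
      mul_le_mul_of_nonneg_left (add_le_add e1 e2) hL.le
    nlinarith
  exact le_of_mul_le_mul_right hkey hN

/-- SQ-PAIR.3 The infimum is over a set of nonnegative numbers. -/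
theorem sig4_nonneg (k : WithTop ℕ∞) (A B C D : ℂ) : 0 ≤ sig4 k A B C D := by
  unfold sig4
  refine Real.sInf_nonneg ?_
  rintro x ⟨u, -, -, -, rfl⟩
  exact div_nonneg (pr_dir4_nonneg A B C D u)
    (pr_bd4_nonneg A B C D _ (fun z => sq_nonneg _))

end Pool.Agent.Sq4
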