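import Pool.Agent.Sq4.LowSq
import Pool.Agent.Sq4.Grad
import Pool.Agent.Sq4.Bdry
import Pool.Agent.Sq4.Pair

/-!
# SQ-SQPULL: lower bound for all squares
-/

set_option autoImplicit false

noncomputable section

namespace Pool.Agent.Sq4

open MeasureTheory Pool.Agent.Stk

theorem sqpull_ip (p : ℂ) : ip p p = ‖p‖ ^ 2 := by
  rw [← Complex.normSq_eq_norm_sq, Complex.normSq_apply]; rfl

theorem sqpull_bd (o p : ℂ) (f : ℂ → ℝ) (hf : Continuous f) :
    bd4 (vA o p (Complex.I * p) 0) (vB o p (Complex.I * p) 0)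
      (vC o p (Complex.I * p) 0) (vD o p (Complex.I * p) 0) f =
      ‖p‖ * bdS (fun z => f (psi o p (Complex.I * p) 0 z)) := by
  have hI : ‖Complex.I * p‖ = ‖p‖ := by rw [norm_mul, Complex.norm_I, one_mul]
  rw [bd4_v _ _ _ _ _ hf, bdS, ← intervalIntegral.integral_const_mul]
  congr 1
  funext x
  simp only [sub_zero, add_zero, hI]
  ring

theorem sqpull_contDiff (o p : ℂ) {k : WithTop ℕ∞} :
    ContDiff ℝ k (fun z : ℝ × ℝ => psi o p (Complex.I * p) 0 z) := by
  unfold psi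
  have h1 : ContDiff ℝ k (fun z : ℝ × ℝ => (z.1 : ℂ)) :=
    Complex.ofRealCLM.contDiff.comp contDiff_fst
  have h2 : ContDiff ℝ k (fun z : ℝ × ℝ => (z.2 : ℂ)) :=
    Complex.ofRealCLM.contDiff.comp contDiff_snd
  exact ((contDiff_const.add (h1.mul contDiff_const)).add (h2.mul contDiff_const)).add
    ((h1.mul h2).mul contDiff_const)

theorem sqpull_cvx (p : ℂ) (hp : p ≠ 0) : Cvx p (Complex.I * p) 0 := by
  have h : 0 < ‖p‖ ^ 2 := by positivity
  rw [← sqpull_ip] at h
  unfold Cvx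
  have : cr p (Complex.I * p) = ip p p := by simp [cr, ip]
  rw [this]
  simpa [cr] using h

theorem sqpull_dir (o p : ℂ) (hp : p ≠ 0) {k : WithTop ℕ∞} (hk : 1 ≤ k) {u : ℂ → ℝ}
    (hu : ContDiff ℝ k u) :
    dir4 (vA o p (Complex.I * p) 0) (vB o p (Complex.I * p) 0)
      (vC o p (Complex.I * p) 0) (vD o p (Complex.I * p) 0) u =
      dirS (fun z => u (psi o p (Complex.I * p) 0 z)) := by
  rw [dir4_pull o p (Complex.I * p) 0 (sqpull_cvx p hp) hk hu
    (h := fun z => u (psi o p (Complex.I * p) 0 z)) (hu.comp (sqpull_contDiff o p)) one_pos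
    (fun z _ _ => rfl), dirS]
  have h : 0 < ip p p := by rw [sqpull_ip]; positivity
  congr 1
  funext z
  have h1 : ip (Complex.I * p) (Complex.I * p) = ip p p := by simp [ip]; ring
  have h2 : ip p (Complex.I * p) = 0 := by simp [ip]; ring
  have h3 : cr p (Complex.I * p) = ip p p := by simp [cr, ip]
  have h4 : cr p 0 = 0 := by simp [cr]
  have h5 : cr 0 (Complex.I * p) = 0 := by simp [cr]
  unfold en Jc
  simp only [mul_zero, add_zero, h1, h2, h3, h4, h5]
  field_simp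
  ring

theorem sqpull_perim (o p : ℂ) :
    perim4 (vA o p (Complex.I * p) 0) (vB o p (Complex.I * p) 0)
      (vC o p (Complex.I * p) 0) (vD o p (Complex.I * p) 0) = 8 * ‖p‖ := by
  have hI : ‖Complex.I * p‖ = ‖p‖ := by rw [norm_mul, Complex.norm_I, one_mul]
  rw [perim4_v]
  simp only [la, sub_zero, add_zero, hI]
  ring

theorem sqpull_bdS_nonneg (g : ℝ × ℝ → ℝ) : 0 ≤ bdS (fun z => g z ^ 2) := by
  unfold bdS
  apply intervalIntegral.integral_nonneg (by norm_num)
  intro x _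
  positivity

theorem sqpull_nonempty (o p : ℂ) (hp : p ≠ 0) (k : WithTop ℕ∞) :
    {x : ℝ | ∃ u : ℂ → ℝ, ContDiff ℝ k u ∧
      bd4 (vA o p (Complex.I * p) 0) (vB o p (Complex.I * p) 0)
        (vC o p (Complex.I * p) 0) (vD o p (Complex.I * p) 0) u = 0 ∧
      bd4 (vA o p (Complex.I * p) 0) (vB o p (Complex.I * p) 0)
        (vC o p (Complex.I * p) 0) (vD o p (Complex.I * p) 0) (fun z => u z ^ 2) ≠ 0 ∧
      x = dir4 (vA o p (Complex.I * p) 0) (vB o p (Complex.I * p) 0)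
        (vC o p (Complex.I * p) 0) (vD o p (Complex.I * p) 0) u /
          bd4 (vA o p (Complex.I * p) 0) (vB o p (Complex.I * p) 0)
        (vC o p (Complex.I * p) 0) (vD o p (Complex.I * p) 0) (fun z => u z ^ 2)}.Nonempty := by
  have hpn : 0 < ‖p‖ := norm_pos_iff.mpr hp
  have hcont : Continuous (fun z : ℂ => ip (z - o) p) := by
    unfold ip
    have h1 : Continuous (fun z : ℂ => (z - o).re) :=
      Complex.continuous_re.comp (continuous_id.sub continuous_const)
    have h2 : Continuous (fun z : ℂ => (z - o).im) :=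
      Complex.continuous_im.comp (continuous_id.sub continuous_const)
    exact (h1.mul continuous_const).add (h2.mul continuous_const)
  refine ⟨_, fun z => ip (z - o) p, ?_, ?_, ?_, rfl⟩
  · unfold ip
    have h1 : ContDiff ℝ k (fun z : ℂ => (z - o).re) :=
      Complex.reCLM.contDiff.comp (contDiff_id.sub contDiff_const)
    have h2 : ContDiff ℝ k (fun z : ℂ => (z - o).im) :=
      Complex.imCLM.contDiff.comp (contDiff_id.sub contDiff_const)
    exact (h1.mul contDiff_const).add (h2.mul contDiff_const)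
  · rw [sqpull_bd _ _ _ hcont]
    have h : ∀ z : ℝ × ℝ, ip (psi o p (Complex.I * p) 0 z - o) p = z.1 * ‖p‖ ^ 2 := by
      intro z
      rw [← sqpull_ip]
      simp [ip, psi]
      ring
    simp only [h, bdS]
    have : (fun x : ℝ => x * ‖p‖ ^ 2 + x * ‖p‖ ^ 2 + 1 * ‖p‖ ^ 2 + -1 * ‖p‖ ^ 2) =
        fun x => (2 * ‖p‖ ^ 2) * x := by
      funext x; ring
    rw [this, intervalIntegral.integral_const_mul, integral_id]
    norm_num
  · have hcont2 : Continuous (fun z : ℂ => (ip (z - o) p) ^ 2) := hcont.pow 2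
    rw [sqpull_bd _ _ _ hcont2]
    have h : ∀ z : ℝ × ℝ, ip (psi o p (Complex.I * p) 0 z - o) p = z.1 * ‖p‖ ^ 2 := by
      intro z
      rw [← sqpull_ip]
      simp [ip, psi]
      ring
    simp only [h, bdS]
    have : (fun x : ℝ => (x * ‖p‖ ^ 2) ^ 2 + (x * ‖p‖ ^ 2) ^ 2 + (1 * ‖p‖ ^ 2) ^ 2
        + (-1 * ‖p‖ ^ 2) ^ 2) = fun x => (2 * ‖p‖ ^ 4) * (x ^ 2 + 1) := by
      funext x; ring
    rw [this, intervalIntegral.integral_const_mul]
    have h2 : ∫ x in (-1 : ℝ)..1, (x ^ 2 + 1) = 8 / 3 := by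
      rw [intervalIntegral.integral_add ((continuous_pow 2).intervalIntegrable _ _) intervalIntegrable_const, integral_pow]
      norm_num
    rw [h2]
    positivity

/-- SQ-SQPULL -/
theorem sig4_sq_ge (o p : ℂ) (hp : p ≠ 0) {k : WithTop ℕ∞} (hk : 1 ≤ k) :
    mu ≤ sig4 k (vA o p (Complex.I * p) 0) (vB o p (Complex.I * p) 0)
        (vC o p (Complex.I * p) 0) (vD o p (Complex.I * p) 0)
      * perim4 (vA o p (Complex.I * p) 0) (vB o p (Complex.I * p) 0)
        (vC o p (Complex.I * p) 0) (vD o p (Complex.I * p) 0) := by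
  have hpn : 0 < ‖p‖ := norm_pos_iff.mpr hp
  rw [sqpull_perim, ← div_le_iff₀ (by positivity)]
  refine le_csInf (sqpull_nonempty o p hp k) ?_
  rintro x ⟨u, hu, h0, h1, rfl⟩
  have huc : Continuous u := hu.continuous
  rw [sqpull_bd _ _ _ huc] at h0
  have huc2 : Continuous (fun z => u z ^ 2) := huc.pow 2
  rw [sqpull_bd _ _ _ huc2] at h1 ⊢
  rw [sqpull_dir o p hp hk hu]
  set g : ℝ × ℝ → ℝ := fun z => u (psi o p (Complex.I * p) 0 z) with hg
  have hgc : ContDiff ℝ 1 g := (hu.comp (sqpull_contDiff o p)).of_le hk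
  have hb0 : bdS g = 0 := (mul_eq_zero.mp h0).resolve_left hpn.ne'
  have hlow := low_sq hgc hb0
  have hb1 : bdS (fun z => g z ^ 2) ≠ 0 := (mul_ne_zero_iff.mp h1).2
  have hb2 : 0 < bdS (fun z => g z ^ 2) :=
    lt_of_le_of_ne (sqpull_bdS_nonneg g) (Ne.symm hb1)
  have hgoal : mu / (8 * ‖p‖) ≤ dirS g / (‖p‖ * bdS (fun z => g z ^ 2)) := by
    rw [div_le_div_iff₀ (by positivity) (by positivity)]
    nlinarith [mul_le_mul_of_nonneg_left hlow hpn.le]
  exact hgoal

end Pool.Agent.Sq4
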