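import Pool.Agent.Sq4.UReg1

/-!
# SQ-UREG2: interaction energy of the eigenfunctions
-/

set_option autoImplicit false

noncomputable section

namespace Pool.Agent.Sq4

open MeasureTheory Pool.Agent.Stk

namespace URegAux

theorem quad_nonneg (p q : ℂ) (x y : ℝ) :
    0 ≤ ip p p * x ^ 2 + ip q q * y ^ 2 - 2 * ip p q * x * y := by
  have h : ip p p * x ^ 2 + ip q q * y ^ 2 - 2 * ip p q * x * y
      = (x * p.re - y * q.re) ^ 2 + (x * p.im - y * q.im) ^ 2 := by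
    simp only [ip]; ring
  rw [h]; positivity

theorem vec_nonneg (p q : ℂ) (a b : ℝ) :
    0 ≤ ip p p * a ^ 2 + ip q q * b ^ 2 + 2 * ip p q * a * b := by
  have h : ip p p * a ^ 2 + ip q q * b ^ 2 + 2 * ip p q * a * b
      = (a * p.re + b * q.re) ^ 2 + (a * p.im + b * q.im) ^ 2 := by
    simp only [ip]; ring
  rw [h]; positivity

theorem cs_two (n1 n2 m1 m2 w1 w2 : ℝ) :
    (n1 * w1 + n2 * w2) ^ 2 + (m1 * w1 + m2 * w2) ^ 2
      ≤ (w1 ^ 2 + w2 ^ 2) * (n1 ^ 2 + n2 ^ 2 + m1 ^ 2 + m2 ^ 2) := by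
  nlinarith [sq_nonneg (n1 * w2 - n2 * w1), sq_nonneg (m1 * w2 - m2 * w1)]

theorem bracket_le (p q w : ℂ) (f1 f2 t1 t2 : ℝ) :
    ip p p * (cr w q * f1 + cr p w * t1) ^ 2 + ip q q * (cr w q * t2 + cr p w * f2) ^ 2
      + 2 * ip p q * (cr w q * f1 + cr p w * t1) * (cr w q * t2 + cr p w * f2)
    ≤ ip w w * (ip p p * ip q q * (f1 ^ 2 + f2 ^ 2)
          + ip p p ^ 2 * t1 ^ 2 + ip q q ^ 2 * t2 ^ 2
          - 2 * ip p q ^ 2 * (f1 * f2 + t1 * t2)
          + 2 * ip p q * (f1 - f2) * (ip q q * t2 - ip p p * t1)) := by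
  have h := cs_two
    ((f1 * p.re + t2 * q.re) * q.im - (t1 * p.re + f2 * q.re) * p.im)
    (-((f1 * p.re + t2 * q.re) * q.re) + (t1 * p.re + f2 * q.re) * p.re)
    ((f1 * p.im + t2 * q.im) * q.im - (t1 * p.im + f2 * q.im) * p.im)
    (-((f1 * p.im + t2 * q.im) * q.re) + (t1 * p.im + f2 * q.im) * p.re)
    w.re w.im
  have e1 : ip p p * (cr w q * f1 + cr p w * t1) ^ 2 + ip q q * (cr w q * t2 + cr p w * f2) ^ 2
      + 2 * ip p q * (cr w q * f1 + cr p w * t1) * (cr w q * t2 + cr p w * f2)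
      = (((f1 * p.re + t2 * q.re) * q.im - (t1 * p.re + f2 * q.re) * p.im) * w.re
          + (-((f1 * p.re + t2 * q.re) * q.re) + (t1 * p.re + f2 * q.re) * p.re) * w.im) ^ 2
        + (((f1 * p.im + t2 * q.im) * q.im - (t1 * p.im + f2 * q.im) * p.im) * w.re
          + (-((f1 * p.im + t2 * q.im) * q.re) + (t1 * p.im + f2 * q.im) * p.re) * w.im) ^ 2 := by
    simp only [ip, cr]; ring
  have e2 : ip w w * (ip p p * ip q q * (f1 ^ 2 + f2 ^ 2)
          + ip p p ^ 2 * t1 ^ 2 + ip q q ^ 2 * t2 ^ 2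
          - 2 * ip p q ^ 2 * (f1 * f2 + t1 * t2)
          + 2 * ip p q * (f1 - f2) * (ip q q * t2 - ip p p * t1))
      = (w.re ^ 2 + w.im ^ 2) *
        (((f1 * p.re + t2 * q.re) * q.im - (t1 * p.re + f2 * q.re) * p.im) ^ 2
          + (-((f1 * p.re + t2 * q.re) * q.re) + (t1 * p.re + f2 * q.re) * p.re) ^ 2
          + ((f1 * p.im + t2 * q.im) * q.im - (t1 * p.im + f2 * q.im) * p.im) ^ 2
          + (-((f1 * p.im + t2 * q.im) * q.re) + (t1 * p.im + f2 * q.im) * p.re) ^ 2) := by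
    simp only [ip]; ring
  rw [e1, e2]
  exact h

end URegAux

open URegAux

/-- Cauchy-Schwarz: pointwise bound of the quadratic form. -/
theorem ph_le (p q w : ℂ) (f : ℝ × ℝ → ℝ) (κ : ℝ) (z : ℝ × ℝ) :
    ph f κ p q w z ≤ ip w w *
      ((ip p p * z.1 ^ 2 + ip q q * z.2 ^ 2 - 2 * ip p q * z.1 * z.2) *
        (ip p p * ip q q * ((dS f z - κ) ^ 2 + (dS f z.swap - κ) ^ 2)
          + ip p p ^ 2 * dT f z ^ 2 + ip q q ^ 2 * dT f z.swap ^ 2
          - 2 * ip p q ^ 2 * ((dS f z - κ) * (dS f z.swap - κ) + dT f z * dT f z.swap)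
          + 2 * ip p q * (dS f z - dS f z.swap) * (ip q q * dT f z.swap - ip p p * dT f z))) := by
  have hq := quad_nonneg p q z.1 z.2
  have hb := bracket_le p q w (dS f z - κ) (dS f z.swap - κ) (dT f z) (dT f z.swap)
  have e : dS f z - κ - (dS f z.swap - κ) = dS f z - dS f z.swap := by ring
  rw [e] at hb
  have := mul_le_mul_of_nonneg_left hb hq
  unfold ph B1 B2
  calc _ ≤ _ := this
    _ = _ := by ring

namespace URegAux

theorem ph_nonneg (p q w : ℂ) (f : ℝ × ℝ → ℝ) (κ : ℝ) (z : ℝ × ℝ) :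
    0 ≤ ph f κ p q w z := by
  unfold ph
  exact mul_nonneg (quad_nonneg p q z.1 z.2) (vec_nonneg p q _ _)

theorem et_sq_le (p q w : ℂ) (z : ℝ × ℝ) (hz : z ∈ Sq) :
    et p q w z ^ 2 ≤ ip w w * (ip p p + ip q q + 2 * |ip p q|) := by
  obtain ⟨⟨h1, h2⟩, h3, h4⟩ := hz
  have hx : z.1 ^ 2 ≤ 1 := by nlinarith
  have hy : z.2 ^ 2 ≤ 1 := by nlinarith
  have hxy : |z.1 * z.2| ≤ 1 := by
    rw [abs_mul]
    exact mul_le_one₀ (abs_le.2 ⟨h1, h2⟩) (abs_nonneg _) (abs_le.2 ⟨h3, h4⟩)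
  have hP : 0 ≤ ip p p := by
    have : ip p p = p.re ^ 2 + p.im ^ 2 := by simp only [ip]; ring
    rw [this]; positivity
  have hQ : 0 ≤ ip q q := by
    have : ip q q = q.re ^ 2 + q.im ^ 2 := by simp only [ip]; ring
    rw [this]; positivity
  have hW : 0 ≤ ip w w := by
    have : ip w w = w.re ^ 2 + w.im ^ 2 := by simp only [ip]; ring
    rw [this]; positivity
  have h5 : et p q w z ^ 2 ≤ ip w w
      * (ip p p * z.1 ^ 2 + ip q q * z.2 ^ 2 - 2 * ip p q * z.1 * z.2) := by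
    have e1 : et p q w z
        = (z.1 * p.re - z.2 * q.re) * w.im - (z.1 * p.im - z.2 * q.im) * w.re := by
      simp only [et, cr]; ring
    have e2 : ip w w * (ip p p * z.1 ^ 2 + ip q q * z.2 ^ 2 - 2 * ip p q * z.1 * z.2)
        = (w.re ^ 2 + w.im ^ 2)
          * ((z.1 * p.re - z.2 * q.re) ^ 2 + (z.1 * p.im - z.2 * q.im) ^ 2) := by
      simp only [ip]; ring
    rw [e1, e2]
    nlinarith [sq_nonneg ((z.1 * p.re - z.2 * q.re) * w.re + (z.1 * p.im - z.2 * q.im) * w.im)]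
  have h6 : - (2 * ip p q * z.1 * z.2) ≤ 2 * |ip p q| := by
    have h7 : - (2 * ip p q * z.1 * z.2) ≤ |2 * ip p q * z.1 * z.2| := neg_le_abs _
    have h8 : |2 * ip p q * z.1 * z.2| = 2 * |ip p q| * |z.1 * z.2| := by
      rw [show 2 * ip p q * z.1 * z.2 = 2 * (ip p q * (z.1 * z.2)) by ring, abs_mul, abs_mul,
        abs_two]
      ring
    have h9 : 2 * |ip p q| * |z.1 * z.2| ≤ 2 * |ip p q| * 1 :=
      mul_le_mul_of_nonneg_left hxy (by positivity)
    linarith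
  refine h5.trans (mul_le_mul_of_nonneg_left ?_ hW)
  have h10 : ip p p * z.1 ^ 2 ≤ ip p p * 1 := mul_le_mul_of_nonneg_left hx hP
  have h11 : ip q q * z.2 ^ 2 ≤ ip q q * 1 := mul_le_mul_of_nonneg_left hy hQ
  linarith

theorem isCompact_Sq : IsCompact Sq := isCompact_Icc.prod isCompact_Icc

theorem measurableSet_Sq : MeasurableSet Sq := isCompact_Sq.measurableSet

theorem intOn {g : ℝ × ℝ → ℝ} (hg : Continuous g) : IntegrableOn g Sq volume :=
  hg.continuousOn.integrableOn_compact isCompact_Sq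

theorem int_swap (g : ℝ × ℝ → ℝ) : ∫ z in Sq, g z.swap = ∫ z in Sq, g z := by
  have h := (Measure.measurePreserving_swap (μ := (volume : Measure ℝ))
    (ν := (volume : Measure ℝ))).setIntegral_preimage_emb
    MeasurableEquiv.prodComm.measurableEmbedding g Sq
  have e : (Prod.swap ⁻¹' Sq : Set (ℝ × ℝ)) = Sq := by
    ext z
    simp only [Sq, Set.mem_preimage, Set.mem_prod, Prod.fst_swap, Prod.snd_swap]
    tauto
  rw [e] at h
  exact h

/-- reflection of the first coordinate -/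
def rf (z : ℝ × ℝ) : ℝ × ℝ := (-z.1, z.2)

theorem int_rf (g : ℝ × ℝ → ℝ) : ∫ z in Sq, g (rf z) = ∫ z in Sq, g z := by
  have hm : MeasurePreserving rf (volume : Measure (ℝ × ℝ)) volume := by
    have := (Measure.measurePreserving_neg (volume : Measure ℝ)).prod
      (MeasurePreserving.id (volume : Measure ℝ))
    exact this
  have he : MeasurableEmbedding rf :=
    ((MeasurableEquiv.neg ℝ).prodCongr (MeasurableEquiv.refl ℝ)).measurableEmbedding
  have h := hm.setIntegral_preimage_emb he g Sq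
  have e : (rf ⁻¹' Sq : Set (ℝ × ℝ)) = Sq := by
    ext z
    simp only [Sq, Set.mem_preimage, Set.mem_prod, rf, Set.mem_Icc]
    constructor
    · rintro ⟨⟨h1, h2⟩, h3⟩
      exact ⟨⟨by linarith, by linarith⟩, h3⟩
    · rintro ⟨⟨h1, h2⟩, h3⟩
      exact ⟨⟨by linarith, by linarith⟩, h3⟩
  rw [e] at h
  exact h

theorem int_odd {g : ℝ × ℝ → ℝ} (hg : ∀ z, g (rf z) = - g z) : ∫ z in Sq, g z = 0 := by
  have h := int_rf g
  simp only [hg, integral_neg] at h
  linarith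

/-- explicit derivative -/
def Fz (z : ℝ × ℝ) : ℝ := Real.cos (al * z.1) * Real.cosh (al * z.2) - 5 / 4
/-- explicit derivative -/
def Gz (z : ℝ × ℝ) : ℝ := Real.cos (al * z.2) * Real.cosh (al * z.1) - 5 / 4
/-- explicit derivative -/
def Tz (z : ℝ × ℝ) : ℝ := Real.sin (al * z.1) * Real.sinh (al * z.2)
/-- explicit derivative -/
def Uz (z : ℝ × ℝ) : ℝ := Real.sin (al * z.2) * Real.sinh (al * z.1)

theorem contF : Continuous Fz := by unfold Fz; fun_prop
theorem contG : Continuous Gz := by unfold Gz; fun_prop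
theorem contT : Continuous Tz := by unfold Tz; fun_prop
theorem contU : Continuous Uz := by unfold Uz; fun_prop

theorem e1 (z : ℝ × ℝ) : dS fU z - 5 / 4 = Fz z := by rw [dS_fU]; rfl
theorem e2 (z : ℝ × ℝ) : dS fU z.swap - 5 / 4 = Gz z := by rw [dS_fU]; rfl
theorem e3 (z : ℝ × ℝ) : dT fU z = Tz z := by rw [dT_fU]; rfl
theorem e4 (z : ℝ × ℝ) : dT fU z.swap = Uz z := by rw [dT_fU]; rfl
theorem e5 (z : ℝ × ℝ) : dS fU z - dS fU z.swap = Fz z - Gz z := by
  rw [← e1, ← e2]; ring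

theorem Fs (z : ℝ × ℝ) : Fz z.swap = Gz z := rfl
theorem Gs (z : ℝ × ℝ) : Gz z.swap = Fz z := rfl
theorem Ts (z : ℝ × ℝ) : Tz z.swap = Uz z := rfl
theorem Us (z : ℝ × ℝ) : Uz z.swap = Tz z := rfl

theorem Fr (z : ℝ × ℝ) : Fz (rf z) = Fz z := by
  simp only [Fz, rf, mul_neg, Real.cos_neg]
theorem Gr (z : ℝ × ℝ) : Gz (rf z) = Gz z := by
  simp only [Gz, rf, mul_neg, Real.cosh_neg]
theorem Tr (z : ℝ × ℝ) : Tz (rf z) = - Tz z := by
  simp only [Tz, rf, mul_neg, Real.sin_neg]; ring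
theorem Ur (z : ℝ × ℝ) : Uz (rf z) = - Uz z := by
  simp only [Uz, rf, mul_neg, Real.sinh_neg]

/-- the integrand of the bound -/
def Bd (P Q c : ℝ) (z : ℝ × ℝ) : ℝ :=
  (P * z.1 ^ 2 + Q * z.2 ^ 2 - 2 * c * z.1 * z.2) *
    (P * Q * (Fz z ^ 2 + Gz z ^ 2) + P ^ 2 * Tz z ^ 2 + Q ^ 2 * Uz z ^ 2
      - 2 * c ^ 2 * (Fz z * Gz z + Tz z * Uz z)
      + 2 * c * (Fz z - Gz z) * (Q * Uz z - P * Tz z))

/-- odd part -/
def Od (P Q c : ℝ) (z : ℝ × ℝ) : ℝ :=
  (- 2 * c * z.1 * z.2) *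
    (P * Q * (Fz z ^ 2 + Gz z ^ 2) + P ^ 2 * Tz z ^ 2 + Q ^ 2 * Uz z ^ 2
      - 2 * c ^ 2 * (Fz z * Gz z + Tz z * Uz z))
    + (P * z.1 ^ 2 + Q * z.2 ^ 2) * (2 * c * (Fz z - Gz z) * (Q * Uz z - P * Tz z))

/-- the five weights -/
def a1 (z : ℝ × ℝ) : ℝ := z.1 ^ 2 * (Fz z ^ 2 + Gz z ^ 2)
/-- the five weights -/
def a2 (z : ℝ × ℝ) : ℝ := z.1 ^ 2 * Tz z ^ 2
/-- the five weights -/
def a3 (z : ℝ × ℝ) : ℝ := z.2 ^ 2 * Tz z ^ 2
/-- the five weights -/
def a4 (z : ℝ × ℝ) : ℝ := z.1 ^ 2 * (Fz z * Gz z + Tz z * Uz z)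
/-- the five weights -/
def a5 (z : ℝ × ℝ) : ℝ := z.1 * z.2 * (Fz z - Gz z) * Uz z

/-- linear combination of the five weights -/
def Lc (k1 k2 k3 k4 k5 : ℝ) (z : ℝ × ℝ) : ℝ :=
  k1 * a1 z + k2 * a2 z + k3 * a3 z + k4 * a4 z + k5 * a5 z

theorem ca1 : Continuous a1 := by
  have := contF; have := contG; unfold a1; fun_prop
theorem ca2 : Continuous a2 := by
  have := contT; unfold a2; fun_prop
theorem ca3 : Continuous a3 := by
  have := contT; unfold a3; fun_prop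
theorem ca4 : Continuous a4 := by
  have := contF; have := contG; have := contT; have := contU; unfold a4; fun_prop
theorem ca5 : Continuous a5 := by
  have := contF; have := contG; have := contU; unfold a5; fun_prop
theorem cLc (k1 k2 k3 k4 k5 : ℝ) : Continuous (Lc k1 k2 k3 k4 k5) := by
  have := ca1; have := ca2; have := ca3; have := ca4; have := ca5
  unfold Lc; fun_prop
theorem cOd (P Q c : ℝ) : Continuous (Od P Q c) := by
  have := contF; have := contG; have := contT; have := contU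
  unfold Od; fun_prop
theorem cBd (P Q c : ℝ) : Continuous (Bd P Q c) := by
  have := contF; have := contG; have := contT; have := contU
  unfold Bd; fun_prop

theorem Bd_eq (P Q c : ℝ) (z : ℝ × ℝ) :
    Bd P Q c z = Lc (P ^ 2 * Q) (P ^ 3) (P ^ 2 * Q) (- 2 * c ^ 2 * P) (- 4 * c ^ 2 * Q) z
      + Lc (P * Q ^ 2) (Q ^ 3) (P * Q ^ 2) (- 2 * c ^ 2 * Q) (- 4 * c ^ 2 * P) z.swap
      + Od P Q c z := by
  simp only [Bd, Lc, Od, a1, a2, a3, a4, a5, Fs, Gs, Ts, Us, Prod.fst_swap, Prod.snd_swap]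
  ring

theorem Od_rf (P Q c : ℝ) (z : ℝ × ℝ) : Od P Q c (rf z) = - Od P Q c z := by
  simp only [Od, Fr, Gr, Tr, Ur]
  simp only [rf]
  ring

theorem int_add {f g : ℝ × ℝ → ℝ} (hf : Continuous f) (hg : Continuous g) :
    ∫ z in Sq, (f z + g z) = (∫ z in Sq, f z) + ∫ z in Sq, g z :=
  integral_add (intOn hf) (intOn hg)

theorem int_Lc (k1 k2 k3 k4 k5 : ℝ) : ∫ z in Sq, Lc k1 k2 k3 k4 k5 z
    = k1 * (∫ z in Sq, a1 z) + k2 * (∫ z in Sq, a2 z) + k3 * (∫ z in Sq, a3 z)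
      + k4 * (∫ z in Sq, a4 z) + k5 * (∫ z in Sq, a5 z) := by
  have c1 := ca1
  have c2 := ca2
  have c3 := ca3
  have c4 := ca4
  have c5 := ca5
  unfold Lc
  rw [int_add (f := fun z => k1 * a1 z + k2 * a2 z + k3 * a3 z + k4 * a4 z)
      (g := fun z => k5 * a5 z) (by fun_prop) (by fun_prop),
    int_add (f := fun z => k1 * a1 z + k2 * a2 z + k3 * a3 z)
      (g := fun z => k4 * a4 z) (by fun_prop) (by fun_prop),
    int_add (f := fun z => k1 * a1 z + k2 * a2 z)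
      (g := fun z => k3 * a3 z) (by fun_prop) (by fun_prop),
    int_add (f := fun z => k1 * a1 z)
      (g := fun z => k2 * a2 z) (by fun_prop) (by fun_prop)]
  simp only [integral_const_mul]

theorem int_Bd (P Q c : ℝ) : ∫ z in Sq, Bd P Q c z
    = (P + Q) * (P * Q) * (∫ z in Sq, a1 z) + (P ^ 3 + Q ^ 3) * (∫ z in Sq, a2 z)
      + (P + Q) * (P * Q) * (∫ z in Sq, a3 z)
      - 2 * c ^ 2 * (P + Q) * ((∫ z in Sq, a4 z) + 2 * ∫ z in Sq, a5 z) := by
  have h : ∫ z in Sq, Bd P Q c z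
      = (∫ z in Sq, Lc (P ^ 2 * Q) (P ^ 3) (P ^ 2 * Q) (- 2 * c ^ 2 * P) (- 4 * c ^ 2 * Q) z)
        + (∫ z in Sq, Lc (P * Q ^ 2) (Q ^ 3) (P * Q ^ 2) (- 2 * c ^ 2 * Q) (- 4 * c ^ 2 * P) z.swap)
        + ∫ z in Sq, Od P Q c z := by
    have k1 : Continuous (fun z => Lc (P ^ 2 * Q) (P ^ 3) (P ^ 2 * Q) (- 2 * c ^ 2 * P)
      (- 4 * c ^ 2 * Q) z) := cLc _ _ _ _ _
    have k2 : Continuous (fun z : ℝ × ℝ => Lc (P * Q ^ 2) (Q ^ 3) (P * Q ^ 2) (- 2 * c ^ 2 * Q)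
      (- 4 * c ^ 2 * P) z.swap) := (cLc _ _ _ _ _).comp continuous_swap
    have k3 : Continuous (fun z => Od P Q c z) := cOd P Q c
    have k12 : Continuous (fun z : ℝ × ℝ => Lc (P ^ 2 * Q) (P ^ 3) (P ^ 2 * Q) (- 2 * c ^ 2 * P)
      (- 4 * c ^ 2 * Q) z + Lc (P * Q ^ 2) (Q ^ 3) (P * Q ^ 2) (- 2 * c ^ 2 * Q)
      (- 4 * c ^ 2 * P) z.swap) := k1.add k2
    rw [← int_add k1 k2, ← int_add k12 k3]
    exact integral_congr_ae (Filter.Eventually.of_forall fun z => Bd_eq P Q c z)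
  rw [h, int_swap, int_odd (Od_rf P Q c), int_Lc, int_Lc]
  ring

end URegAux

/-- SQ-UREG The interaction energy. -/
theorem TT_fU (p q w : ℂ) (hd : 0 < cr p q)
    (hr : ip w w * (ip p p + ip q q + 2 * |ip p q|) < cr p q ^ 2) :
    TT fU (5 / 4) p q w ≤ ip w w * (ip p p + ip q q)
      * (33 / 100 * (ip p p * ip q q) + 9 / 40 * (ip p p ^ 2 + ip q q ^ 2))
      / (cr p q * (cr p q ^ 2 - ip w w * (ip p p + ip q q + 2 * |ip p q|))) := by
  set D : ℝ := cr p q ^ 2 - ip w w * (ip p p + ip q q + 2 * |ip p q|) with hD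
  have hDpos : 0 < D := by rw [hD]; linarith
  have hP : 0 ≤ ip p p := by
    have : ip p p = p.re ^ 2 + p.im ^ 2 := by simp only [ip]; ring
    rw [this]; positivity
  have hQ : 0 ≤ ip q q := by
    have : ip q q = q.re ^ 2 + q.im ^ 2 := by simp only [ip]; ring
    rw [this]; positivity
  have hW : 0 ≤ ip w w := by
    have : ip w w = w.re ^ 2 + w.im ^ 2 := by simp only [ip]; ring
    rw [this]; positivity
  have hpt : ∀ z ∈ Sq, ph fU (5 / 4) p q w z / (cr p q ^ 2 - et p q w z ^ 2)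
      ≤ ip w w / D * Bd (ip p p) (ip q q) (ip p q) z := by
    intro z hz
    have h1 := et_sq_le p q w z hz
    have h2 : D ≤ cr p q ^ 2 - et p q w z ^ 2 := by rw [hD]; linarith
    have h3 := ph_nonneg p q w fU (5 / 4) z
    have h4 := ph_le p q w fU (5 / 4) z
    rw [e5, e1, e2, e3, e4] at h4
    calc ph fU (5 / 4) p q w z / (cr p q ^ 2 - et p q w z ^ 2)
        ≤ ph fU (5 / 4) p q w z / D := div_le_div_of_nonneg_left h3 hDpos h2
      _ ≤ (ip w w * Bd (ip p p) (ip q q) (ip p q) z) / D :=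
          div_le_div_of_nonneg_right h4 hDpos.le
      _ = ip w w / D * Bd (ip p p) (ip q q) (ip p q) z := by ring
  have hnn : ∀ z ∈ Sq, 0 ≤ ph fU (5 / 4) p q w z / (cr p q ^ 2 - et p q w z ^ 2) := by
    intro z hz
    have h1 := et_sq_le p q w z hz
    have h2 : D ≤ cr p q ^ 2 - et p q w z ^ 2 := by rw [hD]; linarith
    exact div_nonneg (ph_nonneg p q w fU (5 / 4) z) (hDpos.le.trans h2)
  have hint : ∫ z in Sq, ph fU (5 / 4) p q w z / (cr p q ^ 2 - et p q w z ^ 2)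
      ≤ ∫ z in Sq, ip w w / D * Bd (ip p p) (ip q q) (ip p q) z := by
    refine integral_mono_of_nonneg ?_ ((intOn (cBd _ _ _)).const_mul _) ?_
    · exact (ae_restrict_iff' measurableSet_Sq).2 (Filter.Eventually.of_forall hnn)
    · exact (ae_restrict_iff' measurableSet_Sq).2 (Filter.Eventually.of_forall hpt)
  rw [integral_const_mul, int_Bd] at hint
  have u1 : ∫ z in Sq, a1 z ≤ 33 / 100 := by
    have h := ur1
    simp only [e1] at h
    exact h
  have u2 : ∫ z in Sq, a2 z ≤ 9 / 40 := by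
    have h := ur2
    simp only [e3] at h
    exact h
  have u3 : ∫ z in Sq, a3 z ≤ 9 / 40 := by
    have h := ur3
    simp only [e3] at h
    exact h
  have u4 : 0 ≤ (∫ z in Sq, a4 z) + 2 * ∫ z in Sq, a5 z := by
    have h := ur4
    simp only [e5, e1, e3] at h
    exact h
  have hc : 0 ≤ 2 * ip p q ^ 2 * (ip p p + ip q q) := by positivity
  have hbound : (ip p p + ip q q) * (ip p p * ip q q) * (∫ z in Sq, a1 z)
        + (ip p p ^ 3 + ip q q ^ 3) * (∫ z in Sq, a2 z)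
      + (ip p p + ip q q) * (ip p p * ip q q) * (∫ z in Sq, a3 z)
      - 2 * ip p q ^ 2 * (ip p p + ip q q) * ((∫ z in Sq, a4 z) + 2 * ∫ z in Sq, a5 z)
      ≤ (ip p p + ip q q)
        * (33 / 100 * (ip p p * ip q q) + 9 / 40 * (ip p p ^ 2 + ip q q ^ 2)) := by
    have k1 := mul_le_mul_of_nonneg_left u1
      (show 0 ≤ (ip p p + ip q q) * (ip p p * ip q q) by positivity)
    have k2 := mul_le_mul_of_nonneg_left u2
      (show 0 ≤ ip p p ^ 3 + ip q q ^ 3 by positivity)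
    have k3 := mul_le_mul_of_nonneg_left u3
      (show 0 ≤ (ip p p + ip q q) * (ip p p * ip q q) by positivity)
    have k4 := mul_nonneg hc u4
    have e : (ip p p + ip q q)
        * (33 / 100 * (ip p p * ip q q) + 9 / 40 * (ip p p ^ 2 + ip q q ^ 2))
        = (ip p p + ip q q) * (ip p p * ip q q) * (33 / 100)
          + (ip p p ^ 3 + ip q q ^ 3) * (9 / 40)
          + (ip p p + ip q q) * (ip p p * ip q q) * (9 / 40) := by ring
    rw [e]
    linarith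
  have hfin : ∫ z in Sq, ph fU (5 / 4) p q w z / (cr p q ^ 2 - et p q w z ^ 2)
      ≤ ip w w / D * ((ip p p + ip q q)
        * (33 / 100 * (ip p p * ip q q) + 9 / 40 * (ip p p ^ 2 + ip q q ^ 2))) :=
    hint.trans (mul_le_mul_of_nonneg_left hbound (by positivity))
  unfold TT
  calc (∫ z in Sq, ph fU (5 / 4) p q w z / (cr p q ^ 2 - et p q w z ^ 2)) / cr p q
      ≤ (ip w w / D * ((ip p p + ip q q)
        * (33 / 100 * (ip p p * ip q q) + 9 / 40 * (ip p p ^ 2 + ip q q ^ 2)))) / cr p q :=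
        div_le_div_of_nonneg_right hfin hd.le
    _ = _ := by
        have := hd.ne'
        have := hDpos.ne'
        field_simp

end Pool.Agent.Sq4
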