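import Pool.Agent.Sq4.Pair
import Pool.Agent.Sq4.Region
import Pool.Agent.Sq4.Ext
import Pool.Agent.Sq4.Grad
import Pool.Agent.Sq4.Bdry
import Pool.Agent.Sq4.Energy
import Pool.Agent.Sq4.UReg
import Pool.Agent.Sq4.KReg
import Pool.Agent.Sq4.Lens
import Pool.Agent.Sq4.RU
import Pool.Agent.Sq4.SqPull

/-!
# Assembly: the square maximises `σ₁ L` and `σ₁ |Ω|^{1/2}` among quadrilaterals
-/

set_option autoImplicit false

noncomputable section

namespace Pool.Agent.Sq4

open MeasureTheory Pool.Agent.Stk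

/-! ### regularity of the trial functions -/

theorem FF_re (f : ℝ × ℝ → ℝ) (κ : ℝ) (p q w : ℂ) (z : ℝ × ℝ) :
    (FF f κ p q w z).re = f z * p.re + f z.swap * q.re + κ * z.1 * z.2 * w.re := by
  simp [FF]

theorem FF_im (f : ℝ × ℝ → ℝ) (κ : ℝ) (p q w : ℂ) (z : ℝ × ℝ) :
    (FF f κ p q w z).im = f z * p.im + f z.swap * q.im + κ * z.1 * z.2 * w.im := by
  simp [FF]

theorem FF_re_contDiff {k : WithTop ℕ∞} {f : ℝ × ℝ → ℝ} (hf : ContDiff ℝ k f) (κ : ℝ)
    (p q w : ℂ) : ContDiff ℝ k (fun z => (FF f κ p q w z).re) := by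
  simp only [FF_re]
  have h2 : ContDiff ℝ k (fun z : ℝ × ℝ => f z.swap) :=
    hf.comp (contDiff_snd.prodMk contDiff_fst)
  exact ((hf.mul contDiff_const).add (h2.mul contDiff_const)).add
    (((contDiff_const.mul contDiff_fst).mul contDiff_snd).mul contDiff_const)

theorem FF_im_contDiff {k : WithTop ℕ∞} {f : ℝ × ℝ → ℝ} (hf : ContDiff ℝ k f) (κ : ℝ)
    (p q w : ℂ) : ContDiff ℝ k (fun z => (FF f κ p q w z).im) := by
  simp only [FF_im]
  have h2 : ContDiff ℝ k (fun z : ℝ × ℝ => f z.swap) :=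
    hf.comp (contDiff_snd.prodMk contDiff_fst)
  exact ((hf.mul contDiff_const).add (h2.mul contDiff_const)).add
    (((contDiff_const.mul contDiff_fst).mul contDiff_snd).mul contDiff_const)

/-! ### near regime -/

theorem mu_pos : 0 < mu := by linarith [mu_gt]

theorem perim4_pos (o p q w : ℂ) (hd : 0 < cr p q) :
    0 < perim4 (vA o p q w) (vB o p q w) (vC o p q w) (vD o p q w) := by
  rw [perim4_v]
  have := la_pos p q w hd
  linarith [this.1, this.2]

/-- Existence of the push forward of the trial functions with all their properties. -/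
theorem exists_trial {k : ℕ∞} (hk : 1 ≤ k) (o p q w : ℂ) (hd : 0 < cr p q) (hC : Cvx p q w)
    {f : ℝ × ℝ → ℝ} (hf : ContDiff ℝ k f) (hOE : OE f) (κ : ℝ) :
    ∃ G1 G2 : ℂ → ℝ, ContDiff ℝ k G1 ∧ ContDiff ℝ k G2 ∧
      dir4 (vA o p q w) (vB o p q w) (vC o p q w) (vD o p q w) G1
        + dir4 (vA o p q w) (vB o p q w) (vC o p q w) (vD o p q w) G2
        = DV f p q + TT f κ p q w ∧
      bd4 (vA o p q w) (vB o p q w) (vC o p q w) (vD o p q w) (fun z => G1 z ^ 2)
      + bd4 (vA o p q w) (vB o p q w) (vC o p q w) (vD o p q w) (fun z => G2 z ^ 2)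
      - (bd4 (vA o p q w) (vB o p q w) (vC o p q w) (vD o p q w) G1 ^ 2
        + bd4 (vA o p q w) (vB o p q w) (vC o p q w) (vD o p q w) G2 ^ 2)
        / perim4 (vA o p q w) (vB o p q w) (vC o p q w) (vD o p q w) = NB f κ p q w := by
  have hk' : (1 : WithTop ℕ∞) ≤ (k : WithTop ℕ∞) := by exact_mod_cast hk
  obtain ⟨G1, hG1, ε1, hε1, h1⟩ := exists_ext o p q w hC k _ (FF_re_contDiff hf κ p q w)
  obtain ⟨G2, hG2, ε2, hε2, h2⟩ := exists_ext o p q w hC k _ (FF_im_contDiff hf κ p q w)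
  refine ⟨G1, G2, hG1, hG2, ?_, ?_⟩
  · rw [dir4_pull o p q w hC hk' hG1 (FF_re_contDiff hf κ p q w) hε1 h1,
      dir4_pull o p q w hC hk' hG2 (FF_im_contDiff hf κ p q w) hε2 h2]
    exact energy p q w hC (hf.of_le hk') hOE κ
  · have hin : ∀ z ∈ Sq, |z.1| ≤ 1 ∧ |z.2| ≤ 1 := by
      rintro ⟨x, y⟩ hz
      simp only [Sq, Set.mem_prod, Set.mem_Icc] at hz
      exact ⟨abs_le.2 hz.1, abs_le.2 hz.2⟩
    refine bd_formula o p q w hd hf.continuous hOE κ hG1.continuous hG2.continuous ?_ ?_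
    · intro z hz
      exact h1 z (by linarith [(hin z hz).1]) (by linarith [(hin z hz).2])
    · intro z hz
      exact h2 z (by linarith [(hin z hz).1]) (by linarith [(hin z hz).2])

/-- Near regime, strict. -/
theorem near_lt {k : ℕ∞} (hk : 1 ≤ k) (o p q w : ℂ) (hd : 0 < cr p q) (hC : Cvx p q w)
    {f : ℝ × ℝ → ℝ} (hf : ContDiff ℝ k f) (hOE : OE f) (κ : ℝ)
    (h : 4 * (la p w + la q w) * (DV f p q + TT f κ p q w) < mu * NB f κ p q w) :
    sig4 k (vA o p q w) (vB o p q w) (vC o p q w) (vD o p q w)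
      * perim4 (vA o p q w) (vB o p q w) (vC o p q w) (vD o p q w) < mu := by
  obtain ⟨G1, G2, h1, h2, hD, hN⟩ := exists_trial hk o p q w hd hC hf hOE κ
  refine pair_lt mu_pos (perim4_pos o p q w hd) h1 h2 ?_
  rw [hD, hN, perim4_v]
  exact h

/-- Near regime, weak. -/
theorem near_le {k : ℕ∞} (hk : 1 ≤ k) (o p q w : ℂ) (hd : 0 < cr p q) (hC : Cvx p q w)
    {f : ℝ × ℝ → ℝ} (hf : ContDiff ℝ k f) (hOE : OE f) (κ : ℝ) (hN0 : 0 < NB f κ p q w)
    (h : 4 * (la p w + la q w) * (DV f p q + TT f κ p q w) ≤ mu * NB f κ p q w) :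
    sig4 k (vA o p q w) (vB o p q w) (vC o p q w) (vD o p q w)
      * perim4 (vA o p q w) (vB o p q w) (vC o p q w) (vD o p q w) ≤ mu := by
  obtain ⟨G1, G2, h1, h2, hD, hN⟩ := exists_trial hk o p q w hd hC hf hOE κ
  refine pair_le mu_pos (perim4_pos o p q w hd) h1 h2 ?_ ?_
  · rw [hN]; exact hN0
  · rw [hD, hN, perim4_v]
    exact h

/-! ### scaling -/

theorem NB_scale (f : ℝ × ℝ → ℝ) (κ : ℝ) (p q w : ℂ) (hd : 0 < cr p q) {s : ℝ}
    (hs : s = la p w + la q w) :
    NB f κ p q w = s ^ 3 / 8 * NN (cso f) (cse f) (csx f) (cme f ^ 2) κ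
      ((la p w - la q w) / s) (4 * ip w w / s ^ 2) (4 * lb p w ^ 2 / s ^ 2)
      (4 * lb q w ^ 2 / s ^ 2) (4 * ip p q / s ^ 2) (4 * (lb p w * lb q w) / s ^ 2) := by
  have h0 := la_pos p q w hd
  have hs0 : 0 < s := by rw [hs]; linarith [h0.1, h0.2]
  obtain ⟨e1, e2⟩ := ip_of p q w hd hs
  have hP : (1 + (la p w - la q w) / s) ^ 2 + 4 * lb p w ^ 2 / s ^ 2 - 4 * ip w w / s ^ 2
      = 4 * ip p p / s ^ 2 := e1.symm
  have hQ : (1 - (la p w - la q w) / s) ^ 2 + 4 * lb q w ^ 2 / s ^ 2 - 4 * ip w w / s ^ 2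
      = 4 * ip q q / s ^ 2 := e2.symm
  have hA : la p w = s * (1 + (la p w - la q w) / s) / 2 := by field_simp; rw [hs]; ring
  have hB : la q w = s * (1 - (la p w - la q w) / s) / 2 := by field_simp; rw [hs]; ring
  unfold NN NB
  rw [hP, hQ, ← hs]
  generalize (la p w - la q w) / s = t at *
  rw [hA, hB]
  field_simp
  ring

theorem DV_scale (f : ℝ × ℝ → ℝ) (p q w : ℂ) (hd : 0 < cr p q) {s : ℝ}
    (hs : s = la p w + la q w) {P Q c d : ℝ} (hP : P = 4 * ip p p / s ^ 2)
    (hQ : Q = 4 * ip q q / s ^ 2) (hc : c = 4 * ip p q / s ^ 2) (hdd : d = 4 * cr p q / s ^ 2) :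
    DV f p q = s ^ 2 / 4 * ((2 * P * Q * cE1 f + (P ^ 2 + Q ^ 2) * cE2 f - 2 * c ^ 2 * cK f)
      / d) := by
  have h0 := la_pos p q w hd
  have hs0 : 0 < s := by rw [hs]; linarith [h0.1, h0.2]
  subst hP hQ hc hdd
  unfold DV
  field_simp

/-! ### the three regimes -/

theorem far_lt {k : ℕ∞} (o p q w : ℂ) (hd : 0 < cr p q)
    (hw : |cr p w - cr w q| < cr p q) {s : ℝ} (hs : s = la p w + la q w)
    (hA : ¬ (11 / 2 * FA ((la p w - la q w) / s) (4 * ip w w / s ^ 2) (4 * lb p w ^ 2 / s ^ 2)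
      (4 * lb q w ^ 2 / s ^ 2) (4 * ip p q / s ^ 2) (4 * (lb p w * lb q w) / s ^ 2)
      ≤ 8 * (4 * cr p q / s ^ 2))) :
    sig4 k (vA o p q w) (vB o p q w) (vC o p q w) (vD o p q w)
      * perim4 (vA o p q w) (vB o p q w) (vC o p q w) (vD o p q w) < mu := by
  have h0 := la_pos p q w hd
  have hs0 : 0 < s := by rw [hs]; linarith [h0.1, h0.2]
  have c1 : ContDiff ℝ k (fun z : ℂ => z.re - o.re) :=
    (Complex.reCLM.contDiff).sub contDiff_const
  have c2 : ContDiff ℝ k (fun z : ℂ => z.im - o.im) :=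
    (Complex.imCLM.contDiff).sub contDiff_const
  have d1 : ∀ z : ℂ, fderiv ℝ (fun z : ℂ => z.re - o.re) z = Complex.reCLM := by
    intro z
    exact ((Complex.reCLM.hasFDerivAt (x := z)).sub_const o.re).fderiv
  have d2 : ∀ z : ℂ, fderiv ℝ (fun z : ℂ => z.im - o.im) z = Complex.imCLM := by
    intro z
    exact ((Complex.imCLM.hasFDerivAt (x := z)).sub_const o.im).fderiv
  have e1 : dir4 (vA o p q w) (vB o p q w) (vC o p q w) (vD o p q w)
      (fun z : ℂ => z.re - o.re) = 4 * cr p q := by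
    rw [← area4_v o p q w hd hw]
    simp [dir4, d1, area4, Measure.real]
  have e2 : dir4 (vA o p q w) (vB o p q w) (vC o p q w) (vD o p q w)
      (fun z : ℂ => z.im - o.im) = 4 * cr p q := by
    rw [← area4_v o p q w hd hw]
    simp [dir4, d2, area4, Measure.real]
  have hN := bd_formula o p q w hd (fK_contDiff (k := 0)).continuous fK_OE 1
    (G1 := fun z : ℂ => z.re - o.re) (G2 := fun z : ℂ => z.im - o.im)
    c1.continuous c2.continuous
    (by
      intro z _
      simp only [FF_re, fK, psi, Prod.fst_swap]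
      simp
      ring)
    (by
      intro z _
      simp only [FF_im, fK, psi, Prod.fst_swap]
      simp
      ring)
  refine pair_lt mu_pos (perim4_pos o p q w hd) c1 c2 ?_
  rw [hN, e1, e2, perim4_v, ← hs, NB_scale fK 1 p q w hd hs]
  obtain ⟨f1, f2, f3, f4, -⟩ := fK_const
  rw [f1, f2, f3, f4, show (2 : ℝ) ^ 2 = 4 by norm_num, NN_lin]
  set F := FA ((la p w - la q w) / s) (4 * ip w w / s ^ 2) (4 * lb p w ^ 2 / s ^ 2)
      (4 * lb q w ^ 2 / s ^ 2) (4 * ip p q / s ^ 2) (4 * (lb p w * lb q w) / s ^ 2) with hF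
  have hA' : 8 * (4 * cr p q / s ^ 2) < 11 / 2 * F := not_le.1 hA
  have hcr : 0 < 4 * cr p q / s ^ 2 := by positivity
  have hF0 : 0 < F := by nlinarith
  have h8 : 8 * (4 * cr p q / s ^ 2) < mu * F := by
    have := mu_gt
    nlinarith
  have e : 4 * s * (4 * cr p q + 4 * cr p q) = s ^ 3 * (8 * (4 * cr p q / s ^ 2)) := by
    field_simp; ring
  have e' : mu * (s ^ 3 / 8 * (8 * F)) = s ^ 3 * (mu * F) := by ring
  rw [e, e']
  exact mul_lt_mul_of_pos_left h8 (by positivity)

theorem mid_lt {k : ℕ∞} (hk : 1 ≤ k) (o p q w : ℂ) (hd : 0 < cr p q) {s : ℝ}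
    (hs : s = la p w + la q w)
    (hA : 11 / 2 * FA ((la p w - la q w) / s) (4 * ip w w / s ^ 2) (4 * lb p w ^ 2 / s ^ 2)
      (4 * lb q w ^ 2 / s ^ 2) (4 * ip p q / s ^ 2) (4 * (lb p w * lb q w) / s ^ 2)
      ≤ 8 * (4 * cr p q / s ^ 2))
    (hsq : ¬ (w = 0 ∧ ip p p = ip q q ∧ ip p q = 0)) :
    sig4 k (vA o p q w) (vB o p q w) (vC o p q w) (vD o p q w)
      * perim4 (vA o p q w) (vB o p q w) (vC o p q w) (vD o p q w) < mu := by
  have h0 := la_pos p q w hd
  have hs0 : 0 < s := by rw [hs]; linarith [h0.1, h0.2]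
  have hS := shp_of p q w hd hs
  have hcv := reg_convex hS hA
  obtain ⟨e1, e2⟩ := ip_of p q w hd hs
  -- convexity in the original variables
  have hr : ip w w * (ip p p + ip q q + 2 * |ip p q|) < cr p q ^ 2 := by
    rw [← e1, ← e2] at hcv
    have h4 : |4 * ip p q / s ^ 2| = 4 * |ip p q| / s ^ 2 := by
      have : (0 : ℝ) < s ^ 2 := by positivity
      rw [abs_div, abs_mul, abs_of_pos this, abs_of_pos (by norm_num : (0 : ℝ) < 4)]
    rw [h4] at hcv
    have h5 : 4 * ip w w / s ^ 2 * (4 * ip p p / s ^ 2 + 4 * ip q q / s ^ 2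
        + 2 * (4 * |ip p q| / s ^ 2))
        = 16 / s ^ 4 * (ip w w * (ip p p + ip q q + 2 * |ip p q|)) := by
      field_simp; ring
    have h6 : (4 * cr p q / s ^ 2) ^ 2 = 16 / s ^ 4 * cr p q ^ 2 := by
      field_simp; ring
    rw [h5, h6] at hcv
    exact lt_of_mul_lt_mul_left hcv (by positivity)
  have hC := cvx_of p q w hd hr
  obtain ⟨k1, k2, k3⟩ := cr_of p q w
  have habs : |4 * ip p q / s ^ 2| = 4 * |ip p q| / s ^ 2 := by
    have : (0 : ℝ) < s ^ 2 := by positivity
    rw [abs_div, abs_mul, abs_of_pos this, abs_of_pos (by norm_num : (0 : ℝ) < 4)]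
  have hden : 0 < cr p q ^ 2 - ip w w * (ip p p + ip q q + 2 * |ip p q|) := by linarith
  have hA1 : la p w = s * (1 + (la p w - la q w) / s) / 2 := by field_simp; rw [hs]; ring
  have hB1 : la q w = s * (1 - (la p w - la q w) / s) / 2 := by field_simp; rw [hs]; ring
  have hA2 : (1 + (la p w - la q w) / s) ^ 2 = 4 * la p w ^ 2 / s ^ 2 := by
    rw [show 4 * la p w ^ 2 / s ^ 2 = (2 * la p w / s) ^ 2 by field_simp; ring]
    congr 1
    field_simp; rw [hs]; ring
  have hB2 : (1 - (la p w - la q w) / s) ^ 2 = 4 * la q w ^ 2 / s ^ 2 := by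
    rw [show 4 * la q w ^ 2 / s ^ 2 = (2 * la q w / s) ^ 2 by field_simp; ring]
    congr 1
    field_simp; rw [hs]; ring
  by_cases hR : 3 / 20 ≤ 4 * ip w w / s ^ 2
  · -- middle regime
    refine near_lt hk o p q w hd hC fK_contDiff fK_OE 2 ?_
    have hT := TT_fK p q w hd hr
    have key := reg_K (T := 4 * TT fK 2 p q w / s ^ 2) hS (le_of_lt mu_gt |>.trans' (by norm_num))
      hA hR ?_
    · rw [NB_scale fK 2 p q w hd hs, DV_fK p q hd, ← hs]
      obtain ⟨f1, f2, f3, f4, -⟩ := fK_const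
      rw [f1, f2, f3, f4, show (2 : ℝ) ^ 2 = 4 by norm_num]
      have e : 4 * s * (8 * cr p q + TT fK 2 p q w)
          = s ^ 3 / 8 * (8 * (8 * (4 * cr p q / s ^ 2) + 4 * TT fK 2 p q w / s ^ 2)) := by
        field_simp
      rw [e, mul_left_comm mu (s ^ 3 / 8)]
      exact mul_lt_mul_of_pos_left key (by positivity)
    · rw [← e1, ← e2, habs, hA2, hB2]
      have hT' : 4 * TT fK 2 p q w / s ^ 2 ≤ 4 / s ^ 2 * (ip w w / cr p q * (4 / 3 * (ip p p + ip q q)
          + (ip p p * (4 / 5 * cr p w ^ 2 + 4 / 9 * cr w q ^ 2)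
            + ip q q * (4 / 9 * cr p w ^ 2 + 4 / 5 * cr w q ^ 2)
            - 16 / 9 * ip p q * cr p w * cr w q)
            / (cr p q ^ 2 - ip w w * (ip p p + ip q q + 2 * |ip p q|)))) := by
        rw [show 4 * TT fK 2 p q w / s ^ 2 = 4 / s ^ 2 * TT fK 2 p q w by ring]
        exact mul_le_mul_of_nonneg_left hT (by positivity)
      refine hT'.trans (le_of_eq ?_)
      have n1 : ip p p * (4 / 5 * cr p w ^ 2 + 4 / 9 * cr w q ^ 2)
            + ip q q * (4 / 9 * cr p w ^ 2 + 4 / 5 * cr w q ^ 2)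
            - 16 / 9 * ip p q * cr p w * cr w q
          = (4 / 3 * ip p p + 4 / 5 * ip q q) * ((ip w w - lb q w ^ 2) * (la q w ^ 2 - ip w w))
            + (4 / 5 * ip p p + 4 / 3 * ip q q) * ((ip w w - lb p w ^ 2) * (la p w ^ 2 - ip w w))
            - 8 / 9 * (ip w w * cr p q ^ 2) := by
        rw [← k1, ← k2]
        linear_combination (8 / 9 : ℝ) * k3
      rw [n1]
      have n2 : (4 * cr p q / s ^ 2) ^ 2 - 4 * ip w w / s ^ 2 * (4 * ip p p / s ^ 2
          + 4 * ip q q / s ^ 2 + 2 * (4 * |ip p q| / s ^ 2))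
          = 16 / s ^ 4 * (cr p q ^ 2 - ip w w * (ip p p + ip q q + 2 * |ip p q|)) := by
        field_simp; ring
      rw [n2]
      generalize cr p q ^ 2 - ip w w * (ip p p + ip q q + 2 * |ip p q|) = Dn at hden ⊢
      have hdn := hden.ne'
      have hd' := hd.ne'
      field_simp
      ring
  · -- regime near the square
    push Not at hR
    refine near_lt hk o p q w hd hC fU_contDiff fU_OE (5 / 4) ?_
    have hT := TT_fU p q w hd hr
    have hne : ¬ ((la p w - la q w) / s = 0 ∧ 4 * ip w w / s ^ 2 = 0 ∧ 4 * ip p q / s ^ 2 = 0) := by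
      rintro ⟨g1, g2, g3⟩
      apply hsq
      have hs2 : s ^ 2 ≠ 0 := by positivity
      have g2' : ip w w = 0 := by
        have := (div_eq_zero_iff.1 g2).resolve_right hs2
        linarith
      have g3' : ip p q = 0 := by
        have := (div_eq_zero_iff.1 g3).resolve_right hs2
        linarith
      have hw0 : w = 0 := by
        unfold ip at g2'
        apply Complex.ext
        · simp only [Complex.zero_re]; nlinarith [mul_self_nonneg w.re, mul_self_nonneg w.im]
        · simp only [Complex.zero_im]; nlinarith [mul_self_nonneg w.re, mul_self_nonneg w.im]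
      refine ⟨hw0, ?_, g3'⟩
      have hlb : lb p w = 0 ∧ lb q w = 0 := by
        subst hw0; simp [lb]
      rw [g1, hlb.1, g2] at e1
      rw [g1, hlb.2, g2] at e2
      have : 4 * ip p p / s ^ 2 = 4 * ip q q / s ^ 2 := by rw [e1, e2]; ring
      field_simp at this
      exact this
    have key := reg_U (T := 4 * TT fU (5 / 4) p q w / s ^ 2) hS hA hR.le cso_fU cse_fU csx_fU
      cme_fU cE2_fU cK_fU cE_fU ⟨mu_gt, mu_lt⟩ ?_ hne
    · rw [NB_scale fU (5 / 4) p q w hd hs,
        DV_scale fU p q w hd hs e1.symm e2.symm rfl rfl, ← hs]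
      have e : ∀ Y : ℝ, 4 * s * (s ^ 2 / 4 * Y + TT fU (5 / 4) p q w)
          = s ^ 3 / 8 * (8 * (Y + 4 * TT fU (5 / 4) p q w / s ^ 2)) := by
        intro Y
        field_simp
      rw [e, mul_left_comm mu (s ^ 3 / 8)]
      exact mul_lt_mul_of_pos_left key (by positivity)
    · rw [← e1, ← e2, habs]
      have hT' : 4 * TT fU (5 / 4) p q w / s ^ 2 ≤ 4 / s ^ 2 * (ip w w * (ip p p + ip q q)
          * (33 / 100 * (ip p p * ip q q) + 9 / 40 * (ip p p ^ 2 + ip q q ^ 2))
          / (cr p q * (cr p q ^ 2 - ip w w * (ip p p + ip q q + 2 * |ip p q|)))) := by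
        rw [show 4 * TT fU (5 / 4) p q w / s ^ 2 = 4 / s ^ 2 * TT fU (5 / 4) p q w by ring]
        exact mul_le_mul_of_nonneg_left hT (by positivity)
      refine hT'.trans (le_of_eq ?_)
      have n2 : (4 * cr p q / s ^ 2) ^ 2 - 4 * ip w w / s ^ 2 * (4 * ip p p / s ^ 2
          + 4 * ip q q / s ^ 2 + 2 * (4 * |ip p q| / s ^ 2))
          = 16 / s ^ 4 * (cr p q ^ 2 - ip w w * (ip p p + ip q q + 2 * |ip p q|)) := by
        field_simp; ring
      rw [n2]
      generalize cr p q ^ 2 - ip w w * (ip p p + ip q q + 2 * |ip p q|) = Dn at hden ⊢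
      have hdn := hden.ne'
      have hd' := hd.ne'
      field_simp
      ring

/-! ### squares -/

theorem sq_eq {k : ℕ∞} (hk : 1 ≤ k) (o p q : ℂ) (hd : 0 < cr p q) (h1 : ip p p = ip q q)
    (h2 : ip p q = 0) :
    sig4 k (vA o p q 0) (vB o p q 0) (vC o p q 0) (vD o p q 0)
      * perim4 (vA o p q 0) (vB o p q 0) (vC o p q 0) (vD o p q 0) = mu := by
  have hk' : (1 : WithTop ℕ∞) ≤ (k : WithTop ℕ∞) := by exact_mod_cast hk
  have hpq : cr p q ^ 2 = ip p p * ip q q - ip p q ^ 2 := by unfold cr ip; ring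
  have hP0 : 0 ≤ ip p p := by unfold ip; nlinarith [mul_self_nonneg p.re, mul_self_nonneg p.im]
  have hcr : cr p q = ip p p := by
    rw [h2, ← h1] at hpq
    have : (cr p q - ip p p) * (cr p q + ip p p) = 0 := by linear_combination hpq
    rcases mul_eq_zero.1 this with h | h
    · linarith
    · linarith
  have hpp : 0 < ip p p := by rw [← hcr]; exact hd
  have hq : q = Complex.I * p := by
    have g1 : p.re * (p.re * q.re + p.im * q.im) - p.im * (p.re * q.im - p.im * q.re)
        = - p.im * ip p p := by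
      have : p.re * q.re + p.im * q.im = 0 := h2
      have h' : p.re * q.im - p.im * q.re = ip p p := hcr
      rw [this, h']; ring
    have g2 : p.im * (p.re * q.re + p.im * q.im) + p.re * (p.re * q.im - p.im * q.re)
        = p.re * ip p p := by
      have : p.re * q.re + p.im * q.im = 0 := h2
      have h' : p.re * q.im - p.im * q.re = ip p p := hcr
      rw [this, h']; ring
    have g1' : ip p p * (q.re + p.im) = 0 := by
      have : p.re * (p.re * q.re + p.im * q.im) - p.im * (p.re * q.im - p.im * q.re)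
        = ip p p * q.re := by unfold ip; ring
      rw [this] at g1
      linear_combination g1
    have g2' : ip p p * (q.im - p.re) = 0 := by
      have : p.im * (p.re * q.re + p.im * q.im) + p.re * (p.re * q.im - p.im * q.re)
        = ip p p * q.im := by unfold ip; ring
      rw [this] at g2
      linear_combination g2
    have r1 := (mul_eq_zero.1 g1').resolve_left hpp.ne'
    have r2 := (mul_eq_zero.1 g2').resolve_left hpp.ne'
    apply Complex.ext
    · simp; linarith
    · simp; linarith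
  have hp : p ≠ 0 := by
    rintro rfl
    simp [ip] at hpp
  apply le_antisymm
  · have hC : Cvx p q 0 := by unfold Cvx; simpa [cr] using hd
    have hTT : TT fU (5 / 4) p q 0 = 0 := by
      simp [TT, ph, B1, B2, cr]
    have hla : la p 0 = ‖p‖ := by simp [la]
    have hlaq : la q 0 = ‖p‖ := by simp [la, hq]
    have hlb : lb p 0 = 0 := by simp [lb]
    have hlbq : lb q 0 = 0 := by simp [lb]
    have hnp : 0 < ‖p‖ := norm_pos_iff.2 hp
    have hNB : NB fU (5 / 4) p q 0 = 4 * ‖p‖ * (cso fU + cse fU) * ip p p := by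
      unfold NB
      rw [hla, hlaq, hlb, hlbq, ← h1]
      simp [ip]
      ring
    have hDV : DV fU p q = mu / 2 * (cso fU + cse fU) * ip p p := by
      unfold DV
      rw [h2, ← h1, hcr]
      have := cE_fU
      field_simp
      linear_combination (4 * ip p p ^ 2) * this
    refine near_le hk o p q 0 hd hC fU_contDiff fU_OE (5 / 4) ?_ ?_
    · rw [hNB]
      have a := cso_fU.1
      have b := cse_fU.1
      have : 0 < cso fU + cse fU := by linarith
      positivity
    · rw [hTT, hDV, hNB, hla, hlaq]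
      apply le_of_eq
      ring
  · subst hq
    exact sig4_sq_ge o p hp hk'

/-! ### all quadrilaterals -/

theorem coord (A B C D : ℂ) : ∃ o p q w : ℂ, A = vA o p q w ∧ B = vB o p q w ∧ C = vC o p q w ∧
    D = vD o p q w :=
  ⟨(A + B + C + D) / 4, (B + C - A - D) / 4, (C + D - A - B) / 4, (A + C - B - D) / 4,
    by unfold vA; ring, by unfold vB; ring, by unfold vC; ring, by unfold vD; ring⟩

theorem adm_coord (o p q w : ℂ) : Adm (vA o p q w) (vB o p q w) (vC o p q w) (vD o p q w) ↔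
    |cr p w - cr w q| < |cr p q| := by
  have e1 : det2 (vA o p q w) (vB o p q w) (vC o p q w) = 4 * (cr p q + (cr p w - cr w q)) := by
    unfold det2 vA vB vC cr; simp; ring
  have e2 : det2 (vA o p q w) (vC o p q w) (vD o p q w) = 4 * (cr p q - (cr p w - cr w q)) := by
    unfold det2 vA vC vD cr; simp; ring
  unfold Adm
  rw [e1, e2, ← sq_lt_sq]
  constructor
  · intro h; nlinarith
  · intro h; nlinarith

theorem adm_swap (A B C D : ℂ) (h : Adm A B C D) : Adm A D C B := by
  unfold Adm det2 at *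
  nlinarith

theorem isSq_coord (o p q w : ℂ) (hd : 0 < cr p q) :
    IsSq (vA o p q w) (vB o p q w) (vC o p q w) (vD o p q w) ↔
      (w = 0 ∧ ip p p = ip q q ∧ ip p q = 0) := by
  have nrm : ∀ z : ℂ, ‖z‖ ^ 2 = z.re * z.re + z.im * z.im := by
    intro z; rw [← Complex.normSq_eq_norm_sq, Complex.normSq_apply]
  have d1 : dist (vA o p q w) (vB o p q w) = 2 * ‖p - w‖ := by
    rw [dist_comm, Complex.dist_eq, show vB o p q w - vA o p q w = 2 * (p - w) by
      unfold vA vB; ring, norm_mul]; simp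
  have d2 : dist (vB o p q w) (vC o p q w) = 2 * ‖q + w‖ := by
    rw [dist_comm, Complex.dist_eq, show vC o p q w - vB o p q w = 2 * (q + w) by
      unfold vC vB; ring, norm_mul]; simp
  have d3 : dist (vC o p q w) (vD o p q w) = 2 * ‖p + w‖ := by
    rw [Complex.dist_eq, show vC o p q w - vD o p q w = 2 * (p + w) by
      unfold vC vD; ring, norm_mul]; simp
  have d4 : dist (vD o p q w) (vA o p q w) = 2 * ‖q - w‖ := by
    rw [Complex.dist_eq, show vD o p q w - vA o p q w = 2 * (q - w) by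
      unfold vA vD; ring, norm_mul]; simp
  have d5 : dist (vA o p q w) (vC o p q w) = 2 * ‖p + q‖ := by
    rw [dist_comm, Complex.dist_eq, show vC o p q w - vA o p q w = 2 * (p + q) by
      unfold vC vA; ring, norm_mul]; simp
  have d6 : dist (vB o p q w) (vD o p q w) = 2 * ‖p - q‖ := by
    rw [Complex.dist_eq, show vB o p q w - vD o p q w = 2 * (p - q) by
      unfold vB vD; ring, norm_mul]; simp
  unfold IsSq
  rw [d1, d2, d3, d4, d5, d6]
  constructor
  · rintro ⟨h1, h2, h3, h4⟩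
    have q1 : ‖p - w‖ ^ 2 = ‖q + w‖ ^ 2 := by rw [show ‖p - w‖ = ‖q + w‖ by linarith]
    have q2 : ‖q + w‖ ^ 2 = ‖p + w‖ ^ 2 := by rw [show ‖q + w‖ = ‖p + w‖ by linarith]
    have q3 : ‖p + w‖ ^ 2 = ‖q - w‖ ^ 2 := by rw [show ‖p + w‖ = ‖q - w‖ by linarith]
    have q4 : ‖p + q‖ ^ 2 = ‖p - q‖ ^ 2 := by rw [show ‖p + q‖ = ‖p - q‖ by linarith]
    simp only [nrm, Complex.add_re, Complex.add_im, Complex.sub_re, Complex.sub_im] at q1 q2 q3 q4
    have pw : ip p w = 0 := by unfold ip; nlinarith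
    have qw : ip q w = 0 := by unfold ip; nlinarith
    have hw : ip w w * cr p q ^ 2 = 0 := by
      have : ip w w * cr p q ^ 2 = ip p w ^ 2 * ip q q + ip q w ^ 2 * ip p p
          - 2 * ip p q * ip p w * ip q w := by unfold ip cr; ring
      rw [this, pw, qw]; ring
    have hw0 : ip w w = 0 := (mul_eq_zero.1 hw).resolve_right (by positivity)
    refine ⟨?_, ?_, ?_⟩
    · unfold ip at hw0
      apply Complex.ext
      · simp only [Complex.zero_re]; nlinarith [mul_self_nonneg w.re, mul_self_nonneg w.im]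
      · simp only [Complex.zero_im]; nlinarith [mul_self_nonneg w.re, mul_self_nonneg w.im]
    · unfold ip; nlinarith
    · unfold ip; nlinarith
  · rintro ⟨rfl, h1, h2⟩
    have n1 : ‖p‖ ^ 2 = ‖q‖ ^ 2 := by rw [nrm, nrm]; exact h1
    have n1' : ‖p‖ = ‖q‖ := by
      rw [← abs_of_nonneg (norm_nonneg p), ← abs_of_nonneg (norm_nonneg q)]
      exact (sq_eq_sq_iff_abs_eq_abs _ _).1 n1
    have n2 : ‖p + q‖ ^ 2 = ‖p - q‖ ^ 2 := by
      rw [nrm, nrm]
      simp only [Complex.add_re, Complex.add_im, Complex.sub_re, Complex.sub_im]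
      unfold ip at h2
      linear_combination (4 : ℝ) * h2
    have n2' : ‖p + q‖ = ‖p - q‖ := by
      rw [← abs_of_nonneg (norm_nonneg (p + q)), ← abs_of_nonneg (norm_nonneg (p - q))]
      exact (sq_eq_sq_iff_abs_eq_abs _ _).1 n2
    simp [n1', n2']

theorem isSq_swap (A B C D : ℂ) : IsSq A D C B ↔ IsSq A B C D := by
  unfold IsSq
  rw [dist_comm A D, dist_comm D C, dist_comm C B, dist_comm B A, dist_comm D B]
  constructor
  · rintro ⟨a, b, c, d⟩; exact ⟨c.symm, b.symm, a.symm, d⟩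
  · rintro ⟨a, b, c, d⟩; exact ⟨c.symm, b.symm, a.symm, d⟩

theorem perim4_swap (A B C D : ℂ) : perim4 A D C B = perim4 A B C D := by
  unfold perim4
  rw [dist_comm A D, dist_comm D C, dist_comm C B, dist_comm B A]; ring

/-- Reduction to positively oriented quadrilaterals. -/
theorem wlog_pos {Pr : ℂ → ℂ → ℂ → ℂ → Prop}
    (hsw : ∀ A B C D, Pr A D C B → Pr A B C D)
    (h : ∀ o p q w : ℂ, 0 < cr p q → |cr p w - cr w q| < cr p q →
      Pr (vA o p q w) (vB o p q w) (vC o p q w) (vD o p q w))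
    (A B C D : ℂ) (hA : Adm A B C D) : Pr A B C D := by
  obtain ⟨o, p, q, w, rfl, rfl, rfl, rfl⟩ := coord A B C D
  have h1 := (adm_coord o p q w).1 hA
  rcases lt_trichotomy (cr p q) 0 with hn | hz | hp
  · apply hsw
    have e : cr q p = - cr p q := by unfold cr; ring
    have e2 : cr q w - cr w p = cr p w - cr w q := by unfold cr; ring
    have := h o q p w (by rw [e]; linarith) (by
      rw [e2, e]
      rwa [abs_of_neg hn] at h1)
    have a1 : vA o q p w = vA o p q w := by unfold vA; ring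
    have a2 : vB o q p w = vD o p q w := by unfold vB vD; ring
    have a3 : vC o q p w = vC o p q w := by unfold vC; ring
    have a4 : vD o q p w = vB o p q w := by unfold vB vD; ring
    rwa [a1, a2, a3, a4] at this
  · rw [hz, abs_zero] at h1
    exact absurd h1 (not_lt.2 (abs_nonneg _))
  · exact h o p q w hp (by rwa [abs_of_pos hp] at h1)

theorem main_lt {k : ℕ∞} (hk : 1 ≤ k) (A B C D : ℂ) (hA : Adm A B C D) (hn : ¬ IsSq A B C D) :
    sig4 k A B C D * perim4 A B C D < mu := by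
  revert hn
  refine wlog_pos (Pr := fun A B C D => ¬ IsSq A B C D → sig4 k A B C D * perim4 A B C D < mu)
    ?_ ?_ A B C D hA
  · intro A B C D h hn
    rw [← sig4_swap, ← perim4_swap]
    exact h (by rwa [isSq_swap])
  · intro o p q w hd hw hn
    rw [isSq_coord o p q w hd] at hn
    by_cases hA : 11 / 2 * FA ((la p w - la q w) / (la p w + la q w))
        (4 * ip w w / (la p w + la q w) ^ 2) (4 * lb p w ^ 2 / (la p w + la q w) ^ 2)
        (4 * lb q w ^ 2 / (la p w + la q w) ^ 2) (4 * ip p q / (la p w + la q w) ^ 2)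
        (4 * (lb p w * lb q w) / (la p w + la q w) ^ 2)
        ≤ 8 * (4 * cr p q / (la p w + la q w) ^ 2)
    · exact mid_lt hk o p q w hd rfl hA hn
    · exact far_lt o p q w hd hw rfl hA

theorem main_eq {k : ℕ∞} (hk : 1 ≤ k) (A B C D : ℂ) (hA : Adm A B C D) (hn : IsSq A B C D) :
    sig4 k A B C D * perim4 A B C D = mu := by
  revert hn
  refine wlog_pos (Pr := fun A B C D => IsSq A B C D → sig4 k A B C D * perim4 A B C D = mu)
    ?_ ?_ A B C D hA
  · intro A B C D h hn
    rw [← sig4_swap, ← perim4_swap]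
    exact h (by rwa [isSq_swap])
  · intro o p q w hd hw hn
    rw [isSq_coord o p q w hd] at hn
    obtain ⟨rfl, h1, h2⟩ := hn
    exact sq_eq hk o p q hd h1 h2

/-! ### area -/

/-- Isoperimetric inequality for quadrilaterals. -/
theorem iso4 (A B C D : ℂ) (hA : Adm A B C D) :
    Real.sqrt (area4 A B C D) ≤ perim4 A B C D / 4 := by
  refine wlog_pos (Pr := fun A B C D => Real.sqrt (area4 A B C D) ≤ perim4 A B C D / 4)
    ?_ ?_ A B C D hA
  · intro A B C D h
    rw [← area4_swap, ← perim4_swap]; exact h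
  · intro o p q w hd hw
    have h0 := la_pos p q w hd
    obtain ⟨a1, a2⟩ := la_lb p w
    obtain ⟨b1, b2⟩ := la_lb q w
    rw [area4_v o p q w hd hw, perim4_v]
    rw [show 4 * (la p w + la q w) / 4 = la p w + la q w by ring]
    apply Real.sqrt_le_iff.2 ⟨by linarith [h0.1, h0.2], ?_⟩
    have hlb : ∀ p : ℂ, lb p w ^ 2 ≤ ip w w := by
      intro p
      have nw : ‖w‖ ^ 2 = ip w w := by
        unfold ip; rw [← Complex.normSq_eq_norm_sq, Complex.normSq_apply]
      rw [← nw]
      have t1 : ‖p + w‖ - ‖p - w‖ ≤ 2 * ‖w‖ := by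
        have : ‖p + w‖ ≤ ‖p - w‖ + ‖2 * w‖ := by
          have := norm_add_le (p - w) (2 * w)
          rwa [show p - w + 2 * w = p + w by ring] at this
        rw [norm_mul] at this
        simp at this
        linarith
      have t2 : -(2 * ‖w‖) ≤ ‖p + w‖ - ‖p - w‖ := by
        have : ‖p - w‖ ≤ ‖p + w‖ + ‖2 * w‖ := by
          have := norm_sub_le (p + w) (2 * w)
          rwa [show p + w - 2 * w = p - w by ring] at this
        rw [norm_mul] at this
        simp at this
        linarith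
      unfold lb
      have t3 := norm_nonneg w
      nlinarith
    have hP : ip p p ≤ la p w ^ 2 := by linarith [hlb p]
    have hQ : ip q q ≤ la q w ^ 2 := by linarith [hlb q]
    have hQ0 : 0 ≤ ip q q := by unfold ip; nlinarith [mul_self_nonneg q.re, mul_self_nonneg q.im]
    have hcr : cr p q ^ 2 ≤ ip p p * ip q q := by
      have : cr p q ^ 2 = ip p p * ip q q - ip p q ^ 2 := by unfold cr ip; ring
      nlinarith [sq_nonneg (ip p q)]
    have hcr2 : cr p q ^ 2 ≤ (la p w * la q w) ^ 2 := by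
      calc cr p q ^ 2 ≤ ip p p * ip q q := hcr
        _ ≤ la p w ^ 2 * la q w ^ 2 := mul_le_mul hP hQ hQ0 (sq_nonneg _)
        _ = _ := by ring
    have hcr3 : cr p q ≤ la p w * la q w :=
      (abs_le_of_sq_le_sq' hcr2 (mul_nonneg h0.1.le h0.2.le)).2
    nlinarith [sq_nonneg (la p w - la q w)]

theorem iso4_eq (A B C D : ℂ) (hA : Adm A B C D) (hS : IsSq A B C D) :
    Real.sqrt (area4 A B C D) = perim4 A B C D / 4 := by
  revert hS
  refine wlog_pos (Pr := fun A B C D => IsSq A B C D →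
    Real.sqrt (area4 A B C D) = perim4 A B C D / 4) ?_ ?_ A B C D hA
  · intro A B C D h hS
    rw [← area4_swap, ← perim4_swap]; exact h (by rwa [isSq_swap])
  · intro o p q w hd hw hS
    rw [isSq_coord o p q w hd] at hS
    obtain ⟨rfl, h1, h2⟩ := hS
    have h0 := la_pos p q 0 hd
    obtain ⟨a1, -⟩ := la_lb p 0
    obtain ⟨b1, -⟩ := la_lb q 0
    have l1 : lb p 0 = 0 := by simp [lb]
    have l2 : lb q 0 = 0 := by simp [lb]
    have l3 : ip 0 0 = 0 := by simp [ip]
    rw [l1, l3] at a1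
    rw [l2, l3] at b1
    rw [area4_v o p q 0 hd hw, perim4_v]
    have hpq : cr p q ^ 2 = ip p p * ip q q - ip p q ^ 2 := by unfold cr ip; ring
    rw [h2, ← h1] at hpq
    have hcr : cr p q = ip p p := by
      have : (cr p q - ip p p) * (cr p q + ip p p) = 0 := by linear_combination hpq
      have hP0 : 0 ≤ ip p p := by unfold ip; nlinarith [mul_self_nonneg p.re, mul_self_nonneg p.im]
      rcases mul_eq_zero.1 this with h | h
      · linarith
      · linarith
    have e1 : la p 0 = la q 0 := by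
      have : la p 0 ^ 2 = la q 0 ^ 2 := by nlinarith
      rw [← abs_of_pos h0.1, ← abs_of_pos h0.2]
      exact (sq_eq_sq_iff_abs_eq_abs _ _).1 this
    rw [hcr, show 4 * ip p p = (2 * la p 0) ^ 2 by nlinarith, Real.sqrt_sq (by linarith [h0.1]),
      ← e1]
    ring

/-- The main theorem. -/
theorem quads_main {k : ℕ∞} (hk : 1 ≤ k) {A B C D : ℂ} (hA : Adm A B C D) :
    sig4 k A B C D * perim4 A B C D ≤ mu ∧
    (sig4 k A B C D * perim4 A B C D = mu ↔ IsSq A B C D) ∧
    sig4 k A B C D * Real.sqrt (area4 A B C D) ≤ mu / 4 ∧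
    (sig4 k A B C D * Real.sqrt (area4 A B C D) = mu / 4 ↔ IsSq A B C D) := by
  have h0 := sig4_nonneg k A B C D
  have hi := iso4 A B C D hA
  have hle : sig4 k A B C D * Real.sqrt (area4 A B C D)
      ≤ sig4 k A B C D * perim4 A B C D / 4 := by
    rw [mul_div_assoc]
    exact mul_le_mul_of_nonneg_left hi h0
  by_cases hS : IsSq A B C D
  · have e := main_eq hk A B C D hA hS
    have e' : sig4 k A B C D * Real.sqrt (area4 A B C D) = mu / 4 := by
      rw [iso4_eq A B C D hA hS, ← e]; ring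
    exact ⟨e.le, ⟨fun _ => hS, fun _ => e⟩, e'.le, ⟨fun _ => hS, fun _ => e'⟩⟩
  · have e := main_lt hk A B C D hA hS
    refine ⟨e.le, ⟨fun h => absurd h e.ne, fun h => absurd h hS⟩, by linarith,
      ⟨fun h => ?_, fun h => absurd h hS⟩⟩
    linarith

end Pool.Agent.Sq4
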