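import Pool.Agent.Sq4.Defs

/-!
# SQ-LOW1: one variable inequalities
-/

set_option autoImplicit false

noncomputable section

namespace Pool.Agent.Sq4

open MeasureTheory Pool.Agent.Stk

/-- Monotonicity form of the Picone argument. -/
theorem picone_aux {g q : ℝ → ℝ} {l r : ℝ} (hlr : l < r) (hq : Continuous q)
    (hg : ContinuousOn g (Set.Icc l r)) {g' : ℝ → ℝ}
    (hd : ∀ x ∈ Set.Ioo l r, HasDerivAt g (g' x) x) (hle : ∀ x ∈ Set.Ioo l r, g' x ≤ q x) :
    g r - g l ≤ ∫ x in l..r, q x := by
  have hF : ∀ x : ℝ, HasDerivAt (fun y => ∫ t in l..y, q t) (q x) x := fun x =>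
    intervalIntegral.integral_hasDerivAt_right (hq.intervalIntegrable _ _)
      (hq.stronglyMeasurableAtFilter _ _) hq.continuousAt
  have hmono : MonotoneOn (fun y => (∫ t in l..y, q t) - g y) (Set.Icc l r) := by
    apply monotoneOn_of_deriv_nonneg (convex_Icc l r)
    · exact (Continuous.continuousOn (continuous_iff_continuousAt.2 fun x =>
        (hF x).continuousAt)).sub hg
    · intro x hx
      rw [interior_Icc] at hx
      exact ((hF x).sub (hd x hx)).differentiableAt.differentiableWithinAt
    · intro x hx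
      rw [interior_Icc] at hx
      have h := ((hF x).sub (hd x hx)).deriv
      have h2 : deriv (fun y => (∫ t in l..y, q t) - g y) x = q x - g' x := h
      rw [h2]
      linarith [hle x hx]
  have h := hmono (Set.left_mem_Icc.2 hlr.le) (Set.right_mem_Icc.2 hlr.le) hlr.le
  simp only [intervalIntegral.integral_same] at h
  linarith

/-- SQ-LOW1.1 -/
theorem low_cot {a : ℝ} (ha : 0 < a) (ha2 : a < Real.pi / 2) {v : ℝ → ℝ} (hv : ContDiff ℝ 1 v)
    (h0 : v 0 = 0) : a * (Real.cos a / Real.sin a) * v 1 ^ 2 + a ^ 2 * ∫ x in (0 : ℝ)..1, v x ^ 2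
      ≤ ∫ x in (0 : ℝ)..1, deriv v x ^ 2 := by
  have hvc : Continuous v := hv.continuous
  have hdc : Continuous (deriv v) := hv.continuous_deriv le_rfl
  have hvd : ∀ x, HasDerivAt v (deriv v x) x := fun x =>
    ((hv.differentiable (by norm_num)) x).hasDerivAt
  have hsin : ∀ x : ℝ, 0 < x → x ≤ 1 → 0 < Real.sin (a * x) := by
    intro x hx hx1
    apply Real.sin_pos_of_pos_of_lt_pi (by positivity)
    have : a * x ≤ a := by nlinarith
    linarith [Real.pi_pos]
  have hda : ∀ x : ℝ, HasDerivAt (fun y : ℝ => a * y) a x := fun x => by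
    simpa using (hasDerivAt_id x).const_mul a
  have hds : ∀ x : ℝ, HasDerivAt (fun y : ℝ => Real.sin (a * y)) (Real.cos (a * x) * a) x :=
    fun x => (Real.hasDerivAt_sin (a * x)).comp x (hda x)
  have hdco : ∀ x : ℝ, HasDerivAt (fun y : ℝ => Real.cos (a * y)) (-Real.sin (a * x) * a) x :=
    fun x => (Real.hasDerivAt_cos (a * x)).comp x (hda x)
  set g : ℝ → ℝ := fun x => a * (Real.cos (a * x) / Real.sin (a * x)) * v x ^ 2 with hg
  set q : ℝ → ℝ := fun x => deriv v x ^ 2 - a ^ 2 * v x ^ 2 with hq
  have hqc : Continuous q := by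
    rw [hq]; fun_prop
  have hgd : ∀ x : ℝ, 0 < x → x ≤ 1 → HasDerivAt g
      (a * ((-Real.sin (a * x) * a * Real.sin (a * x) - Real.cos (a * x) * (Real.cos (a * x) * a))
        / Real.sin (a * x) ^ 2) * v x ^ 2
        + a * (Real.cos (a * x) / Real.sin (a * x)) * (2 * v x * deriv v x)) x := by
    intro x hx hx1
    have h1 := ((hdco x).div (hds x) (hsin x hx hx1).ne').const_mul a
    have h2 := (hvd x).pow 2
    have h3 := h1.mul h2
    refine h3.congr_deriv ?_
    simp
  have hg0 : ContinuousAt g 0 := by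
    rw [continuousAt_iff_punctured_nhds]
    have e1 : Filter.Tendsto (fun x => v x / x) (nhdsWithin 0 {0}ᶜ) (nhds (deriv v 0)) := by
      have h := (hvd 0).tendsto_slope
      refine h.congr' ?_
      filter_upwards with x
      simp [slope_def_field, h0]
    have e2 : Filter.Tendsto (fun x => Real.sin (a * x) / x) (nhdsWithin 0 {0}ᶜ) (nhds a) := by
      have h := (hds 0).tendsto_slope
      have h' : Real.cos (a * 0) * a = a := by simp
      rw [h'] at h
      refine h.congr' ?_
      filter_upwards with x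
      simp [slope_def_field]
    have e3 : Filter.Tendsto (fun x => a * Real.cos (a * x) * v x) (nhdsWithin 0 {0}ᶜ)
        (nhds 0) := by
      have hc : Continuous (fun x => a * Real.cos (a * x) * v x) := by fun_prop
      have h := (hc.tendsto 0).mono_left (nhdsWithin_le_nhds (s := {0}ᶜ))
      simpa [h0] using h
    have e4 := e3.mul (e1.div e2 ha.ne')
    have hz : g 0 = 0 := by simp [hg, h0]
    rw [hz]
    rw [zero_mul] at e4
    refine e4.congr' ?_
    filter_upwards [self_mem_nhdsWithin] with x hx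
    have hx0 : x ≠ 0 := hx
    simp only [hg, Pi.div_apply]
    rw [div_div_div_cancel_right₀ hx0]
    ring
  have hgc : ContinuousOn g (Set.Icc 0 1) := by
    intro x hx
    rcases eq_or_lt_of_le hx.1 with h | h
    · rw [← h]; exact hg0.continuousWithinAt
    · exact (hgd x h hx.2).continuousAt.continuousWithinAt
  have key := picone_aux (g := g) (q := q) (l := 0) (r := 1) zero_lt_one hqc hgc
    (fun x hx => hgd x hx.1 hx.2.le) (by
      intro x hx
      have hs := (hsin x hx.1 hx.2.le).ne'
      have hcs := Real.sin_sq_add_cos_sq (a * x)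
      simp only [hq]
      set s := Real.sin (a * x)
      set c := Real.cos (a * x)
      have e : deriv v x ^ 2 - a ^ 2 * v x ^ 2
          - (a * ((-s * a * s - c * (c * a)) / s ^ 2) * v x ^ 2
            + a * (c / s) * (2 * v x * deriv v x)) = (deriv v x - a * (c / s) * v x) ^ 2 := by
        field_simp
        ring
      nlinarith [sq_nonneg (deriv v x - a * (c / s) * v x)])
  have hz : g 0 = 0 := by simp [hg, h0]
  have h1 : g 1 = a * (Real.cos a / Real.sin a) * v 1 ^ 2 := by simp [hg]
  rw [hz, h1, sub_zero] at key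
  have hint : ∫ x in (0 : ℝ)..1, q x
      = (∫ x in (0 : ℝ)..1, deriv v x ^ 2) - a ^ 2 * ∫ x in (0 : ℝ)..1, v x ^ 2 := by
    simp only [hq]
    rw [intervalIntegral.integral_sub, intervalIntegral.integral_const_mul]
    · exact (hdc.pow 2).intervalIntegrable _ _
    · exact ((hvc.pow 2).const_mul _).intervalIntegrable _ _
  rw [hint] at key
  linarith

/-- SQ-LOW1.2 -/
theorem low_tanh {a : ℝ} {v : ℝ → ℝ} (hv : ContDiff ℝ 1 v) :
    a * Real.tanh a * (v 1 ^ 2 + v (-1) ^ 2)
      ≤ (∫ x in (-1 : ℝ)..1, deriv v x ^ 2) + a ^ 2 * ∫ x in (-1 : ℝ)..1, v x ^ 2 := by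
  have hvc : Continuous v := hv.continuous
  have hdc : Continuous (deriv v) := hv.continuous_deriv le_rfl
  have hvd : ∀ x, HasDerivAt v (deriv v x) x := fun x =>
    ((hv.differentiable (by norm_num)) x).hasDerivAt
  have hda : ∀ x : ℝ, HasDerivAt (fun y : ℝ => a * y) a x := fun x => by
    simpa using (hasDerivAt_id x).const_mul a
  have hds : ∀ x : ℝ, HasDerivAt (fun y : ℝ => Real.sinh (a * y)) (Real.cosh (a * x) * a) x :=
    fun x => (Real.hasDerivAt_sinh (a * x)).comp x (hda x)
  have hdco : ∀ x : ℝ, HasDerivAt (fun y : ℝ => Real.cosh (a * y)) (Real.sinh (a * x) * a) x :=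
    fun x => (Real.hasDerivAt_cosh (a * x)).comp x (hda x)
  have hpos : ∀ x : ℝ, 0 < Real.cosh (a * x) := fun x => Real.cosh_pos _
  set g : ℝ → ℝ := fun x => a * (Real.sinh (a * x) / Real.cosh (a * x)) * v x ^ 2 with hg
  set q : ℝ → ℝ := fun x => deriv v x ^ 2 + a ^ 2 * v x ^ 2 with hq
  have hqc : Continuous q := by
    rw [hq]; fun_prop
  have hgd : ∀ x : ℝ, HasDerivAt g
      (a * ((Real.cosh (a * x) * a * Real.cosh (a * x) - Real.sinh (a * x)
        * (Real.sinh (a * x) * a)) / Real.cosh (a * x) ^ 2) * v x ^ 2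
        + a * (Real.sinh (a * x) / Real.cosh (a * x)) * (2 * v x * deriv v x)) x := by
    intro x
    have h1 := ((hds x).div (hdco x) (hpos x).ne').const_mul a
    have h2 := (hvd x).pow 2
    have h3 := h1.mul h2
    refine h3.congr_deriv ?_
    simp
  have key := picone_aux (g := g) (q := q) (l := -1) (r := 1) (by norm_num) hqc
    (fun x _ => (hgd x).continuousAt.continuousWithinAt)
    (fun x _ => hgd x) (by
      intro x _
      have hs := (hpos x).ne'
      simp only [hq]
      set s := Real.sinh (a * x)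
      set c := Real.cosh (a * x)
      have e : deriv v x ^ 2 + a ^ 2 * v x ^ 2
          - (a * ((c * a * c - s * (s * a)) / c ^ 2) * v x ^ 2
            + a * (s / c) * (2 * v x * deriv v x)) = (deriv v x - a * (s / c) * v x) ^ 2 := by
        field_simp
        ring
      nlinarith [sq_nonneg (deriv v x - a * (s / c) * v x)])
  have h1 : g 1 = a * Real.tanh a * v 1 ^ 2 := by
    simp [hg, Real.tanh_eq_sinh_div_cosh]
  have h2 : g (-1) = -(a * Real.tanh a * v (-1) ^ 2) := by
    simp [hg, Real.tanh_eq_sinh_div_cosh]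
    ring
  have hint : ∫ x in (-1 : ℝ)..1, q x
      = (∫ x in (-1 : ℝ)..1, deriv v x ^ 2) + a ^ 2 * ∫ x in (-1 : ℝ)..1, v x ^ 2 := by
    simp only [hq]
    rw [intervalIntegral.integral_add, intervalIntegral.integral_const_mul]
    · exact (hdc.pow 2).intervalIntegrable _ _
    · exact ((hvc.pow 2).const_mul _).intervalIntegrable _ _
  rw [h1, h2, hint] at key
  linarith

end Pool.Agent.Sq4
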