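import Pool.Agent.Sq4.Defs

/-!
# SQ-LOWEVEN: functions which are even in both variables
-/

set_option autoImplicit false

noncomputable section

namespace Pool.Agent.Sq4

open MeasureTheory Pool.Agent.Stk

private theorem le_contS {g : ℝ × ℝ → ℝ} (hg : ContDiff ℝ 1 g) : Continuous (dS g) :=
  (hg.continuous_fderiv one_ne_zero).clm_apply continuous_const

private theorem le_contT {g : ℝ × ℝ → ℝ} (hg : ContDiff ℝ 1 g) : Continuous (dT g) :=
  (hg.continuous_fderiv one_ne_zero).clm_apply continuous_const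

private theorem le_derS {g : ℝ × ℝ → ℝ} (hg : ContDiff ℝ 1 g) (x y : ℝ) :
    HasDerivAt (fun s => g (s, y)) (dS g (x, y)) x := by
  have h1 : HasFDerivAt g (fderiv ℝ g (x, y)) (x, y) :=
    (hg.differentiable one_ne_zero (x, y)).hasFDerivAt
  have h2 : HasDerivAt (fun s : ℝ => (s, y)) ((1 : ℝ), (0 : ℝ)) x :=
    (hasDerivAt_id x).prodMk (hasDerivAt_const x y)
  exact h1.comp_hasDerivAt x h2

private theorem le_derT {g : ℝ × ℝ → ℝ} (hg : ContDiff ℝ 1 g) (x y : ℝ) :
    HasDerivAt (fun s => g (x, s)) (dT g (x, y)) y := by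
  have h1 : HasFDerivAt g (fderiv ℝ g (x, y)) (x, y) :=
    (hg.differentiable one_ne_zero (x, y)).hasFDerivAt
  have h2 : HasDerivAt (fun s : ℝ => (x, s)) ((0 : ℝ), (1 : ℝ)) y :=
    (hasDerivAt_const y x).prodMk (hasDerivAt_id y)
  exact h1.comp_hasDerivAt y h2

private theorem le_S1 {g : ℝ × ℝ → ℝ} (hg : ContDiff ℝ 1 g)
    (h1 : ∀ x y, g (-x, y) = g (x, y)) (x y : ℝ) : dS g (-x, y) = - dS g (x, y) := by
  have h2 := (le_derS hg (-x) y).comp x (hasDerivAt_neg x)
  have h3 : (fun s => g (s, y)) ∘ Neg.neg = fun s => g (s, y) := by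
    funext s
    exact h1 s y
  rw [h3] at h2
  have h4 := h2.unique (le_derS hg x y)
  linarith

private theorem le_S2 {g : ℝ × ℝ → ℝ} (hg : ContDiff ℝ 1 g)
    (h2 : ∀ x y, g (x, -y) = g (x, y)) (x y : ℝ) : dS g (x, -y) = dS g (x, y) := by
  have h3 := le_derS hg x (-y)
  have h4 : (fun s => g (s, -y)) = fun s => g (s, y) := by
    funext s
    exact h2 s y
  rw [h4] at h3
  exact h3.unique (le_derS hg x y)

private theorem le_T1 {g : ℝ × ℝ → ℝ} (hg : ContDiff ℝ 1 g)
    (h1 : ∀ x y, g (-x, y) = g (x, y)) (x y : ℝ) : dT g (-x, y) = dT g (x, y) := by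
  have h3 := le_derT hg (-x) y
  have h4 : (fun s => g (-x, s)) = fun s => g (x, s) := by
    funext s
    exact h1 x s
  rw [h4] at h3
  exact h3.unique (le_derT hg x y)

private theorem le_T2 {g : ℝ × ℝ → ℝ} (hg : ContDiff ℝ 1 g)
    (h2 : ∀ x y, g (x, -y) = g (x, y)) (x y : ℝ) : dT g (x, -y) = - dT g (x, y) := by
  have h3 := (le_derT hg x (-y)).comp y (hasDerivAt_neg y)
  have h4 : (fun s => g (x, s)) ∘ Neg.neg = fun s => g (x, s) := by
    funext s
    exact h2 x s
  rw [h4] at h3
  have h5 := h3.unique (le_derT hg x y)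
  linarith

private theorem le_even {φ : ℝ → ℝ} (hc : Continuous φ) (h : ∀ x, φ (-x) = φ x) :
    ∫ x in (-1 : ℝ)..1, φ x = 2 * ∫ x in (0 : ℝ)..1, φ x := by
  rw [← intervalIntegral.integral_add_adjacent_intervals (b := 0)
    (hc.intervalIntegrable _ _) (hc.intervalIntegrable _ _)]
  have h1 : ∫ x in (-1 : ℝ)..0, φ x = ∫ x in (0 : ℝ)..1, φ x := by
    have h2 := intervalIntegral.integral_comp_neg (a := -1) (b := 0) φ
    simp only [h, neg_zero, neg_neg] at h2
    exact h2
  rw [h1]
  ring

private theorem le_cs {φ : ℝ → ℝ} (hc : Continuous φ) {x : ℝ} (h0 : 0 ≤ x) (hx : x ≤ 1) :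
    (∫ s in x..1, φ s) ^ 2 ≤ (1 - x) * ∫ s in (0 : ℝ)..1, φ s ^ 2 := by
  have hc2 : Continuous fun s => φ s ^ 2 := hc.pow 2
  have hsub : ∫ s in x..1, φ s ^ 2 ≤ ∫ s in (0 : ℝ)..1, φ s ^ 2 := by
    rw [← intervalIntegral.integral_add_adjacent_intervals (a := 0) (b := x) (c := 1)
      (hc2.intervalIntegrable _ _) (hc2.intervalIntegrable _ _)]
    have : 0 ≤ ∫ s in (0 : ℝ)..x, φ s ^ 2 :=
      intervalIntegral.integral_nonneg h0 fun s _ => sq_nonneg _
    linarith
  have hmain : (∫ s in x..1, φ s) ^ 2 ≤ (1 - x) * ∫ s in x..1, φ s ^ 2 := by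
    rcases hx.eq_or_lt with rfl | hlt
    · simp
    · set I := ∫ s in x..1, φ s with hI
      set L := 1 - x with hL
      have hLp : 0 < L := by rw [hL]; linarith
      have h1 : 0 ≤ ∫ s in x..1, (φ s - I / L) ^ 2 :=
        intervalIntegral.integral_nonneg hx fun s _ => sq_nonneg _
      have h2 : ∫ s in x..1, (φ s - I / L) ^ 2 =
          (∫ s in x..1, φ s ^ 2) - 2 * (I / L) * I + (I / L) ^ 2 * L := by
        have e1 : ∀ s, (φ s - I / L) ^ 2 = φ s ^ 2 - 2 * (I / L) * φ s + (I / L) ^ 2 := by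
          intro s
          ring
        simp only [e1]
        rw [intervalIntegral.integral_add, intervalIntegral.integral_sub,
          intervalIntegral.integral_const_mul, intervalIntegral.integral_const, smul_eq_mul,
          ← hI, ← hL]
        · ring
        · exact hc2.intervalIntegrable _ _
        · exact (continuous_const.mul hc).intervalIntegrable _ _
        · exact (hc2.sub (continuous_const.mul hc)).intervalIntegrable _ _
        · exact continuous_const.intervalIntegrable _ _
      rw [h2] at h1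
      have h3 : (∫ s in x..1, φ s ^ 2) - 2 * (I / L) * I + (I / L) ^ 2 * L =
          (∫ s in x..1, φ s ^ 2) - I ^ 2 / L := by
        field_simp
        ring
      rw [h3] at h1
      have h4 : I ^ 2 / L ≤ ∫ s in x..1, φ s ^ 2 := by linarith
      rw [div_le_iff₀ hLp] at h4
      linarith
  refine hmain.trans ?_
  exact mul_le_mul_of_nonneg_left hsub (by linarith)

private theorem le_sq_int {F : ℝ × ℝ → ℝ} (hF : Continuous F)
    (h1 : ∀ x y, F (-x, y) = F (x, y)) (h2 : ∀ x y, F (x, -y) = F (x, y)) :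
    ∫ z in Sq, F z = 4 * ∫ x in (0 : ℝ)..1, ∫ y in (0 : ℝ)..1, F (x, y) := by
  have hint : IntegrableOn F (Set.Icc (-1 : ℝ) 1 ×ˢ Set.Icc (-1 : ℝ) 1)
      ((volume : Measure ℝ).prod volume) := by
    exact hF.continuousOn.integrableOn_compact (isCompact_Icc.prod isCompact_Icc)
  have h3 : ∫ z in Sq, F z =
      ∫ x in Set.Icc (-1 : ℝ) 1, ∫ y in Set.Icc (-1 : ℝ) 1, F (x, y) := by
    unfold Sq
    exact setIntegral_prod F hint
  have hy : ∀ x, ∫ y in Set.Icc (-1 : ℝ) 1, F (x, y) = 2 * ∫ y in (0 : ℝ)..1, F (x, y) := by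
    intro x
    rw [integral_Icc_eq_integral_Ioc, ← intervalIntegral.integral_of_le (by norm_num)]
    exact le_even (φ := fun y => F (x, y)) (by fun_prop) (h2 x)
  rw [h3]
  simp only [hy]
  rw [integral_Icc_eq_integral_Ioc, ← intervalIntegral.integral_of_le (by norm_num),
    intervalIntegral.integral_const_mul]
  have hc : Continuous fun x : ℝ => ∫ y in (0 : ℝ)..1, F (x, y) := by
    apply intervalIntegral.continuous_parametric_intervalIntegral_of_continuous'
    exact hF
  rw [le_even hc fun x => by simp only [h1]]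
  ring

private theorem le_swap {f : ℝ → ℝ → ℝ} (hf : Continuous (Function.uncurry f)) :
    ∫ x in (0 : ℝ)..1, ∫ y in (0 : ℝ)..1, f x y = ∫ y in (0 : ℝ)..1, ∫ x in (0 : ℝ)..1, f x y := by
  simp only [intervalIntegral.integral_of_le (zero_le_one' ℝ)]
  apply integral_integral_swap
  rw [Measure.prod_restrict]
  exact (hf.continuousOn.integrableOn_compact (isCompact_Icc.prod isCompact_Icc)).mono_set
    (Set.prod_mono Set.Ioc_subset_Icc_self Set.Ioc_subset_Icc_self)

private theorem le_half : ∫ x in (0 : ℝ)..1, (1 - x) = 1 / 2 := by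
  rw [intervalIntegral.integral_sub (continuous_const.intervalIntegrable _ _)
    ((continuous_id' : Continuous fun x : ℝ => x).intervalIntegrable _ _),
    intervalIntegral.integral_const, integral_id]
  norm_num

/-- SQ-LOWEVEN -/
theorem low_even {g : ℝ × ℝ → ℝ} (hg : ContDiff ℝ 1 g) (h1 : ∀ x y, g (-x, y) = g (x, y))
    (h2 : ∀ x y, g (x, -y) = g (x, y)) (h0 : bdS g = 0) : bdS (fun z => g z ^ 2) ≤ dirS g := by
  have hgc : Continuous g := hg.continuous
  have hS := le_contS hg
  have hT := le_contT hg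
  have hf : Continuous fun y : ℝ => g (1, y) := by fun_prop
  have hh : Continuous fun x : ℝ => g (x, 1) := by fun_prop
  -- boundary integrals
  have hb : ∀ (G : ℝ → ℝ), Continuous G → bdS (fun z => G (g z)) =
      4 * ((∫ x in (0 : ℝ)..1, G (g (x, 1))) + ∫ y in (0 : ℝ)..1, G (g (1, y))) := by
    intro G hG
    unfold bdS
    have e1 : ∀ x : ℝ, G (g (x, 1)) + G (g (x, -1)) + G (g (1, x)) + G (g (-1, x)) =
        2 * (G (g (x, 1)) + G (g (1, x))) := by
      intro x
      rw [h2 x 1, h1 1 x]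
      ring
    simp only [e1]
    have hc1 : Continuous fun x : ℝ => G (g (x, 1)) := hG.comp hh
    have hc2 : Continuous fun x : ℝ => G (g (1, x)) := hG.comp hf
    rw [intervalIntegral.integral_const_mul,
      le_even (φ := fun x => G (g (x, 1)) + G (g (1, x))) (hc1.add hc2)
        (fun x => by rw [h1 x 1, h2 1 x]),
      intervalIntegral.integral_add (hc1.intervalIntegrable _ _) (hc2.intervalIntegrable _ _)]
    ring
  have hb1 : (∫ x in (0 : ℝ)..1, g (x, 1)) + ∫ y in (0 : ℝ)..1, g (1, y) = 0 := by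
    have := hb (fun t => t) continuous_id
    rw [h0] at this
    linarith
  have hb2 : bdS (fun z => g z ^ 2) =
      4 * ((∫ x in (0 : ℝ)..1, g (x, 1) ^ 2) + ∫ y in (0 : ℝ)..1, g (1, y) ^ 2) :=
    hb (fun t => t ^ 2) (continuous_pow 2)
  -- the energy
  have hd : dirS g = 4 * ((∫ y in (0 : ℝ)..1, ∫ x in (0 : ℝ)..1, dS g (x, y) ^ 2) +
      ∫ x in (0 : ℝ)..1, ∫ y in (0 : ℝ)..1, dT g (x, y) ^ 2) := by
    unfold dirS
    have hcS : Continuous fun z => dS g z ^ 2 := hS.pow 2
    have hcT : Continuous fun z => dT g z ^ 2 := hT.pow 2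
    have hiS : IntegrableOn (fun z => dS g z ^ 2) Sq :=
      hcS.continuousOn.integrableOn_compact (isCompact_Icc.prod isCompact_Icc)
    have hiT : IntegrableOn (fun z => dT g z ^ 2) Sq :=
      hcT.continuousOn.integrableOn_compact (isCompact_Icc.prod isCompact_Icc)
    rw [integral_add hiS hiT,
      le_sq_int hcS (fun x y => by rw [le_S1 hg h1]; ring) (fun x y => by rw [le_S2 hg h2]),
      le_sq_int hcT (fun x y => by rw [le_T1 hg h1]) (fun x y => by rw [le_T2 hg h2]; ring),
      ← mul_add]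
    congr 2
    exact le_swap (f := fun x y => dS g (x, y) ^ 2) hcS
  set Gy : ℝ → ℝ := fun y => ∫ s in (0 : ℝ)..1, dS g (s, y) ^ 2 with hGy
  set Hx : ℝ → ℝ := fun x => ∫ t in (0 : ℝ)..1, dT g (x, t) ^ 2 with hHx
  have hGc : Continuous Gy := by
    apply intervalIntegral.continuous_parametric_intervalIntegral_of_continuous'
    exact (hS.comp (continuous_snd.prodMk continuous_fst)).pow 2
  have hHc : Continuous Hx := by
    apply intervalIntegral.continuous_parametric_intervalIntegral_of_continuous'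
    exact hT.pow 2
  -- pointwise bound
  have hpt : ∀ x ∈ Set.Icc (0 : ℝ) 1, ∀ y ∈ Set.Icc (0 : ℝ) 1,
      (g (1, y) - g (x, 1)) ^ 2 ≤ 2 * ((1 - x) * Gy y) + 2 * ((1 - y) * Hx x) := by
    intro x hx y hy
    have e1 : ∫ s in x..1, dS g (s, y) = g (1, y) - g (x, y) := by
      exact intervalIntegral.integral_eq_sub_of_hasDerivAt (f := fun s => g (s, y))
        (fun s _ => le_derS hg s y)
        ((hS.comp (by fun_prop : Continuous fun s : ℝ => (s, y))).intervalIntegrable _ _)
    have e2 : ∫ t in y..1, dT g (x, t) = g (x, 1) - g (x, y) := by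
      exact intervalIntegral.integral_eq_sub_of_hasDerivAt (f := fun t => g (x, t))
        (fun t _ => le_derT hg x t)
        ((hT.comp (by fun_prop : Continuous fun t : ℝ => (x, t))).intervalIntegrable _ _)
    have c1 := le_cs (φ := fun s => dS g (s, y))
      (hS.comp (by fun_prop : Continuous fun s : ℝ => (s, y))) hx.1 hx.2
    have c2 := le_cs (φ := fun t => dT g (x, t))
      (hT.comp (by fun_prop : Continuous fun t : ℝ => (x, t))) hy.1 hy.2
    rw [e1] at c1
    rw [e2] at c2
    have e3 : (g (1, y) - g (x, 1)) ^ 2 ≤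
        2 * (g (1, y) - g (x, y)) ^ 2 + 2 * (g (x, 1) - g (x, y)) ^ 2 := by
      nlinarith [sq_nonneg ((g (1, y) - g (x, y)) + (g (x, 1) - g (x, y)))]
    have c1' : (g (1, y) - g (x, y)) ^ 2 ≤ (1 - x) * Gy y := c1
    have c2' : (g (x, 1) - g (x, y)) ^ 2 ≤ (1 - y) * Hx x := c2
    linarith
  -- integrate in x
  set a := ∫ x in (0 : ℝ)..1, g (x, 1) with ha
  set b := ∫ y in (0 : ℝ)..1, g (1, y) with hbb
  set a2 := ∫ x in (0 : ℝ)..1, g (x, 1) ^ 2 with ha2
  set b2 := ∫ y in (0 : ℝ)..1, g (1, y) ^ 2 with hb2'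
  have hI1 : ∀ y ∈ Set.Icc (0 : ℝ) 1,
      g (1, y) ^ 2 - 2 * g (1, y) * a + a2 ≤ Gy y + 2 * ((1 - y) * ∫ x in (0 : ℝ)..1, Hx x) := by
    intro y hy
    have l1 : ∫ x in (0 : ℝ)..1, (g (1, y) - g (x, 1)) ^ 2 =
        g (1, y) ^ 2 - 2 * g (1, y) * a + a2 := by
      have e1 : ∀ x : ℝ, (g (1, y) - g (x, 1)) ^ 2 =
          g (1, y) ^ 2 - 2 * g (1, y) * g (x, 1) + g (x, 1) ^ 2 := by
        intro x
        ring
      simp only [e1]
      rw [intervalIntegral.integral_add, intervalIntegral.integral_sub,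
        intervalIntegral.integral_const_mul, intervalIntegral.integral_const, smul_eq_mul]
      · ring
      · exact continuous_const.intervalIntegrable _ _
      · exact (continuous_const.mul hh).intervalIntegrable _ _
      · exact (continuous_const.sub (continuous_const.mul hh)).intervalIntegrable _ _
      · exact (hh.pow 2).intervalIntegrable _ _
    have l2 : ∫ x in (0 : ℝ)..1, (2 * ((1 - x) * Gy y) + 2 * ((1 - y) * Hx x)) =
        Gy y + 2 * ((1 - y) * ∫ x in (0 : ℝ)..1, Hx x) := by
      have hlin : ∫ x in (0 : ℝ)..1, 2 * ((1 - x) * Gy y) = Gy y := by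
        rw [intervalIntegral.integral_const_mul, intervalIntegral.integral_mul_const]
        rw [le_half]
        ring
      rw [intervalIntegral.integral_add, hlin, intervalIntegral.integral_const_mul,
        intervalIntegral.integral_const_mul]
      · exact (by fun_prop : Continuous fun x : ℝ =>
          2 * ((1 - x) * Gy y)).intervalIntegrable _ _
      · exact (continuous_const.mul (continuous_const.mul hHc)).intervalIntegrable _ _
    rw [← l1, ← l2]
    apply intervalIntegral.integral_mono_on zero_le_one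
    · exact ((continuous_const.sub hh).pow 2).intervalIntegrable _ _
    · exact ((by fun_prop : Continuous fun x : ℝ => 2 * ((1 - x) * Gy y)).add
        (continuous_const.mul (continuous_const.mul hHc))).intervalIntegrable _ _
    · intro x hx
      exact hpt x hx y hy
  have hI2 : b2 - 2 * b * a + a2 ≤ (∫ y in (0 : ℝ)..1, Gy y) + ∫ x in (0 : ℝ)..1, Hx x := by
    have l1 : ∫ y in (0 : ℝ)..1, (g (1, y) ^ 2 - 2 * g (1, y) * a + a2) = b2 - 2 * b * a + a2 := by
      have e1 : ∀ y : ℝ, g (1, y) ^ 2 - 2 * g (1, y) * a + a2 =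
          g (1, y) ^ 2 - (2 * a) * g (1, y) + a2 := by
        intro y
        ring
      simp only [e1]
      rw [intervalIntegral.integral_add, intervalIntegral.integral_sub,
        intervalIntegral.integral_const_mul, intervalIntegral.integral_const, smul_eq_mul]
      · ring
      · exact (hf.pow 2).intervalIntegrable _ _
      · exact (continuous_const.mul hf).intervalIntegrable _ _
      · exact ((hf.pow 2).sub (continuous_const.mul hf)).intervalIntegrable _ _
      · exact continuous_const.intervalIntegrable _ _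
    have l2 : ∫ y in (0 : ℝ)..1, (Gy y + 2 * ((1 - y) * ∫ x in (0 : ℝ)..1, Hx x)) =
        (∫ y in (0 : ℝ)..1, Gy y) + ∫ x in (0 : ℝ)..1, Hx x := by
      have hlin : ∫ y in (0 : ℝ)..1, 2 * ((1 - y) * ∫ x in (0 : ℝ)..1, Hx x) =
          ∫ x in (0 : ℝ)..1, Hx x := by
        rw [intervalIntegral.integral_const_mul, intervalIntegral.integral_mul_const]
        rw [le_half]
        ring
      rw [intervalIntegral.integral_add, hlin]
      · exact hGc.intervalIntegrable _ _
      · exact (by fun_prop : Continuous fun y : ℝ =>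
          2 * ((1 - y) * ∫ x in (0 : ℝ)..1, Hx x)).intervalIntegrable _ _
    rw [← l1, ← l2]
    apply intervalIntegral.integral_mono_on zero_le_one
    · exact (((hf.pow 2).sub ((continuous_const.mul hf).mul continuous_const)).add
        continuous_const).intervalIntegrable _ _
    · exact (hGc.add (by fun_prop : Continuous fun y : ℝ =>
          2 * ((1 - y) * ∫ x in (0 : ℝ)..1, Hx x))).intervalIntegrable _ _
    · intro y hy
      exact hI1 y hy
  rw [hb2, hd]
  have hab : a = -b := by linarith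
  have hneg : 0 ≤ - 2 * b * a := by
    rw [hab]
    nlinarith [sq_nonneg b]
  linarith

end Pool.Agent.Sq4
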