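import Pool.Agent.Sq4.Low1
import Pool.Agent.Sq4.Alpha

/-!
# SQ-LOWODD: functions which are odd in one variable
-/

set_option autoImplicit false

noncomputable section

namespace Pool.Agent.Sq4

open MeasureTheory Pool.Agent.Stk

namespace LowOdd

theorem integrableOn_Sq {F : ℝ × ℝ → ℝ} (hF : Continuous F) : IntegrableOn F Sq volume :=
  hF.continuousOn.integrableOn_compact (isCompact_Icc.prod isCompact_Icc)

theorem fub1 {F : ℝ × ℝ → ℝ} (hF : Continuous F) :
    ∫ z in Sq, F z = ∫ x in (-1 : ℝ)..1, ∫ y in (-1 : ℝ)..1, F (x, y) := by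
  have h := integrableOn_Sq hF
  unfold Sq at h ⊢
  rw [Measure.volume_eq_prod, setIntegral_prod F (by rwa [← Measure.volume_eq_prod])]
  rw [intervalIntegral.integral_of_le (by norm_num), integral_Icc_eq_integral_Ioc]
  refine setIntegral_congr_fun measurableSet_Ioc fun x _ => ?_
  show ∫ y in Set.Icc (-1 : ℝ) 1, F (x, y) = ∫ y in (-1 : ℝ)..1, F (x, y)
  rw [intervalIntegral.integral_of_le (by norm_num), integral_Icc_eq_integral_Ioc]

theorem fub2 {F : ℝ × ℝ → ℝ} (hF : Continuous F) :
    ∫ z in Sq, F z = ∫ y in (-1 : ℝ)..1, ∫ x in (-1 : ℝ)..1, F (x, y) := by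
  have h2 : ∫ z in Sq, F z = ∫ z in Sq, F z.swap := by
    have hmp : MeasurePreserving (Prod.swap : ℝ × ℝ → ℝ × ℝ) volume volume := by
      rw [Measure.volume_eq_prod]; exact Measure.measurePreserving_swap
    have he : MeasurableEmbedding (Prod.swap : ℝ × ℝ → ℝ × ℝ) :=
      MeasurableEquiv.prodComm.measurableEmbedding
    have h := hmp.setIntegral_preimage_emb he F Sq
    rw [← h]
    have hpre : (Prod.swap : ℝ × ℝ → ℝ × ℝ) ⁻¹' Sq = Sq := by
      unfold Sq
      rw [Set.preimage_swap_prod]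
    rw [hpre]
  rw [h2, fub1 (F := fun z => F z.swap) (hF.comp continuous_swap)]
  rfl

theorem cont_dS {g : ℝ × ℝ → ℝ} (hg : ContDiff ℝ 1 g) : Continuous (dS g) :=
  (hg.continuous_fderiv one_ne_zero).clm_apply continuous_const

theorem cont_dT {g : ℝ × ℝ → ℝ} (hg : ContDiff ℝ 1 g) : Continuous (dT g) :=
  (hg.continuous_fderiv one_ne_zero).clm_apply continuous_const

theorem deriv_row {g : ℝ × ℝ → ℝ} (hg : ContDiff ℝ 1 g) (x y : ℝ) :
    deriv (fun s => g (s, y)) x = dS g (x, y) := by
  have h1 : HasFDerivAt g (fderiv ℝ g (x, y)) (x, y) :=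
    (hg.differentiable one_ne_zero (x, y)).hasFDerivAt
  have h2 : HasDerivAt (fun s : ℝ => (s, y)) ((1 : ℝ), (0 : ℝ)) x :=
    (hasDerivAt_id x).prodMk (hasDerivAt_const x y)
  exact (h1.comp_hasDerivAt x h2).deriv

theorem deriv_col {g : ℝ × ℝ → ℝ} (hg : ContDiff ℝ 1 g) (x y : ℝ) :
    deriv (fun s => g (x, s)) y = dT g (x, y) := by
  have h1 : HasFDerivAt g (fderiv ℝ g (x, y)) (x, y) :=
    (hg.differentiable one_ne_zero (x, y)).hasFDerivAt
  have h2 : HasDerivAt (fun s : ℝ => (x, s)) ((0 : ℝ), (1 : ℝ)) y :=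
    (hasDerivAt_const y x).prodMk (hasDerivAt_id y)
  exact (h1.comp_hasDerivAt y h2).deriv

/-- even functions -/
theorem int_even {f : ℝ → ℝ} (hf : Continuous f) (he : ∀ x, f (-x) = f x) :
    ∫ x in (-1 : ℝ)..1, f x = 2 * ∫ x in (0 : ℝ)..1, f x := by
  have h1 : ∫ x in (-1 : ℝ)..0, f x = ∫ x in (0 : ℝ)..1, f x := by
    have h := intervalIntegral.integral_comp_neg (a := (0 : ℝ)) (b := 1) f
    rw [neg_zero] at h
    rw [← h]
    exact intervalIntegral.integral_congr fun x _ => he x
  rw [← intervalIntegral.integral_add_adjacent_intervals (hf.intervalIntegrable (-1) 0)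
    (hf.intervalIntegrable 0 1), h1]
  ring

theorem al_pos : 0 < al := by
  have := al_gt
  linarith

/-- one odd row -/
theorem row_odd {v : ℝ → ℝ} (hv : ContDiff ℝ 1 v) (ho : ∀ x, v (-x) = - v x) :
    mu / 8 * (v 1 ^ 2 + v (-1) ^ 2) + al ^ 2 * ∫ x in (-1 : ℝ)..1, v x ^ 2
      ≤ ∫ x in (-1 : ℝ)..1, deriv v x ^ 2 := by
  have h0 : v 0 = 0 := by
    have := ho 0
    rw [neg_zero] at this
    linarith
  have hd : ∀ x, deriv v (-x) = deriv v x := by
    intro x
    have h1 : HasDerivAt v (deriv v (-x)) (-x) := (hv.differentiable one_ne_zero (-x)).hasDerivAt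
    have h2 : HasDerivAt (fun s : ℝ => v (-s)) (deriv v (-x) * (-1)) x :=
      h1.comp x (hasDerivAt_neg x)
    have h3 : (fun s : ℝ => v (-s)) = fun s => - v s := funext ho
    rw [h3] at h2
    have h4 := h2.neg
    simp only [neg_neg, mul_neg, mul_one] at h4
    have h5 : (fun s : ℝ => - - v s) = v := by funext s; simp
    have h6 : HasDerivAt v (deriv v (-x)) x := by
      have : HasDerivAt (-fun s => - v s) (deriv v (-x)) x := h4
      have h7 : (-fun s => - v s) = v := by funext s; simp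
      rwa [h7] at this
    exact h6.deriv.symm
  have hc := hv.continuous
  have hdc := hv.continuous_deriv le_rfl
  have e1 : ∫ x in (-1 : ℝ)..1, v x ^ 2 = 2 * ∫ x in (0 : ℝ)..1, v x ^ 2 :=
    int_even (hc.pow 2) fun x => by rw [ho x, neg_sq]
  have e2 : ∫ x in (-1 : ℝ)..1, deriv v x ^ 2 = 2 * ∫ x in (0 : ℝ)..1, deriv v x ^ 2 :=
    int_even (hdc.pow 2) fun x => by rw [hd x]
  have h := low_cot al_pos al_tan.1 hv h0
  rw [al_cot] at h
  rw [e1, e2, ho 1, neg_sq]
  linarith

/-- one column -/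
theorem col {v : ℝ → ℝ} (hv : ContDiff ℝ 1 v) :
    mu / 8 * (v 1 ^ 2 + v (-1) ^ 2) - al ^ 2 * ∫ x in (-1 : ℝ)..1, v x ^ 2
      ≤ ∫ x in (-1 : ℝ)..1, deriv v x ^ 2 := by
  have h := low_tanh (a := al) hv
  have e : al * Real.tanh al = mu / 8 := by unfold mu; ring
  rw [e] at h
  linarith

theorem cont_int1 {F : ℝ × ℝ → ℝ} (hF : Continuous F) :
    Continuous fun x : ℝ => ∫ y in (-1 : ℝ)..1, F (x, y) :=
  intervalIntegral.continuous_parametric_intervalIntegral_of_continuous'
    (f := fun x y => F (x, y)) (by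
      show Continuous fun z : ℝ × ℝ => F (z.1, z.2)
      exact hF) _ _

theorem cont_int2 {F : ℝ × ℝ → ℝ} (hF : Continuous F) :
    Continuous fun y : ℝ => ∫ x in (-1 : ℝ)..1, F (x, y) :=
  intervalIntegral.continuous_parametric_intervalIntegral_of_continuous'
    (f := fun y x => F (x, y)) (by
      show Continuous fun z : ℝ × ℝ => F (z.2, z.1)
      exact hF.comp (continuous_snd.prodMk continuous_fst)) _ _

end LowOdd

open LowOdd

/-- SQ-LOWODD.1 -/
theorem low_odd1 {g : ℝ × ℝ → ℝ} (hg : ContDiff ℝ 1 g) (h : ∀ x y, g (-x, y) = - g (x, y)) :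
    mu / 8 * bdS (fun z => g z ^ 2) ≤ dirS g := by
  have hgc := hg.continuous
  have hS := cont_dS hg
  have hT := cont_dT hg
  have hrow : ∀ y : ℝ, ContDiff ℝ 1 fun s => g (s, y) := fun y =>
    hg.comp (contDiff_id.prodMk contDiff_const)
  have hcol : ∀ x : ℝ, ContDiff ℝ 1 fun s => g (x, s) := fun x =>
    hg.comp (contDiff_const.prodMk contDiff_id)
  -- splitting
  have hsplit : dirS g = (∫ z in Sq, dS g z ^ 2) + ∫ z in Sq, dT g z ^ 2 := by
    unfold dirS
    exact integral_add (integrableOn_Sq (hS.pow 2)) (integrableOn_Sq (hT.pow 2))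
  have h1 : mu / 8 * (∫ y in (-1 : ℝ)..1, (g (1, y) ^ 2 + g (-1, y) ^ 2))
      + al ^ 2 * ∫ z in Sq, g z ^ 2 ≤ ∫ z in Sq, dS g z ^ 2 := by
    rw [fub2 (F := fun z => g z ^ 2) (hgc.pow 2), fub2 (F := fun z => dS g z ^ 2) (hS.pow 2), ← intervalIntegral.integral_const_mul,
      ← intervalIntegral.integral_const_mul, ← intervalIntegral.integral_add]
    · refine intervalIntegral.integral_mono_on (by norm_num) ?_ ?_ fun y _ => ?_
      · exact Continuous.intervalIntegrable (by
          have := cont_int2 (F := fun z => g z ^ 2) (hgc.pow 2)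
          fun_prop) _ _
      · exact Continuous.intervalIntegrable (cont_int2 (F := fun z => dS g z ^ 2) (hS.pow 2)) _ _
      · have := row_odd (hrow y) fun x => h x y
        simp only [deriv_row hg] at this
        exact this
    · exact Continuous.intervalIntegrable (by fun_prop) _ _
    · exact Continuous.intervalIntegrable ((cont_int2 (F := fun z => g z ^ 2) (hgc.pow 2)).const_mul _) _ _
  have h2 : mu / 8 * (∫ x in (-1 : ℝ)..1, (g (x, 1) ^ 2 + g (x, -1) ^ 2))
      - al ^ 2 * ∫ z in Sq, g z ^ 2 ≤ ∫ z in Sq, dT g z ^ 2 := by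
    rw [fub1 (F := fun z => g z ^ 2) (hgc.pow 2), fub1 (F := fun z => dT g z ^ 2) (hT.pow 2), ← intervalIntegral.integral_const_mul,
      ← intervalIntegral.integral_const_mul, ← intervalIntegral.integral_sub]
    · refine intervalIntegral.integral_mono_on (by norm_num) ?_ ?_ fun x _ => ?_
      · exact Continuous.intervalIntegrable (by
          have := cont_int1 (F := fun z => g z ^ 2) (hgc.pow 2)
          fun_prop) _ _
      · exact Continuous.intervalIntegrable (cont_int1 (F := fun z => dT g z ^ 2) (hT.pow 2)) _ _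
      · have := col (hcol x)
        simp only [deriv_col hg] at this
        exact this
    · exact Continuous.intervalIntegrable (by fun_prop) _ _
    · exact Continuous.intervalIntegrable ((cont_int1 (F := fun z => g z ^ 2) (hgc.pow 2)).const_mul _) _ _
  have h3 : bdS (fun z => g z ^ 2) = (∫ x in (-1 : ℝ)..1, (g (x, 1) ^ 2 + g (x, -1) ^ 2))
      + ∫ y in (-1 : ℝ)..1, (g (1, y) ^ 2 + g (-1, y) ^ 2) := by
    unfold bdS
    rw [← intervalIntegral.integral_add]
    · exact intervalIntegral.integral_congr fun x _ => by ring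
    · exact Continuous.intervalIntegrable (by fun_prop) _ _
    · exact Continuous.intervalIntegrable (by fun_prop) _ _
  rw [h3, hsplit]
  nlinarith [h1, h2]

/-- SQ-LOWODD.2 -/
theorem low_odd2 {g : ℝ × ℝ → ℝ} (hg : ContDiff ℝ 1 g) (h : ∀ x y, g (x, -y) = - g (x, y)) :
    mu / 8 * bdS (fun z => g z ^ 2) ≤ dirS g := by
  have hk : ContDiff ℝ 1 fun z : ℝ × ℝ => g z.swap :=
    hg.comp (contDiff_snd.prodMk contDiff_fst)
  have hmain := low_odd1 hk (g := fun z => g z.swap) fun x y => by
    simpa using h y x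
  have e1 : bdS (fun z => g z.swap ^ 2) = bdS (fun z => g z ^ 2) := by
    unfold bdS
    refine intervalIntegral.integral_congr fun x _ => ?_
    simp only [Prod.swap_prod_mk]
    ring
  have hds : ∀ z, dS (fun z => g z.swap) z = dT g z.swap := by
    rintro ⟨x, y⟩
    rw [← deriv_row hk, Prod.swap_prod_mk, ← deriv_col hg]
    rfl
  have hdt : ∀ z, dT (fun z => g z.swap) z = dS g z.swap := by
    rintro ⟨x, y⟩
    rw [← deriv_col hk, Prod.swap_prod_mk, ← deriv_row hg]
    rfl
  have e2 : dirS (fun z => g z.swap) = dirS g := by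
    have hF : Continuous fun z => dS g z ^ 2 + dT g z ^ 2 :=
      ((cont_dS hg).pow 2).add ((cont_dT hg).pow 2)
    unfold dirS
    simp only [hds, hdt]
    rw [fub1 (F := fun z : ℝ × ℝ => dT g z.swap ^ 2 + dS g z.swap ^ 2)
      ((((cont_dT hg).comp continuous_swap).pow 2).add (((cont_dS hg).comp continuous_swap).pow 2)),
      fub2 hF]
    refine intervalIntegral.integral_congr fun x _ => ?_
    refine intervalIntegral.integral_congr fun y _ => ?_
    simp only [Prod.swap_prod_mk]
    ring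
  rw [e1, e2] at hmain
  exact hmain

end Pool.Agent.Sq4
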