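import Pool.Agent.Sq4.LowOdd
import Pool.Agent.Sq4.LowEven

/-!
# SQ-LOWSQ: the first eigenvalue of the square, lower bound
-/

set_option autoImplicit false

noncomputable section

namespace Pool.Agent.Sq4

open MeasureTheory Pool.Agent.Stk

/-- The reflections of the square. -/
private def sgm (a b : ℝ) (z : ℝ × ℝ) : ℝ × ℝ := (a * z.1, b * z.2)

private theorem sgm_cont (a b : ℝ) : Continuous (sgm a b) := by
  unfold sgm; fun_prop

private theorem sgm_contDiff (a b : ℝ) : ContDiff ℝ 1 (sgm a b) := by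
  unfold sgm; fun_prop

private theorem sgm_sgm {a b : ℝ} (ha : a = 1 ∨ a = -1) (hb : b = 1 ∨ b = -1) (z : ℝ × ℝ) :
    sgm a b (sgm a b z) = z := by
  rcases ha with rfl | rfl <;> rcases hb with rfl | rfl <;> simp [sgm]

private theorem bd_add {f g : ℝ × ℝ → ℝ} (hf : Continuous f) (hg : Continuous g) :
    bdS (fun z => f z + g z) = bdS f + bdS g := by
  unfold bdS
  rw [← intervalIntegral.integral_add]
  · refine intervalIntegral.integral_congr (fun x _ => ?_)
    simp only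
    ring
  · exact Continuous.intervalIntegrable (by fun_prop) _ _
  · exact Continuous.intervalIntegrable (by fun_prop) _ _

private theorem bd_smul (c : ℝ) (f : ℝ × ℝ → ℝ) :
    bdS (fun z => c * f z) = c * bdS f := by
  unfold bdS
  rw [← intervalIntegral.integral_const_mul]
  refine intervalIntegral.integral_congr (fun x _ => ?_)
  simp only
  ring

private theorem bd_split {f : ℝ × ℝ → ℝ} (hf : Continuous f) :
    bdS f = (∫ x in (-1 : ℝ)..1, f (x, 1)) + (∫ x in (-1 : ℝ)..1, f (x, -1))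
      + (∫ x in (-1 : ℝ)..1, f (1, x)) + (∫ x in (-1 : ℝ)..1, f (-1, x)) := by
  unfold bdS
  rw [intervalIntegral.integral_add, intervalIntegral.integral_add, intervalIntegral.integral_add]
  all_goals exact Continuous.intervalIntegrable (by fun_prop) _ _

private theorem neg_int (h : ℝ → ℝ) :
    (∫ x in (-1 : ℝ)..1, h (-x)) = ∫ x in (-1 : ℝ)..1, h x := by
  have := intervalIntegral.integral_comp_neg (a := (-1 : ℝ)) (b := 1) h
  rw [this]
  norm_num

private theorem bd_sgm {a b : ℝ} (ha : a = 1 ∨ a = -1) (hb : b = 1 ∨ b = -1) {f : ℝ × ℝ → ℝ}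
    (hf : Continuous f) : bdS (fun z => f (sgm a b z)) = bdS f := by
  have hc : Continuous (fun z => f (sgm a b z)) := hf.comp (sgm_cont a b)
  rw [bd_split hc, bd_split hf]
  have h1 := neg_int (fun x => f (x, 1))
  have h2 := neg_int (fun x => f (x, -1))
  have h3 := neg_int (fun x => f (1, x))
  have h4 := neg_int (fun x => f (-1, x))
  rcases ha with rfl | rfl <;> rcases hb with rfl | rfl <;>
    simp only [sgm, one_mul, mul_one, neg_mul, mul_neg, neg_neg, h1, h2, h3, h4] <;> ring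

private theorem sgm_mp {a b : ℝ} (ha : a = 1 ∨ a = -1) (hb : b = 1 ∨ b = -1) :
    MeasurePreserving (sgm a b) (volume : Measure (ℝ × ℝ)) volume := by
  have key : ∀ c : ℝ, (c = 1 ∨ c = -1) →
      MeasurePreserving (fun x : ℝ => c * x) (volume : Measure ℝ) volume := by
    rintro c (rfl | rfl)
    · have e : (fun x : ℝ => 1 * x) = id := by funext x; simp
      rw [e]
      exact MeasurePreserving.id _
    · simpa using Measure.measurePreserving_neg (volume : Measure ℝ)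
  exact (key a ha).prod (key b hb)

private theorem sgm_emb {a b : ℝ} (ha : a = 1 ∨ a = -1) (hb : b = 1 ∨ b = -1) :
    MeasurableEmbedding (sgm a b) := by
  let e : (ℝ × ℝ) ≃ₜ (ℝ × ℝ) :=
    { toFun := sgm a b
      invFun := sgm a b
      left_inv := sgm_sgm ha hb
      right_inv := sgm_sgm ha hb
      continuous_toFun := sgm_cont a b
      continuous_invFun := sgm_cont a b }
  exact e.measurableEmbedding

private theorem sgm_pre {a b : ℝ} (ha : a = 1 ∨ a = -1) (hb : b = 1 ∨ b = -1) :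
    sgm a b ⁻¹' Sq = Sq := by
  ext ⟨x, y⟩
  rcases ha with rfl | rfl <;> rcases hb with rfl | rfl <;>
    simp only [sgm, Sq, Set.mem_preimage, Set.mem_prod, Set.mem_Icc] <;>
    constructor <;> rintro ⟨⟨h1, h2⟩, h3, h4⟩ <;> refine ⟨⟨?_, ?_⟩, ?_, ?_⟩ <;> linarith

private theorem int_sgm {a b : ℝ} (ha : a = 1 ∨ a = -1) (hb : b = 1 ∨ b = -1)
    (f : ℝ × ℝ → ℝ) : (∫ z in Sq, f (sgm a b z)) = ∫ z in Sq, f z := by
  have := (sgm_mp ha hb).setIntegral_preimage_emb (sgm_emb ha hb) f Sq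
  rwa [sgm_pre ha hb] at this

private theorem der_sgm {g : ℝ × ℝ → ℝ} (hg : ContDiff ℝ 1 g) (a b : ℝ) (z v : ℝ × ℝ) :
    fderiv ℝ (fun w => g (sgm a b w)) z v = fderiv ℝ g (sgm a b z) (sgm a b v) := by
  let L : (ℝ × ℝ) →L[ℝ] (ℝ × ℝ) :=
    (a • ContinuousLinearMap.fst ℝ ℝ ℝ).prod (b • ContinuousLinearMap.snd ℝ ℝ ℝ)
  have hL : ∀ w, L w = sgm a b w := fun w => by simp [L, sgm]
  have h1 : HasFDerivAt (sgm a b) L z := by
    have h := L.hasFDerivAt (x := z)
    have e : (L : ℝ × ℝ → ℝ × ℝ) = sgm a b := funext hL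
    rwa [e] at h
  have h2 : HasFDerivAt g (fderiv ℝ g (sgm a b z)) (sgm a b z) :=
    ((hg.differentiable one_ne_zero) _).hasFDerivAt
  have h3 := h2.comp z h1
  have h4 : fderiv ℝ (fun w => g (sgm a b w)) z = (fderiv ℝ g (sgm a b z)).comp L := h3.fderiv
  rw [h4, ContinuousLinearMap.comp_apply, hL]

private theorem dS_sgm {g : ℝ × ℝ → ℝ} (hg : ContDiff ℝ 1 g) (a b : ℝ) (z : ℝ × ℝ) :
    dS (fun w => g (sgm a b w)) z = a * dS g (sgm a b z) := by
  unfold dS
  rw [der_sgm hg]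
  have : sgm a b (1, 0) = a • ((1, 0) : ℝ × ℝ) := by simp [sgm]
  rw [this, map_smul, smul_eq_mul]

private theorem dT_sgm {g : ℝ × ℝ → ℝ} (hg : ContDiff ℝ 1 g) (a b : ℝ) (z : ℝ × ℝ) :
    dT (fun w => g (sgm a b w)) z = b * dT g (sgm a b z) := by
  unfold dT
  rw [der_sgm hg]
  have : sgm a b (0, 1) = b • ((0, 1) : ℝ × ℝ) := by simp [sgm]
  rw [this, map_smul, smul_eq_mul]

private theorem cont_dS {g : ℝ × ℝ → ℝ} (hg : ContDiff ℝ 1 g) : Continuous (dS g) := by
  unfold dS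
  exact (hg.continuous_fderiv one_ne_zero).clm_apply continuous_const

private theorem cont_dT {g : ℝ × ℝ → ℝ} (hg : ContDiff ℝ 1 g) : Continuous (dT g) := by
  unfold dT
  exact (hg.continuous_fderiv one_ne_zero).clm_apply continuous_const

private theorem cptSq : IsCompact Sq := isCompact_Icc.prod isCompact_Icc

private theorem intOn {f : ℝ × ℝ → ℝ} (hf : Continuous f) : IntegrableOn f Sq :=
  hf.continuousOn.integrableOn_compact cptSq

/-- odd part -/
private def od (a b : ℝ) (g : ℝ × ℝ → ℝ) (z : ℝ × ℝ) : ℝ := (1 / 2) * (g z - g (sgm a b z))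

/-- even part -/
private def ev (a b : ℝ) (g : ℝ × ℝ → ℝ) (z : ℝ × ℝ) : ℝ := (1 / 2) * (g z + g (sgm a b z))

private theorem od_cd {g : ℝ × ℝ → ℝ} (hg : ContDiff ℝ 1 g) (a b : ℝ) :
    ContDiff ℝ 1 (od a b g) :=
  contDiff_const.mul (hg.sub (hg.comp (sgm_contDiff a b)))

private theorem ev_cd {g : ℝ × ℝ → ℝ} (hg : ContDiff ℝ 1 g) (a b : ℝ) :
    ContDiff ℝ 1 (ev a b g) :=
  contDiff_const.mul (hg.add (hg.comp (sgm_contDiff a b)))

private theorem dS_od {g : ℝ × ℝ → ℝ} (hg : ContDiff ℝ 1 g) (a b : ℝ) (z : ℝ × ℝ) :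
    dS (od a b g) z = (1 / 2) * (dS g z - a * dS g (sgm a b z)) := by
  rw [← dS_sgm hg a b z]
  have hd : DifferentiableAt ℝ g z := (hg.differentiable one_ne_zero) z
  have hd2 : DifferentiableAt ℝ (fun w => g (sgm a b w)) z :=
    ((hg.comp (sgm_contDiff a b)).differentiable one_ne_zero) z
  unfold dS
  have : od a b g = fun w => (1 / 2 : ℝ) * (g w - g (sgm a b w)) := rfl
  rw [this, fderiv_const_mul (hd.fun_sub hd2), fderiv_fun_sub hd hd2]
  simp

private theorem dT_od {g : ℝ × ℝ → ℝ} (hg : ContDiff ℝ 1 g) (a b : ℝ) (z : ℝ × ℝ) :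
    dT (od a b g) z = (1 / 2) * (dT g z - b * dT g (sgm a b z)) := by
  rw [← dT_sgm hg a b z]
  have hd : DifferentiableAt ℝ g z := (hg.differentiable one_ne_zero) z
  have hd2 : DifferentiableAt ℝ (fun w => g (sgm a b w)) z :=
    ((hg.comp (sgm_contDiff a b)).differentiable one_ne_zero) z
  unfold dT
  have : od a b g = fun w => (1 / 2 : ℝ) * (g w - g (sgm a b w)) := rfl
  rw [this, fderiv_const_mul (hd.fun_sub hd2), fderiv_fun_sub hd hd2]
  simp

private theorem dS_ev {g : ℝ × ℝ → ℝ} (hg : ContDiff ℝ 1 g) (a b : ℝ) (z : ℝ × ℝ) :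
    dS (ev a b g) z = (1 / 2) * (dS g z + a * dS g (sgm a b z)) := by
  rw [← dS_sgm hg a b z]
  have hd : DifferentiableAt ℝ g z := (hg.differentiable one_ne_zero) z
  have hd2 : DifferentiableAt ℝ (fun w => g (sgm a b w)) z :=
    ((hg.comp (sgm_contDiff a b)).differentiable one_ne_zero) z
  unfold dS
  have : ev a b g = fun w => (1 / 2 : ℝ) * (g w + g (sgm a b w)) := rfl
  rw [this, fderiv_const_mul (hd.fun_add hd2), fderiv_fun_add hd hd2]
  rfl

private theorem dT_ev {g : ℝ × ℝ → ℝ} (hg : ContDiff ℝ 1 g) (a b : ℝ) (z : ℝ × ℝ) :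
    dT (ev a b g) z = (1 / 2) * (dT g z + b * dT g (sgm a b z)) := by
  rw [← dT_sgm hg a b z]
  have hd : DifferentiableAt ℝ g z := (hg.differentiable one_ne_zero) z
  have hd2 : DifferentiableAt ℝ (fun w => g (sgm a b w)) z :=
    ((hg.comp (sgm_contDiff a b)).differentiable one_ne_zero) z
  unfold dT
  have : ev a b g = fun w => (1 / 2 : ℝ) * (g w + g (sgm a b w)) := rfl
  rw [this, fderiv_const_mul (hd.fun_add hd2), fderiv_fun_add hd hd2]
  rfl

private theorem split_bd {a b : ℝ} (ha : a = 1 ∨ a = -1) (hb : b = 1 ∨ b = -1)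
    {g : ℝ × ℝ → ℝ} (hg : Continuous g) :
    bdS (fun z => g z ^ 2) = bdS (fun z => od a b g z ^ 2) + bdS (fun z => ev a b g z ^ 2) := by
  have hs := sgm_cont a b
  have hgs : Continuous (fun z => g (sgm a b z)) := hg.comp hs
  have ho : Continuous (od a b g) := by unfold od; fun_prop
  have he : Continuous (ev a b g) := by unfold ev; fun_prop
  rw [← bd_add (by fun_prop) (by fun_prop)]
  have e1 : (fun z => od a b g z ^ 2 + ev a b g z ^ 2) =
      fun z => (1 / 2 : ℝ) * (g z ^ 2 + g (sgm a b z) ^ 2) := by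
    funext z
    unfold od ev
    ring
  rw [e1, bd_smul, bd_add (f := fun z => g z ^ 2) (g := fun z => g (sgm a b z) ^ 2)
    (by fun_prop) (by fun_prop), bd_sgm ha hb (f := fun z => g z ^ 2) (by fun_prop)]
  ring

private theorem ev_bd {a b : ℝ} (ha : a = 1 ∨ a = -1) (hb : b = 1 ∨ b = -1)
    {g : ℝ × ℝ → ℝ} (hg : Continuous g) : bdS (ev a b g) = bdS g := by
  have hs := sgm_cont a b
  have hgs : Continuous (fun z => g (sgm a b z)) := hg.comp hs
  have e1 : ev a b g = fun z => (1 / 2 : ℝ) * (g z + g (sgm a b z)) := rfl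
  rw [e1, bd_smul, bd_add hg hgs, bd_sgm ha hb hg]
  ring

private theorem split_dir {a b : ℝ} (ha : a = 1 ∨ a = -1) (hb : b = 1 ∨ b = -1)
    {g : ℝ × ℝ → ℝ} (hg : ContDiff ℝ 1 g) :
    dirS g = dirS (od a b g) + dirS (ev a b g) := by
  unfold dirS
  have c1 := cont_dS hg
  have c2 := cont_dT hg
  have c3 := cont_dS (od_cd hg a b)
  have c4 := cont_dT (od_cd hg a b)
  have c5 := cont_dS (ev_cd hg a b)
  have c6 := cont_dT (ev_cd hg a b)
  have hs := sgm_cont a b
  have c7 : Continuous (fun z => dS g (sgm a b z)) := c1.comp hs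
  have c8 : Continuous (fun z => dT g (sgm a b z)) := c2.comp hs
  rw [← integral_add (intOn (by fun_prop)) (intOn (by fun_prop))]
  have e1 : (fun z => dS (od a b g) z ^ 2 + dT (od a b g) z ^ 2 +
      (dS (ev a b g) z ^ 2 + dT (ev a b g) z ^ 2)) =
      fun z => (1 / 2 : ℝ) * ((dS g z ^ 2 + dT g z ^ 2) +
        (dS g (sgm a b z) ^ 2 + dT g (sgm a b z) ^ 2)) := by
    funext z
    rw [dS_od hg, dT_od hg, dS_ev hg, dT_ev hg]
    have ha2 : a ^ 2 = 1 := by rcases ha with rfl | rfl <;> norm_num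
    have hb2 : b ^ 2 = 1 := by rcases hb with rfl | rfl <;> norm_num
    linear_combination (1 / 2 : ℝ) * dS g (sgm a b z) ^ 2 * ha2 +
      (1 / 2 : ℝ) * dT g (sgm a b z) ^ 2 * hb2
  have e2 : (∫ z in Sq, ((dS g z ^ 2 + dT g z ^ 2) +
        (dS g (sgm a b z) ^ 2 + dT g (sgm a b z) ^ 2))) =
      (∫ z in Sq, (dS g z ^ 2 + dT g z ^ 2)) +
        ∫ z in Sq, (dS g (sgm a b z) ^ 2 + dT g (sgm a b z) ^ 2) :=
    integral_add (f := fun z => dS g z ^ 2 + dT g z ^ 2)
      (g := fun z => dS g (sgm a b z) ^ 2 + dT g (sgm a b z) ^ 2)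
      (intOn (by fun_prop)) (intOn (by fun_prop))
  have e3 := int_sgm ha hb (fun z => dS g z ^ 2 + dT g z ^ 2)
  rw [e1, integral_const_mul, e2, e3]
  ring

private theorem bd_sq_nonneg {g : ℝ × ℝ → ℝ} : 0 ≤ bdS (fun z => g z ^ 2) := by
  unfold bdS
  refine intervalIntegral.integral_nonneg (by norm_num) (fun x _ => ?_)
  positivity

/-- SQ-LOWSQ -/
theorem low_sq {g : ℝ × ℝ → ℝ} (hg : ContDiff ℝ 1 g) (h0 : bdS g = 0) :
    mu / 8 * bdS (fun z => g z ^ 2) ≤ dirS g := by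
  have n1 : (-1 : ℝ) = 1 ∨ (-1 : ℝ) = -1 := Or.inr rfl
  have p1 : (1 : ℝ) = 1 ∨ (1 : ℝ) = -1 := Or.inl rfl
  set o := od (-1) 1 g with ho
  set e := ev (-1) 1 g with he
  have co : ContDiff ℝ 1 o := od_cd hg _ _
  have ce : ContDiff ℝ 1 e := ev_cd hg _ _
  have s1 := split_bd n1 p1 hg.continuous
  have s2 := split_dir n1 p1 hg
  have s3 := split_bd p1 n1 ce.continuous
  have s4 := split_dir p1 n1 ce
  have s5 : bdS (ev 1 (-1) e) = 0 := by
    rw [ev_bd p1 n1 ce.continuous, ev_bd n1 p1 hg.continuous, h0]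
  have q1 : mu / 8 * bdS (fun z => o z ^ 2) ≤ dirS o :=
    low_odd1 co (fun x y => by simp only [ho, od, sgm]; ring_nf)
  have q2 : mu / 8 * bdS (fun z => od 1 (-1) e z ^ 2) ≤ dirS (od 1 (-1) e) :=
    low_odd2 (od_cd ce _ _) (fun x y => by simp only [od, sgm]; ring_nf)
  have q3 : bdS (fun z => ev 1 (-1) e z ^ 2) ≤ dirS (ev 1 (-1) e) :=
    low_even (ev_cd ce _ _)
      (fun x y => by simp only [he, ev, sgm]; ring_nf)
      (fun x y => by simp only [ev, sgm]; ring_nf) s5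
  have q4 : 0 ≤ bdS (fun z => ev 1 (-1) e z ^ 2) := bd_sq_nonneg
  have q5 : mu / 8 ≤ 1 := by linarith [mu_lt]
  have q6 := mul_le_mul_of_nonneg_right q5 q4
  rw [← ho, ← he] at s1 s2
  rw [s1, s2, s3, s4]
  linarith

end Pool.Agent.Sq4
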