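import Pool.Agent.Sq4.PsiInj
import Pool.Agent.Sq4.Region

/-!
# SQ-PSI2: change of variables by the bilinear map
-/

set_option autoImplicit false

noncomputable section

namespace Pool.Agent.Sq4

open MeasureTheory Pool.Agent.Stk

/-- the bilinear map in real coordinates -/
private def psr (o p q w : ℂ) (z : ℝ × ℝ) : ℝ × ℝ :=
  (o.re + z.1 * p.re + z.2 * q.re + z.1 * z.2 * w.re,
    o.im + z.1 * p.im + z.2 * q.im + z.1 * z.2 * w.im)

private def psr' (p q w : ℂ) (z : ℝ × ℝ) : ℝ × ℝ →L[ℝ] ℝ × ℝ :=
  LinearMap.toContinuousLinearMap (Matrix.toLin (Module.Basis.finTwoProd ℝ)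
    (Module.Basis.finTwoProd ℝ)
      !![p.re + z.2 * w.re, q.re + z.1 * w.re; p.im + z.2 * w.im, q.im + z.1 * w.im])

private theorem psr'_det (p q w : ℂ) (z : ℝ × ℝ) : (psr' p q w z).det = Jc p q w z := by
  have : (psr' p q w z).det = LinearMap.det (Matrix.toLin (Module.Basis.finTwoProd ℝ)
    (Module.Basis.finTwoProd ℝ)
      !![p.re + z.2 * w.re, q.re + z.1 * w.re; p.im + z.2 * w.im, q.im + z.1 * w.im]) := by
    rfl
  rw [this, LinearMap.det_toLin, Matrix.det_fin_two_of]
  unfold Jc cr
  ring

private theorem psr_hasFDerivAt (o p q w : ℂ) (z : ℝ × ℝ) :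
    HasFDerivAt (psr o p q w) (psr' p q w z) z := by
  unfold psr psr'
  rw [Matrix.toLin_finTwoProd_toContinuousLinearMap]
  have h1 : HasFDerivAt (fun z : ℝ × ℝ => z.1) (ContinuousLinearMap.fst ℝ ℝ ℝ) z :=
    hasFDerivAt_fst
  have h2 : HasFDerivAt (fun z : ℝ × ℝ => z.2) (ContinuousLinearMap.snd ℝ ℝ ℝ) z :=
    hasFDerivAt_snd
  refine HasFDerivAt.prodMk ?_ ?_
  · have h := (((h1.mul_const p.re).const_add o.re).add (h2.mul_const q.re)).add
      ((h1.mul h2).mul_const w.re)
    refine h.congr_fderiv ?_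
    ext <;> simp <;> ring
  · have h := (((h1.mul_const p.im).const_add o.im).add (h2.mul_const q.im)).add
      ((h1.mul h2).mul_const w.im)
    refine h.congr_fderiv ?_
    ext <;> simp <;> ring

private theorem psr_eq (o p q w : ℂ) (z : ℝ × ℝ) :
    Complex.measurableEquivRealProd.symm (psr o p q w z) = psi o p q w z := by
  rw [Complex.measurableEquivRealProd_symm_apply]
  apply Complex.ext
  · simp [psr, psi]
  · simp [psr, psi]

private theorem Sq_closed : IsClosed Sq := isClosed_Icc.prod isClosed_Icc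

private theorem Sq_compact : IsCompact Sq := isCompact_Icc.prod isCompact_Icc

private theorem Jc_pos {p q w : ℂ} (hC : Cvx p q w) {z : ℝ × ℝ} (hz : z ∈ Sq) :
    0 < Jc p q w z := by
  obtain ⟨⟨h1, h2⟩, ⟨h3, h4⟩⟩ := hz
  have a1 : |z.1| ≤ 1 := abs_le.2 ⟨h1, h2⟩
  have a2 : |z.2| ≤ 1 := abs_le.2 ⟨h3, h4⟩
  have b1 : |z.1 * cr p w| ≤ |cr p w| := by
    rw [abs_mul]
    exact mul_le_of_le_one_left (abs_nonneg _) a1
  have b2 : |z.2 * cr w q| ≤ |cr w q| := by
    rw [abs_mul]
    exact mul_le_of_le_one_left (abs_nonneg _) a2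
  have c1 := neg_abs_le (z.1 * cr p w)
  have c2 := neg_abs_le (z.2 * cr w q)
  unfold Cvx at hC
  unfold Jc
  linarith

private theorem psr_inj {o p q w : ℂ} (hC : Cvx p q w) : Set.InjOn (psr o p q w) Sq := by
  intro z hz z' hz' h
  apply psi_inj o p q w hC hz hz'
  rw [← psr_eq, ← psr_eq, h]

/-- change of variables to the image of the square -/
private theorem int_image (o p q w : ℂ) (hC : Cvx p q w) (F : ℂ → ℝ) :
    ∫ z in psi o p q w '' Sq, F z = ∫ z in Sq, F (psi o p q w z) * Jc p q w z := by
  have h2 : (psi o p q w '' Sq : Set ℂ) =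
      Complex.measurableEquivRealProd ⁻¹' (psr o p q w '' Sq) := by
    ext z
    simp only [Set.mem_image, Set.mem_preimage]
    constructor
    · rintro ⟨x, hx, rfl⟩
      refine ⟨x, hx, ?_⟩
      rw [← psr_eq, MeasurableEquiv.apply_symm_apply]
    · rintro ⟨x, hx, hz⟩
      refine ⟨x, hx, ?_⟩
      rw [← psr_eq, hz, MeasurableEquiv.symm_apply_apply]
  have h3 : ∫ z in Complex.measurableEquivRealProd ⁻¹' (psr o p q w '' Sq), F z =
      ∫ x in psr o p q w '' Sq, F (Complex.measurableEquivRealProd.symm x) := by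
    have := Complex.volume_preserving_equiv_real_prod.setIntegral_preimage_emb
      Complex.measurableEquivRealProd.measurableEmbedding
      (fun x => F (Complex.measurableEquivRealProd.symm x)) (psr o p q w '' Sq)
    simpa only [MeasurableEquiv.symm_apply_apply] using this
  rw [h2, h3, integral_image_eq_integral_abs_det_fderiv_smul volume Sq_closed.measurableSet
    (fun z _ => (psr_hasFDerivAt o p q w z).hasFDerivWithinAt) (psr_inj hC)]
  refine setIntegral_congr_fun Sq_closed.measurableSet ?_
  intro z hz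
  simp only [psr'_det, psr_eq, smul_eq_mul]
  rw [abs_of_pos (Jc_pos hC hz)]
  ring

private theorem psi_cont (o p q w : ℂ) : Continuous (psi o p q w) := by
  unfold psi
  fun_prop

private theorem int_Jc (p q w : ℂ) : ∫ z in Sq, Jc p q w z = 4 * cr p q := by
  have hc : Continuous (Jc p q w) := by
    unfold Jc
    fun_prop
  have hi : IntegrableOn (Jc p q w) Sq ((volume : Measure ℝ).prod volume) :=
    hc.continuousOn.integrableOn_compact Sq_compact
  have e0 : ∫ z in Sq, Jc p q w z =
      ∫ x in Set.Icc (-1 : ℝ) 1, ∫ y in Set.Icc (-1 : ℝ) 1, Jc p q w (x, y) := by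
    unfold Sq
    rw [show (volume : Measure (ℝ × ℝ)) = (volume : Measure ℝ).prod volume from rfl]
    exact setIntegral_prod _ hi
  have e1 : ∀ x : ℝ, ∫ y in Set.Icc (-1 : ℝ) 1, Jc p q w (x, y) = 2 * (cr p q + x * cr p w) := by
    intro x
    rw [integral_Icc_eq_integral_Ioc, ← intervalIntegral.integral_of_le (by norm_num)]
    unfold Jc
    simp only
    rw [intervalIntegral.integral_add (by simp) (Continuous.intervalIntegrable (by fun_prop) _ _),
      intervalIntegral.integral_mul_const, integral_id, intervalIntegral.integral_const]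
    norm_num
  rw [e0]
  simp only [e1]
  rw [integral_Icc_eq_integral_Ioc, ← intervalIntegral.integral_of_le (by norm_num)]
  rw [intervalIntegral.integral_const_mul,
    intervalIntegral.integral_add (by simp) (Continuous.intervalIntegrable (by fun_prop) _ _),
    intervalIntegral.integral_mul_const, integral_id, intervalIntegral.integral_const]
  norm_num
  ring

/-- SQ-PSI.3 Change of variables. -/
theorem int_quad (o p q w : ℂ) (hC : Cvx p q w) (g : ℂ → ℝ) (hg : Continuous g) :
    ∫ z in quad (vA o p q w) (vB o p q w) (vC o p q w) (vD o p q w), g z =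
      ∫ z in Sq, g (psi o p q w z) * Jc p q w z := by
  have _ := hg
  have hd : 0 < cr p q := by
    have h1 := abs_nonneg (cr p w)
    have h2 := abs_nonneg (cr w q)
    unfold Cvx at hC
    linarith
  have hw : |cr p w - cr w q| < cr p q := lt_of_le_of_lt (abs_sub _ _) hC
  have hsub := psi_sub o p q w hC
  have hcl : ∀ P Q R : ℂ, IsCompact (convexHull ℝ {P, Q, R} : Set ℂ) := fun P Q R =>
    (Set.toFinite _).isCompact_convexHull ℝ
  have hK : IsCompact (convexHull ℝ {vA o p q w, vB o p q w, vC o p q w} ∪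
      convexHull ℝ {vA o p q w, vC o p q w, vD o p q w} : Set ℂ) := (hcl _ _ _).union (hcl _ _ _)
  have hI : IsCompact (psi o p q w '' Sq) := Sq_compact.image (psi_cont o p q w)
  have hvK : volume.real (convexHull ℝ {vA o p q w, vB o p q w, vC o p q w} ∪
      convexHull ℝ {vA o p q w, vC o p q w, vD o p q w} : Set ℂ) = 4 * cr p q := by
    rw [← measureReal_congr (quad_ae _ _ _ _)]
    exact area4_v o p q w hd hw
  have hvI : volume.real (psi o p q w '' Sq) = 4 * cr p q := by
    have h := int_image o p q w hC (fun _ => 1)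
    simp only [one_mul] at h
    rw [int_Jc, setIntegral_const, smul_eq_mul, mul_one] at h
    exact h
  have hle : volume (convexHull ℝ {vA o p q w, vB o p q w, vC o p q w} ∪
      convexHull ℝ {vA o p q w, vC o p q w, vD o p q w} : Set ℂ) ≤
      volume (psi o p q w '' Sq) := by
    rw [← ENNReal.toReal_le_toReal hK.measure_ne_top hI.measure_ne_top]
    exact le_of_eq (hvK.trans hvI.symm)
  have hae : (psi o p q w '' Sq : Set ℂ) =ᵐ[volume]
      (convexHull ℝ {vA o p q w, vB o p q w, vC o p q w} ∪
        convexHull ℝ {vA o p q w, vC o p q w, vD o p q w} : Set ℂ) :=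
    ae_eq_of_subset_of_measure_ge hsub hle hI.isClosed.measurableSet.nullMeasurableSet
      hK.measure_ne_top
  rw [setIntegral_congr_set ((quad_ae _ _ _ _).trans hae.symm)]
  exact int_image o p q w hC g

end Pool.Agent.Sq4
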