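import Pool.Agent.Sq4.Defs

/-!
# SQ-PSI1: the bilinear map
-/

set_option autoImplicit false

noncomputable section

namespace Pool.Agent.Sq4

open MeasureTheory Pool.Agent.Stk

namespace PsiInj

theorem mem3 {A B C : ℂ} {a b c : ℝ} (ha : 0 ≤ a) (hb : 0 ≤ b) (hc : 0 ≤ c)
    (h : a + b + c = 1) : (a : ℂ) * A + (b : ℂ) * B + (c : ℂ) * C ∈ convexHull ℝ {A, B, C} := by
  have h1 := (convex_convexHull ℝ ({A, B, C} : Set ℂ)).sum_mem (t := Finset.univ)
    (w := ![a, b, c]) (z := ![A, B, C]) (by
      intro i _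
      fin_cases i
      · exact ha
      · exact hb
      · exact hc) (by simp [Fin.sum_univ_three, h]) (by
      intro i _
      fin_cases i
      · exact subset_convexHull ℝ _ (by simp)
      · exact subset_convexHull ℝ _ (by simp)
      · exact subset_convexHull ℝ _ (by simp))
  simpa [Fin.sum_univ_three] using h1

theorem bilin (o p q w : ℂ) (x y : ℝ) :
    psi o p q w (x, y) = (((1 - x) * (1 - y) / 4 : ℝ) : ℂ) * vA o p q w
      + (((1 + x) * (1 - y) / 4 : ℝ) : ℂ) * vB o p q w
      + (((1 + x) * (1 + y) / 4 : ℝ) : ℂ) * vC o p q w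
      + (((1 - x) * (1 + y) / 4 : ℝ) : ℂ) * vD o p q w := by
  simp only [psi, vA, vB, vC, vD]
  push_cast
  ring

theorem rel (o p q w : ℂ) :
    ((cr p q + cr p w - cr w q : ℝ) : ℂ) * vD o p q w =
      ((cr p q + cr p w + cr w q : ℝ) : ℂ) * vA o p q w
      - ((cr p q - cr p w + cr w q : ℝ) : ℂ) * vB o p q w
      + ((cr p q - cr p w - cr w q : ℝ) : ℂ) * vC o p q w := by
  apply Complex.ext
  · simp only [vA, vB, vC, vD, cr, Complex.add_re, Complex.sub_re, Complex.mul_re,
      Complex.ofReal_re, Complex.ofReal_im, zero_mul, sub_zero]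
    ring
  · simp only [vA, vB, vC, vD, cr, Complex.add_im, Complex.sub_im, Complex.mul_im,
      Complex.ofReal_re, Complex.ofReal_im, zero_mul, add_zero]
    ring

theorem Jc_pos {p q w : ℂ} (hC : Cvx p q w) {z : ℝ × ℝ} (h1 : |z.1| ≤ 1) (h2 : |z.2| ≤ 1) :
    0 < Jc p q w z := by
  unfold Cvx at hC
  unfold Jc
  have e1 : |z.1 * cr p w| ≤ |cr p w| := by
    rw [abs_mul]
    exact mul_le_of_le_one_left (abs_nonneg _) h1
  have e2 : |z.2 * cr w q| ≤ |cr w q| := by
    rw [abs_mul]
    exact mul_le_of_le_one_left (abs_nonneg _) h2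
  have e3 := neg_abs_le (z.1 * cr p w)
  have e4 := neg_abs_le (z.2 * cr w q)
  linarith

theorem cr_mul_real (a b c d : ℂ) (s t : ℝ) (h : (s : ℂ) * a + (t : ℂ) * b = 0)
    (hab : cr a b ≠ 0) (_ : c = d) : s = 0 ∧ t = 0 := by
  have hre := congrArg Complex.re h
  have him := congrArg Complex.im h
  simp only [Complex.add_re, Complex.mul_re, Complex.ofReal_re, Complex.ofReal_im, zero_mul,
    sub_zero, Complex.zero_re, Complex.add_im, Complex.mul_im, add_zero, Complex.zero_im] at hre him
  constructor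
  · have : s * cr a b = 0 := by
      unfold cr
      linear_combination b.im * hre - b.re * him
    exact (mul_eq_zero.1 this).resolve_right hab
  · have : t * cr a b = 0 := by
      unfold cr
      linear_combination a.re * him - a.im * hre
    exact (mul_eq_zero.1 this).resolve_right hab

end PsiInj

open PsiInj

/-- SQ-PSI.1 `psi` is injective on the square. -/
theorem psi_inj (o p q w : ℂ) (hC : Cvx p q w) : Set.InjOn (psi o p q w) Sq := by
  rintro ⟨x, y⟩ ⟨hx, hy⟩ ⟨x', y'⟩ ⟨hx', hy'⟩ h
  simp only [Set.mem_Icc] at hx hy hx' hy'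
  have hJ : 0 < Jc p q w ((x + x') / 2, (y + y') / 2) :=
    Jc_pos hC (abs_le.2 ⟨by simp only; linarith, by simp only; linarith⟩)
      (abs_le.2 ⟨by simp only; linarith, by simp only; linarith⟩)
  have hcr : cr (p + ((y + y') / 2 : ℝ) * w) (q + ((x + x') / 2 : ℝ) * w) =
      Jc p q w ((x + x') / 2, (y + y') / 2) := by
    simp only [cr, Jc, Complex.add_re, Complex.add_im, Complex.mul_re, Complex.mul_im,
      Complex.ofReal_re, Complex.ofReal_im, zero_mul, sub_zero, add_zero]
    ring
  have heq : ((x - x' : ℝ) : ℂ) * (p + ((y + y') / 2 : ℝ) * w) +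
      ((y - y' : ℝ) : ℂ) * (q + ((x + x') / 2 : ℝ) * w) = 0 := by
    simp only [psi] at h
    push_cast
    linear_combination h
  obtain ⟨h1, h2⟩ := cr_mul_real _ _ 0 0 _ _ heq (by rw [hcr]; exact hJ.ne') rfl
  ext
  · simp only
    linarith
  · simp only
    linarith

/-- SQ-PSI.2 The image of the square lies in the union of the two triangles. -/
theorem psi_sub (o p q w : ℂ) (hC : Cvx p q w) :
    psi o p q w '' Sq ⊆ convexHull ℝ {vA o p q w, vB o p q w, vC o p q w} ∪
      convexHull ℝ {vA o p q w, vC o p q w, vD o p q w} := by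
  rintro _ ⟨⟨x, y⟩, ⟨hx, hy⟩, rfl⟩
  simp only [Set.mem_Icc] at hx hy
  have hC' := hC
  unfold Cvx at hC'
  have a1 := le_abs_self (cr p w)
  have a2 := neg_abs_le (cr p w)
  have a3 := le_abs_self (cr w q)
  have a4 := neg_abs_le (cr w q)
  have T1 : 0 < cr p q + cr p w - cr w q := by linarith
  have T2 : 0 < cr p q - cr p w + cr w q := by linarith
  have T3 : 0 < cr p q + cr p w + cr w q := by linarith
  have T4 : 0 < cr p q - cr p w - cr w q := by linarith
  have hsum : (cr p q + cr p w - cr w q) + (cr p q - cr p w + cr w q) =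
      (cr p q + cr p w + cr w q) + (cr p q - cr p w - cr w q) := by ring
  have hrel := rel o p q w
  generalize cr p q + cr p w - cr w q = t1 at T1 hsum hrel
  generalize cr p q - cr p w + cr w q = t2 at T2 hsum hrel
  generalize cr p q + cr p w + cr w q = t3 at T3 hsum hrel
  generalize cr p q - cr p w - cr w q = t4 at T4 hsum hrel
  have lA : 0 ≤ (1 - x) * (1 - y) / 4 := by
    have := mul_nonneg (sub_nonneg.2 hx.2) (sub_nonneg.2 hy.2)
    linarith
  have lB : 0 ≤ (1 + x) * (1 - y) / 4 := by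
    have := mul_nonneg (by linarith : 0 ≤ 1 + x) (sub_nonneg.2 hy.2)
    linarith
  have lC : 0 ≤ (1 + x) * (1 + y) / 4 := by
    have := mul_nonneg (by linarith : 0 ≤ 1 + x) (by linarith : 0 ≤ 1 + y)
    linarith
  have lD : 0 ≤ (1 - x) * (1 + y) / 4 := by
    have := mul_nonneg (sub_nonneg.2 hx.2) (by linarith : 0 ≤ 1 + y)
    linarith
  have hl : (1 - x) * (1 - y) / 4 + (1 + x) * (1 - y) / 4 + (1 + x) * (1 + y) / 4 +
      (1 - x) * (1 + y) / 4 = 1 := by ring
  have hbil := bilin o p q w x y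
  generalize (1 - x) * (1 - y) / 4 = a at lA hl hbil
  generalize (1 + x) * (1 - y) / 4 = b at lB hl hbil
  generalize (1 + x) * (1 + y) / 4 = c at lC hl hbil
  generalize (1 - x) * (1 + y) / 4 = e at lD hl hbil
  have t1c : (t1 : ℂ) ≠ 0 := by exact_mod_cast T1.ne'
  have t2c : (t2 : ℂ) ≠ 0 := by exact_mod_cast T2.ne'
  rcases le_total (e * t2) (b * t1) with hcase | hcase
  · left
    have hP : psi o p q w (x, y) = ((a + e * t3 / t1 : ℝ) : ℂ) * vA o p q w +
        ((b - e * t2 / t1 : ℝ) : ℂ) * vB o p q w + ((c + e * t4 / t1 : ℝ) : ℂ) * vC o p q w := by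
      rw [hbil]
      push_cast
      field_simp
      linear_combination (e : ℂ) * hrel
    rw [hP]
    apply mem3
    · positivity
    · rw [sub_nonneg, div_le_iff₀ T1]
      exact hcase
    · positivity
    · field_simp
      linear_combination t1 * hl - e * hsum
  · right
    have hP : psi o p q w (x, y) = ((a + b * t3 / t2 : ℝ) : ℂ) * vA o p q w +
        ((c + b * t4 / t2 : ℝ) : ℂ) * vC o p q w + ((e - b * t1 / t2 : ℝ) : ℂ) * vD o p q w := by
      rw [hbil]
      push_cast
      field_simp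
      linear_combination (b : ℂ) * hrel
    rw [hP]
    apply mem3
    · positivity
    · positivity
    · rw [sub_nonneg, div_le_iff₀ T2]
      exact hcase
    · field_simp
      linear_combination t2 * hl - b * hsum

end Pool.Agent.Sq4
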