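import Pool.Agent.Sq4.RA0

/-!
# SQ-RA: the region where linear functions do not suffice (real inequality)
-/

set_option autoImplicit false

noncomputable section

namespace Pool.Agent.Sq4

open MeasureTheory Pool.Agent.Stk

namespace RAaux

/-- coefficients of the function of `bud2` (constant term) -/
def a2 (t R g : ℝ) : ℝ :=
  11 / 3 - 11 / 2 * R - 48 / 11 * ((1 + t) ^ 2 - R) * ((1 - t) ^ 2 - R) + 48 / 11 * g ^ 2

/-- coefficient of `u` -/
def b2 (t R g : ℝ) : ℝ :=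
  11 / 2 - 11 / 8 * ((1 - t) ^ 2 - R + g) - 48 / 11 * ((1 - t) ^ 2 - R)

theorem bud2' {t R u v c X d : ℝ} (h : Shp t R u v c X d)
    (hA : 11 / 2 * FA t R u v c X ≤ 8 * d) :
    a2 t R |c| + b2 t R |c| * u + b2 (-t) R |c| * v + (-11 / 4 - 48 / 11) * u * v ≤ 0 := by
  have h1 := bud2 h hA
  have h2 : |c| ^ 2 = c ^ 2 := sq_abs c
  unfold a2 b2
  rw [h2]
  unfold F0 at h1
  linarith

/-- constant term for `bud1` -/
def a1 (t R g : ℝ) : ℝ :=
  -2 / 3 + 8 * t ^ 2 - 11 / 2 * R + 4 * R * ((1 - t) / (1 + t) + (1 + t) / (1 - t)) + 4 * g ^ 2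

/-- coefficient of `u` -/
def b1 (t R g : ℝ) : ℝ :=
  11 / 2 - 11 / 8 * ((1 - t) ^ 2 - R + g) - 4 * ((1 - t) / (1 + t))

theorem bud1' {t R u v c X d : ℝ} (h : Shp t R u v c X d)
    (hA : 11 / 2 * FA t R u v c X ≤ 8 * d) :
    a1 t R |c| + b1 t R |c| * u + b1 (-t) R |c| * v + (-11 / 4) * u * v ≤ 0 := by
  have h1 := bud1 h hA
  have h2 : |c| ^ 2 = c ^ 2 := sq_abs c
  have e1 : (1 - -t) / (1 + -t) = (1 + t) / (1 - t) := by rw [sub_neg_eq_add]; rfl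
  unfold a1 b1
  rw [h2, e1]
  unfold F0 at h1
  linarith

theorem theta_ge {t : ℝ} (h1 : -1 < t) :
    1 - 2 * t + 2 * t ^ 2 - 2 * t ^ 3 ≤ (1 - t) / (1 + t) := by
  have h : 0 < 1 + t := by linarith
  rw [le_div_iff₀ h]
  nlinarith [sq_nonneg (t ^ 2)]

theorem theta_sum {t : ℝ} (h1 : -1 < t) (h2 : t < 1) :
    2 ≤ (1 - t) / (1 + t) + (1 + t) / (1 - t) := by
  have h : 0 < 1 + t := by linarith
  have h' : 0 < 1 - t := by linarith
  rw [div_add_div _ _ h.ne' h'.ne', le_div_iff₀ (mul_pos h h')]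
  nlinarith [sq_nonneg t]

/-- the key vertex for `R ≤ 8/25` -/
theorem vert_R {t R g : ℝ} (h1 : -1 < t) (h2 : t < 1) (hR : 8 / 25 < R) (hR2 : R ≤ (1 - t) ^ 2)
    (hR1 : R ≤ (1 + t) ^ 2) :
    1 / 100 ≤ 5 * (a1 t R g + b1 (-t) R g * R) + 3 * (a2 t R g + b2 (-t) R g * R) := by
  have e1 : (1 - -t) / (1 + -t) = (1 + t) / (1 - t) := by rw [sub_neg_eq_add]; rfl
  have h3 := theta_ge h1
  unfold a1 b1 a2 b2
  rw [e1]
  have h4 : R * (1 - 2 * t + 2 * t ^ 2 - 2 * t ^ 3) ≤ R * ((1 - t) / (1 + t)) :=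
    mul_le_mul_of_nonneg_left h3 (by linarith)
  have hR0 : 0 < R := by linarith
  have ht0 : t ≤ 11 / 25 := by
    by_contra hn
    push Not at hn
    nlinarith
  have ht1 : -11 / 25 ≤ t := by
    by_contra hn
    push Not at hn
    nlinarith
  have hg := sq_nonneg (g - 11 / 64 * R)
  have hg2 := sq_nonneg (g - 121 / 768 * R)
  have hRR := sq_nonneg (R - 8 / 25)
  -- lower bound of the whole thing
  have key : 1 / 100 ≤ 5 * (-2 / 3 + 8 * t ^ 2 + R * (4 * (1 - 2 * t + 2 * t ^ 2 - 2 * t ^ 3)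
      - 11 / 8 * (1 + t) ^ 2) + 12568 / 10000 * (16 / 25 * R - 64 / 625))
      + 3 * (-23 / 33 + 96 / 11 * t ^ 2 - 48 / 11 * t ^ 4 + R * (48 / 11 * (1 - t) ^ 2
        - 11 / 8 * (1 + t) ^ 2) + 12666 / 10000 * (16 / 25 * R - 64 / 625)) := by
    have ht2 : 0 ≤ (11 / 25) ^ 2 - t ^ 2 := by nlinarith
    have k1 := mul_nonneg (sq_nonneg (t - 9 / 50)) (sub_nonneg.2 ht0)
    have k2 := mul_nonneg (sq_nonneg (t - 9 / 50)) ht2
    have k3 := sq_nonneg (t - 9 / 50)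
    rcases le_or_gt t (36 / 100) with hc | hc
    · have l1 : 0 ≤ 285445 / 10000 - 9700 / 110 * t + 4630 / 110 * t ^ 2 - 40 * t ^ 3 := by
        nlinarith [mul_nonneg (sq_nonneg t) (sub_nonneg.2 hc)]
      have l2 := mul_nonneg l1 (sub_nonneg.2 hR.le)
      nlinarith
    · have l3 : R - 8 / 25 ≤ 9 / 100 := by nlinarith
      have l1 : -6 ≤ 285445 / 10000 - 9700 / 110 * t + 4630 / 110 * t ^ 2 - 40 * t ^ 3 := by
        nlinarith [mul_nonneg (sq_nonneg t) (sub_nonneg.2 ht0)]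
      have l2 := mul_nonneg (sub_nonneg.2 l1) (sub_nonneg.2 hR.le)
      nlinarith [mul_nonneg (sub_nonneg.2 hc.le) (sub_nonneg.2 hc.le)]
  nlinarith

/-- vertex `(0,0)` for `R ≤ 8/25` -/
theorem vert_R00 {t R g : ℝ} (h1 : -1 < t) (h2 : t < 1) (hR : 8 / 25 < R) (hRle : R ≤ 1) :
    1 / 100 ≤ 5 * a1 t R g + 3 * a2 t R g := by
  have h3 := theta_sum h1 h2
  have hR0 : 0 < R := by linarith
  have h4 : R * 2 ≤ R * ((1 - t) / (1 + t) + (1 + t) / (1 - t)) :=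
    mul_le_mul_of_nonneg_left h3 hR0.le
  have ht2 : t ^ 2 ≤ 1 := by nlinarith
  have ht4 : t ^ 4 ≤ t ^ 2 := by nlinarith [sq_nonneg t]
  unfold a1 a2
  nlinarith [sq_nonneg g, sq_nonneg t, mul_nonneg hR0.le (sq_nonneg t),
    mul_nonneg (sub_nonneg.2 hR.le) (sub_nonneg.2 hRle)]

/-- vertex `(R,R)` for `R ≤ 8/25` -/
theorem vert_R11 {t R g : ℝ} (h1 : -1 < t) (h2 : t < 1) (hR : 8 / 25 < R) (hRle : R ≤ 1) :
    1 / 100 ≤ 5 * (a1 t R g + b1 t R g * R + b1 (-t) R g * R + (-11 / 4) * R * R)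
      + 3 * (a2 t R g + b2 t R g * R + b2 (-t) R g * R + (-11 / 4 - 48 / 11) * R * R) := by
  have e1 : (1 - -t) / (1 + -t) = (1 + t) / (1 - t) := by rw [sub_neg_eq_add]; rfl
  have hR0 : 0 < R := by linarith
  have ht2 : t ^ 2 ≤ 1 := by nlinarith
  have ht4 : t ^ 4 ≤ t ^ 2 := by nlinarith [sq_nonneg t]
  have hg := sq_nonneg (g - 11 / 32 * R)
  unfold a1 a2 b1 b2
  rw [e1]
  have e2 : 5 * (-2 / 3 + 8 * t ^ 2 - 11 / 2 * R + 4 * R * ((1 - t) / (1 + t) + (1 + t) / (1 - t))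
      + 4 * g ^ 2 + (11 / 2 - 11 / 8 * ((1 - t) ^ 2 - R + g) - 4 * ((1 - t) / (1 + t))) * R
      + (11 / 2 - 11 / 8 * ((1 - -t) ^ 2 - R + g) - 4 * ((1 + t) / (1 - t))) * R
      + (-11 / 4) * R * R)
      = 5 * (-2 / 3 + 8 * t ^ 2 + 4 * g ^ 2 + 11 / 4 * R * (1 - t ^ 2) - 11 / 4 * g * R) := by
    ring
  rw [e2]
  nlinarith [sq_nonneg g, sq_nonneg t, mul_nonneg (sub_nonneg.2 hRle) (sq_nonneg t),
    mul_nonneg (sub_nonneg.2 hR.le) (sub_nonneg.2 hRle)]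

theorem R_bound {t R u v c X d : ℝ} (h : Shp t R u v c X d)
    (hA : 11 / 2 * FA t R u v c X ≤ 8 * d) : R ≤ 8 / 25 := by
  by_contra hR
  push Not at hR
  have h1 := h.ht1
  have h2 := h.ht2
  have hRle : R ≤ 1 := by
    rcases le_total 0 t with ht | ht
    · nlinarith [h.hR2]
    · nlinarith [h.hR1]
  have B1 := bud1' h hA
  have B2 := bud2' h hA
  have v00 := vert_R00 (g := |c|) h1 h2 hR hRle
  have v11 := vert_R11 (g := |c|) h1 h2 hR hRle
  have v01 := vert_R (g := |c|) h1 h2 hR h.hR2 h.hR1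
  have v10 := vert_R (t := -t) (g := |c|) (by linarith) (by linarith) hR
    (by rw [sub_neg_eq_add]; exact h.hR1) (by rw [← sub_eq_add_neg]; exact h.hR2)
  have ea1 : a1 (-t) R |c| = a1 t R |c| := by
    unfold a1
    have e1 : (1 - -t) / (1 + -t) = (1 + t) / (1 - t) := by rw [sub_neg_eq_add]; rfl
    have e2 : (1 + -t) / (1 - -t) = (1 - t) / (1 + t) := by rw [sub_neg_eq_add]; rfl
    rw [e1, e2]; ring
  have ea2 : a2 (-t) R |c| = a2 t R |c| := by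
    unfold a2; ring
  rw [ea1, ea2, neg_neg] at v10
  have := biaff (a := 5 * a1 t R |c| + 3 * a2 t R |c| - 1 / 100)
    (b := 5 * b1 t R |c| + 3 * b2 t R |c|) (e := 5 * b1 (-t) R |c| + 3 * b2 (-t) R |c|)
    (f := 5 * (-11 / 4) + 3 * (-11 / 4 - 48 / 11)) h.hu0 h.hu h.hv0 h.hv
    (by linarith) (by linarith) (by linarith) (by linarith)
  linarith

/-- vertex `(0,R)` for the bound of `t²` -/
theorem vert_t {t R g : ℝ} (h1 : -1 < t) (h2 : t < 1) (hR0 : 0 ≤ R) (hR : R ≤ 8 / 25)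
    (ht : 17 / 200 < t ^ 2) : 1 / 200 ≤ a2 t R g + b2 (-t) R g * R := by
  have hg2 := sq_nonneg (g - 121 / 768 * R)
  have ht2 : t ^ 2 ≤ 1 := by nlinarith
  unfold a2 b2
  have key : 1 / 200 ≤ -23 / 33 + 96 / 11 * t ^ 2 - 48 / 11 * t ^ 4 + R * (48 / 11 * (1 - t) ^ 2
        - 11 / 8 * (1 + t) ^ 2) + 12666 / 10000 * R ^ 2 := by
    have ht4 : t ^ 4 ≤ t ^ 2 := by nlinarith [sq_nonneg t]
    have hs := mul_nonneg (sub_nonneg.2 ht.le) (sub_nonneg.2 ht2)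
    rcases le_or_gt t 0 with hc | hc
    · have l1 : 0 ≤ 48 / 11 * (1 - t) ^ 2 - 11 / 8 * (1 + t) ^ 2 := by nlinarith
      nlinarith [mul_nonneg hR0 l1, sq_nonneg R]
    · have hw : 2915 / 10000 ≤ t := by
        by_contra hn
        push Not at hn
        nlinarith
      rcases le_or_gt t (1 / 2) with hc2 | hc2
      · have h4 : t ^ 2 ≤ 1 / 4 := by nlinarith
        have p1 := mul_nonneg (sub_nonneg.2 ht.le) (sub_nonneg.2 h4)
        have p2 := mul_nonneg (sub_nonneg.2 hw) (sub_nonneg.2 hR)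
        have p3 := mul_nonneg (sub_nonneg.2 hw) hR0
        have p4 := mul_nonneg (mul_nonneg (sub_nonneg.2 hw) (sub_nonneg.2 hw)) hR0
        have p5 := mul_nonneg (mul_nonneg (sub_nonneg.2 hw) (sub_nonneg.2 hc2)) hR0
        nlinarith [sq_nonneg (R - 41 / 1000), sq_nonneg (t - 2915 / 10000)]
      · have p2 := mul_nonneg (sub_nonneg.2 hc2.le) (sub_nonneg.2 hR)
        have p3 := mul_nonneg (sub_nonneg.2 hc2.le) (sub_nonneg.2 h2.le)
        have p4 := mul_nonneg (mul_nonneg (sub_nonneg.2 hc2.le) (sub_nonneg.2 h2.le)) hR0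
        nlinarith [sq_nonneg R, sq_nonneg (t - 1 / 2), mul_nonneg hR0 (sq_nonneg (t - 1 / 2))]
  nlinarith

/-- vertex `(0,R)` for the bound of `c²` -/
theorem vert_c {t R g : ℝ} (hR0 : 0 ≤ R) (hR : R ≤ 8 / 25) (hg0 : 0 ≤ g)
    (ht : t ^ 2 ≤ 17 / 200) (hg : 81 / 500 < g ^ 2) :
    1 / 200 ≤ a2 t R g + b2 (-t) R g * R := by
  have hg1 : 4024 / 10000 < g := by
    by_contra hn
    push Not at hn
    nlinarith
  have hgR : 1 / 150 ≤ -23 / 33 + 48 / 11 * g ^ 2 - 11 / 8 * g * R + 5534 / 10000 * R := by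
    nlinarith [mul_nonneg (sub_nonneg.2 hg1.le) (sub_nonneg.2 hR),
      mul_nonneg (sub_nonneg.2 hg1.le) hR0, sq_nonneg (g - 4024 / 10000)]
  have ht4 : t ^ 4 ≤ 17 / 200 * t ^ 2 := by nlinarith [sq_nonneg t]
  unfold a2 b2
  have key : 0 ≤ 96 / 11 * t ^ 2 - 48 / 11 * t ^ 4 + R * (48 / 11 * (1 - t) ^ 2
        - 11 / 8 * (1 + t) ^ 2 - 5534 / 10000) + 11 / 8 * R ^ 2 := by
    rcases le_or_gt t (1 / 5) with hc | hc
    · have l1 : 0 ≤ 48 / 11 * (1 - t) ^ 2 - 11 / 8 * (1 + t) ^ 2 - 5534 / 10000 := by nlinarith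
      nlinarith [mul_nonneg hR0 l1, sq_nonneg R, sq_nonneg t]
    · have hw : t ≤ 2916 / 10000 := by
        by_contra hn
        push Not at hn
        nlinarith
      nlinarith [mul_nonneg hR0 (sub_nonneg.2 hw), sq_nonneg R, sq_nonneg t,
        mul_nonneg hR0 (sq_nonneg t)]
  nlinarith

end RAaux

open RAaux in
/-- SQ-RA (numerically the maxima are `R = 0.2867`, `t² = 0.0834`, `c² = 0.1597`; from `bud1`
alone `R ≤ 0.3142`, from `bud2` then `t² ≤ 0.08348`, `c² ≤ 0.15973`). -/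
theorem reg_bounds {t R u v c X d : ℝ} (h : Shp t R u v c X d)
    (hA : 11 / 2 * FA t R u v c X ≤ 8 * d) :
    R ≤ 8 / 25 ∧ t ^ 2 ≤ 17 / 200 ∧ c ^ 2 ≤ 81 / 500 := by
  have hR := R_bound h hA
  have h1 := h.ht1
  have h2 := h.ht2
  have hR0 : 0 ≤ R := h.hu0.trans h.hu
  have B2 := bud2' h hA
  have hg0 := abs_nonneg c
  have hg2 : |c| ^ 2 = c ^ 2 := sq_abs c
  have ea2 : a2 (-t) R |c| = a2 t R |c| := by
    unfold a2; ring
  have ht2 : t ^ 2 ≤ 1 := by nlinarith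
  have ht4 : t ^ 4 ≤ t ^ 2 := by nlinarith [sq_nonneg t]
  have ht : t ^ 2 ≤ 17 / 200 := by
    by_contra ht
    push Not at ht
    have v01 := vert_t (g := |c|) h1 h2 hR0 hR ht
    have v10 := vert_t (t := -t) (g := |c|) (by linarith) (by linarith) hR0 hR
      (by rw [neg_sq]; exact ht)
    rw [ea2, neg_neg] at v10
    have := biaff (a := a2 t R |c| - 1 / 200)
      (b := b2 t R |c|) (e := b2 (-t) R |c|)
      (f := -11 / 4 - 48 / 11) h.hu0 h.hu h.hv0 h.hv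
      (by
        unfold a2
        nlinarith [mul_nonneg (sub_nonneg.2 ht.le) (sub_nonneg.2 ht2), sq_nonneg |c|,
          mul_nonneg hR0 (sub_nonneg.2 hR), mul_nonneg hR0 (sq_nonneg t)])
      (by linarith) (by linarith)
      (by
        unfold a2 b2
        nlinarith [mul_nonneg (sub_nonneg.2 ht.le) (sub_nonneg.2 ht2),
          sq_nonneg (|c| - 121 / 384 * R), mul_nonneg hR0 (sub_nonneg.2 hR),
          mul_nonneg (sub_nonneg.2 hR) (sq_nonneg t)])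
    linarith
  refine ⟨hR, ht, ?_⟩
  by_contra hc
  push Not at hc
  rw [← hg2] at hc
  have v01 := vert_c (t := t) (g := |c|) hR0 hR hg0 ht hc
  have v10 := vert_c (t := -t) (g := |c|) hR0 hR hg0 (by rw [neg_sq]; exact ht) hc
  rw [ea2, neg_neg] at v10
  have := biaff (a := a2 t R |c| - 1 / 200)
    (b := b2 t R |c|) (e := b2 (-t) R |c|)
    (f := -11 / 4 - 48 / 11) h.hu0 h.hu h.hv0 h.hv
    (by
      unfold a2
      nlinarith [sq_nonneg t, mul_nonneg hR0 (sub_nonneg.2 hR), mul_nonneg hR0 (sq_nonneg t)])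
    (by linarith) (by linarith)
    (by
      have hg1 : 4024 / 10000 < |c| := by
        by_contra hn
        push Not at hn
        nlinarith
      have hgR : 1 / 150 ≤ -23 / 33 + 48 / 11 * |c| ^ 2 - 11 / 4 * |c| * R + 111 / 100 * R := by
        nlinarith [mul_nonneg (sub_nonneg.2 hg1.le) (sub_nonneg.2 hR),
          mul_nonneg (sub_nonneg.2 hg1.le) hR0, sq_nonneg (|c| - 4024 / 10000)]
      unfold a2 b2
      nlinarith [sq_nonneg t, mul_nonneg hR0 (sub_nonneg.2 hR),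
        mul_nonneg hR0 (sub_nonneg.2 ht), mul_nonneg hR0 (sq_nonneg t)])
  linarith

end Pool.Agent.Sq4
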