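import Pool.Agent.Sq4.Defs

/-!
# SQ-RA0: consequences of `5.5 * FA ≤ 8 * d` in convenient form
-/

set_option autoImplicit false

noncomputable section

namespace Pool.Agent.Sq4

open MeasureTheory Pool.Agent.Stk

/-- Lower bound for `FA`. -/
def F0 (t R u v c : ℝ) : ℝ :=
  4 / 3 - R + (u + v)
    - (u * ((1 - t) ^ 2 + v - R) + v * ((1 + t) ^ 2 + u - R) + |c| * (u + v)) / 4

theorem two_X_le {t R u v c X d : ℝ} (h : Shp t R u v c X d) : 2 * |X| ≤ u + v := by
  have h1 : (2 * |X|) ^ 2 ≤ (u + v) ^ 2 := by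
    rw [mul_pow, sq_abs, h.hX]
    nlinarith [sq_nonneg (u - v)]
  exact le_of_sq_le_sq_nonneg h1 (by linarith [h.hu0, h.hv0])
where
  le_of_sq_le_sq_nonneg {a b : ℝ} (h : a ^ 2 ≤ b ^ 2) (hb : 0 ≤ b) : a ≤ b :=
    (abs_le_of_sq_le_sq' h hb).2

theorem F0_le {t R u v c X d : ℝ} (h : Shp t R u v c X d) : F0 t R u v c ≤ FA t R u v c X := by
  have h1 := two_X_le h
  have h2 : 2 * (X * c) ≤ |c| * (u + v) := by
    have : X * c ≤ |X| * |c| := by rw [← abs_mul]; exact le_abs_self _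
    nlinarith [abs_nonneg c, abs_nonneg X]
  unfold F0 FA
  nlinarith

/-- lower bound for `d` -/
theorem d_ge {t R u v c X d : ℝ} (h : Shp t R u v c X d)
    (hA : 11 / 2 * FA t R u v c X ≤ 8 * d) : 11 / 16 * F0 t R u v c ≤ d := by
  linarith [F0_le h]

/-- `8 d ≤ 8 √(PQ) - 4 c² ≤ 4 (θ P + Q / θ) - 4 c²` with `θ = (1 - t) / (1 + t)` -/
theorem bud1 {t R u v c X d : ℝ} (h : Shp t R u v c X d)
    (hA : 11 / 2 * FA t R u v c X ≤ 8 * d) :
    11 / 2 * F0 t R u v c + 4 * ((1 - t) / (1 + t)) * (R - u) + 4 * ((1 + t) / (1 - t)) * (R - v)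
      + 4 * c ^ 2 ≤ 8 * (1 - t ^ 2) := by
  have h1 : 0 < 1 + t := by linarith [h.ht1]
  have h2 : 0 < 1 - t := by linarith [h.ht2]
  have hP1 : (1 + t) ^ 2 + u - R ≤ (1 + t) ^ 2 := by linarith [h.hu]
  have hQ1 : (1 - t) ^ 2 + v - R ≤ (1 - t) ^ 2 := by linarith [h.hv]
  have hP := h.hP
  have hQ := h.hQ
  have hd := h.hd
  have hd2 := h.hd2
  set P := (1 + t) ^ 2 + u - R with hPd
  set Q := (1 - t) ^ 2 + v - R with hQd
  set S := (1 - t) / (1 + t) * P + (1 + t) / (1 - t) * Q with hS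
  have hPQ : P * Q ≤ (S / 2) ^ 2 := by
    have e : (S / 2) ^ 2 - P * Q = (((1 - t) / (1 + t) * P - (1 + t) / (1 - t) * Q) / 2) ^ 2 := by
      rw [hS]; field_simp; ring
    nlinarith [sq_nonneg (((1 - t) / (1 + t) * P - (1 + t) / (1 - t) * Q) / 2)]
  have hS0 : 0 < S := by rw [hS]; positivity
  have hPQ1 : P * Q ≤ 1 := by
    have : P * Q ≤ (1 + t) ^ 2 * (1 - t) ^ 2 := mul_le_mul hP1 hQ1 hQ.le (sq_nonneg _)
    have e : (1 + t) ^ 2 * (1 - t) ^ 2 = (1 - t ^ 2) ^ 2 := by ring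
    rw [e] at this
    have : (1 - t ^ 2) ^ 2 ≤ 1 := by
      have h3 : 0 ≤ t ^ 2 := sq_nonneg t
      have h4 : t ^ 2 ≤ 1 := by nlinarith
      nlinarith
    linarith
  have hc : c ^ 2 ≤ 1 := by nlinarith [sq_nonneg d]
  -- d ≤ S / 2 - c ^ 2 / 2
  have hd3 : d ≤ S / 2 - c ^ 2 / 2 := by
    have hr := Real.sq_sqrt (mul_pos hP hQ).le
    set r := Real.sqrt (P * Q) with hrd
    have hr0 : 0 ≤ r := Real.sqrt_nonneg _
    have hr1 : r ≤ 1 := by nlinarith
    have hrS : r ≤ S / 2 := (abs_le_of_sq_le_sq' (by rw [hr]; exact hPQ) (by linarith)).2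
    have hdr : d ≤ r := by nlinarith [sq_nonneg c]
    have : d ≤ r - c ^ 2 / 2 := by
      have e : (r - d) * (r + d) = c ^ 2 := by nlinarith
      nlinarith
    linarith
  have hF := F0_le h
  have e1 : 4 * S = 8 * (1 - t ^ 2) - 4 * ((1 - t) / (1 + t)) * (R - u)
      - 4 * ((1 + t) / (1 - t)) * (R - v) := by
    rw [hS, hPd, hQd]; field_simp; ring
  linarith

/-- tangent version: `8 d ≤ (48/11) d² + 11/3` -/
theorem bud2 {t R u v c X d : ℝ} (h : Shp t R u v c X d)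
    (hA : 11 / 2 * FA t R u v c X ≤ 8 * d) :
    11 / 2 * F0 t R u v c
      ≤ 48 / 11 * (((1 + t) ^ 2 + u - R) * ((1 - t) ^ 2 + v - R) - c ^ 2) + 11 / 3 := by
  rw [← h.hd2]
  nlinarith [F0_le h, sq_nonneg (d - 11 / 12)]

/-- A function which is affine in each variable is bounded below on a square by its values at
the vertices. -/
theorem biaff {a b e f R u v : ℝ} (hu0 : 0 ≤ u) (hu : u ≤ R) (hv0 : 0 ≤ v) (hv : v ≤ R)
    (h00 : 0 ≤ a) (h10 : 0 ≤ a + b * R) (h01 : 0 ≤ a + e * R)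
    (h11 : 0 ≤ a + b * R + e * R + f * R * R) : 0 ≤ a + b * u + e * v + f * u * v := by
  rcases eq_or_lt_of_le (hu0.trans hu) with hR | hR
  · have hu1 : u = 0 := by linarith
    have hv1 : v = 0 := by linarith
    rw [hu1, hv1]; simpa using h00
  · have key : R * R * (a + b * u + e * v + f * u * v)
        = (R - u) * (R - v) * a + u * (R - v) * (a + b * R) + (R - u) * v * (a + e * R)
          + u * v * (a + b * R + e * R + f * R * R) := by ring
    have : 0 ≤ R * R * (a + b * u + e * v + f * u * v) := by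
      rw [key]
      have p1 : 0 ≤ R - u := by linarith
      have p2 : 0 ≤ R - v := by linarith
      have q1 := mul_nonneg (mul_nonneg p1 p2) h00
      have q2 := mul_nonneg (mul_nonneg hu0 p2) h10
      have q3 := mul_nonneg (mul_nonneg p1 hv0) h01
      have q4 := mul_nonneg (mul_nonneg hu0 hv0) h11
      linarith
    by_contra hn
    push Not at hn
    have := mul_neg_of_pos_of_neg (mul_pos hR hR) hn
    linarith

end Pool.Agent.Sq4
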