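import Pool.Agent.Sq4.RA

/-!
# SQ-RC: the shape is convex (real inequality)
-/

set_option autoImplicit false

noncomputable section

namespace Pool.Agent.Sq4

open MeasureTheory Pool.Agent.Stk

private theorem rc_theta {t : ℝ} (h1 : -1 < t) (h2 : t < 1) :
    2 ≤ (1 - t) / (1 + t) + (1 + t) / (1 - t) := by
  have a1 : 0 < 1 + t := by linarith
  have a2 : 0 < 1 - t := by linarith
  rw [div_add_div _ _ a1.ne' a2.ne', le_div_iff₀ (by positivity)]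
  nlinarith [sq_nonneg t]

/-- one variable inequality -/
private theorem rc_one {t : ℝ} (h : t ^ 2 ≤ 17 / 200) :
    0 ≤ (1 - t) * (3 / 100 + 8 * t ^ 2
      + 8 / 25 * (9 / 10 - 2 - 2 * t ^ 2 - 5 / 3 * (1 - t) ^ 2)) + 32 / 25 * (1 + t) := by
  have ht1 : t ≤ 3 / 10 := by nlinarith
  have ht2 : -(3 / 10) ≤ t := by nlinarith
  nlinarith [sq_nonneg (t + 1 / 5), sq_nonneg (t * (t + 1 / 5)), sq_nonneg t,
    mul_nonneg (sub_nonneg.2 ht1) (sq_nonneg (t + 1 / 5)),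
    mul_nonneg (sub_nonneg.2 ht1) (sq_nonneg t)]

private theorem rc_vertex {t R g : ℝ} (h : t ^ 2 ≤ 17 / 200) (hR0 : 0 ≤ R) (hR : R ≤ 8 / 25)
    (hg : 0 ≤ g) :
    0 ≤ 1067 / 160 * (4 / 3 - R * ((1 - t) ^ 2 - R + g) / 4) - 289 / 400
      - R * (2 + 2 * t ^ 2 - R + 2 * g) + 4 * R * ((1 + t) / (1 - t)) + 4 * g ^ 2
      - 8 * (1 - t ^ 2) - 1 / 50 := by
  have ht1 : t < 1 := by nlinarith
  have a2 : 0 < 1 - t := by linarith
  have h1 := rc_one h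
  set θ := (1 + t) / (1 - t) with hθ
  have hθ1 : θ * (1 - t) = 1 + t := by rw [hθ]; field_simp
  have h2 : 0 ≤ 3 / 100 + 8 * t ^ 2
      + 8 / 25 * (9 / 10 - 2 - 2 * t ^ 2 - 5 / 3 * (1 - t) ^ 2) + 32 / 25 * θ := by
    by_contra hn
    push Not at hn
    have := mul_neg_of_neg_of_pos hn a2
    nlinarith
  have h3 : 0 ≤ 3 / 100 + 8 * t ^ 2 := by positivity
  -- linear interpolation in `R`
  have h4 : 0 ≤ 3 / 100 + 8 * t ^ 2
      + R * (9 / 10 - 2 - 2 * t ^ 2 - 5 / 3 * (1 - t) ^ 2 + 4 * θ) := by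
    nlinarith
  have ht2 : -(3 / 10) ≤ t := by nlinarith
  have h6 : (1 - t) ^ 2 ≤ 169 / 100 := by nlinarith
  have h5 : R * (1 - t) ^ 2 ≤ 8 / 25 * (169 / 100) :=
    mul_le_mul hR h6 (sq_nonneg _) (by norm_num)
  nlinarith [sq_nonneg (R - 1 / 4), sq_nonneg (g - 11 / 24 * R)]

/-- SQ-RC -/
theorem reg_convex {t R u v c X d : ℝ} (h : Shp t R u v c X d)
    (hA : 11 / 2 * FA t R u v c X ≤ 8 * d) :
    R * (((1 + t) ^ 2 + u - R) + ((1 - t) ^ 2 + v - R) + 2 * |c|) < d ^ 2 := by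
  obtain ⟨hR, ht, hc⟩ := reg_bounds h hA
  have hR0 : 0 ≤ R := h.hu0.trans h.hu
  have hb1 := bud1 h hA
  have hd := d_ge h hA
  have hth := rc_theta h.ht1 h.ht2
  have v1 := rc_vertex (t := t) (g := |c|) ht hR0 hR (abs_nonneg c)
  have v2 := rc_vertex (t := -t) (g := |c|) (by rw [neg_sq]; exact ht) hR0 hR (abs_nonneg c)
  have hg2 : |c| ^ 2 = c ^ 2 := sq_abs c
  have hg0 : 0 ≤ |c| := abs_nonneg c
  set g := |c| with hg
  have e1 : (1 + -t) / (1 - -t) = (1 - t) / (1 + t) := by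
    rw [sub_neg_eq_add]; rfl
  rw [e1] at v2
  set θ := (1 - t) / (1 + t) with hθ
  set θ' := (1 + t) / (1 - t) with hθ'
  have key := biaff (R := R) (u := u) (v := v)
    (a := 1067 / 160 * (4 / 3 - R) - 289 / 400 - R * (2 + 2 * t ^ 2 - 2 * R + 2 * g)
      + 4 * θ * R + 4 * θ' * R + 4 * c ^ 2 - 8 * (1 - t ^ 2) - 1 / 50)
    (b := 1067 / 160 * (1 - ((1 - t) ^ 2 - R + g) / 4) - R - 4 * θ)
    (e := 1067 / 160 * (1 - ((1 + t) ^ 2 - R + g) / 4) - R - 4 * θ')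
    (f := -(1067 / 320)) h.hu0 h.hu h.hv0 h.hv
    (by
      have : 0 ≤ R * (θ + θ' - 2) := mul_nonneg hR0 (by linarith)
      nlinarith [sq_nonneg (g - R / 4), sq_nonneg (R - 1 / 5), mul_nonneg hR0 (sq_nonneg t),
        mul_nonneg (sub_nonneg.2 hR) (sq_nonneg t)])
    (by nlinarith)
    (by nlinarith)
    (by nlinarith [sq_nonneg (g - 2 / 3 * R), mul_nonneg (sub_nonneg.2 hR) (sq_nonneg t),
        mul_nonneg hR0 (sub_nonneg.2 hR), sq_nonneg t])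
  unfold F0 at hd hb1
  rw [← hg] at hd hb1
  nlinarith [sq_nonneg (d - 17 / 20)]

end Pool.Agent.Sq4
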