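import Pool.Agent.Sq4.RS

/-!
# SQ-RKA: real inequality for the middle regime, boundary norm
-/

set_option autoImplicit false

noncomputable section

namespace Pool.Agent.Sq4

open MeasureTheory Pool.Agent.Stk

/-- Normalised boundary norm. -/
def NN (so se sx me2 κ t R u v c X : ℝ) : ℝ :=
  2 * (1 + t) * (so * ((1 + t) ^ 2 + u - R) + se * ((1 - t) ^ 2 + v - R))
    + 2 * (1 - t) * (se * ((1 + t) ^ 2 + u - R) + so * ((1 - t) ^ 2 + v - R))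
    + 8 / 3 * κ ^ 2 * R + 4 * sx * κ * ((1 + t) * u + (1 - t) * v)
    - me2 / 2 * (u * ((1 - t) ^ 2 + v - R) + v * ((1 + t) ^ 2 + u - R) + 2 * X * c)

/-- Value for the position vector. -/
theorem NN_lin (t R u v c X : ℝ) :
    NN (2 / 3) 2 (2 / 3) 4 1 t R u v c X = 8 * FA t R u v c X := by
  unfold NN FA; ring

/-- Value for `κ = 2`. -/
theorem NN_two (t R u v c X : ℝ) :
    NN (2 / 3) 2 (2 / 3) 4 2 t R u v c X
      = 8 * FA t R u v c X + 8 * R + 8 / 3 * ((1 + t) * u + (1 - t) * v) := by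
  unfold NN FA; ring

/-- the upper bound for `8 d` inside `bud1` -/
private theorem d8_le {t R u v c X d : ℝ} (h : Shp t R u v c X d) :
    8 * d ≤ 8 * (1 - t ^ 2) - 4 * ((1 - t) / (1 + t)) * (R - u)
      - 4 * ((1 + t) / (1 - t)) * (R - v) - 4 * c ^ 2 := by
  have h1 : 0 < 1 + t := by linarith [h.ht1]
  have h2 : 0 < 1 - t := by linarith [h.ht2]
  have hP1 : (1 + t) ^ 2 + u - R ≤ (1 + t) ^ 2 := by linarith [h.hu]
  have hQ1 : (1 - t) ^ 2 + v - R ≤ (1 - t) ^ 2 := by linarith [h.hv]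
  have hP := h.hP
  have hQ := h.hQ
  have hd := h.hd
  have hd2 := h.hd2
  set P := (1 + t) ^ 2 + u - R with hPd
  set Q := (1 - t) ^ 2 + v - R with hQd
  set S := (1 - t) / (1 + t) * P + (1 + t) / (1 - t) * Q with hS
  have hPQ : P * Q ≤ (S / 2) ^ 2 := by
    have e : (S / 2) ^ 2 - P * Q = (((1 - t) / (1 + t) * P - (1 + t) / (1 - t) * Q) / 2) ^ 2 := by
      rw [hS]; field_simp; ring
    nlinarith [sq_nonneg (((1 - t) / (1 + t) * P - (1 + t) / (1 - t) * Q) / 2)]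
  have hS0 : 0 < S := by rw [hS]; positivity
  have hPQ1 : P * Q ≤ 1 := by
    have : P * Q ≤ (1 + t) ^ 2 * (1 - t) ^ 2 := mul_le_mul hP1 hQ1 hQ.le (sq_nonneg _)
    have e : (1 + t) ^ 2 * (1 - t) ^ 2 = (1 - t ^ 2) ^ 2 := by ring
    rw [e] at this
    have : (1 - t ^ 2) ^ 2 ≤ 1 := by
      have h3 : 0 ≤ t ^ 2 := sq_nonneg t
      have h4 : t ^ 2 ≤ 1 := by nlinarith
      nlinarith
    linarith
  have hc : c ^ 2 ≤ 1 := by nlinarith [sq_nonneg d]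
  have hd3 : d ≤ S / 2 - c ^ 2 / 2 := by
    have hr := Real.sq_sqrt (mul_pos hP hQ).le
    set r := Real.sqrt (P * Q) with hrd
    have hr0 : 0 ≤ r := Real.sqrt_nonneg _
    have hr1 : r ≤ 1 := by nlinarith
    have hrS : r ≤ S / 2 := (abs_le_of_sq_le_sq' (by rw [hr]; exact hPQ) (by linarith)).2
    have hdr : d ≤ r := by nlinarith [sq_nonneg c]
    have : d ≤ r - c ^ 2 / 2 := by
      have e : (r - d) * (r + d) = c ^ 2 := by nlinarith
      nlinarith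
    linarith
  have e1 : 4 * S = 8 * (1 - t ^ 2) - 4 * ((1 - t) / (1 + t)) * (R - u)
      - 4 * ((1 + t) / (1 - t)) * (R - v) := by
    rw [hS, hPd, hQd]; field_simp; ring
  linarith

private theorem concave_pos {A B C a b s : ℝ} (hC : 0 ≤ C) (ha : a ≤ s) (hb : s ≤ b)
    (h1 : 0 < A + B * a - C * a ^ 2) (h2 : 0 < A + B * b - C * b ^ 2) :
    0 < A + B * s - C * s ^ 2 := by
  rcases eq_or_lt_of_le ha with h | h
  · rw [← h]; exact h1
  rcases eq_or_lt_of_le hb with h' | h'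
  · rw [h']; exact h2
  have hab : 0 < b - a := by linarith
  have key : (b - a) * (A + B * s - C * s ^ 2) = (b - s) * (A + B * a - C * a ^ 2)
      + (s - a) * (A + B * b - C * b ^ 2) + C * ((s - a) * (b - s) * (b - a)) := by ring
  have q1 := mul_pos (sub_pos.2 h') h1
  have q2 := mul_pos (sub_pos.2 h) h2
  have q3 : 0 ≤ C * ((s - a) * (b - s) * (b - a)) :=
    mul_nonneg hC (mul_nonneg (mul_nonneg (by linarith) (by linarith)) hab.le)
  by_contra hn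
  push Not at hn
  have := mul_nonpos_of_nonneg_of_nonpos hab.le hn
  linarith

private theorem vert1 {τ g R : ℝ} (h0 : 0 ≤ τ) (h1 : τ ≤ 0.2916) (g0 : 0 ≤ g) (g1 : g ≤ 0.4025)
    (R0 : 3 / 20 ≤ R) (R1 : R ≤ 8 / 25) :
    0 < (-2 / 3 + 8 * τ ^ 2 + 4 * g ^ 2 + (51 / 10 + 16 * τ ^ 2) * R - 10 * R ^ 2)
      + ((47 / 24 - 75 / 8 * τ ^ 2 + 11 / 8 * R - 11 / 8 * g) - (151 / 12 * τ + 8 * τ ^ 3))
        * ((4 / 5 - g) * R) - 11 / 16 * ((4 / 5 - g) * R) ^ 2 := by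
  have hR : 0 < R := by linarith
  have hσ0 : 0 ≤ 4 / 5 - g := by linarith
  have hT : 0 ≤ 75 / 8 * τ ^ 2 + (151 / 12 * τ + 8 * τ ^ 3) := by positivity
  have p1 : (4 / 5 - g) * R * (75 / 8 * τ ^ 2 + (151 / 12 * τ + 8 * τ ^ 3)) ≤
      4 / 5 * R * (75 / 8 * τ ^ 2 + (151 / 12 * τ + 8 * τ ^ 3)) := by
    apply mul_le_mul_of_nonneg_right _ hT
    nlinarith
  have p2 : (4 / 5 - g) * R * (11 / 8 * g) ≤ 11 / 10 * R * g := by
    have : 0 ≤ g * R * g := by positivity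
    nlinarith
  have p3 : ((4 / 5 - g) * R) ^ 2 ≤ 16 / 25 * R ^ 2 := by
    rw [mul_pow]
    apply mul_le_mul_of_nonneg_right _ (sq_nonneg R)
    nlinarith
  have p4 : 6.4 * R * τ ^ 3 ≤ 1.9 * R * τ ^ 2 := by
    have : 0 ≤ R * τ ^ 2 * (0.2916 - τ) := by
      apply mul_nonneg (by positivity)
      linarith
    nlinarith [mul_nonneg hR.le (sq_nonneg τ)]
  have p5 : 0 ≤ (8 + 6.6 * R) * τ ^ 2 - 151 / 15 * R * τ + 2.82 * R ^ 2 := by
    have : 0 ≤ (R - 3 / 20) * τ ^ 2 := mul_nonneg (by linarith) (sq_nonneg τ)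
    nlinarith [sq_nonneg (τ - 0.5599 * R)]
  have p6 : 0 ≤ 4 * g ^ 2 - g * R * (47 / 24 + 11 / 10 + 11 / 8 * R) + 0.77 * R ^ 2 := by
    have : g * R * (47 / 24 + 11 / 10 + 11 / 8 * R) ≤ g * R * 3.5 := by
      apply mul_le_mul_of_nonneg_left _ (by positivity)
      linarith
    nlinarith [sq_nonneg (2 * g - 0.875 * R), sq_nonneg R]
  have p7 : 0 < -2 / 3 + 20 / 3 * R - 12.93 * R ^ 2 := by
    nlinarith [mul_nonneg (sub_nonneg.2 R0) (sub_nonneg.2 R1)]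
  nlinarith

private theorem vert2 {τ g R : ℝ} (h0 : 0 ≤ τ) (h1 : τ ≤ 0.2916) (g0 : 0 ≤ g)
    (R0 : 3 / 20 ≤ R) (R1 : R ≤ 8 / 25) :
    0 < (-2 / 3 + 8 * τ ^ 2 + 4 * g ^ 2 + (51 / 10 + 16 * τ ^ 2) * R - 10 * R ^ 2)
      + ((47 / 24 - 75 / 8 * τ ^ 2 + 11 / 8 * R - 11 / 8 * g) - (151 / 12 * τ + 8 * τ ^ 3))
        * R - 11 / 16 * R ^ 2 := by
  have hR : 0 < R := by linarith
  have p4 : 8 * R * τ ^ 3 ≤ 2.34 * R * τ ^ 2 := by
    have : 0 ≤ R * τ ^ 2 * (0.2916 - τ) := by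
      apply mul_nonneg (by positivity)
      linarith
    nlinarith [mul_nonneg hR.le (sq_nonneg τ)]
  have p5 : 0 ≤ (8 + 4.285 * R) * τ ^ 2 - 151 / 12 * R * τ + 4.59 * R ^ 2 := by
    have : 0 ≤ (R - 3 / 20) * τ ^ 2 := mul_nonneg (by linarith) (sq_nonneg τ)
    nlinarith [sq_nonneg (τ - 0.728 * R)]
  have p6 : 0 ≤ 4 * g ^ 2 - 11 / 8 * g * R + 0.12 * R ^ 2 := by
    nlinarith [sq_nonneg (2 * g - 11 / 32 * R), sq_nonneg R]
  have p7 : 0 < -2 / 3 + 847 / 120 * R - 14.0225 * R ^ 2 := by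
    nlinarith [mul_nonneg (sub_nonneg.2 R0) (sub_nonneg.2 R1)]
  nlinarith

private theorem vert3 {τ g R : ℝ} (g0 : 0 ≤ g) (R0 : 3 / 20 ≤ R) (R1 : R ≤ 8 / 25) :
    0 < (-2 / 3 + 8 * τ ^ 2 + 4 * g ^ 2 + (51 / 10 + 16 * τ ^ 2) * R - 10 * R ^ 2)
      + (47 / 24 - 75 / 8 * τ ^ 2 + 11 / 8 * R - 11 / 8 * g) * (2 * R) - 11 / 16 * (2 * R) ^ 2 := by
  have hR : 0 < R := by linarith
  have p5 : 0 ≤ (8 - 2.75 * R) * τ ^ 2 := mul_nonneg (by linarith) (sq_nonneg τ)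
  have p6 : 0 ≤ 4 * g ^ 2 - 11 / 4 * g * R + 0.48 * R ^ 2 := by
    nlinarith [sq_nonneg (2 * g - 11 / 16 * R), sq_nonneg R]
  have p7 : 0 < -2 / 3 + 541 / 60 * R - 10.48 * R ^ 2 := by
    nlinarith [mul_nonneg (sub_nonneg.2 R0) (sub_nonneg.2 R1)]
  nlinarith

private theorem theta_ge {t : ℝ} (h1 : -1 < t) :
    1 - 2 * t + 2 * t ^ 2 - 2 * t ^ 3 ≤ (1 - t) / (1 + t) := by
  have h2 : 0 < 1 + t := by linarith
  rw [le_div_iff₀ h2]
  nlinarith [sq_nonneg (t ^ 2)]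

private theorem main_ineq {t R u v c : ℝ} (ht : t ^ 2 ≤ 17 / 200) (hc : c ^ 2 ≤ 81 / 500)
    (R0 : 3 / 20 ≤ R) (R1 : R ≤ 8 / 25) (hu0 : 0 ≤ u) (hu : u ≤ R) (hv0 : 0 ≤ v) (hv : v ≤ R)
    (hs : (4 / 5 - |c|) * R ≤ u + v) :
    8 * (1 - t ^ 2) - 4 * (1 - 2 * t + 2 * t ^ 2 - 2 * t ^ 3) * (R - u)
      - 4 * (1 + 2 * t + 2 * t ^ 2 + 2 * t ^ 3) * (R - v) - 4 * c ^ 2 + R * (29 / 10 + 10 * R) <
    11 / 2 * (F0 t R u v c + R + 1 / 3 * ((1 + t) * u + (1 - t) * v)) := by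
  have t0 := abs_nonneg t
  have c0 := abs_nonneg c
  have t2 : |t| ^ 2 = t ^ 2 := sq_abs t
  have c2 : |c| ^ 2 = c ^ 2 := sq_abs c
  have t1 : |t| ≤ 0.2916 := by
    by_contra hn
    push Not at hn
    nlinarith
  have c1 : |c| ≤ 0.4025 := by
    by_contra hn
    push Not at hn
    nlinarith
  have v1 := vert1 t0 t1 c0 c1 R0 R1
  have v2 := vert2 t0 t1 c0 R0 R1
  have v3 := vert3 (τ := |t|) c0 R0 R1
  have hR : 0 < R := by linarith
  set A : ℝ := -2 / 3 + 8 * |t| ^ 2 + 4 * |c| ^ 2 + (51 / 10 + 16 * |t| ^ 2) * R - 10 * R ^ 2 with hA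
  set K : ℝ := 47 / 24 - 75 / 8 * |t| ^ 2 + 11 / 8 * R - 11 / 8 * |c| with hK
  set T : ℝ := 151 / 12 * |t| + 8 * |t| ^ 3 with hT
  have T0 : 0 ≤ T := by positivity
  -- the odd term
  have hTt : |151 / 12 * t + 8 * t ^ 3| = T := by
    have e : 151 / 12 * t + 8 * t ^ 3 = t * (151 / 12 + 8 * t ^ 2) := by ring
    rw [e, abs_mul, abs_of_nonneg (show (0 : ℝ) ≤ 151 / 12 + 8 * t ^ 2 by positivity), hT, ← t2]
    ring
  have hw : ∀ m : ℝ, |u - v| ≤ m → -(T * m) ≤ (151 / 12 * t + 8 * t ^ 3) * (u - v) := by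
    intro m hm
    have h1 : |(151 / 12 * t + 8 * t ^ 3) * (u - v)| ≤ T * m := by
      rw [abs_mul, hTt]
      exact mul_le_mul_of_nonneg_left hm T0
    exact (abs_le.1 h1).1
  have key : 11 / 2 * (F0 t R u v c + R + 1 / 3 * ((1 + t) * u + (1 - t) * v)) -
      (8 * (1 - t ^ 2) - 4 * (1 - 2 * t + 2 * t ^ 2 - 2 * t ^ 3) * (R - u)
      - 4 * (1 + 2 * t + 2 * t ^ 2 + 2 * t ^ 3) * (R - v) - 4 * c ^ 2 + R * (29 / 10 + 10 * R)) =
      A + K * (u + v) + (151 / 12 * t + 8 * t ^ 3) * (u - v)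
        - 11 / 16 * ((u + v) ^ 2 - (u - v) ^ 2) := by
    rw [hA, hK, t2, c2]
    unfold F0
    ring
  have hsq : 0 ≤ (u - v) ^ 2 := sq_nonneg _
  rcases le_or_gt (u + v) R with hle | hgt
  · have h1 := concave_pos (A := A) (B := K - T) (C := 11 / 16) (by norm_num) hs hle
      (by linarith) (by linarith)
    have h2 := hw (u + v) (by rw [abs_le]; constructor <;> linarith)
    nlinarith
  · have h1 := concave_pos (A := A - 2 * R * T) (B := K + T) (C := 11 / 16) (a := R) (b := 2 * R)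
      (s := u + v) (by norm_num) hgt.le (by linarith) (by nlinarith) (by nlinarith)
    have h2 := hw (2 * R - (u + v)) (by rw [abs_le]; constructor <;> linarith)
    nlinarith

/-- SQ-RKA (numerically the difference of the two sides is `≥ 3.5 R`). -/
theorem reg_KA {t R u v c X d : ℝ} (h : Shp t R u v c X d)
    (hA : 11 / 2 * FA t R u v c X ≤ 8 * d) (hR : 3 / 20 ≤ R) :
    8 * (8 * d + R * (29 / 10 + 10 * R)) < 11 / 2 * NN (2 / 3) 2 (2 / 3) 4 2 t R u v c X := by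
  obtain ⟨b1, b2, b3⟩ := reg_bounds h hA
  have hs := reg_sigma h hA
  have hm := main_ineq b2 b3 hR b1 h.hu0 h.hu h.hv0 h.hv hs
  have hd := d8_le h
  have hF := F0_le h
  have q1 := mul_le_mul_of_nonneg_right (theta_ge h.ht1) (sub_nonneg.2 h.hu)
  have q2 := mul_le_mul_of_nonneg_right (theta_ge (t := -t) (by linarith [h.ht2]))
    (sub_nonneg.2 h.hv)
  have e1 : (1 - -t) / (1 + -t) = (1 + t) / (1 - t) := by
    rw [sub_neg_eq_add, ← sub_eq_add_neg]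
  rw [e1] at q2
  rw [NN_two]
  nlinarith

end Pool.Agent.Sq4
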