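import Mathlib

/-!
# SQ-RS: the two forms of the middle regime
-/

set_option autoImplicit false

noncomputable section

namespace Pool.Agent.Sq4

/-- Step A: `L Den ≥ N`, with multipliers. -/
def kbA (t R u v g la y mu : ℝ) : ℝ :=
  (11 * R - 17 / 25 + 8 / 9 * R) * (((1 + t) ^ 2 + u - R) * ((1 - t) ^ 2 + v - R) - g ^ 2)
    - (((1 - t) ^ 2 - R) * (R - v) * (4 / 3 * ((1 + t) ^ 2 + u - R) + 4 / 5 * (1 - t) ^ 2)
      + ((1 + t) ^ 2 - R) * (4 / 5 * (((1 + t) ^ 2 - R) * R + (R - ((1 + t) ^ 2 - R)) * u)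
        + 4 / 3 * (((1 - t) ^ 2 + v - R) * (R - u))))
    - (11 * R - 17 / 25) * R * (((1 + t) ^ 2 + u - R) + ((1 - t) ^ 2 + v - R) + 2 * g)
    + la * (11 / 8 * y * (4 / 3 - R + (u + v)
        - (u * ((1 - t) ^ 2 + v - R) + v * ((1 + t) ^ 2 + u - R) + g * (u + v)) / 4)
        - y ^ 2 - ((1 + t) ^ 2 + u - R) * ((1 - t) ^ 2 + v - R) + g ^ 2)
    - mu * (u + v - (4 / 5 - g) * R)

/-- Step B: `(29/10 + 10 R) d ≥ 4/3 (P + Q) + L`, with multipliers. -/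
def kbB (t R u v g la y mu : ℝ) : ℝ :=
  (29 / 10 + 10 * R) * (11 / 16 * (4 / 3 - R + (u + v)
      - (u * ((1 - t) ^ 2 + v - R) + v * ((1 + t) ^ 2 + u - R) + g * (u + v)) / 4))
    - 4 / 3 * (((1 + t) ^ 2 + u - R) + ((1 - t) ^ 2 + v - R)) - (11 * R - 17 / 25)
    + la * (11 / 8 * y * (4 / 3 - R + (u + v)
        - (u * ((1 - t) ^ 2 + v - R) + v * ((1 + t) ^ 2 + u - R) + g * (u + v)) / 4)
        - y ^ 2 - ((1 + t) ^ 2 + u - R) * ((1 - t) ^ 2 + v - R) + g ^ 2)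
    - mu * (u + v - (4 / 5 - g) * R)

end Pool.Agent.Sq4
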