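import Mathlib

/-!
# SQ-RS: the polynomial of the half inequality
-/

set_option autoImplicit false

noncomputable section

namespace Pool.Agent.Sq4

def rsM (t x g : ℝ) : ℝ :=
  (8 / 25 * ((1 - t ^ 2) * (-11 / 16 + 11 / 8 * (1 - x)
      - 11 / 32 * (1 - x) * ((1 - t) ^ 2 + g) - t / 5) + (1 - t) ^ 2 * x)
    + (1 - t ^ 2) * (1 / 60 + t ^ 2 + g ^ 2 / 2 + g / 2)) * ((1 + t) ^ 2 - 8 / 25 * x)
    - (1 - t ^ 2) * (8 / 25) * (1 - x) * x - g * (1 + t) ^ 2 / 2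

end Pool.Agent.Sq4
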