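import Pool.Agent.Sq4.RKA
import Pool.Agent.Sq4.RC

/-!
# SQ-RUA: real inequality for the regime near the square, boundary norm
-/

set_option autoImplicit false

noncomputable section

namespace Pool.Agent.Sq4

open MeasureTheory Pool.Agent.Stk

private theorem ua_D {R g t u v s M d : ℝ} (hR0 : 0 ≤ R) (hR : R ≤ 3 / 20) (hg0 : 0 ≤ g)
    (hg : g ≤ 161 / 400) (ha : t ^ 2 ≤ 17 / 200)
    (hs : s = u + v) (hsg : (4 / 5 - g) * R ≤ s)
    (hu0 : 0 ≤ u) (hu : u ≤ R) (hv0 : 0 ≤ v) (hv : v ≤ R)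
    (hM1 : M = 1 + t ^ 2 - R + (u + v) / 2) (hM2 : M ≤ 1 + t ^ 2)
    (hdg : 11 / 16 * (4 / 3 - R + (u + v)
      - (u * ((1 - t) ^ 2 + v - R) + v * ((1 + t) ^ 2 + u - R) + g * (u + v)) / 4) ≤ d) :
    909/1000 - 715/1000 * R + 39/100 * s ≤ d := by
  have hs0 : 0 ≤ u + v := by linarith
  have hdel : (u - v) ^ 2 ≤ 3 / 20 * (u + v) := by
    have e1 : (u - v) ^ 2 ≤ R * (u + v) := by
      nlinarith only [mul_nonneg hu0 (sub_nonneg.mpr hu), mul_nonneg hv0 (sub_nonneg.mpr hv), mul_nonneg hu0 hv0]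
    have e2 : R * (u + v) ≤ 3 / 20 * (u + v) := mul_le_mul_of_nonneg_right hR hs0
    linarith
  have e1 : u * ((1 - t) ^ 2 + v - R) + v * ((1 + t) ^ 2 + u - R)
      = (u + v) * M - (u - v) * (2 * t + (u - v) / 2) := by rw [hM1]; ring
  rw [e1] at hdg
  have e2 : (u + v) * M ≤ (u + v) * (1 + t ^ 2) := mul_le_mul_of_nonneg_left hM2 hs0
  have e3 : -((u - v) * (2 * t + (u - v) / 2)) ≤ t ^ 2 / 2 + 225/1000 * (u + v) := by
    nlinarith only [sq_nonneg (t + 2 * (u - v)), hdel]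
  have e4 : (u + v) * t ^ 2 ≤ 17/200 * (u + v) := by
    rw [mul_comm]; exact mul_le_mul_of_nonneg_right ha hs0
  have e6 : 11 / 16 * (4 / 3 - R + (u + v)
      - ((u + v) * (1 + 17/200) + t ^ 2 / 2 + 225/1000 * (u + v) + g * (u + v)) / 4) ≤ d := by
    linarith
  have e7 : g * (s - (4 / 5 - g) * R) ≤ 161/400 * (s - (4 / 5 - g) * R) :=
    mul_le_mul_of_nonneg_right hg (by linarith)
  have hgR : 0 ≤ g * g * R := by positivity
  have hgR1 : 0 ≤ g * R := mul_nonneg hg0 hR0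
  have hgR2 : g * R ≤ 161/400 * R := mul_le_mul_of_nonneg_right hg hR0
  have hgR3 : 0 ≤ (161/400 - g) * (g * R) := mul_nonneg (by linarith) hgR1
  rw [← hs] at e6
  nlinarith only [e6, e7, hgR, hgR1, hgR2, ha, hR0, hsg, hgR3]


private theorem ua_Phi {R σ : ℝ} (hR0 : 0 ≤ R) (hR : R ≤ 3 / 20) (h1 : 159 / 400 ≤ σ)
    (h2 : σ ≤ 2) :
    0 < 4 * (20.484 + 102.812 * R - 60.5307 * (R * σ)) * (5 / 12 + σ * (10.3128 + 10.8547 * R - 19.56 * (R * σ)))
      - ((77.849 + 51.41 * R - 24.838 * (R * σ)) ^ 2 - 4 * (20.484 + 102.812 * R - 60.5307 * (R * σ)) * (10.4338 + 6.4257 * R - 3.10475 * (R * σ))) * (R * σ * (2 - σ)) := by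
  obtain ⟨y, hy⟩ : ∃ y, y = 3 / 20 - R := ⟨_, rfl⟩
  obtain ⟨z, hz⟩ : ∃ z, z = σ - 159 / 400 := ⟨_, rfl⟩
  obtain ⟨w, hw⟩ : ∃ w, w = 2 - σ := ⟨_, rfl⟩
  have hy0 : 0 ≤ y := by linarith
  have hz0 : 0 ≤ z := by linarith
  have hw0 : 0 ≤ w := by linarith
  have key : 0 ≤ (61444783793766400/4558226296347) * y^3 * w^4
      + (523097955676979200/4558226296347) * y^3 * z^1 * w^3
      + (400208388089446400/1519408765449) * y^3 * z^2 * w^2
      + (1077735596680806400/4558226296347) * y^3 * z^3 * w^1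
      + (338763604295680000/4558226296347) * y^3 * z^4
      + (3231296785475071168/113955657408675) * R^1 * y^2 * w^4
      + (28183044792259121536/113955657408675) * R^1 * y^2 * z^1 * w^3
      + (7482500247047349952/12661739712075) * R^1 * y^2 * z^2 * w^2
      + (2522442288479008768/4558226296347) * R^1 * y^2 * z^3 * w^1
      + (826812119813324800/4558226296347) * R^1 * y^2 * z^4
      + (212059979797620484426/14244457176084375) * R^2 * y^1 * w^4
      + (1961229777467873938426/14244457176084375) * R^2 * y^1 * z^1 * w^3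
      + (4552099387540922608/12661739712075) * R^2 * y^1 * z^2 * w^2
      + (8676851175835245568/22791131481735) * R^2 * y^1 * z^3 * w^1
      + (656348790906798080/4558226296347) * R^2 * y^1 * z^4
      + (125018531692964158349/45582262963470000000) * R^3 * w^4
      + (358908302709782668838/71222285880421875) * R^3 * z^1 * w^3
      + (30138501074894582456/949630478405625) * R^3 * z^2 * w^2
      + (7265548013328253952/113955657408675) * R^3 * z^3 * w^1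
      + (168300275389153280/4558226296347) * R^3 * z^4 := by positivity
  rw [hy, hz, hw] at key
  have e : 4 * (20.484 + 102.812 * R - 60.5307 * (R * σ)) * (5 / 12 + σ * (10.3128 + 10.8547 * R - 19.56 * (R * σ)))
      - ((77.849 + 51.41 * R - 24.838 * (R * σ)) ^ 2 - 4 * (20.484 + 102.812 * R - 60.5307 * (R * σ)) * (10.4338 + 6.4257 * R - 3.10475 * (R * σ))) * (R * σ * (2 - σ)) - 70 = (61444783793766400/4558226296347) * (3 / 20 - R)^3 * (2 - σ)^4
      + (523097955676979200/4558226296347) * (3 / 20 - R)^3 * (σ - 159 / 400)^1 * (2 - σ)^3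
      + (400208388089446400/1519408765449) * (3 / 20 - R)^3 * (σ - 159 / 400)^2 * (2 - σ)^2
      + (1077735596680806400/4558226296347) * (3 / 20 - R)^3 * (σ - 159 / 400)^3 * (2 - σ)^1
      + (338763604295680000/4558226296347) * (3 / 20 - R)^3 * (σ - 159 / 400)^4
      + (3231296785475071168/113955657408675) * R^1 * (3 / 20 - R)^2 * (2 - σ)^4
      + (28183044792259121536/113955657408675) * R^1 * (3 / 20 - R)^2 * (σ - 159 / 400)^1 * (2 - σ)^3
      + (7482500247047349952/12661739712075) * R^1 * (3 / 20 - R)^2 * (σ - 159 / 400)^2 * (2 - σ)^2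
      + (2522442288479008768/4558226296347) * R^1 * (3 / 20 - R)^2 * (σ - 159 / 400)^3 * (2 - σ)^1
      + (826812119813324800/4558226296347) * R^1 * (3 / 20 - R)^2 * (σ - 159 / 400)^4
      + (212059979797620484426/14244457176084375) * R^2 * (3 / 20 - R)^1 * (2 - σ)^4
      + (1961229777467873938426/14244457176084375) * R^2 * (3 / 20 - R)^1 * (σ - 159 / 400)^1 * (2 - σ)^3
      + (4552099387540922608/12661739712075) * R^2 * (3 / 20 - R)^1 * (σ - 159 / 400)^2 * (2 - σ)^2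
      + (8676851175835245568/22791131481735) * R^2 * (3 / 20 - R)^1 * (σ - 159 / 400)^3 * (2 - σ)^1
      + (656348790906798080/4558226296347) * R^2 * (3 / 20 - R)^1 * (σ - 159 / 400)^4
      + (125018531692964158349/45582262963470000000) * R^3 * (2 - σ)^4
      + (358908302709782668838/71222285880421875) * R^3 * (σ - 159 / 400)^1 * (2 - σ)^3
      + (30138501074894582456/949630478405625) * R^3 * (σ - 159 / 400)^2 * (2 - σ)^2
      + (7265548013328253952/113955657408675) * R^3 * (σ - 159 / 400)^3 * (2 - σ)^1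
      + (168300275389153280/4558226296347) * R^3 * (σ - 159 / 400)^4 := by
    ring
  linarith


private theorem ua_quad {a b c e q x y : ℝ} (ha : 0 < a) (hx : 0 ≤ x) (hy : 0 ≤ y)
    (hq : y ^ 2 ≤ q) (hD : 0 ≤ b ^ 2 - 4 * a * c) (h : (b ^ 2 - 4 * a * c) * q < 4 * a * e) :
    0 < a * x ^ 2 - b * (x * y) + c * y ^ 2 + e := by
  have h1 : (b ^ 2 - 4 * a * c) * y ^ 2 ≤ (b ^ 2 - 4 * a * c) * q :=
    mul_le_mul_of_nonneg_left hq hD
  have h2 : 0 < 4 * a * (a * x ^ 2 - b * (x * y) + c * y ^ 2 + e) := by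
    have e1 : 4 * a * (a * x ^ 2 - b * (x * y) + c * y ^ 2 + e)
        = (2 * a * x - b * y) ^ 2 - (b ^ 2 - 4 * a * c) * y ^ 2 + 4 * a * e := by ring
    have := sq_nonneg (2 * a * x - b * y)
    linarith
  by_contra hn
  push Not at hn
  have := mul_nonpos_of_nonneg_of_nonpos (by linarith : (0:ℝ) ≤ 4 * a) hn
  linarith

private theorem ua_fin {R s g t δ κ : ℝ} (hR0 : 0 < R) (hR : R ≤ 3 / 20) (hg0 : 0 ≤ g)
    (hg : g ≤ 161 / 400) (ha : t ^ 2 ≤ 17 / 200)
    (hsg : (4 / 5 - g) * R ≤ s) (hs2 : s ≤ 2 * R) (hδ : δ ^ 2 ≤ s * (2 * R - s))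
    (hκ1 : 17.16 ≤ κ) (hκ2 : κ ≤ 17.31) :
    0 < 35.244 * ((2 * t + δ / 2) ^ 2 + g ^ 2) * (2 - (1 + t ^ 2 - R + s / 2))
      - (11.008 * (2 * t + δ / 2) ^ 2 + 4.65 * g ^ 2)
        * (40 / 33 * (0.916 + 0.715 * R - 0.39 * s))
      - κ * (t * (2 * t + δ / 2)) + 5 / 12 * R + 24.6675 * (s + t * δ)
      - 10.8547 * (s * (1 + t ^ 2 - R + s / 2) - δ * (2 * t + δ / 2) + g * s)
      - 25 * t ^ 2 - 25 * g ^ 2 - 3.5 * s := by
  have hs0 : 0 ≤ s := by
    have : 0 ≤ (4 / 5 - g) * R := mul_nonneg (by linarith) hR0.le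
    linarith
  obtain ⟨σ, hσ⟩ : ∃ σ, s = R * σ := ⟨s / R, by field_simp⟩
  have hσ1 : 159 / 400 ≤ σ := by
    by_contra hn
    push Not at hn
    have h1 : R * σ < R * (159 / 400) := mul_lt_mul_of_pos_left hn hR0
    nlinarith
  have hσ2 : σ ≤ 2 := by
    by_contra hn
    push Not at hn
    have h1 : R * 2 < R * σ := mul_lt_mul_of_pos_left hn hR0
    nlinarith
  have hPhi := ua_Phi hR0.le hR hσ1 hσ2
  rw [← hσ] at hPhi
  set a := 20.484 + 102.812 * R - 60.5307 * s with hadef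
  set b := 77.849 + 51.41 * R - 24.838 * s with hbdef
  set c := 10.4338 + 6.4257 * R - 3.10475 * s with hcdef
  have ha0 : 0 < a := by rw [hadef]; linarith
  have hb0 : 0 < b := by rw [hbdef]; linarith
  have hD : 0 ≤ b ^ 2 - 4 * a * c := by
    rw [hadef, hbdef, hcdef]
    nlinarith [mul_nonneg hR0.le hR0.le, mul_nonneg hR0.le hs0, mul_nonneg hs0 (sub_nonneg.mpr hs2)]
  have hcond : (b ^ 2 - 4 * a * c) * (s * (2 * R - s))
      < 4 * a * (5 / 12 * R + s * (10.3128 + 10.8547 * R - 19.56 * s)) := by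
    have e1 : 4 * a * (5 / 12 * R + s * (10.3128 + 10.8547 * R - 19.56 * s))
        - (b ^ 2 - 4 * a * c) * (s * (2 * R - s))
        = R * (4 * a * (5 / 12 + σ * (10.3128 + 10.8547 * R - 19.56 * s))
          - (b ^ 2 - 4 * a * c) * (s * (2 - σ))) := by
      have : s * (2 * R - s) = R * (s * (2 - σ)) := by
        nth_rewrite 2 [hσ]; ring
      rw [this]
      nth_rewrite 1 [hσ]
      ring
    have := mul_pos hR0 hPhi
    linarith
  have hquad := ua_quad ha0 (abs_nonneg t) (abs_nonneg δ) (by rw [sq_abs]; exact hδ) hD hcond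
  rw [sq_abs, sq_abs] at hquad
  -- `N² (35.244 (2 - M) - 11.008 iD) ≥ P' N²`
  have h1 : (20.026 + 25.703 * R - 12.419 * s) * (2 * t + δ / 2) ^ 2
      ≤ 35.244 * (2 * t + δ / 2) ^ 2 * (2 - (1 + t ^ 2 - R + s / 2))
        - 11.008 * (2 * t + δ / 2) ^ 2 * (40 / 33 * (0.916 + 0.715 * R - 0.39 * s)) := by
    have := mul_nonneg (sq_nonneg (2 * t + δ / 2)) (show 0 ≤ 35.244 * (2 - (1 + t ^ 2 - R + s / 2))
      - 11.008 * (40 / 33 * (0.916 + 0.715 * R - 0.39 * s))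
      - (20.026 + 25.703 * R - 12.419 * s) by linarith)
    nlinarith only [this]
  have h2 : 2.085 * g ^ 2 ≤ 35.244 * g ^ 2 * (2 - (1 + t ^ 2 - R + s / 2))
        - 4.65 * g ^ 2 * (40 / 33 * (0.916 + 0.715 * R - 0.39 * s)) - 25 * g ^ 2 := by
    have := mul_nonneg (sq_nonneg g) (show 0 ≤ 35.244 * (2 - (1 + t ^ 2 - R + s / 2))
      - 4.65 * (40 / 33 * (0.916 + 0.715 * R - 0.39 * s)) - 25 - 2.085 by linarith)
    nlinarith only [this]
  have h3 : 0 ≤ 2.085 * g ^ 2 - 10.8547 * (g * s) + 14.1277 * s ^ 2 := by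
    nlinarith only [sq_nonneg (4.17 * g - 10.8547 * s), sq_nonneg s]
  have h4 : -(b * (|t| * |δ|)) ≤ (2 * (20.026 + 25.703 * R - 12.419 * s) - κ / 2 + 46.3769)
      * (t * δ) := by
    have hb1 : 0 ≤ 2 * (20.026 + 25.703 * R - 12.419 * s) - κ / 2 + 46.3769 := by linarith
    have hb2 : 2 * (20.026 + 25.703 * R - 12.419 * s) - κ / 2 + 46.3769 ≤ b := by
      rw [hbdef]; linarith
    have h5 : |(2 * (20.026 + 25.703 * R - 12.419 * s) - κ / 2 + 46.3769) * (t * δ)|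
        ≤ b * (|t| * |δ|) := by
      rw [abs_mul, abs_mul, abs_of_nonneg hb1]
      exact mul_le_mul_of_nonneg_right hb2 (by positivity)
    exact (abs_le.mp h5).1
  have h5 : a * t ^ 2 ≤ (4 * (20.026 + 25.703 * R - 12.419 * s) - 2 * κ - 10.8547 * s - 25)
      * t ^ 2 := by
    apply mul_le_mul_of_nonneg_right _ (sq_nonneg t)
    rw [hadef]; linarith
  have h6 : c * δ ^ 2 ≤ ((20.026 + 25.703 * R - 12.419 * s) / 4 + 5.42735) * δ ^ 2 := by
    apply mul_le_mul_of_nonneg_right _ (sq_nonneg δ)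
    rw [hcdef]; linarith
  nlinarith only [hquad, h1, h2, h3, h4, h5, h6, sq_nonneg s]


private theorem ua_all {R s g t δ κ : ℝ} (hR0 : 0 ≤ R) (hR : R ≤ 3 / 20) (hg0 : 0 ≤ g)
    (hg : g ≤ 161 / 400) (ha : t ^ 2 ≤ 17 / 200)
    (hsg : (4 / 5 - g) * R ≤ s) (hs2 : s ≤ 2 * R) (hδ : δ ^ 2 ≤ s * (2 * R - s))
    (hκ1 : 17.16 ≤ κ) (hκ2 : κ ≤ 17.31) (hne : ¬ (t = 0 ∧ R = 0 ∧ g = 0)) :
    0 < 35.244 * ((2 * t + δ / 2) ^ 2 + g ^ 2) * (2 - (1 + t ^ 2 - R + s / 2))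
      - (11.008 * (2 * t + δ / 2) ^ 2 + 4.65 * g ^ 2)
        * (40 / 33 * (0.916 + 0.715 * R - 0.39 * s))
      - κ * (t * (2 * t + δ / 2)) + 5 / 12 * R + 24.6675 * (s + t * δ)
      - 10.8547 * (s * (1 + t ^ 2 - R + s / 2) - δ * (2 * t + δ / 2) + g * s)
      - 25 * t ^ 2 - 25 * g ^ 2 - 3.5 * s := by
  rcases eq_or_lt_of_le hR0 with hR' | hR'
  · subst hR'
    have hs : s = 0 := by linarith
    subst hs
    have hδ0 : δ = 0 := by
      have : δ ^ 2 ≤ 0 := by linarith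
      exact pow_eq_zero_iff (two_ne_zero) |>.mp (le_antisymm this (sq_nonneg δ))
    subst hδ0
    have h1 : 0 < t ^ 2 + g ^ 2 := by
      by_contra hn
      push Not at hn
      apply hne
      refine ⟨?_, rfl, ?_⟩
      · exact pow_eq_zero_iff (two_ne_zero) |>.mp (by linarith [sq_nonneg t, sq_nonneg g])
      · exact pow_eq_zero_iff (two_ne_zero) |>.mp (by linarith [sq_nonneg t, sq_nonneg g])
    have h2 : t ^ 2 * t ^ 2 ≤ 17 / 200 * t ^ 2 := mul_le_mul_of_nonneg_right ha (sq_nonneg t)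
    have h3 : g ^ 2 * t ^ 2 ≤ 17 / 200 * g ^ 2 := by
      rw [mul_comm]; exact mul_le_mul_of_nonneg_right ha (sq_nonneg g)
    have h4 : κ * t ^ 2 ≤ 17.31 * t ^ 2 := mul_le_mul_of_nonneg_right hκ2 (sq_nonneg t)
    nlinarith only [h1, h2, h3, h4, sq_nonneg t, sq_nonneg g]
  · exact ua_fin hR' hR hg0 hg ha hsg hs2 hδ hκ1 hκ2

/-- SQ-RUA (numerically the difference of the two sides is `≥ 5 (t² + c² + R)`). -/
theorem reg_UA {t R u v c X d so se sx me2 E1 E2 K m : ℝ} (h : Shp t R u v c X d)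
    (hA : 11 / 2 * FA t R u v c X ≤ 8 * d) (hR : R ≤ 3 / 20)
    (hso : 1.211 < so ∧ so < 1.213) (hse : 1.993 < se ∧ se < 1.996) (hsx : 0.897 < sx)
    (hme : me2 < 3.94) (hE2 : E2 < 0.344) (hK : 4.13 < K) (hE : E1 + E2 = m / 4 * (so + se))
    (hm : 5.5 < m ∧ m < 5.51) (hne : ¬ (t = 0 ∧ R = 0 ∧ c = 0)) :
    8 * ((2 * ((1 + t) ^ 2 + u - R) * ((1 - t) ^ 2 + v - R) * E1
      + (((1 + t) ^ 2 + u - R) ^ 2 + ((1 - t) ^ 2 + v - R) ^ 2) * E2 - 2 * c ^ 2 * K) / d)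
      + (25 * t ^ 2 + 25 * c ^ 2 + 7 / 2 * (u + v) + 45 / 2 * R)
      < m * NN so se sx me2 (5 / 4) t R u v c X := by
  obtain ⟨_, htA, hcA⟩ := reg_bounds h hA
  obtain ⟨hm1, hm2⟩ := hm
  obtain ⟨hso1, hso2⟩ := hso
  obtain ⟨hse1, hse2⟩ := hse
  have hsig := reg_sigma h hA
  have hdg := d_ge h hA
  have hu0 := h.hu0
  have hu := h.hu
  have hv0 := h.hv0
  have hv := h.hv
  have hR0 : 0 ≤ R := hu0.trans hu
  have hd := h.hd
  have hd2 := h.hd2
  have hP := h.hP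
  have hQ := h.hQ
  have hX2 := two_X_le h
  have hX := h.hX
  have ht1 := h.ht1
  have ht2 := h.ht2
  unfold F0 at hdg
  have hg0 : 0 ≤ |c| := abs_nonneg c
  have hc2 : |c| ^ 2 = c ^ 2 := sq_abs c
  have hg : |c| ≤ 161 / 400 := by
    by_contra hn
    push Not at hn
    have := pow_lt_pow_left₀ hn (by norm_num) (two_ne_zero)
    norm_num at this
    linarith
  obtain ⟨M, hM⟩ : ∃ M, M = 1 + t ^ 2 - R + (u + v) / 2 := ⟨_, rfl⟩
  obtain ⟨N, hN⟩ : ∃ N, N = 2 * t + (u - v) / 2 := ⟨_, rfl⟩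
  have hM2 : M ≤ 1 + t ^ 2 := by rw [hM]; linarith
  have hPM : (1 + t) ^ 2 + u - R = M + N := by rw [hM, hN]; ring
  have hQM : (1 - t) ^ 2 + v - R = M - N := by rw [hM, hN]; ring
  have hD := ua_D hR0 hR hg0 hg htA rfl hsig hu0 hu hv0 hv hM hM2 hdg
  -- the sign of `Z`
  have hZ0 : 0 ≤ u * ((1 - t) ^ 2 + v - R) + v * ((1 + t) ^ 2 + u - R) + 2 * X * c := by
    have h0 : 0 ≤ u * ((1 - t) ^ 2 + v - R) + v * ((1 + t) ^ 2 + u - R) := by positivity
    have h1 : (2 * X * c) ^ 2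
        ≤ (u * ((1 - t) ^ 2 + v - R) + v * ((1 + t) ^ 2 + u - R)) ^ 2 := by
      have e1 : (2 * X * c) ^ 2 = 4 * (u * v) * c ^ 2 := by
        rw [← hX]; ring
      have e2 : c ^ 2 ≤ ((1 + t) ^ 2 + u - R) * ((1 - t) ^ 2 + v - R) := by
        have := sq_nonneg d
        linarith
      have e3 : 4 * (u * v) * c ^ 2
          ≤ 4 * (u * v) * (((1 + t) ^ 2 + u - R) * ((1 - t) ^ 2 + v - R)) :=
        mul_le_mul_of_nonneg_left e2 (by positivity)
      have e4 := sq_nonneg (u * ((1 - t) ^ 2 + v - R) - v * ((1 + t) ^ 2 + u - R))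
      rw [e1]
      nlinarith only [e3, e4]
    have := (abs_le_of_sq_le_sq' h1 h0).1
    linarith
  have hZ1 : u * ((1 - t) ^ 2 + v - R) + v * ((1 + t) ^ 2 + u - R) + 2 * X * c
      ≤ (u + v) * M - (u - v) * N + |c| * (u + v) := by
    have h1 : 2 * X * c ≤ |c| * (u + v) := by
      have e1 : X * c ≤ |X| * |c| := by rw [← abs_mul]; exact le_abs_self _
      nlinarith only [e1, mul_le_mul_of_nonneg_left hX2 hg0]
    rw [hPM, hQM]
    linarith
  -- `M - d`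
  rw [hPM] at hP
  rw [hQM] at hQ
  rw [hPM, hQM] at hd2
  have hM0 : 0 < M := by linarith
  have hMd : (M - d) * (M + d) = N ^ 2 + c ^ 2 := by linear_combination -hd2
  have hMd0 : 0 ≤ M - d := by
    by_contra hn
    push Not at hn
    have := mul_neg_of_neg_of_pos hn (by linarith : 0 < M + d)
    nlinarith [sq_nonneg N, sq_nonneg c]
  have hMd1 : (N ^ 2 + c ^ 2) * (2 - M) ≤ 2 * (M - d) := by
    have e1 : (N ^ 2 + c ^ 2) * (2 - M) * M ≤ N ^ 2 + c ^ 2 := by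
      have : 0 ≤ (N ^ 2 + c ^ 2) * (M - 1) ^ 2 := by positivity
      nlinarith only [this]
    have e2 : N ^ 2 + c ^ 2 ≤ 2 * (M - d) * M := by
      rw [← hMd]
      nlinarith only [mul_nonneg hMd0 hMd0]
    exact le_of_mul_le_mul_right (e1.trans e2) hM0
  -- constants
  have hA1 : 70.488 ≤ 4 * m * (so + se) := by nlinarith only [hm1, hso1, hse1]
  have hA2 : 4 * m * (so + se) ≤ 70.727 := by nlinarith only [hm1, hm2, hso1, hso2, hse1, hse2]
  have hκ1 : 17.16 ≤ 4 * m * (se - so) := by nlinarith only [hm1, hso2, hse1]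
  have hκ2 : 4 * m * (se - so) ≤ 17.31 := by nlinarith only [hm1, hm2, hso1, hso2, hse1, hse2]
  have hδ : (u - v) ^ 2 ≤ (u + v) * (2 * R - (u + v)) := by
    nlinarith only [mul_nonneg hu0 (sub_nonneg.mpr hu), mul_nonneg hv0 (sub_nonneg.mpr hv)]
  have hfin := ua_all (g := |c|) (s := u + v) (δ := u - v) (κ := 4 * m * (se - so)) hR0 hR hg0 hg
    htA hsig (by linarith) hδ hκ1 hκ2 (by rw [abs_eq_zero]; exact hne)
  rw [← hM, ← hN, hc2] at hfin
  -- the energy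
  have hE1 : E1 = m / 4 * (so + se) - E2 := by linarith
  have hnum : 8 * ((2 * (M + N) * (M - N) * E1 + ((M + N) ^ 2 + (M - N) ^ 2) * E2
      - 2 * c ^ 2 * K) / d)
      = 4 * m * (so + se) * d
        + (4 * m * (so + se) * c ^ 2 + 32 * N ^ 2 * E2 - 16 * c ^ 2 * K) / d := by
    have e : 8 * (2 * (M + N) * (M - N) * E1 + ((M + N) ^ 2 + (M - N) ^ 2) * E2
      - 2 * c ^ 2 * K) = 4 * m * (so + se) * d * d
        + (4 * m * (so + se) * c ^ 2 + 32 * N ^ 2 * E2 - 16 * c ^ 2 * K) := by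
      rw [hE1]
      linear_combination (-4 * m * (so + se)) * hd2
    rw [← mul_div_assoc, e, add_div, mul_div_assoc, div_self hd.ne', mul_one]
  obtain ⟨iD, hiD⟩ : ∃ iD, iD = 40 / 33 * (0.916 + 0.715 * R - 0.39 * (u + v)) := ⟨_, rfl⟩
  have hiD0 : 0 ≤ iD := by rw [hiD]; linarith
  have hs1 : 159 / 400 * R ≤ u + v := by
    have : 0 ≤ (161 / 400 - |c|) * R := mul_nonneg (by linarith) hR0
    linarith
  have hiD1 : 1 ≤ iD * d := by
    have e1 : iD * (909/1000 - 715/1000 * R + 39/100 * (u + v)) ≤ iD * d :=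
      mul_le_mul_of_nonneg_left hD hiD0
    have e2 : 0 ≤ ((909/1000 - 715/1000 * R + 39/100 * (u + v)) - 0.825)
        * (1 - (909/1000 - 715/1000 * R + 39/100 * (u + v))) :=
      mul_nonneg (by linarith) (by linarith)
    rw [hiD] at e1 ⊢
    nlinarith only [e1, e2]
  have hW : (4 * m * (so + se) * c ^ 2 + 32 * N ^ 2 * E2 - 16 * c ^ 2 * K) / d
      ≤ (11.008 * N ^ 2 + 4.65 * c ^ 2) * iD := by
    rw [div_le_iff₀ hd]
    have e1 : 4 * m * (so + se) * c ^ 2 ≤ 70.727 * c ^ 2 :=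
      mul_le_mul_of_nonneg_right hA2 (sq_nonneg c)
    have e2 : N ^ 2 * E2 ≤ N ^ 2 * 0.344 := mul_le_mul_of_nonneg_left hE2.le (sq_nonneg N)
    have e3 : c ^ 2 * 4.13 ≤ c ^ 2 * K := mul_le_mul_of_nonneg_left hK.le (sq_nonneg c)
    have e4 : 0 ≤ 11.008 * N ^ 2 + 4.65 * c ^ 2 := by positivity
    have e5 : (11.008 * N ^ 2 + 4.65 * c ^ 2) * 1
        ≤ (11.008 * N ^ 2 + 4.65 * c ^ 2) * (iD * d) := mul_le_mul_of_nonneg_left hiD1 e4
    have := sq_nonneg c
    linarith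
  rw [← hiD] at hfin
  rw [hPM, hQM, hnum]
  unfold NN
  rw [hPM, hQM]
  rw [hPM, hQM] at hZ0 hZ1
  have hsc := sq_nonneg c
  have f1 : 70.488 * ((N ^ 2 + c ^ 2) * (2 - M) / 2) ≤ 4 * m * (so + se) * (M - d) := by
    have e1 : 70.488 * (M - d) ≤ 4 * m * (so + se) * (M - d) :=
      mul_le_mul_of_nonneg_right hA1 hMd0
    linarith
  have f2 : 24.6675 * ((1 + t) * u + (1 - t) * v) ≤ m * (5 * sx * ((1 + t) * u + (1 - t) * v)) := by
    have e0 : 0 ≤ (1 + t) * u + (1 - t) * v := by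
      have e1 := mul_nonneg (by linarith : 0 ≤ 1 + t) hu0
      have e2 := mul_nonneg (by linarith : 0 ≤ 1 - t) hv0
      linarith
    have e1 : 4.9335 ≤ m * sx := by nlinarith only [hm1, hsx]
    have e2 := mul_le_mul_of_nonneg_right e1 e0
    linarith
  have f3 : m * (me2 / 2 * (u * (M - N) + v * (M + N) + 2 * X * c))
      ≤ 10.8547 * ((u + v) * M - (u - v) * N + |c| * (u + v)) := by
    have e1 : m * me2 ≤ 21.7094 := by nlinarith only [hm1, hm2, hme]
    have e2 := mul_le_mul_of_nonneg_right e1 hZ0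
    linarith
  have f4 : 5.5 * R ≤ m * R := mul_le_mul_of_nonneg_right hm1.le hR0
  have e : m * (2 * (1 + t) * (so * (M + N) + se * (M - N))
      + 2 * (1 - t) * (se * (M + N) + so * (M - N)) + 8 / 3 * (5 / 4) ^ 2 * R
      + 4 * sx * (5 / 4) * ((1 + t) * u + (1 - t) * v)
      - me2 / 2 * (u * (M - N) + v * (M + N) + 2 * X * c))
      = 4 * m * (so + se) * M - 4 * m * (se - so) * (t * N) + 25 / 6 * (m * R)
        + m * (5 * sx * ((1 + t) * u + (1 - t) * v))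
        - m * (me2 / 2 * (u * (M - N) + v * (M + N) + 2 * X * c)) := by ring
  rw [e]
  nlinarith only [hfin, f1, f2, f3, f4, hW]

end Pool.Agent.Sq4
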