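import Pool.Agent.Sq4.Alpha

/-!
# SQ-UC: constants of the eigenfunction of the square
-/

set_option autoImplicit false

noncomputable section

namespace Pool.Agent.Sq4

open MeasureTheory Pool.Agent.Stk

/-! ### Taylor bounds -/

private theorem nonneg_of_hd (f f' : ℝ → ℝ) (h0 : f 0 = 0) (hd : ∀ x, HasDerivAt f (f' x) x)
    (hf' : ∀ x, 0 ≤ x → 0 ≤ f' x) (x : ℝ) (hx : 0 ≤ x) : 0 ≤ f x := by
  have hm : MonotoneOn f (Set.Ici 0) := by
    apply monotoneOn_of_deriv_nonneg (convex_Ici 0)
    · exact fun y _ => (hd y).continuousAt.continuousWithinAt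
    · exact fun y _ => (hd y).differentiableAt.differentiableWithinAt
    · intro y hy
      rw [interior_Ici] at hy
      rw [(hd y).deriv]
      exact hf' y hy.le
  have := hm (Set.mem_Ici.2 le_rfl) (Set.mem_Ici.2 hx) hx
  rwa [h0] at this

private theorem s3 (x : ℝ) (hx : 0 ≤ x) : 0 ≤ Real.sin x - (x - x ^ 3 / 6) := by
  refine nonneg_of_hd (fun x => Real.sin x - (x - x ^ 3 / 6)) (fun x => Real.cos x - (1 - x ^ 2 / 2))
    (by simp) (fun x => ?_) (fun x _ => ?_) x hx
  · have h := (Real.hasDerivAt_sin x).sub ((hasDerivAt_id x).sub (((hasDerivAt_id x).pow 3).div_const 6))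
    exact h.congr_deriv (by simp; ring)
  · have := Real.one_sub_sq_div_two_le_cos (x := x)
    linarith

private theorem c4 (x : ℝ) (hx : 0 ≤ x) : 0 ≤ (1 - x ^ 2 / 2 + x ^ 4 / 24) - Real.cos x := by
  refine nonneg_of_hd (fun x => (1 - x ^ 2 / 2 + x ^ 4 / 24) - Real.cos x)
    (fun x => Real.sin x - (x - x ^ 3 / 6)) (by simp) (fun x => ?_) (fun x h => s3 x h) x hx
  have h := ((((hasDerivAt_const x (1 : ℝ)).sub (((hasDerivAt_id x).pow 2).div_const 2))).add
    (((hasDerivAt_id x).pow 4).div_const 24)).sub (Real.hasDerivAt_cos x)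
  exact h.congr_deriv (by simp; ring)

private theorem s5 (x : ℝ) (hx : 0 ≤ x) : 0 ≤ (x - x ^ 3 / 6 + x ^ 5 / 120) - Real.sin x := by
  refine nonneg_of_hd (fun x => (x - x ^ 3 / 6 + x ^ 5 / 120) - Real.sin x)
    (fun x => (1 - x ^ 2 / 2 + x ^ 4 / 24) - Real.cos x) (by simp) (fun x => ?_)
    (fun x h => c4 x h) x hx
  have h := ((((hasDerivAt_id x).sub (((hasDerivAt_id x).pow 3).div_const 6))).add
    (((hasDerivAt_id x).pow 5).div_const 120)).sub (Real.hasDerivAt_sin x)
  exact h.congr_deriv (by simp; ring)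

private theorem c6 (x : ℝ) (hx : 0 ≤ x) :
    0 ≤ Real.cos x - (1 - x ^ 2 / 2 + x ^ 4 / 24 - x ^ 6 / 720) := by
  refine nonneg_of_hd (fun x => Real.cos x - (1 - x ^ 2 / 2 + x ^ 4 / 24 - x ^ 6 / 720))
    (fun x => (x - x ^ 3 / 6 + x ^ 5 / 120) - Real.sin x) (by simp) (fun x => ?_)
    (fun x h => s5 x h) x hx
  have h := (Real.hasDerivAt_cos x).sub (((((hasDerivAt_const x (1 : ℝ)).sub
    (((hasDerivAt_id x).pow 2).div_const 2))).add
    (((hasDerivAt_id x).pow 4).div_const 24)).sub (((hasDerivAt_id x).pow 6).div_const 720))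
  exact h.congr_deriv (by simp; ring)

private theorem s7 (x : ℝ) (hx : 0 ≤ x) :
    0 ≤ Real.sin x - (x - x ^ 3 / 6 + x ^ 5 / 120 - x ^ 7 / 5040) := by
  refine nonneg_of_hd (fun x => Real.sin x - (x - x ^ 3 / 6 + x ^ 5 / 120 - x ^ 7 / 5040))
    (fun x => Real.cos x - (1 - x ^ 2 / 2 + x ^ 4 / 24 - x ^ 6 / 720)) (by simp) (fun x => ?_)
    (fun x h => c6 x h) x hx
  have h := (Real.hasDerivAt_sin x).sub (((((hasDerivAt_id x).sub
    (((hasDerivAt_id x).pow 3).div_const 6))).add
    (((hasDerivAt_id x).pow 5).div_const 120)).sub (((hasDerivAt_id x).pow 7).div_const 5040))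
  exact h.congr_deriv (by simp; ring)

private theorem c8 (x : ℝ) (hx : 0 ≤ x) :
    0 ≤ (1 - x ^ 2 / 2 + x ^ 4 / 24 - x ^ 6 / 720 + x ^ 8 / 40320) - Real.cos x := by
  refine nonneg_of_hd
    (fun x => (1 - x ^ 2 / 2 + x ^ 4 / 24 - x ^ 6 / 720 + x ^ 8 / 40320) - Real.cos x)
    (fun x => Real.sin x - (x - x ^ 3 / 6 + x ^ 5 / 120 - x ^ 7 / 5040)) (by simp) (fun x => ?_)
    (fun x h => s7 x h) x hx
  have h := ((((((hasDerivAt_const x (1 : ℝ)).sub
    (((hasDerivAt_id x).pow 2).div_const 2))).add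
    (((hasDerivAt_id x).pow 4).div_const 24)).sub (((hasDerivAt_id x).pow 6).div_const 720)).add
    (((hasDerivAt_id x).pow 8).div_const 40320)).sub (Real.hasDerivAt_cos x)
  exact h.congr_deriv (by simp; ring)

private theorem s9 (x : ℝ) (hx : 0 ≤ x) :
    0 ≤ (x - x ^ 3 / 6 + x ^ 5 / 120 - x ^ 7 / 5040 + x ^ 9 / 362880) - Real.sin x := by
  refine nonneg_of_hd
    (fun x => (x - x ^ 3 / 6 + x ^ 5 / 120 - x ^ 7 / 5040 + x ^ 9 / 362880) - Real.sin x)
    (fun x => (1 - x ^ 2 / 2 + x ^ 4 / 24 - x ^ 6 / 720 + x ^ 8 / 40320) - Real.cos x)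
    (by simp) (fun x => ?_) (fun x h => c8 x h) x hx
  have h := ((((((hasDerivAt_id x).sub
    (((hasDerivAt_id x).pow 3).div_const 6))).add
    (((hasDerivAt_id x).pow 5).div_const 120)).sub (((hasDerivAt_id x).pow 7).div_const 5040)).add
    (((hasDerivAt_id x).pow 9).div_const 362880)).sub (Real.hasDerivAt_sin x)
  exact h.congr_deriv (by simp; ring)

private theorem sin_r0 : 0.80607 < Real.sin 0.9375 ∧ Real.sin 0.9375 < 0.80609 := by
  have h1 := s7 0.9375 (by norm_num)
  have h2 := s9 0.9375 (by norm_num)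
  norm_num at h1 h2 ⊢
  constructor <;> linarith

private theorem sin_r1 : 0.80613 < Real.sin 0.9376 ∧ Real.sin 0.9376 < 0.80615 := by
  have h1 := s7 0.9376 (by norm_num)
  have h2 := s9 0.9376 (by norm_num)
  norm_num at h1 h2 ⊢
  constructor <;> linarith

private theorem cos_r0 : 0.59178 < Real.cos 0.9375 ∧ Real.cos 0.9375 < 0.59181 := by
  have h1 := c6 0.9375 (by norm_num)
  have h2 := c8 0.9375 (by norm_num)
  norm_num at h1 h2 ⊢
  constructor <;> linarith

private theorem cos_r1 : 0.5917 < Real.cos 0.9376 ∧ Real.cos 0.9376 < 0.59173 := by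
  have h1 := c6 0.9376 (by norm_num)
  have h2 := c8 0.9376 (by norm_num)
  norm_num at h1 h2 ⊢
  constructor <;> linarith

private theorem exp_r0 : 2.553586 < Real.exp 0.9375 ∧ Real.exp 0.9375 < 2.553592 := by
  have h1 := Real.sum_le_exp_of_nonneg (x := 0.9375) (by norm_num) 9
  have h2 := Real.exp_bound' (x := 0.9375) (by norm_num) (by norm_num) (n := 9) (by norm_num)
  simp only [Finset.sum_range_succ, Finset.sum_range_zero, Nat.factorial] at h1 h2
  norm_num at h1 h2 ⊢
  constructor <;> linarith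

private theorem exp_r1 : 2.553841 < Real.exp 0.9376 ∧ Real.exp 0.9376 < 2.553848 := by
  have h1 := Real.sum_le_exp_of_nonneg (x := 0.9376) (by norm_num) 9
  have h2 := Real.exp_bound' (x := 0.9376) (by norm_num) (by norm_num) (n := 9) (by norm_num)
  simp only [Finset.sum_range_succ, Finset.sum_range_zero, Nat.factorial] at h1 h2
  norm_num at h1 h2 ⊢
  constructor <;> linarith

/-- bounds of `cosh`, `sinh` from bounds of `exp` -/
private theorem ch_sh_of (x e0 e1 i0 i1 : ℝ) (h0 : e0 < Real.exp x) (h1 : Real.exp x < e1)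
    (he0 : 0 < e0) (hi0 : i0 * e1 ≤ 1) (hi1 : 1 ≤ i1 * e0) :
    (e0 + i0) / 2 < Real.cosh x ∧ Real.cosh x < (e1 + i1) / 2 ∧
      (e0 - i1) / 2 < Real.sinh x ∧ Real.sinh x < (e1 - i0) / 2 := by
  have hp := Real.exp_pos x
  have hm : Real.exp (-x) = 1 / Real.exp x := by rw [Real.exp_neg]; ring
  have he1 : 0 < e1 := hp.trans h1
  have h2 : i0 ≤ Real.exp (-x) := by
    rw [hm, le_div_iff₀ hp]
    by_cases hi : 0 ≤ i0
    · nlinarith
    · nlinarith
  have h3 : Real.exp (-x) ≤ i1 := by
    rw [hm, div_le_iff₀ hp]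
    have : 0 < i1 := by
      by_contra hc
      push Not at hc
      nlinarith
    nlinarith
  rw [Real.cosh_eq, Real.sinh_eq]
  refine ⟨?_, ?_, ?_, ?_⟩ <;> linarith

private theorem r0_hyp : 1.47259 < Real.cosh 0.9375 ∧ Real.cosh 0.9375 < 1.4726 ∧
    1.08098 < Real.sinh 0.9375 ∧ Real.sinh 0.9375 < 1.081 := by
  have h := ch_sh_of 0.9375 2.553586 2.553592 0.391605 0.391607 exp_r0.1 exp_r0.2 (by norm_num)
    (by norm_num) (by norm_num)
  refine ⟨?_, ?_, ?_, ?_⟩ <;> linarith [h.1, h.2.1, h.2.2.1, h.2.2.2]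

private theorem r1_hyp : 1.4727 < Real.cosh 0.9376 ∧ Real.cosh 0.9376 < 1.47271 ∧
    1.08113 < Real.sinh 0.9376 ∧ Real.sinh 0.9376 < 1.08115 := by
  have h := ch_sh_of 0.9376 2.553841 2.553848 0.391565 0.391568 exp_r1.1 exp_r1.2 (by norm_num)
    (by norm_num) (by norm_num)
  refine ⟨?_, ?_, ?_, ?_⟩ <;> linarith [h.1, h.2.1, h.2.2.1, h.2.2.2]

/-! ### a smaller interval for `al` -/

private theorem pi_big : (1.5 : ℝ) < Real.pi / 2 := by
  have := Real.pi_gt_three
  linarith

private theorem al_gt' : 0.9375 < al := by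
  by_contra hc
  push Not at hc
  have h1 := al_gt
  have h2 := al_eq
  have hpi := pi_big
  have hs : Real.sin al ≤ Real.sin 0.9375 :=
    Real.sin_le_sin_of_le_of_le_pi_div_two (by linarith) (by linarith) hc
  have hcs : Real.cos 0.9375 ≤ Real.cos al :=
    Real.cos_le_cos_of_nonneg_of_le_pi (by linarith) (by linarith) hc
  have hsh : Real.sinh al ≤ Real.sinh 0.9375 := Real.sinh_le_sinh.2 hc
  have hs0 : 0 ≤ Real.sin al := by
    apply Real.sin_nonneg_of_nonneg_of_le_pi <;> linarith
  have hsh0 : 0 ≤ Real.sinh al := Real.sinh_nonneg_iff.2 (by linarith)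
  have hch : Real.cosh al ^ 2 = Real.sinh al ^ 2 + 1 := Real.cosh_sq al
  have hcsq := Real.sin_sq_add_cos_sq al
  have hch1 : 1 ≤ Real.cosh al := Real.one_le_cosh al
  have hc0 : 0 ≤ Real.cos al := by
    apply Real.cos_nonneg_of_mem_Icc
    constructor <;> linarith
  -- tan al = coth al, but tan <= tan r and coth >= coth r
  obtain ⟨a1, a2, a3, a4⟩ := r0_hyp
  obtain ⟨b1, b2⟩ := sin_r0
  obtain ⟨d1, d2⟩ := cos_r0
  -- s * sh = c * ch ; squared: s^2 sh^2 = c^2 (sh^2+1) => sh^2 (s^2 - c^2) = c^2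
  have h3 : Real.sinh al ^ 2 * (Real.sin al ^ 2 - Real.cos al ^ 2) = Real.cos al ^ 2 := by
    have : Real.cos al ^ 2 * Real.cosh al ^ 2 = Real.sin al ^ 2 * Real.sinh al ^ 2 := by
      have := congrArg (fun z => z ^ 2) h2
      simp only [mul_pow] at this
      exact this
    rw [hch] at this
    nlinarith
  have h4 : Real.sin al ^ 2 - Real.cos al ^ 2 = 1 - 2 * Real.cos al ^ 2 := by linarith
  rw [h4] at h3
  have h5 : (0.59178 : ℝ) < Real.cos al := lt_of_lt_of_le d1 hcs
  have h6 : Real.sinh al ^ 2 ≤ 1.081 ^ 2 := by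
    have : Real.sinh al ≤ 1.081 := by linarith
    nlinarith
  have h7 : (0.59178 : ℝ) ^ 2 < Real.cos al ^ 2 := by nlinarith
  nlinarith

private theorem al_lt' : al < 0.9376 := by
  by_contra hc
  push Not at hc
  have h1 := al_lt
  have h2 := al_eq
  have hpi := pi_big
  have hcs : Real.cos al ≤ Real.cos 0.9376 :=
    Real.cos_le_cos_of_nonneg_of_le_pi (by norm_num) (by linarith) hc
  have hsh : Real.sinh 0.9376 ≤ Real.sinh al := Real.sinh_le_sinh.2 hc
  have hch : Real.cosh al ^ 2 = Real.sinh al ^ 2 + 1 := Real.cosh_sq al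
  have hcsq := Real.sin_sq_add_cos_sq al
  have hc0 : 0 ≤ Real.cos al := by
    apply Real.cos_nonneg_of_mem_Icc
    constructor <;> linarith
  obtain ⟨a1, a2, a3, a4⟩ := r1_hyp
  obtain ⟨d1, d2⟩ := cos_r1
  have h3 : Real.sinh al ^ 2 * (Real.sin al ^ 2 - Real.cos al ^ 2) = Real.cos al ^ 2 := by
    have : Real.cos al ^ 2 * Real.cosh al ^ 2 = Real.sin al ^ 2 * Real.sinh al ^ 2 := by
      have := congrArg (fun z => z ^ 2) h2
      simp only [mul_pow] at this
      exact this
    rw [hch] at this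
    nlinarith
  have h4 : Real.sin al ^ 2 - Real.cos al ^ 2 = 1 - 2 * Real.cos al ^ 2 := by linarith
  rw [h4] at h3
  have h5 : Real.cos al < 0.59173 := lt_of_le_of_lt hcs d2
  have h6 : (1.08113 : ℝ) ^ 2 ≤ Real.sinh al ^ 2 := by
    have : 1.08113 ≤ Real.sinh al := by linarith
    nlinarith
  have h7 : Real.cos al ^ 2 < (0.59173 : ℝ) ^ 2 := by nlinarith
  nlinarith

private theorem al_pos' : 0 < al := by
  have := al_gt'
  linarith

private theorem sin_b : 0.80607 < Real.sin al ∧ Real.sin al < 0.80615 := by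
  have h1 := al_gt'
  have h2 := al_lt'
  have hpi := pi_big
  constructor
  · refine sin_r0.1.trans_le ?_
    exact Real.sin_le_sin_of_le_of_le_pi_div_two (by norm_num at *; linarith) (by linarith) h1.le
  · refine lt_of_le_of_lt ?_ sin_r1.2
    exact Real.sin_le_sin_of_le_of_le_pi_div_two (by linarith) (by norm_num at *; linarith) h2.le

private theorem cos_b : 0.5917 < Real.cos al ∧ Real.cos al < 0.59181 := by
  have h1 := al_gt'
  have h2 := al_lt'
  have hpi := pi_big
  constructor
  · refine cos_r1.1.trans_le ?_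
    exact Real.cos_le_cos_of_nonneg_of_le_pi (by linarith) (by norm_num at *; linarith) h2.le
  · refine lt_of_le_of_lt ?_ cos_r0.2
    exact Real.cos_le_cos_of_nonneg_of_le_pi (by norm_num) (by linarith) h1.le

private theorem sinh_b : 1.08098 < Real.sinh al ∧ Real.sinh al < 1.08115 := by
  constructor
  · exact r0_hyp.2.2.1.trans_le (Real.sinh_le_sinh.2 al_gt'.le)
  · exact lt_of_le_of_lt (Real.sinh_le_sinh.2 al_lt'.le) r1_hyp.2.2.2

private theorem cosh_b : 1.47259 < Real.cosh al ∧ Real.cosh al < 1.47271 := by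
  have h1 := al_gt'
  have h2 := al_lt'
  constructor
  · refine r0_hyp.1.trans_le ?_
    rw [Real.cosh_le_cosh, abs_of_pos (by norm_num), abs_of_pos (by linarith)]
    exact h1.le
  · refine lt_of_le_of_lt ?_ r1_hyp.2.1
    rw [Real.cosh_le_cosh, abs_of_pos (by linarith), abs_of_pos (by norm_num)]
    exact h2.le

/-- The eigenfunction of the square, divided by `α`. -/
def fU (z : ℝ × ℝ) : ℝ := Real.sin (al * z.1) * Real.cosh (al * z.2) / al

theorem fU_contDiff {k : WithTop ℕ∞} : ContDiff ℝ k fU := by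
  unfold fU
  apply ContDiff.div_const
  apply ContDiff.mul
  · exact Real.contDiff_sin.comp (contDiff_const.mul contDiff_fst)
  · exact Real.contDiff_cosh.comp (contDiff_const.mul contDiff_snd)

theorem fU_OE : OE fU := by
  constructor
  · intro x y
    simp only [fU, mul_neg, Real.sin_neg]
    ring
  · intro x y
    simp only [fU, mul_neg, Real.cosh_neg]

theorem dS_fU (z : ℝ × ℝ) : dS fU z = Real.cos (al * z.1) * Real.cosh (al * z.2) := by
  have hd : DifferentiableAt ℝ fU z := (fU_contDiff (k := 1)).differentiable (by norm_num) z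
  have hγ : HasDerivAt (fun t : ℝ => ((z.1 + t, z.2) : ℝ × ℝ)) (1, 0) 0 :=
    ((hasDerivAt_id (0 : ℝ)).const_add z.1).prodMk (hasDerivAt_const (0 : ℝ) z.2)
  have hz : ((z.1 + 0, z.2) : ℝ × ℝ) = z := by simp
  have h1 : HasDerivAt (fun t : ℝ => fU (z.1 + t, z.2)) (fderiv ℝ fU z (1, 0)) 0 := by
    have h0 : HasFDerivAt fU (fderiv ℝ fU z) ((z.1 + 0, z.2) : ℝ × ℝ) := by
      rw [hz]
      exact hd.hasFDerivAt
    exact h0.comp_hasDerivAt (0 : ℝ) hγ
  have h2 : HasDerivAt (fun t : ℝ => Real.sin (al * (z.1 + t)) * Real.cosh (al * z.2) / al)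
      (Real.cos (al * z.1) * Real.cosh (al * z.2)) 0 := by
    have h3 : HasDerivAt (fun t : ℝ => al * (z.1 + t)) (al * 1) 0 :=
      (((hasDerivAt_id (0 : ℝ)).const_add z.1).const_mul al)
    have h4 := ((h3.sin.mul_const (Real.cosh (al * z.2))).div_const al)
    refine h4.congr_deriv ?_
    have := al_pos'.ne'
    simp only [add_zero, mul_one]
    field_simp
  exact h1.unique h2

theorem dT_fU (z : ℝ × ℝ) : dT fU z = Real.sin (al * z.1) * Real.sinh (al * z.2) := by
  have hd : DifferentiableAt ℝ fU z := (fU_contDiff (k := 1)).differentiable (by norm_num) z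
  have hγ : HasDerivAt (fun t : ℝ => ((z.1, z.2 + t) : ℝ × ℝ)) (0, 1) 0 :=
    (hasDerivAt_const (0 : ℝ) z.1).prodMk ((hasDerivAt_id (0 : ℝ)).const_add z.2)
  have hz : ((z.1, z.2 + 0) : ℝ × ℝ) = z := by simp
  have h1 : HasDerivAt (fun t : ℝ => fU (z.1, z.2 + t)) (fderiv ℝ fU z (0, 1)) 0 := by
    have h0 : HasFDerivAt fU (fderiv ℝ fU z) ((z.1, z.2 + 0) : ℝ × ℝ) := by
      rw [hz]
      exact hd.hasFDerivAt
    exact h0.comp_hasDerivAt (0 : ℝ) hγ
  have h2 : HasDerivAt (fun t : ℝ => Real.sin (al * z.1) * Real.cosh (al * (z.2 + t)) / al)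
      (Real.sin (al * z.1) * Real.sinh (al * z.2)) 0 := by
    have h3 : HasDerivAt (fun t : ℝ => al * (z.2 + t)) (al * 1) 0 :=
      (((hasDerivAt_id (0 : ℝ)).const_add z.2).const_mul al)
    have h4 := ((h3.cosh.const_mul (Real.sin (al * z.1))).div_const al)
    refine h4.congr_deriv ?_
    have := al_pos'.ne'
    simp only [add_zero, mul_one]
    field_simp
  exact h1.unique h2

/-! ### integrals -/

private theorem hid (x : ℝ) : HasDerivAt (fun x => al * x) al x := by
  simpa using (hasDerivAt_id x).const_mul al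

private theorem int_sin_sq : ∫ x in (-1 : ℝ)..1, Real.sin (al * x) ^ 2 =
    1 - Real.sin al * Real.cos al / al := by
  have ha := al_pos'.ne'
  have h : ∀ x ∈ Set.uIcc (-1 : ℝ) 1, HasDerivAt
      (fun x => x / 2 - Real.sin (al * x) * Real.cos (al * x) / (2 * al))
      (Real.sin (al * x) ^ 2) x := by
    intro x _
    have h1 := ((hasDerivAt_id x).div_const 2).sub
      ((((hid x).sin).mul ((hid x).cos)).div_const (2 * al))
    refine h1.congr_deriv ?_
    have h2 := Real.sin_sq_add_cos_sq (al * x)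
    field_simp
    linear_combination -h2
  rw [intervalIntegral.integral_eq_sub_of_hasDerivAt h
    (Continuous.intervalIntegrable (by fun_prop) _ _)]
  simp only [mul_one, mul_neg, Real.sin_neg, Real.cos_neg]
  field_simp
  ring

private theorem int_cos_sq : ∫ x in (-1 : ℝ)..1, Real.cos (al * x) ^ 2 =
    1 + Real.sin al * Real.cos al / al := by
  have ha := al_pos'.ne'
  have h : ∀ x ∈ Set.uIcc (-1 : ℝ) 1, HasDerivAt
      (fun x => x / 2 + Real.sin (al * x) * Real.cos (al * x) / (2 * al))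
      (Real.cos (al * x) ^ 2) x := by
    intro x _
    have h1 := ((hasDerivAt_id x).div_const 2).add
      ((((hid x).sin).mul ((hid x).cos)).div_const (2 * al))
    refine h1.congr_deriv ?_
    have h2 := Real.sin_sq_add_cos_sq (al * x)
    field_simp
    linear_combination -h2
  rw [intervalIntegral.integral_eq_sub_of_hasDerivAt h
    (Continuous.intervalIntegrable (by fun_prop) _ _)]
  simp only [mul_one, mul_neg, Real.sin_neg, Real.cos_neg]
  field_simp
  ring

private theorem int_cosh_sq : ∫ x in (-1 : ℝ)..1, Real.cosh (al * x) ^ 2 =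
    1 + Real.sinh al * Real.cosh al / al := by
  have ha := al_pos'.ne'
  have h : ∀ x ∈ Set.uIcc (-1 : ℝ) 1, HasDerivAt
      (fun x => x / 2 + Real.sinh (al * x) * Real.cosh (al * x) / (2 * al))
      (Real.cosh (al * x) ^ 2) x := by
    intro x _
    have h1 := ((hasDerivAt_id x).div_const 2).add
      ((((hid x).sinh).mul ((hid x).cosh)).div_const (2 * al))
    refine h1.congr_deriv ?_
    have h2 := Real.cosh_sq (al * x)
    field_simp
    linear_combination -h2
  rw [intervalIntegral.integral_eq_sub_of_hasDerivAt h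
    (Continuous.intervalIntegrable (by fun_prop) _ _)]
  simp only [mul_one, mul_neg, Real.sinh_neg, Real.cosh_neg]
  field_simp
  ring

private theorem int_sinh_sq : ∫ x in (-1 : ℝ)..1, Real.sinh (al * x) ^ 2 =
    Real.sinh al * Real.cosh al / al - 1 := by
  have ha := al_pos'.ne'
  have h : ∀ x ∈ Set.uIcc (-1 : ℝ) 1, HasDerivAt
      (fun x => Real.sinh (al * x) * Real.cosh (al * x) / (2 * al) - x / 2)
      (Real.sinh (al * x) ^ 2) x := by
    intro x _
    have h1 := ((((hid x).sinh).mul ((hid x).cosh)).div_const (2 * al)).sub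
      ((hasDerivAt_id x).div_const 2)
    refine h1.congr_deriv ?_
    have h2 := Real.cosh_sq (al * x)
    field_simp
    linear_combination h2
  rw [intervalIntegral.integral_eq_sub_of_hasDerivAt h
    (Continuous.intervalIntegrable (by fun_prop) _ _)]
  simp only [mul_one, mul_neg, Real.sinh_neg, Real.cosh_neg]
  field_simp
  ring

private theorem int_cc : ∫ x in (-1 : ℝ)..1, Real.cos (al * x) * Real.cosh (al * x) =
    (Real.sin al * Real.cosh al + Real.cos al * Real.sinh al) / al := by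
  have ha := al_pos'.ne'
  have h : ∀ x ∈ Set.uIcc (-1 : ℝ) 1, HasDerivAt
      (fun x => (Real.sin (al * x) * Real.cosh (al * x) + Real.cos (al * x) * Real.sinh (al * x))
        / (2 * al))
      (Real.cos (al * x) * Real.cosh (al * x)) x := by
    intro x _
    have h1 := ((((hid x).sin).mul ((hid x).cosh)).add
      (((hid x).cos).mul ((hid x).sinh))).div_const (2 * al)
    refine h1.congr_deriv ?_
    field_simp
    ring
  rw [intervalIntegral.integral_eq_sub_of_hasDerivAt h
    (Continuous.intervalIntegrable (by fun_prop) _ _)]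
  simp only [mul_one, mul_neg, Real.sinh_neg, Real.cosh_neg, Real.sin_neg, Real.cos_neg]
  field_simp
  ring

private theorem int_ss : ∫ x in (-1 : ℝ)..1, Real.sin (al * x) * Real.sinh (al * x) =
    (Real.sin al * Real.cosh al - Real.cos al * Real.sinh al) / al := by
  have ha := al_pos'.ne'
  have h : ∀ x ∈ Set.uIcc (-1 : ℝ) 1, HasDerivAt
      (fun x => (Real.sin (al * x) * Real.cosh (al * x) - Real.cos (al * x) * Real.sinh (al * x))
        / (2 * al))
      (Real.sin (al * x) * Real.sinh (al * x)) x := by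
    intro x _
    have h1 := ((((hid x).sin).mul ((hid x).cosh)).sub
      (((hid x).cos).mul ((hid x).sinh))).div_const (2 * al)
    refine h1.congr_deriv ?_
    field_simp
    ring
  rw [intervalIntegral.integral_eq_sub_of_hasDerivAt h
    (Continuous.intervalIntegrable (by fun_prop) _ _)]
  simp only [mul_one, mul_neg, Real.sinh_neg, Real.cosh_neg, Real.sin_neg, Real.cos_neg]
  field_simp
  ring

private theorem int_x_sin : ∫ x in (-1 : ℝ)..1, x * Real.sin (al * x) =
    2 * (Real.sin al - al * Real.cos al) / al ^ 2 := by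
  have ha := al_pos'.ne'
  have h : ∀ x ∈ Set.uIcc (-1 : ℝ) 1, HasDerivAt
      (fun x => Real.sin (al * x) / al ^ 2 - x * Real.cos (al * x) / al)
      (x * Real.sin (al * x)) x := by
    intro x _
    have h1 := (((hid x).sin).div_const (al ^ 2)).sub
      (((hasDerivAt_id x).mul ((hid x).cos)).div_const al)
    refine h1.congr_deriv ?_
    simp only [id]
    field_simp
    ring
  rw [intervalIntegral.integral_eq_sub_of_hasDerivAt h
    (Continuous.intervalIntegrable (by fun_prop) _ _)]
  simp only [mul_one, mul_neg, Real.sin_neg, Real.cos_neg]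
  field_simp
  ring

private theorem int_cosh : ∫ x in (-1 : ℝ)..1, Real.cosh (al * x) = 2 * Real.sinh al / al := by
  have ha := al_pos'.ne'
  have h : ∀ x ∈ Set.uIcc (-1 : ℝ) 1, HasDerivAt
      (fun x => Real.sinh (al * x) / al) (Real.cosh (al * x)) x := by
    intro x _
    have h1 := ((hid x).sinh).div_const al
    refine h1.congr_deriv ?_
    field_simp
  rw [intervalIntegral.integral_eq_sub_of_hasDerivAt h
    (Continuous.intervalIntegrable (by fun_prop) _ _)]
  simp only [mul_one, mul_neg, Real.sinh_neg]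
  field_simp
  ring

/-- integral over the square of a product -/
private theorem int_Sq_mul (f g : ℝ → ℝ) : ∫ z in Sq, f z.1 * g z.2 =
    (∫ x in (-1 : ℝ)..1, f x) * ∫ x in (-1 : ℝ)..1, g x := by
  have h1 : (-1 : ℝ) ≤ 1 := by norm_num
  rw [Sq, Measure.volume_eq_prod, setIntegral_prod_mul, integral_Icc_eq_integral_Ioc,
    integral_Icc_eq_integral_Ioc, intervalIntegral.integral_of_le h1,
    intervalIntegral.integral_of_le h1]

private theorem cso_eq : cso fU =
    Real.cosh al ^ 2 * (1 - Real.sin al * Real.cos al / al) / al ^ 2 := by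
  have ha := al_pos'.ne'
  have h : ∀ x : ℝ, fU (x, 1) ^ 2 = Real.cosh al ^ 2 / al ^ 2 * Real.sin (al * x) ^ 2 := by
    intro x
    simp only [fU, mul_one]
    field_simp
  unfold cso
  simp only [h]
  rw [intervalIntegral.integral_const_mul, int_sin_sq]
  field_simp

private theorem cse_eq : cse fU =
    Real.sin al ^ 2 * (1 + Real.sinh al * Real.cosh al / al) / al ^ 2 := by
  have ha := al_pos'.ne'
  have h : ∀ x : ℝ, fU (1, x) ^ 2 = Real.sin al ^ 2 / al ^ 2 * Real.cosh (al * x) ^ 2 := by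
    intro x
    simp only [fU, mul_one]
    field_simp
  unfold cse
  simp only [h]
  rw [intervalIntegral.integral_const_mul, int_cosh_sq]
  field_simp

private theorem csx_eq : csx fU =
    2 * Real.cosh al * (Real.sin al - al * Real.cos al) / al ^ 3 := by
  have ha := al_pos'.ne'
  have h : ∀ x : ℝ, x * fU (x, 1) = Real.cosh al / al * (x * Real.sin (al * x)) := by
    intro x
    simp only [fU, mul_one]
    field_simp
  unfold csx
  simp only [h]
  rw [intervalIntegral.integral_const_mul, int_x_sin]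
  field_simp

private theorem cme_eq : cme fU = 2 * Real.sin al * Real.sinh al / al ^ 2 := by
  have ha := al_pos'.ne'
  have h : ∀ x : ℝ, fU (1, x) = Real.sin al / al * Real.cosh (al * x) := by
    intro x
    simp only [fU, mul_one]
    field_simp
  unfold cme
  simp only [h]
  rw [intervalIntegral.integral_const_mul, int_cosh]
  field_simp

private theorem cE1_eq : cE1 fU =
    (1 + Real.sin al * Real.cos al / al) * (1 + Real.sinh al * Real.cosh al / al) := by
  unfold cE1
  simp only [dS_fU, mul_pow]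
  rw [int_Sq_mul (fun x => Real.cos (al * x) ^ 2) (fun x => Real.cosh (al * x) ^ 2), int_cos_sq,
    int_cosh_sq]

private theorem cE2_eq : cE2 fU =
    (1 - Real.sin al * Real.cos al / al) * (Real.sinh al * Real.cosh al / al - 1) := by
  unfold cE2
  simp only [dT_fU, mul_pow]
  rw [int_Sq_mul (fun x => Real.sin (al * x) ^ 2) (fun x => Real.sinh (al * x) ^ 2), int_sin_sq,
    int_sinh_sq]

private theorem cK_eq : cK fU =
    2 * (Real.sin al ^ 2 * Real.cosh al ^ 2 + Real.cos al ^ 2 * Real.sinh al ^ 2) / al ^ 2 := by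
  have ha := al_pos'.ne'
  unfold cK
  simp only [dS_fU, dT_fU, Prod.fst_swap, Prod.snd_swap]
  have h : ∀ z : ℝ × ℝ, Real.cos (al * z.1) * Real.cosh (al * z.2) *
      (Real.cos (al * z.2) * Real.cosh (al * z.1)) +
      Real.sin (al * z.1) * Real.sinh (al * z.2) * (Real.sin (al * z.2) * Real.sinh (al * z.1)) =
      (Real.cos (al * z.1) * Real.cosh (al * z.1)) * (Real.cos (al * z.2) * Real.cosh (al * z.2)) +
      (Real.sin (al * z.1) * Real.sinh (al * z.1)) *
        (Real.sin (al * z.2) * Real.sinh (al * z.2)) := by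
    intro z
    ring
  simp only [h]
  have hcomp : IsCompact Sq := isCompact_Icc.prod isCompact_Icc
  rw [integral_add]
  · rw [int_Sq_mul (fun x => Real.cos (al * x) * Real.cosh (al * x))
      (fun x => Real.cos (al * x) * Real.cosh (al * x)),
      int_Sq_mul (fun x => Real.sin (al * x) * Real.sinh (al * x))
      (fun x => Real.sin (al * x) * Real.sinh (al * x)), int_cc, int_ss]
    field_simp
    ring
  · apply ContinuousOn.integrableOn_compact hcomp
    apply Continuous.continuousOn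
    fun_prop
  · apply ContinuousOn.integrableOn_compact hcomp
    apply Continuous.continuousOn
    fun_prop

private theorem a2_b : 0.8789 < al ^ 2 ∧ al ^ 2 < 0.8791 := by
  have h1 := al_gt'
  have h2 := al_lt'
  constructor <;> nlinarith

private theorem a3_b : al ^ 3 < 0.82424 := by
  have h1 := al_gt'
  have h2 := al_lt'
  have h3 := a2_b
  have : al ^ 3 = al ^ 2 * al := by ring
  rw [this]
  nlinarith

private theorem sc_b : 0.50868 < Real.sin al * Real.cos al / al ∧
    Real.sin al * Real.cos al / al < 0.5089 := by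
  have h1 := al_gt'
  have h2 := al_lt'
  obtain ⟨s0, s1⟩ := sin_b
  obtain ⟨c0, c1⟩ := cos_b
  have hp := al_pos'
  have h3 : Real.sin al * Real.cos al < 0.47709 := by nlinarith
  have h4 : 0.47695 < Real.sin al * Real.cos al := by nlinarith
  constructor
  · rw [lt_div_iff₀ hp]
    linarith
  · rw [div_lt_iff₀ hp]
    linarith

private theorem shch_b : 1.6977 < Real.sinh al * Real.cosh al / al ∧
    Real.sinh al * Real.cosh al / al < 1.69839 := by
  have h1 := al_gt'
  have h2 := al_lt'
  obtain ⟨s0, s1⟩ := sinh_b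
  obtain ⟨c0, c1⟩ := cosh_b
  have hp := al_pos'
  have h3 : Real.sinh al * Real.cosh al < 1.59223 := by nlinarith
  have h4 : 1.59184 < Real.sinh al * Real.cosh al := by nlinarith
  constructor
  · rw [lt_div_iff₀ hp]
    linarith
  · rw [div_lt_iff₀ hp]
    linarith

private theorem ch2_b : 2.16852 < Real.cosh al ^ 2 ∧ Real.cosh al ^ 2 < 2.16888 := by
  obtain ⟨c0, c1⟩ := cosh_b
  constructor <;> nlinarith

private theorem s2_b : 0.64974 < Real.sin al ^ 2 ∧ Real.sin al ^ 2 < 0.64988 := by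
  obtain ⟨c0, c1⟩ := sin_b
  constructor <;> nlinarith

/-- numerically `1.211904` -/
theorem cso_fU : 1.211 < cso fU ∧ cso fU < 1.213 := by
  rw [cso_eq]
  obtain ⟨a0, a1⟩ := a2_b
  obtain ⟨q0, q1⟩ := sc_b
  obtain ⟨c0, c1⟩ := ch2_b
  have hp : 0 < al ^ 2 := by linarith
  constructor
  · rw [lt_div_iff₀ hp]
    have := mul_lt_mul'' c0 (show (0.4911 : ℝ) < 1 - Real.sin al * Real.cos al / al by linarith)
      (by norm_num) (by norm_num)
    linarith
  · rw [div_lt_iff₀ hp]
    have := mul_lt_mul'' c1 (show 1 - Real.sin al * Real.cos al / al < (0.49132 : ℝ) by linarith)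
      (by linarith) (by linarith)
    linarith

/-- numerically `1.994596` -/
theorem cse_fU : 1.993 < cse fU ∧ cse fU < 1.996 := by
  rw [cse_eq]
  obtain ⟨a0, a1⟩ := a2_b
  obtain ⟨q0, q1⟩ := shch_b
  obtain ⟨c0, c1⟩ := s2_b
  have hp : 0 < al ^ 2 := by linarith
  constructor
  · rw [lt_div_iff₀ hp]
    have := mul_lt_mul'' c0 (show (2.6977 : ℝ) < 1 + Real.sinh al * Real.cosh al / al by linarith)
      (by norm_num) (by norm_num)
    linarith
  · rw [div_lt_iff₀ hp]
    have := mul_lt_mul'' c1 (show 1 + Real.sinh al * Real.cosh al / al < (2.69839 : ℝ) by linarith)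
      (by linarith) (by linarith)
    linarith

/-- numerically `0.898137` -/
theorem csx_fU : 0.897 < csx fU := by
  rw [csx_eq]
  have h1 := al_gt'
  have h2 := al_lt'
  have a3 := a3_b
  obtain ⟨s0, s1⟩ := sin_b
  obtain ⟨c0, c1⟩ := cos_b
  obtain ⟨d0, d1⟩ := cosh_b
  have hp : 0 < al ^ 3 := by
    have := al_pos'
    positivity
  rw [lt_div_iff₀ hp]
  have h3 : al * Real.cos al < 0.55489 := by nlinarith
  have h4 : (0.25118 : ℝ) < Real.sin al - al * Real.cos al := by linarith
  have := mul_lt_mul'' d0 h4 (by norm_num) (by norm_num)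
  linarith

/-- numerically `3.931657` -/
theorem cme_fU : cme fU ^ 2 < 3.94 := by
  rw [cme_eq]
  obtain ⟨a0, a1⟩ := a2_b
  obtain ⟨s0, s1⟩ := sin_b
  obtain ⟨c0, c1⟩ := sinh_b
  have hp : 0 < al ^ 2 := by linarith
  have h3 := mul_lt_mul'' s1 c1 (by linarith) (by linarith)
  have h4 : 0 < Real.sin al * Real.sinh al := by
    apply mul_pos <;> linarith
  have h5 : 2 * Real.sin al * Real.sinh al / al ^ 2 < 1.9835 := by
    rw [div_lt_iff₀ hp]
    linarith
  have h6 : 0 ≤ 2 * Real.sin al * Real.sinh al / al ^ 2 := by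
    apply div_nonneg _ hp.le
    linarith
  nlinarith

/-- numerically `0.342897` -/
theorem cE2_fU : cE2 fU < 0.344 := by
  rw [cE2_eq]
  obtain ⟨q0, q1⟩ := shch_b
  obtain ⟨r0, r1⟩ := sc_b
  have := mul_lt_mul'' (show 1 - Real.sin al * Real.cos al / al < (0.49132 : ℝ) by linarith)
    (show Real.sinh al * Real.cosh al / al - 1 < (0.69839 : ℝ) by linarith)
    (by linarith) (by linarith)
  linarith

/-- numerically `4.137697` -/
theorem cK_fU : 4.13 < cK fU := by
  rw [cK_eq]
  obtain ⟨a0, a1⟩ := a2_b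
  obtain ⟨e0, e1⟩ := ch2_b
  obtain ⟨s0, s1⟩ := s2_b
  obtain ⟨c0, c1⟩ := cos_b
  obtain ⟨d0, d1⟩ := sinh_b
  have hp : 0 < al ^ 2 := by linarith
  rw [lt_div_iff₀ hp]
  have h1 := mul_lt_mul'' s0 e0 (by norm_num) (by norm_num)
  have h2 : (0.3501 : ℝ) < Real.cos al ^ 2 := by nlinarith
  have h3 : (1.1685 : ℝ) < Real.sinh al ^ 2 := by nlinarith
  have h4 := mul_lt_mul'' h2 h3 (by norm_num) (by norm_num)
  linarith

/-- `U` is an eigenfunction -/
theorem cE_fU : cE1 fU + cE2 fU = mu / 4 * (cso fU + cse fU) := by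
  rw [cE1_eq, cE2_eq, cso_eq, cse_eq, mu, Real.tanh_eq_sinh_div_cosh]
  have ha := al_pos'.ne'
  have hc : Real.cosh al ≠ 0 := (Real.cosh_pos al).ne'
  have h := al_eq
  have e1 : Real.cosh al ^ 2 * (Real.sin al * Real.cos al / al) =
      Real.sin al ^ 2 * (Real.sinh al * Real.cosh al / al) := by
    field_simp
    linear_combination Real.sin al * h
  have e2 : Real.sinh al * Real.sin al ^ 2 = Real.cosh al * (Real.sin al * Real.cos al) := by
    linear_combination (-Real.sin al) * h
  have e3 : Real.cosh al ^ 2 * (1 - Real.sin al * Real.cos al / al) / al ^ 2 +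
      Real.sin al ^ 2 * (1 + Real.sinh al * Real.cosh al / al) / al ^ 2 =
      (Real.cosh al ^ 2 + Real.sin al ^ 2) / al ^ 2 := by
    rw [← add_div]
    congr 1
    linear_combination -e1
  rw [e3]
  field_simp
  linear_combination (-8 : ℝ) * al * e2

end Pool.Agent.Sq4
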