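import Pool.Agent.Sq4.UConst

/-!
# SQ-UREG1: integrals of the eigenfunctions with weights
-/

set_option autoImplicit false

noncomputable section

namespace Pool.Agent.Sq4

open MeasureTheory Pool.Agent.Stk

/-! ### Taylor bounds -/

private theorem mono0 {f f' : ℝ → ℝ} (h : ∀ x, HasDerivAt f (f' x) x) (h0 : f 0 = 0)
    (hp : ∀ x, 0 ≤ x → 0 ≤ f' x) {x : ℝ} (hx : 0 ≤ x) : 0 ≤ f x := by
  have hm : MonotoneOn f (Set.Ici 0) := by
    apply monotoneOn_of_deriv_nonneg (convex_Ici 0)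
    · exact fun y _ => (h y).continuousAt.continuousWithinAt
    · exact fun y _ => (h y).differentiableAt.differentiableWithinAt
    · intro y hy
      rw [interior_Ici] at hy
      rw [(h y).deriv]
      exact hp y (le_of_lt hy)
  have := hm (Set.self_mem_Ici) (show x ∈ Set.Ici (0 : ℝ) from hx) hx
  rwa [h0] at this

private theorem s3 {t : ℝ} (ht : 0 ≤ t) : t - t ^ 3 / 6 ≤ Real.sin t := by
  have := mono0 (f := fun t => Real.sin t - (t - t ^ 3 / 6))
    (f' := fun t => Real.cos t - (1 - t ^ 2 / 2)) (fun x => by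
      have h1 := (Real.hasDerivAt_sin x).sub
        ((hasDerivAt_id x).sub ((hasDerivAt_pow 3 x).div_const 6))
      exact h1.congr_deriv (by norm_num; ring)) (by simp)
    (fun x _ => by have := Real.one_sub_sq_div_two_le_cos (x := x); linarith) ht
  linarith [this]

private theorem c4 {t : ℝ} (ht : 0 ≤ t) : Real.cos t ≤ 1 - t ^ 2 / 2 + t ^ 4 / 24 := by
  have := mono0 (f := fun t => (1 - t ^ 2 / 2 + t ^ 4 / 24) - Real.cos t)
    (f' := fun t => Real.sin t - (t - t ^ 3 / 6)) (fun x => by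
      have h1 := ((((hasDerivAt_pow 2 x).div_const 2).const_sub 1).add
        ((hasDerivAt_pow 4 x).div_const 24)).sub (Real.hasDerivAt_cos x)
      exact h1.congr_deriv (by norm_num; ring)) (by simp)
    (fun x hx => by have := s3 hx; linarith) ht
  linarith [this]

private theorem s5 {t : ℝ} (ht : 0 ≤ t) : Real.sin t ≤ t - t ^ 3 / 6 + t ^ 5 / 120 := by
  have := mono0 (f := fun t => (t - t ^ 3 / 6 + t ^ 5 / 120) - Real.sin t)
    (f' := fun t => (1 - t ^ 2 / 2 + t ^ 4 / 24) - Real.cos t) (fun x => by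
      have h1 := (((hasDerivAt_id x).sub ((hasDerivAt_pow 3 x).div_const 6)).add
        ((hasDerivAt_pow 5 x).div_const 120)).sub (Real.hasDerivAt_sin x)
      exact h1.congr_deriv (by norm_num; ring)) (by simp)
    (fun x hx => by have := c4 hx; linarith) ht
  linarith [this]

private theorem c6 {t : ℝ} (ht : 0 ≤ t) :
    1 - t ^ 2 / 2 + t ^ 4 / 24 - t ^ 6 / 720 ≤ Real.cos t := by
  have := mono0 (f := fun t => Real.cos t - (1 - t ^ 2 / 2 + t ^ 4 / 24 - t ^ 6 / 720))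
    (f' := fun t => (t - t ^ 3 / 6 + t ^ 5 / 120) - Real.sin t) (fun x => by
      have h1 := (Real.hasDerivAt_cos x).sub ((((((hasDerivAt_pow 2 x).div_const 2).const_sub 1).add
        ((hasDerivAt_pow 4 x).div_const 24))).sub ((hasDerivAt_pow 6 x).div_const 720))
      exact h1.congr_deriv (by norm_num; ring)) (by simp)
    (fun x hx => by have := s5 hx; linarith) ht
  linarith [this]

private theorem eb {t : ℝ} (ht : |t| ≤ 1) :
    |Real.exp t - (1 + t + t ^ 2 / 2 + t ^ 3 / 6 + t ^ 4 / 24 + t ^ 5 / 120)|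
      ≤ |t| ^ 6 * (7 / 4320) := by
  have h := Real.exp_bound ht (n := 6) (by norm_num)
  have e : ∑ m ∈ Finset.range 6, t ^ m / (m.factorial : ℝ)
      = 1 + t + t ^ 2 / 2 + t ^ 3 / 6 + t ^ 4 / 24 + t ^ 5 / 120 := by
    simp [Finset.sum_range_succ, Nat.factorial]
  rw [e] at h
  refine h.trans (le_of_eq ?_)
  norm_num [Nat.factorial]

private theorem ch_le {t : ℝ} (h0 : 0 ≤ t) (h1 : t ≤ 1) :
    Real.cosh t ≤ 1 + t ^ 2 / 2 + t ^ 4 / 24 + t ^ 6 * (7 / 4320) := by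
  have a := abs_le.1 (eb (t := t) (by rwa [abs_of_nonneg h0]))
  have b := abs_le.1 (eb (t := -t) (by rwa [abs_neg, abs_of_nonneg h0]))
  rw [abs_neg] at b
  rw [abs_of_nonneg h0] at a b
  rw [Real.cosh_eq]
  nlinarith [a.2, b.2]

private theorem sh_le {t : ℝ} (h0 : 0 ≤ t) (h1 : t ≤ 1) :
    Real.sinh t ≤ t + t ^ 3 / 6 + t ^ 5 / 120 + t ^ 6 * (7 / 4320) := by
  have a := abs_le.1 (eb (t := t) (by rwa [abs_of_nonneg h0]))
  have b := abs_le.1 (eb (t := -t) (by rwa [abs_neg, abs_of_nonneg h0]))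
  rw [abs_neg] at b
  rw [abs_of_nonneg h0] at a b
  rw [Real.sinh_eq]
  nlinarith [a.2, b.1]


/-! ### bounds for the four functions on `[0,1]` -/

private theorem a2 : 0.8787 < al ^ 2 ∧ al ^ 2 < 0.8793 := by
  have h0 := al_gt
  have h1 := al_lt
  constructor <;> nlinarith

private theorem a3 : 0.8237 < al ^ 3 ∧ al ^ 3 < 0.82452 := by
  have h0 := al_gt
  have h1 := al_lt
  have h := a2
  have e : al ^ 3 = al ^ 2 * al := by ring
  rw [e]
  constructor <;> nlinarith [h.1, h.2]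

private theorem a4 : 0.7721 < al ^ 4 ∧ al ^ 4 < 0.7732 := by
  have h := a2
  have e : al ^ 4 = al ^ 2 * al ^ 2 := by ring
  rw [e]
  constructor <;> nlinarith [h.1, h.2]

private theorem a5 : al ^ 5 < 0.7251 := by
  have h := a4
  have h1 := al_lt
  have h0 := al_gt
  have e : al ^ 5 = al ^ 4 * al := by ring
  rw [e]
  nlinarith [h.1, h.2]

private theorem a6 : al ^ 6 < 0.68 := by
  have h := a2
  have h4 := a4
  have e : al ^ 6 = al ^ 4 * al ^ 2 := by ring
  rw [e]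
  nlinarith [h.1, h.2, h4.1, h4.2]

section
variable {x : ℝ}

private theorem pl {n : ℕ} {c : ℝ} (h0 : 0 ≤ x) (h : c < al ^ n) : c * x ^ n ≤ (al * x) ^ n := by
  rw [mul_pow]
  exact mul_le_mul_of_nonneg_right h.le (by positivity)

private theorem pu {n : ℕ} {c : ℝ} (h0 : 0 ≤ x) (h : al ^ n < c) : (al * x) ^ n ≤ c * x ^ n := by
  rw [mul_pow]
  exact mul_le_mul_of_nonneg_right h.le (by positivity)

private theorem t0 (h0 : 0 ≤ x) : 0 ≤ al * x := by
  have := al_gt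
  have : 0 ≤ al := by linarith
  positivity

private theorem t1 (h0 : 0 ≤ x) (h1 : x ≤ 1) : al * x ≤ 1 := by
  have := al_gt
  have := al_lt
  nlinarith

private theorem Cu (h0 : 0 ≤ x) (_h1 : x ≤ 1) :
    Real.cos (al * x) ≤ 1 - 0.4393 * x ^ 2 + 0.03222 * x ^ 4 := by
  have h := c4 (t0 h0)
  have h2 := pl (n := 2) h0 a2.1
  have h4 := pu (n := 4) h0 a4.2
  have h5 : 0 ≤ x ^ 2 := by positivity
  have h6 : 0 ≤ x ^ 4 := by positivity
  linarith

private theorem Cl (h0 : 0 ≤ x) (_h1 : x ≤ 1) :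
    1 - 0.4397 * x ^ 2 + 0.03217 * x ^ 4 - 0.00095 * x ^ 6 ≤ Real.cos (al * x) := by
  have h := c6 (t0 h0)
  have h2 := pu (n := 2) h0 a2.2
  have h4 := pl (n := 4) h0 a4.1
  have h6 := pu (n := 6) h0 a6
  have h5 : 0 ≤ x ^ 2 := by positivity
  have h7 : 0 ≤ x ^ 4 := by positivity
  have h8 : 0 ≤ x ^ 6 := by positivity
  linarith

private theorem Cp (h0 : 0 ≤ x) (h1 : x ≤ 1) :
    0 ≤ 1 - 0.4397 * x ^ 2 + 0.03217 * x ^ 4 - 0.00095 * x ^ 6 := by
  have h2 : x ^ 2 ≤ 1 := pow_le_one₀ h0 h1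
  have h6 : x ^ 6 ≤ 1 := pow_le_one₀ h0 h1
  have h7 : 0 ≤ x ^ 4 := by positivity
  linarith

private theorem Cn (h0 : 0 ≤ x) (h1 : x ≤ 1) : 0 ≤ Real.cos (al * x) :=
  (Cp h0 h1).trans (Cl h0 h1)

private theorem Hl (h0 : 0 ≤ x) (_h1 : x ≤ 1) :
    1 + 0.4393 * x ^ 2 + 0.03217 * x ^ 4 ≤ Real.cosh (al * x) := by
  have h : 1 + (al * x) ^ 2 / 2 + (al * x) ^ 4 / 24 ≤ Real.cosh (al * x) := by
    have h3 : ∀ t : ℝ, 0 ≤ t → 0 ≤ Real.sinh t - (t + t ^ 3 / 6) := by
      intro t ht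
      exact mono0 (f := fun t => Real.sinh t - (t + t ^ 3 / 6))
        (f' := fun t => Real.cosh t - (1 + t ^ 2 / 2)) (fun x => by
          have h1 := (Real.hasDerivAt_sinh x).sub
            ((hasDerivAt_id x).add ((hasDerivAt_pow 3 x).div_const 6))
          exact h1.congr_deriv (by norm_num; ring)) (by simp)
        (fun x hx => by
          exact mono0 (f := fun t => Real.cosh t - (1 + t ^ 2 / 2))
            (f' := fun t => Real.sinh t - t) (fun x => by
              have h1 := (Real.hasDerivAt_cosh x).sub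
                ((((hasDerivAt_pow 2 x).div_const 2)).const_add 1)
              exact h1.congr_deriv (by norm_num)) (by simp)
            (fun x hx => by have := Real.self_le_sinh_iff.2 hx; linarith) hx) ht
    have := mono0 (f := fun t => Real.cosh t - (1 + t ^ 2 / 2 + t ^ 4 / 24))
        (f' := fun t => Real.sinh t - (t + t ^ 3 / 6)) (fun x => by
          have h1 := (Real.hasDerivAt_cosh x).sub
            (((((hasDerivAt_pow 2 x).div_const 2)).const_add 1).add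
              ((hasDerivAt_pow 4 x).div_const 24))
          exact h1.congr_deriv (by norm_num; ring)) (by simp) h3 (t0 h0)
    linarith [this]
  have h2 := pl (n := 2) h0 a2.1
  have h4 := pl (n := 4) h0 a4.1
  have h5 : 0 ≤ x ^ 2 := by positivity
  have h7 : 0 ≤ x ^ 4 := by positivity
  linarith

private theorem Hp (_h0 : 0 ≤ x) (_h1 : x ≤ 1) : 0 ≤ 1 + 0.4393 * x ^ 2 + 0.03217 * x ^ 4 := by
  positivity

private theorem Hn (_h0 : 0 ≤ x) (_h1 : x ≤ 1) : 0 ≤ Real.cosh (al * x) := (Real.cosh_pos _).le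

private theorem Hu (h0 : 0 ≤ x) (h1 : x ≤ 1) :
    Real.cosh (al * x) ≤ 1 + 0.4397 * x ^ 2 + 0.03222 * x ^ 4 + 0.00111 * x ^ 6 := by
  have h := ch_le (t0 h0) (t1 h0 h1)
  have h2 := pu (n := 2) h0 a2.2
  have h4 := pu (n := 4) h0 a4.2
  have h6 := pu (n := 6) h0 a6
  have h5 : 0 ≤ x ^ 2 := by positivity
  have h7 : 0 ≤ x ^ 4 := by positivity
  have h8 : 0 ≤ x ^ 6 := by positivity
  linarith

private theorem Su (h0 : 0 ≤ x) (_h1 : x ≤ 1) :
    Real.sin (al * x) ≤ 0.9377 * x - 0.1372 * x ^ 3 + 0.00605 * x ^ 5 := by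
  have h := s5 (t0 h0)
  have hl := al_lt
  have h1 : al * x ≤ 0.9377 * x := mul_le_mul_of_nonneg_right hl.le h0
  have h3 := pl (n := 3) h0 a3.1
  have h5 := pu (n := 5) h0 a5
  have h7 : 0 ≤ x ^ 3 := by positivity
  have h8 : 0 ≤ x ^ 5 := by positivity
  linarith

private theorem Sl (h0 : 0 ≤ x) (_h1 : x ≤ 1) :
    0.9374 * x - 0.1375 * x ^ 3 ≤ Real.sin (al * x) := by
  have h := s3 (t0 h0)
  have hl := al_gt
  have h1 : 0.9374 * x ≤ al * x := mul_le_mul_of_nonneg_right hl.le h0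
  have h3 := pu (n := 3) h0 a3.2
  have h7 : 0 ≤ x ^ 3 := by positivity
  linarith

private theorem Sp (h0 : 0 ≤ x) (h1 : x ≤ 1) : 0 ≤ 0.9374 * x - 0.1375 * x ^ 3 := by
  have h2 : x ^ 2 ≤ 1 := pow_le_one₀ h0 h1
  have h3 : x ^ 3 = x ^ 2 * x := by ring
  nlinarith

private theorem Sn (h0 : 0 ≤ x) (h1 : x ≤ 1) : 0 ≤ Real.sin (al * x) :=
  (Sp h0 h1).trans (Sl h0 h1)

private theorem Kl (h0 : 0 ≤ x) (_h1 : x ≤ 1) :
    0.9374 * x + 0.1372 * x ^ 3 ≤ Real.sinh (al * x) := by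
  have h3 : ∀ t : ℝ, 0 ≤ t → 0 ≤ Real.sinh t - (t + t ^ 3 / 6) := by
    intro t ht
    exact mono0 (f := fun t => Real.sinh t - (t + t ^ 3 / 6))
      (f' := fun t => Real.cosh t - (1 + t ^ 2 / 2)) (fun x => by
        have h1 := (Real.hasDerivAt_sinh x).sub
          ((hasDerivAt_id x).add ((hasDerivAt_pow 3 x).div_const 6))
        exact h1.congr_deriv (by norm_num; ring)) (by simp)
      (fun x hx => by
        exact mono0 (f := fun t => Real.cosh t - (1 + t ^ 2 / 2))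
          (f' := fun t => Real.sinh t - t) (fun x => by
            have h1 := (Real.hasDerivAt_cosh x).sub
              ((((hasDerivAt_pow 2 x).div_const 2)).const_add 1)
            exact h1.congr_deriv (by norm_num)) (by simp)
          (fun x hx => by have := Real.self_le_sinh_iff.2 hx; linarith) hx) ht
  have h := h3 _ (t0 h0)
  have hl := al_gt
  have h1 : 0.9374 * x ≤ al * x := mul_le_mul_of_nonneg_right hl.le h0
  have h3 := pl (n := 3) h0 a3.1
  have h7 : 0 ≤ x ^ 3 := by positivity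
  linarith

private theorem Kp (h0 : 0 ≤ x) (_h1 : x ≤ 1) : 0 ≤ 0.9374 * x + 0.1372 * x ^ 3 := by
  positivity

private theorem Kn (h0 : 0 ≤ x) (h1 : x ≤ 1) : 0 ≤ Real.sinh (al * x) :=
  (Kp h0 h1).trans (Kl h0 h1)

private theorem Ku (h0 : 0 ≤ x) (h1 : x ≤ 1) :
    Real.sinh (al * x) ≤ 0.9377 * x + 0.1375 * x ^ 3 + 0.00716 * x ^ 5 := by
  have h := sh_le (t0 h0) (t1 h0 h1)
  have hl := al_lt
  have h2 : al * x ≤ 0.9377 * x := mul_le_mul_of_nonneg_right hl.le h0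
  have h3 := pu (n := 3) h0 a3.2
  have h5 := pu (n := 5) h0 a5
  have h6 := pu (n := 6) h0 a6
  have h9 : x ^ 6 ≤ x ^ 5 := pow_le_pow_of_le_one h0 h1 (by norm_num)
  have h7 : 0 ≤ x ^ 3 := by positivity
  have h8 : 0 ≤ x ^ 5 := by positivity
  linarith

end

/-! ### integrals of polynomials -/

private theorem Jp (c0 c1 c2 c3 c4 c5 c6 c7 c8 : ℝ) :
    ∫ x in (0 : ℝ)..1, (c0 + c1 * x ^ 2 + c2 * x ^ 4 + c3 * x ^ 6 + c4 * x ^ 8 + c5 * x ^ 10
      + c6 * x ^ 12 + c7 * x ^ 14 + c8 * x ^ 16)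
      = c0 + c1 / 3 + c2 / 5 + c3 / 7 + c4 / 9 + c5 / 11 + c6 / 13 + c7 / 15 + c8 / 17 := by
  have hd : ∀ x : ℝ, HasDerivAt (fun x : ℝ => c0 * x + c1 / 3 * x ^ 3 + c2 / 5 * x ^ 5
      + c3 / 7 * x ^ 7 + c4 / 9 * x ^ 9 + c5 / 11 * x ^ 11 + c6 / 13 * x ^ 13
      + c7 / 15 * x ^ 15 + c8 / 17 * x ^ 17)
      (c0 + c1 * x ^ 2 + c2 * x ^ 4 + c3 * x ^ 6 + c4 * x ^ 8 + c5 * x ^ 10
      + c6 * x ^ 12 + c7 * x ^ 14 + c8 * x ^ 16) x := by
    intro x
    have h1 := ((((((((((hasDerivAt_id x).const_mul c0).add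
      ((hasDerivAt_pow 3 x).const_mul (c1 / 3))).add
      ((hasDerivAt_pow 5 x).const_mul (c2 / 5))).add
      ((hasDerivAt_pow 7 x).const_mul (c3 / 7))).add
      ((hasDerivAt_pow 9 x).const_mul (c4 / 9))).add
      ((hasDerivAt_pow 11 x).const_mul (c5 / 11))).add
      ((hasDerivAt_pow 13 x).const_mul (c6 / 13))).add
      ((hasDerivAt_pow 15 x).const_mul (c7 / 15))).add
      ((hasDerivAt_pow 17 x).const_mul (c8 / 17)))
    exact h1.congr_deriv (by norm_num; ring)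
  rw [intervalIntegral.integral_eq_sub_of_hasDerivAt (fun x _ => hd x)
    (Continuous.intervalIntegrable (by fun_prop) _ _)]
  ring

private theorem uJ {f : ℝ → ℝ} (hf : Continuous f) (c0 c1 c2 c3 c4 c5 c6 c7 c8 : ℝ) {q : ℝ}
    (h : ∀ x : ℝ, 0 ≤ x → x ≤ 1 → f x ≤ c0 + c1 * x ^ 2 + c2 * x ^ 4 + c3 * x ^ 6 + c4 * x ^ 8
      + c5 * x ^ 10 + c6 * x ^ 12 + c7 * x ^ 14 + c8 * x ^ 16)
    (hq : c0 + c1 / 3 + c2 / 5 + c3 / 7 + c4 / 9 + c5 / 11 + c6 / 13 + c7 / 15 + c8 / 17 ≤ q) :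
    ∫ x in (0 : ℝ)..1, f x ≤ q := by
  refine le_trans ?_ hq
  rw [← Jp]
  exact intervalIntegral.integral_mono_on (by norm_num) (hf.intervalIntegrable _ _)
    (Continuous.intervalIntegrable (by fun_prop) _ _) (fun x hx => h x hx.1 hx.2)

private theorem lJ {f : ℝ → ℝ} (hf : Continuous f) (c0 c1 c2 c3 c4 c5 c6 c7 c8 : ℝ) {q : ℝ}
    (h : ∀ x : ℝ, 0 ≤ x → x ≤ 1 → c0 + c1 * x ^ 2 + c2 * x ^ 4 + c3 * x ^ 6 + c4 * x ^ 8
      + c5 * x ^ 10 + c6 * x ^ 12 + c7 * x ^ 14 + c8 * x ^ 16 ≤ f x)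
    (hq : q ≤ c0 + c1 / 3 + c2 / 5 + c3 / 7 + c4 / 9 + c5 / 11 + c6 / 13 + c7 / 15 + c8 / 17) :
    q ≤ ∫ x in (0 : ℝ)..1, f x := by
  refine le_trans hq ?_
  rw [← Jp]
  exact intervalIntegral.integral_mono_on (by norm_num)
    (Continuous.intervalIntegrable (by fun_prop) _ _) (hf.intervalIntegrable _ _)
    (fun x hx => h x hx.1 hx.2)

private theorem x2CC_u : ∫ x in (0 : ℝ)..1, x ^ 2 * Real.cos (al * x) ^ 2 ≤ 0.1914 := by
  refine uJ (by fun_prop) (0) (1) (-0.8786) (0.25742449) (-0.028308492) (0.0010381284) (0) (0) (0)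
    (fun x h0 h1 => ?_) (by norm_num)
  have e : x ^ 2 * Real.cos (al * x) ^ 2 ≤ x ^ 2 * (1 - 0.4393 * x ^ 2 + 0.03222 * x ^ 4) ^ 2 := by
    exact mul_le_mul_of_nonneg_left (pow_le_pow_left₀ (Cn h0 h1) (Cu h0 h1) 2) (by positivity)
  exact e.trans (le_of_eq (by ring))

private theorem HH_u : ∫ x in (0 : ℝ)..1, Real.cosh (al * x) ^ 2 ≤ 1.3493 := by
  refine uJ (by fun_prop) (1) (0.8794) (0.25777609) (0.030554268) (0.0020142624) (0.0000715284) (0.0000012321) (0) (0)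
    (fun x h0 h1 => ?_) (by norm_num)
  have e : Real.cosh (al * x) ^ 2 ≤ (1 + 0.4397 * x ^ 2 + 0.03222 * x ^ 4 + 0.00111 * x ^ 6) ^ 2 := by
    exact pow_le_pow_left₀ (Hn h0 h1) (Hu h0 h1) 2
  exact e.trans (le_of_eq (by ring))

private theorem x2C_l : 0.2498 ≤ ∫ x in (0 : ℝ)..1, x ^ 2 * Real.cos (al * x) := by
  refine lJ (by fun_prop) (0) (1) (-0.4397) (0.03217) (-0.00095) (0) (0) (0) (0)
    (fun x h0 h1 => ?_) (by norm_num)
  have e : x ^ 2 * (1 - 0.4397 * x ^ 2 + 0.03217 * x ^ 4 - 0.00095 * x ^ 6) ≤ x ^ 2 * Real.cos (al * x) := by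
    exact mul_le_mul_of_nonneg_left (Cl h0 h1) (by positivity)
  exact (le_of_eq (by ring)).trans e

private theorem x2C_u : ∫ x in (0 : ℝ)..1, x ^ 2 * Real.cos (al * x) ≤ 0.2501 := by
  refine uJ (by fun_prop) (0) (1) (-0.4393) (0.03222) (0) (0) (0) (0) (0)
    (fun x h0 h1 => ?_) (by norm_num)
  have e : x ^ 2 * Real.cos (al * x) ≤ x ^ 2 * (1 - 0.4393 * x ^ 2 + 0.03222 * x ^ 4) := by
    exact mul_le_mul_of_nonneg_left (Cu h0 h1) (by positivity)
  exact e.trans (le_of_eq (by ring))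

private theorem H_l : 1.1528 ≤ ∫ x in (0 : ℝ)..1, Real.cosh (al * x) := by
  refine lJ (by fun_prop) (1) (0.4393) (0.03217) (0) (0) (0) (0) (0) (0)
    (fun x h0 h1 => ?_) (by norm_num)
  have e : (1 + 0.4393 * x ^ 2 + 0.03217 * x ^ 4) ≤ Real.cosh (al * x) := by
    exact Hl h0 h1
  exact (le_of_eq (by ring)).trans e

private theorem H_u : ∫ x in (0 : ℝ)..1, Real.cosh (al * x) ≤ 1.1532 := by
  refine uJ (by fun_prop) (1) (0.4397) (0.03222) (0.00111) (0) (0) (0) (0) (0)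
    (fun x h0 h1 => ?_) (by norm_num)
  have e : Real.cosh (al * x) ≤ (1 + 0.4397 * x ^ 2 + 0.03222 * x ^ 4 + 0.00111 * x ^ 6) := by
    exact Hu h0 h1
  exact e.trans (le_of_eq (by ring))

private theorem x2HH_u : ∫ x in (0 : ℝ)..1, x ^ 2 * Real.cosh (al * x) ^ 2 ≤ 0.5497 := by
  refine uJ (by fun_prop) (0) (1) (0.8794) (0.25777609) (0.030554268) (0.0020142624) (0.0000715284) (0.0000012321) (0)
    (fun x h0 h1 => ?_) (by norm_num)
  have e : x ^ 2 * Real.cosh (al * x) ^ 2 ≤ x ^ 2 * (1 + 0.4397 * x ^ 2 + 0.03222 * x ^ 4 + 0.00111 * x ^ 6) ^ 2 := by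
    exact mul_le_mul_of_nonneg_left (pow_le_pow_left₀ (Hn h0 h1) (Hu h0 h1) 2) (by positivity)
  exact e.trans (le_of_eq (by ring))

private theorem CC_u : ∫ x in (0 : ℝ)..1, Real.cos (al * x) ^ 2 ≤ 0.7547 := by
  refine uJ (by fun_prop) (1) (-0.8786) (0.25742449) (-0.028308492) (0.0010381284) (0) (0) (0) (0)
    (fun x h0 h1 => ?_) (by norm_num)
  have e : Real.cos (al * x) ^ 2 ≤ (1 - 0.4393 * x ^ 2 + 0.03222 * x ^ 4) ^ 2 := by
    exact pow_le_pow_left₀ (Cn h0 h1) (Cu h0 h1) 2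
  exact e.trans (le_of_eq (by ring))

private theorem x2H_l : 0.4257 ≤ ∫ x in (0 : ℝ)..1, x ^ 2 * Real.cosh (al * x) := by
  refine lJ (by fun_prop) (0) (1) (0.4393) (0.03217) (0) (0) (0) (0) (0)
    (fun x h0 h1 => ?_) (by norm_num)
  have e : x ^ 2 * (1 + 0.4393 * x ^ 2 + 0.03217 * x ^ 4) ≤ x ^ 2 * Real.cosh (al * x) := by
    exact mul_le_mul_of_nonneg_left (Hl h0 h1) (by positivity)
  exact (le_of_eq (by ring)).trans e

private theorem x2H_u : ∫ x in (0 : ℝ)..1, x ^ 2 * Real.cosh (al * x) ≤ 0.426 := by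
  refine uJ (by fun_prop) (0) (1) (0.4397) (0.03222) (0.00111) (0) (0) (0) (0)
    (fun x h0 h1 => ?_) (by norm_num)
  have e : x ^ 2 * Real.cosh (al * x) ≤ x ^ 2 * (1 + 0.4397 * x ^ 2 + 0.03222 * x ^ 4 + 0.00111 * x ^ 6) := by
    exact mul_le_mul_of_nonneg_left (Hu h0 h1) (by positivity)
  exact e.trans (le_of_eq (by ring))

private theorem C_l : 0.8597 ≤ ∫ x in (0 : ℝ)..1, Real.cos (al * x) := by
  refine lJ (by fun_prop) (1) (-0.4397) (0.03217) (-0.00095) (0) (0) (0) (0) (0)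
    (fun x h0 h1 => ?_) (by norm_num)
  have e : (1 - 0.4397 * x ^ 2 + 0.03217 * x ^ 4 - 0.00095 * x ^ 6) ≤ Real.cos (al * x) := by
    exact Cl h0 h1
  exact (le_of_eq (by ring)).trans e

private theorem C_u : ∫ x in (0 : ℝ)..1, Real.cos (al * x) ≤ 0.8601 := by
  refine uJ (by fun_prop) (1) (-0.4393) (0.03222) (0) (0) (0) (0) (0) (0)
    (fun x h0 h1 => ?_) (by norm_num)
  have e : Real.cos (al * x) ≤ (1 - 0.4393 * x ^ 2 + 0.03222 * x ^ 4) := by
    exact Cu h0 h1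
  exact e.trans (le_of_eq (by ring))

private theorem x2SS_u : ∫ x in (0 : ℝ)..1, x ^ 2 * Real.sin (al * x) ^ 2 ≤ 0.1424 := by
  refine uJ (by fun_prop) (0) (0) (0.87928129) (-0.25730488) (0.03017001) (-0.00166012) (0.0000366025) (0) (0)
    (fun x h0 h1 => ?_) (by norm_num)
  have e : x ^ 2 * Real.sin (al * x) ^ 2 ≤ x ^ 2 * (0.9377 * x - 0.1372 * x ^ 3 + 0.00605 * x ^ 5) ^ 2 := by
    exact mul_le_mul_of_nonneg_left (pow_le_pow_left₀ (Sn h0 h1) (Su h0 h1) 2) (by positivity)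
  exact e.trans (le_of_eq (by ring))

private theorem KK_u : ∫ x in (0 : ℝ)..1, Real.sinh (al * x) ^ 2 ≤ 0.3496 := by
  refine uJ (by fun_prop) (0) (0.87928129) (0.2578675) (0.032334114) (0.001969) (0.0000512656) (0) (0) (0)
    (fun x h0 h1 => ?_) (by norm_num)
  have e : Real.sinh (al * x) ^ 2 ≤ (0.9377 * x + 0.1375 * x ^ 3 + 0.00716 * x ^ 5) ^ 2 := by
    exact pow_le_pow_left₀ (Kn h0 h1) (Ku h0 h1) 2
  exact e.trans (le_of_eq (by ring))

private theorem SS_u : ∫ x in (0 : ℝ)..1, Real.sin (al * x) ^ 2 ≤ 0.2458 := by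
  refine uJ (by fun_prop) (0) (0.87928129) (-0.25730488) (0.03017001) (-0.00166012) (0.0000366025) (0) (0) (0)
    (fun x h0 h1 => ?_) (by norm_num)
  have e : Real.sin (al * x) ^ 2 ≤ (0.9377 * x - 0.1372 * x ^ 3 + 0.00605 * x ^ 5) ^ 2 := by
    exact pow_le_pow_left₀ (Sn h0 h1) (Su h0 h1) 2
  exact e.trans (le_of_eq (by ring))

private theorem x2KK_u : ∫ x in (0 : ℝ)..1, x ^ 2 * Real.sinh (al * x) ^ 2 ≤ 0.2165 := by
  refine uJ (by fun_prop) (0) (0) (0.87928129) (0.2578675) (0.032334114) (0.001969) (0.0000512656) (0) (0)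
    (fun x h0 h1 => ?_) (by norm_num)
  have e : x ^ 2 * Real.sinh (al * x) ^ 2 ≤ x ^ 2 * (0.9377 * x + 0.1375 * x ^ 3 + 0.00716 * x ^ 5) ^ 2 := by
    exact mul_le_mul_of_nonneg_left (pow_le_pow_left₀ (Kn h0 h1) (Ku h0 h1) 2) (by positivity)
  exact e.trans (le_of_eq (by ring))

private theorem x2CH_l : 0.3147 ≤ ∫ x in (0 : ℝ)..1, x ^ 2 * (Real.cos (al * x) * Real.cosh (al * x)) := by
  refine lJ (by fun_prop) (0) (1) (-0.0004) (-0.12882021) (-0.000962868) (0.0006175739) (-0.0000305615) (0) (0)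
    (fun x h0 h1 => ?_) (by norm_num)
  have e : x ^ 2 * ((1 - 0.4397 * x ^ 2 + 0.03217 * x ^ 4 - 0.00095 * x ^ 6) * (1 + 0.4393 * x ^ 2 + 0.03217 * x ^ 4)) ≤ x ^ 2 * (Real.cos (al * x) * Real.cosh (al * x)) := by
    exact mul_le_mul_of_nonneg_left (mul_le_mul (Cl h0 h1) (Hl h0 h1) (Hp h0 h1) (Cn h0 h1)) (by positivity)
  exact (le_of_eq (by ring)).trans e

private theorem CH_l : 0.974 ≤ ∫ x in (0 : ℝ)..1, (Real.cos (al * x) * Real.cosh (al * x)) := by
  refine lJ (by fun_prop) (1) (-0.0004) (-0.12882021) (-0.000962868) (0.0006175739) (-0.0000305615) (0) (0) (0)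
    (fun x h0 h1 => ?_) (by norm_num)
  have e : ((1 - 0.4397 * x ^ 2 + 0.03217 * x ^ 4 - 0.00095 * x ^ 6) * (1 + 0.4393 * x ^ 2 + 0.03217 * x ^ 4)) ≤ (Real.cos (al * x) * Real.cosh (al * x)) := by
    exact mul_le_mul (Cl h0 h1) (Hl h0 h1) (Hp h0 h1) (Cn h0 h1)
  exact (le_of_eq (by ring)).trans e

private theorem x2SK_l : 0.1736 ≤ ∫ x in (0 : ℝ)..1, x ^ 2 * (Real.sin (al * x) * Real.sinh (al * x)) := by
  refine lJ (by fun_prop) (0) (0) (0.87871876) (-0.00028122) (-0.018865) (0) (0) (0) (0)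
    (fun x h0 h1 => ?_) (by norm_num)
  have e : x ^ 2 * ((0.9374 * x - 0.1375 * x ^ 3) * (0.9374 * x + 0.1372 * x ^ 3)) ≤ x ^ 2 * (Real.sin (al * x) * Real.sinh (al * x)) := by
    exact mul_le_mul_of_nonneg_left (mul_le_mul (Sl h0 h1) (Kl h0 h1) (Kp h0 h1) (Sn h0 h1)) (by positivity)
  exact (le_of_eq (by ring)).trans e

private theorem SK_l : 0.2901 ≤ ∫ x in (0 : ℝ)..1, (Real.sin (al * x) * Real.sinh (al * x)) := by
  refine lJ (by fun_prop) (0) (0.87871876) (-0.00028122) (-0.018865) (0) (0) (0) (0) (0)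
    (fun x h0 h1 => ?_) (by norm_num)
  have e : ((0.9374 * x - 0.1375 * x ^ 3) * (0.9374 * x + 0.1372 * x ^ 3)) ≤ (Real.sin (al * x) * Real.sinh (al * x)) := by
    exact mul_le_mul (Sl h0 h1) (Kl h0 h1) (Kp h0 h1) (Sn h0 h1)
  exact (le_of_eq (by ring)).trans e

private theorem xCK_l : 0.2535 ≤ ∫ x in (0 : ℝ)..1, x * (Real.cos (al * x) * Real.sinh (al * x)) := by
  refine lJ (by fun_prop) (0) (0.9374) (-0.27497478) (-0.030170682) (0.003523194) (-0.00013034) (0) (0) (0)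
    (fun x h0 h1 => ?_) (by norm_num)
  have e : x * ((1 - 0.4397 * x ^ 2 + 0.03217 * x ^ 4 - 0.00095 * x ^ 6) * (0.9374 * x + 0.1372 * x ^ 3)) ≤ x * (Real.cos (al * x) * Real.sinh (al * x)) := by
    exact mul_le_mul_of_nonneg_left (mul_le_mul (Cl h0 h1) (Kl h0 h1) (Kp h0 h1) (Cn h0 h1)) (by positivity)
  exact (le_of_eq (by ring)).trans e

private theorem xHS_l : 0.3625 ≤ ∫ x in (0 : ℝ)..1, x * (Real.cosh (al * x) * Real.sin (al * x)) := by
  refine lJ (by fun_prop) (0) (0.9374) (0.27429982) (-0.030247592) (-0.004423375) (0) (0) (0) (0)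
    (fun x h0 h1 => ?_) (by norm_num)
  have e : x * ((1 + 0.4393 * x ^ 2 + 0.03217 * x ^ 4) * (0.9374 * x - 0.1375 * x ^ 3)) ≤ x * (Real.cosh (al * x) * Real.sin (al * x)) := by
    exact mul_le_mul_of_nonneg_left (mul_le_mul (Hl h0 h1) (Sl h0 h1) (Sp h0 h1) (Hn h0 h1)) (by positivity)
  exact (le_of_eq (by ring)).trans e

private theorem xHK_u : ∫ x in (0 : ℝ)..1, x * (Real.cosh (al * x) * Real.sinh (al * x)) ≤ 0.4375 := by
  refine uJ (by fun_prop) (0) (0.9377) (0.54980669) (0.097831444) (0.008619349) (0.0003833202) (0.0000079476) (0) (0)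
    (fun x h0 h1 => ?_) (by norm_num)
  have e : x * (Real.cosh (al * x) * Real.sinh (al * x)) ≤ x * ((1 + 0.4397 * x ^ 2 + 0.03222 * x ^ 4 + 0.00111 * x ^ 6) * (0.9377 * x + 0.1375 * x ^ 3 + 0.00716 * x ^ 5)) := by
    exact mul_le_mul_of_nonneg_left (mul_le_mul (Hu h0 h1) (Ku h0 h1) (Kn h0 h1) ((Hn h0 h1).trans (Hu h0 h1))) (by positivity)
  exact e.trans (le_of_eq (by ring))

private theorem xCS_u : ∫ x in (0 : ℝ)..1, x * (Real.cos (al * x) * Real.sin (al * x)) ≤ 0.2158 := by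
  refine uJ (by fun_prop) (0) (0.9377) (-0.54913161) (0.096534654) (-0.007078349) (0.000194931) (0) (0) (0)
    (fun x h0 h1 => ?_) (by norm_num)
  have e : x * (Real.cos (al * x) * Real.sin (al * x)) ≤ x * ((1 - 0.4393 * x ^ 2 + 0.03222 * x ^ 4) * (0.9377 * x - 0.1372 * x ^ 3 + 0.00605 * x ^ 5)) := by
    exact mul_le_mul_of_nonneg_left (mul_le_mul (Cu h0 h1) (Su h0 h1) (Sn h0 h1) ((Cn h0 h1).trans (Cu h0 h1))) (by positivity)
  exact e.trans (le_of_eq (by ring))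

/-! ### products -/

private theorem even2 {f : ℝ → ℝ} (hf : Continuous f) (he : ∀ x, f (-x) = f x) :
    ∫ x in Set.Icc (-1 : ℝ) 1, f x = 2 * ∫ x in (0 : ℝ)..1, f x := by
  rw [MeasureTheory.integral_Icc_eq_integral_Ioc, ← intervalIntegral.integral_of_le (by norm_num),
    ← intervalIntegral.integral_add_adjacent_intervals (b := 0)
      (hf.intervalIntegrable _ _) (hf.intervalIntegrable _ _)]
  have : ∫ x in (-1 : ℝ)..0, f x = ∫ x in (0 : ℝ)..1, f x := by
    have h := intervalIntegral.integral_comp_neg (a := 0) (b := 1) f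
    simp only [he, neg_zero] at h
    exact h.symm
  rw [this]
  ring

private theorem prodJ {f g : ℝ → ℝ} (hf : Continuous f) (hg : Continuous g)
    (hf' : ∀ x, f (-x) = f x) (hg' : ∀ x, g (-x) = g x) :
    ∫ z in Sq, f z.1 * g z.2 = 4 * ((∫ x in (0 : ℝ)..1, f x) * ∫ x in (0 : ℝ)..1, g x) := by
  rw [Sq, Measure.volume_eq_prod, setIntegral_prod_mul, even2 hf hf', even2 hg hg']
  ring

private theorem intS {f : ℝ × ℝ → ℝ} (hf : Continuous f) : IntegrableOn f Sq :=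
  hf.continuousOn.integrableOn_compact (isCompact_Icc.prod isCompact_Icc)


private theorem x2J : ∫ x in (0 : ℝ)..1, x ^ 2 = 1 / 3 := by
  norm_num [integral_pow]

private theorem oneJ : ∫ _x in (0 : ℝ)..1, (1 : ℝ) = 1 := by
  simp

/-- numerically `0.31202` -/
theorem ur1 : ∫ z in Sq, z.1 ^ 2 * ((dS fU z - 5 / 4) ^ 2 + (dS fU z.swap - 5 / 4) ^ 2) ≤ 33 / 100 := by
  have e : ∀ z : ℝ × ℝ, z.1 ^ 2 * ((dS fU z - 5 / 4) ^ 2 + (dS fU z.swap - 5 / 4) ^ 2)
      = ((z.1 ^ 2 * Real.cos (al * z.1) ^ 2) * Real.cosh (al * z.2) ^ 2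
        - 5 / 2 * ((z.1 ^ 2 * Real.cos (al * z.1)) * Real.cosh (al * z.2)))
        + ((z.1 ^ 2 * Real.cosh (al * z.1) ^ 2) * Real.cos (al * z.2) ^ 2
        - 5 / 2 * ((z.1 ^ 2 * Real.cosh (al * z.1)) * Real.cos (al * z.2)))
        + 25 / 8 * (z.1 ^ 2 * 1) := by
    intro z
    rw [dS_fU, dS_fU]
    simp only [Prod.fst_swap, Prod.snd_swap]
    ring
  simp_rw [e]
  rw [integral_add (intS (by fun_prop)) (intS (by fun_prop)),
    integral_add (intS (by fun_prop)) (intS (by fun_prop)),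
    integral_sub (intS (by fun_prop)) (intS (by fun_prop)),
    integral_sub (intS (by fun_prop)) (intS (by fun_prop)),
    integral_const_mul, integral_const_mul, integral_const_mul,
    prodJ (f := fun x => x ^ 2 * Real.cos (al * x) ^ 2) (g := fun x => Real.cosh (al * x) ^ 2)
      (by fun_prop) (by fun_prop) (by intro x; simp) (by intro x; simp),
    prodJ (f := fun x => x ^ 2 * Real.cos (al * x)) (g := fun x => Real.cosh (al * x))
      (by fun_prop) (by fun_prop) (by intro x; simp) (by intro x; simp),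
    prodJ (f := fun x => x ^ 2 * Real.cosh (al * x) ^ 2) (g := fun x => Real.cos (al * x) ^ 2)
      (by fun_prop) (by fun_prop) (by intro x; simp) (by intro x; simp),
    prodJ (f := fun x => x ^ 2 * Real.cosh (al * x)) (g := fun x => Real.cos (al * x))
      (by fun_prop) (by fun_prop) (by intro x; simp) (by intro x; simp),
    prodJ (f := fun x => x ^ 2) (g := fun _ => 1)
      (by fun_prop) (by fun_prop) (by intro x; simp) (by intro x; simp), x2J, oneJ]
  have h1 := mul_le_mul x2CC_u HH_u (by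
    exact intervalIntegral.integral_nonneg (by norm_num) (fun x _ => by positivity)) (by norm_num)
  have h2 := mul_le_mul x2C_l H_l (by norm_num) (le_trans (by norm_num) x2C_l)
  have h3 := mul_le_mul x2HH_u CC_u (by
    exact intervalIntegral.integral_nonneg (by norm_num) (fun x _ => by positivity)) (by norm_num)
  have h4 := mul_le_mul x2H_l C_l (by norm_num) (le_trans (by norm_num) x2H_l)
  linarith

/-- numerically `0.19853` -/
theorem ur2 : ∫ z in Sq, z.1 ^ 2 * dT fU z ^ 2 ≤ 9 / 40 := by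
  have e : ∀ z : ℝ × ℝ, z.1 ^ 2 * dT fU z ^ 2
      = (z.1 ^ 2 * Real.sin (al * z.1) ^ 2) * Real.sinh (al * z.2) ^ 2 := by
    intro z
    rw [dT_fU]
    ring
  simp_rw [e]
  rw [prodJ (f := fun x => x ^ 2 * Real.sin (al * x) ^ 2) (g := fun x => Real.sinh (al * x) ^ 2)
      (by fun_prop) (by fun_prop) (by intro x; simp) (by intro x; simp)]
  have h1 := mul_le_mul x2SS_u KK_u (by
    exact intervalIntegral.integral_nonneg (by norm_num) (fun x _ => by positivity)) (by norm_num)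
  linarith

/-- numerically `0.21232` -/
theorem ur3 : ∫ z in Sq, z.2 ^ 2 * dT fU z ^ 2 ≤ 9 / 40 := by
  have e : ∀ z : ℝ × ℝ, z.2 ^ 2 * dT fU z ^ 2
      = Real.sin (al * z.1) ^ 2 * (z.2 ^ 2 * Real.sinh (al * z.2) ^ 2) := by
    intro z
    rw [dT_fU]
    ring
  simp_rw [e]
  rw [prodJ (f := fun x => Real.sin (al * x) ^ 2) (g := fun x => x ^ 2 * Real.sinh (al * x) ^ 2)
      (by fun_prop) (by fun_prop) (by intro x; simp) (by intro x; simp)]
  have h1 := mul_le_mul SS_u x2KK_u (by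
    exact intervalIntegral.integral_nonneg (by norm_num) (fun x _ => by positivity)) (by norm_num)
  linarith

/-- numerically `0.24300 - 2 * 0.00686` -/
theorem ur4 : 0 ≤ (∫ z in Sq, z.1 ^ 2 * ((dS fU z - 5 / 4) * (dS fU z.swap - 5 / 4)
    + dT fU z * dT fU z.swap)) + 2 * ∫ z in Sq, z.1 * z.2 * (dS fU z - dS fU z.swap) * dT fU z.swap := by
  have e : ∀ z : ℝ × ℝ, z.1 ^ 2 * ((dS fU z - 5 / 4) * (dS fU z.swap - 5 / 4)
      + dT fU z * dT fU z.swap)
      = ((z.1 ^ 2 * (Real.cos (al * z.1) * Real.cosh (al * z.1)))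
          * (Real.cos (al * z.2) * Real.cosh (al * z.2))
        + (z.1 ^ 2 * (Real.sin (al * z.1) * Real.sinh (al * z.1)))
          * (Real.sin (al * z.2) * Real.sinh (al * z.2)))
        - 5 / 4 * ((z.1 ^ 2 * Real.cos (al * z.1)) * Real.cosh (al * z.2)
          + (z.1 ^ 2 * Real.cosh (al * z.1)) * Real.cos (al * z.2))
        + 25 / 16 * (z.1 ^ 2 * 1) := by
    intro z
    rw [dS_fU, dS_fU, dT_fU, dT_fU]
    simp only [Prod.fst_swap, Prod.snd_swap]
    ring
  have e2 : ∀ z : ℝ × ℝ, z.1 * z.2 * (dS fU z - dS fU z.swap) * dT fU z.swap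
      = (z.1 * (Real.cos (al * z.1) * Real.sinh (al * z.1)))
          * (z.2 * (Real.cosh (al * z.2) * Real.sin (al * z.2)))
        - (z.1 * (Real.cosh (al * z.1) * Real.sinh (al * z.1)))
          * (z.2 * (Real.cos (al * z.2) * Real.sin (al * z.2))) := by
    intro z
    rw [dS_fU, dS_fU, dT_fU]
    simp only [Prod.fst_swap, Prod.snd_swap]
    ring
  simp_rw [e, e2]
  rw [integral_add (intS (by fun_prop)) (intS (by fun_prop)),
    integral_sub (intS (by fun_prop)) (intS (by fun_prop)),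
    integral_sub (intS (by fun_prop)) (intS (by fun_prop)),
    integral_add (intS (by fun_prop)) (intS (by fun_prop)),
    integral_const_mul, integral_const_mul,
    integral_add (intS (by fun_prop)) (intS (by fun_prop)),
    prodJ (f := fun x => x ^ 2 * (Real.cos (al * x) * Real.cosh (al * x)))
      (g := fun x => Real.cos (al * x) * Real.cosh (al * x))
      (by fun_prop) (by fun_prop) (by intro x; simp) (by intro x; simp),
    prodJ (f := fun x => x ^ 2 * (Real.sin (al * x) * Real.sinh (al * x)))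
      (g := fun x => Real.sin (al * x) * Real.sinh (al * x))
      (by fun_prop) (by fun_prop) (by intro x; simp) (by intro x; simp),
    prodJ (f := fun x => x ^ 2 * Real.cos (al * x)) (g := fun x => Real.cosh (al * x))
      (by fun_prop) (by fun_prop) (by intro x; simp) (by intro x; simp),
    prodJ (f := fun x => x ^ 2 * Real.cosh (al * x)) (g := fun x => Real.cos (al * x))
      (by fun_prop) (by fun_prop) (by intro x; simp) (by intro x; simp),
    prodJ (f := fun x => x ^ 2) (g := fun _ => 1)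
      (by fun_prop) (by fun_prop) (by intro x; simp) (by intro x; simp), x2J, oneJ,
    prodJ (f := fun x => x * (Real.cos (al * x) * Real.sinh (al * x)))
      (g := fun x => x * (Real.cosh (al * x) * Real.sin (al * x)))
      (by fun_prop) (by fun_prop) (by intro x; simp) (by intro x; simp),
    prodJ (f := fun x => x * (Real.cosh (al * x) * Real.sinh (al * x)))
      (g := fun x => x * (Real.cos (al * x) * Real.sin (al * x)))
      (by fun_prop) (by fun_prop) (by intro x; simp) (by intro x; simp)]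
  have h1 := mul_le_mul x2CH_l CH_l (by norm_num) (le_trans (by norm_num) x2CH_l)
  have h2 := mul_le_mul x2SK_l SK_l (by norm_num) (le_trans (by norm_num) x2SK_l)
  have h3 := mul_le_mul x2C_u H_u (le_trans (by norm_num) H_l) (by norm_num)
  have h4 := mul_le_mul x2H_u C_u (le_trans (by norm_num) C_l) (by norm_num)
  have h5 := mul_le_mul xCK_l xHS_l (by norm_num) (le_trans (by norm_num) xCK_l)
  have h6 := mul_le_mul xHK_u xCS_u (by
    refine intervalIntegral.integral_nonneg (by norm_num) (fun x hx => ?_)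
    exact mul_nonneg hx.1 (mul_nonneg (Cn hx.1 hx.2) (Sn hx.1 hx.2))) (by norm_num)
  linarith

end Pool.Agent.Sq4
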